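import Pool.Agent.MP_c70b3b_mp.Defs

section

open MeasureTheory ProbabilityTheory
open scoped symmDiff

namespace Pool.Agent.MP_c70b3b_mp

/-- EA spin glass measure at inverse temperature `β`. -/
def IsEA (β : ℝ) (ν : Measure (((ℤ × ℤ) × Bool → ℝ) × (ℤ × ℤ → ℤˣ))) : Prop :=
  IsProbabilityMeasure ν ∧
  ν.map Prod.fst = Measure.infinitePi (fun _ => gaussianReal 0 1) ∧
  ∀ (C : Finset (ℤ × ℤ)) (η : C → ℤˣ),
    ν[Set.indicator {p | ∀ x : C, p.2 x = η x} (fun _ => (1 : ℝ)) |
      MeasurableSpace.comap (fun p => (p.1, fun x : {x // x ∉ C} => p.2 x)) inferInstance]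
      =ᵐ[ν] boltz β C η

lemma isEA_iff {β : ℝ} {ν : Measure (((ℤ × ℤ) × Bool → ℝ) × (ℤ × ℤ → ℤˣ))} :
    IsEA β ν ↔ IsEAOn β Set.univ ν :=
  ⟨fun h => ⟨h.1, h.2.1, fun C η _ => h.2.2 C η⟩,
    fun h => ⟨h.1, h.2.1, fun C η => h.2.2 C η (Set.subset_univ _)⟩⟩

abbrev V : Type := ℤ × ℤ
abbrev E : Type := V × Bool
abbrev W : Type := E → ℝ
abbrev S : Type := V → ℤˣ

instance : MeasurableSingletonClass ℤˣ := ⟨fun u => ⟨{(u : ℤ)}, MeasurableSet.of_discrete, by
  ext v; simp [Units.ext_iff]⟩⟩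

instance : DiscreteMeasurableSpace ℤˣ := inferInstance

instance : StandardBorelSpace S := inferInstance

/-- The law of the couplings. -/
noncomputable def P : Measure W := Measure.infinitePi (fun _ => gaussianReal 0 1)

instance : IsProbabilityMeasure P := by unfold P; infer_instance

/-- A spin as a real number. -/
def sp (u : ℤˣ) : ℝ := ((u : ℤ) : ℝ)

def bond (σ : S) (e : E) : ℝ := sp (σ e.1) * sp (σ (tip e))

def chr (A : Finset V) (σ : S) : ℝ := ∏ x ∈ A, sp (σ x)

/-- Flip the spins of `U`. -/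
def flp (U : Finset V) (σ : S) : S := fun x => if x ∈ U then -σ x else σ x

/-- Edges with at least one end in `U`. -/
def touch (U : Finset V) : Finset E :=
  (U ×ˢ Finset.univ) ∪ U.image (fun x => (x - (1, 0), false)) ∪ U.image (fun x => (x - (0, 1), true))

/-- Edges with exactly one end in `U`. -/
def cob (U : Finset V) : Finset E := (touch U).filter fun e => ¬ (e.1 ∈ U ↔ tip e ∈ U)

noncomputable def en (K : W) (F : Finset E) (σ : S) : ℝ := ∑ e ∈ F, K e * bond σ e

/-- `K` on `F`, zero elsewhere. -/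
def cut (F : Finset E) (K : W) : W := fun e => if e ∈ F then K e else 0

/-- Finite measure with the spin-flip (DLR) identity for couplings `K` (weight `exp (en K ..)`). -/
def Gibbs (K : W) (ρ : Measure S) : Prop :=
  IsFiniteMeasure ρ ∧ ∀ x : V, ρ.map (flp {x}) =
    ρ.withDensity fun σ => ENNReal.ofReal (Real.exp (-2 * en K (cob {x}) σ))

/-- Multiply by the weight `exp (en K F)`. -/
noncomputable def tilt (K : W) (F : Finset E) (ρ : Measure S) : Measure S :=
  ρ.withDensity fun σ => ENNReal.ofReal (Real.exp (en K F σ))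

/-- Uniform product measure on spins. -/
noncomputable def unif : Measure S :=
  Measure.infinitePi fun _ => (uniformOn (Set.univ : Set ℤˣ))

def shW (z : V) (w : W) : W := fun e => w (e.1 + z, e.2)
def shS (z : V) (σ : S) : S := fun x => σ (x + z)
def shE (z : V) (e : E) : E := (e.1 + z, e.2)

/-- Gauge transformation of couplings. -/
def gauge (g : S) (w : W) : W := fun e => bond g e * w e

/-- A covariant Gibbs kernel. -/
structure CovGibbs (β : ℝ) (k : ℤ) (κ : Kernel W S) : Prop where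
  markov : IsMarkovKernel κ
  gibbs : ∀ᵐ w ∂P, Gibbs (β • w) (κ w)
  cov : ∀ z : V, ∀ᵐ w ∂P, κ (shW (k • z) w) = (κ w).map (shS (k • z))

/-- The two faces of an edge; face `p` is the unit square with lower left corner `p`. -/
def fA (e : E) : V := e.1
def fB (e : E) : V := if e.2 then e.1 - (1, 0) else e.1 - (0, 1)

def dl (a b : V) : ZMod 2 := if a = b then 1 else 0

/-- Boundary mod 2 on faces (edges read as dual edges). -/
def fbd (G : Finset E) (p : V) : ZMod 2 := ∑ e ∈ G, (dl (fA e) p + dl (fB e) p)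

/-- Boundary mod 2 on vertices. -/
def vbd (G : Finset E) (x : V) : ZMod 2 := ∑ e ∈ G, (dl e.1 x + dl (tip e) x)

/-- `x` is a corner of the face `p`. -/
def Corner (x p : V) : Prop := p = x ∨ p = x - (1, 0) ∨ p = x - (0, 1) ∨ p = x - (1, 1)

/-- Kadanoff-Ceva bilinear. -/
noncomputable def kc (K : W) (ρ : Measure S) (x y : V) (G : Finset E) : ℝ :=
  ∫ σ, sp (σ x) * sp (σ y) * Real.exp (-2 * en K G σ) ∂ρ

/-- All Kadanoff-Ceva bilinears agree. -/
def KCeq (K : W) (ρ ρ' : Measure S) : Prop :=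
  ∀ x p y q : V, ∀ G : Finset E, Corner x p → Corner y q →
    (∀ r, fbd G r = dl p r + dl q r) → kc K ρ x y G = kc K ρ' x y G

def Ends (e : E) (x y : V) : Prop := (e.1 = x ∧ tip e = y) ∨ (e.1 = y ∧ tip e = x)

/-- Connection inside `O` through edges of `G`. -/
def Conn (G : Set E) (O : Set V) : V → V → Prop :=
  Relation.ReflTransGen fun a b => a ∈ O ∧ b ∈ O ∧ ∃ e ∈ G, Ends e a b

def InfC (O : Set V) (x : V) : Prop := x ∈ O ∧ {y | Conn Set.univ O x y}.Infinite

/-- At most one infinite cluster. -/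
def Uniq (O : Set V) : Prop := ∀ x y, InfC O x → InfC O y → Conn Set.univ O x y

/-- Uniqueness of the infinite cluster of each sign outside every finite set. -/
def UniqAll (τ : S) : Prop := ∀ (L : Finset V) (s : ℤˣ), Uniq {x | x ∉ L ∧ τ x = s}

/-- Every edge of `G` leaving `U` joins opposite signs of `τ`. -/
def Closed (G : Set E) (τ : S) (U : Finset V) : Prop := ∀ e ∈ cob U, e ∈ G → bond τ e = -1

/-- The `8 N` outer neighbours of the box, counterclockwise. -/
def bv (N k : ℕ) : V :=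
  if k < 2 * N then ((k : ℤ) - N, -(N : ℤ) - 1)
  else if k < 4 * N then ((N : ℤ), (k : ℤ) - 3 * N)
  else if k < 6 * N then (5 * (N : ℤ) - 1 - k, (N : ℤ))
  else (-(N : ℤ) - 1, 7 * (N : ℤ) - 1 - k)

/-- The edge from `bv N k` into the box. -/
def port (N k : ℕ) : E :=
  if k < 2 * N then (((k : ℤ) - N, -(N : ℤ) - 1), true)
  else if k < 4 * N then (((N : ℤ) - 1, (k : ℤ) - 3 * N), false)
  else if k < 6 * N then ((5 * (N : ℤ) - 1 - k, (N : ℤ) - 1), true)
  else ((-(N : ℤ) - 1, 7 * (N : ℤ) - 1 - k), false)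

/-- Ring faces: `port N k` separates `rf N k` from `rf N (k+1)`. -/
def rf (N k : ℕ) : V :=
  if k < 2 * N then ((k : ℤ) - N - 1, -(N : ℤ) - 1)
  else if k < 4 * N then ((N : ℤ) - 1, (k : ℤ) - 3 * N - 1)
  else if k < 6 * N then (5 * (N : ℤ) - 1 - k, (N : ℤ) - 1)
  else (-(N : ℤ) - 1, 7 * (N : ℤ) - 1 - k)

/-- Alternating sum of `t` along `A`. -/
noncomputable def alt {ι : Type*} [LinearOrder ι] (A : Finset ι) (t : ι → ℝ) : ℝ :=
  ∑ a ∈ A, (-1 : ℝ) ^ (A.filter (· < a)).card * t a

/-- Character of boundary configurations. -/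
def ch {m : ℕ} (I : Finset (Fin m)) (η : Fin m → ℤˣ) : ℝ := ∏ i ∈ I, sp (η i)

def fl {m : ℕ} (I : Finset (Fin m)) (η : Fin m → ℤˣ) : Fin m → ℤˣ :=
  fun i => if i ∈ I then -η i else η i

noncomputable def hat {m : ℕ} (n : (Fin m → ℤˣ) → ℝ) (I : Finset (Fin m)) : ℝ :=
  ∑ η, n η * ch I η

/-- Polarised Pfaffian (Pluecker) relations. -/
def Plu {m : ℕ} (n n' : (Fin m → ℤˣ) → ℝ) : Prop :=
  ∀ I J : Finset (Fin m), Even (I ∆ J).card →
    alt (I ∆ J) (fun a => hat n (I ∆ {a}) * hat n' (J ∆ {a}) + hat n' (I ∆ {a}) * hat n (J ∆ {a})) = 0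

/-- Law of the ring spins. -/
noncomputable def ring (N : ℕ) (ρ : Measure S) (η : Fin (8 * N) → ℤˣ) : ℝ :=
  ρ.real {σ | ∀ i : Fin (8 * N), σ (bv N i) = η i}

/-- The medial lattice: `gate (a, b)` is the edge with midpoint `(1,0) + a (1,1) + b (-1,1)`
in doubled coordinates. -/
def gate (g : V) : E :=
  if (g.1 + g.2) % 2 = 0 then (((g.1 - g.2) / 2, (g.1 + g.2) / 2), false)
  else (((1 + g.1 - g.2) / 2, (g.1 + g.2 - 1) / 2), true)

/-- `log |sinh (2 β w)|`. -/
noncomputable def ls (β t : ℝ) : ℝ := Real.log |Real.sinh (2 * (β * t))|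

end Pool.Agent.MP_c70b3b_mp

end

section

open MeasureTheory ProbabilityTheory
open scoped symmDiff ENNReal

namespace Pool.Agent.MP_c70b3b_mp

lemma sp_mul (u v : ℤˣ) : sp (u * v) = sp u * sp v := by simp [sp]
lemma sp_neg (u : ℤˣ) : sp (-u) = -sp u := by simp [sp]
lemma sp_one : sp 1 = 1 := by simp [sp]
lemma sp_cases (u : ℤˣ) : sp u = 1 ∨ sp u = -1 := by
  rcases Int.units_eq_one_or u with h | h <;> simp [h, sp]
lemma sp_mul_self (u : ℤˣ) : sp u * sp u = 1 := by rcases sp_cases u with h | h <;> simp [h]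
lemma abs_sp (u : ℤˣ) : |sp u| = 1 := by rcases sp_cases u with h | h <;> simp [h]
lemma sp_inj {u v : ℤˣ} (h : sp u = sp v) : u = v := by
  apply Units.ext; unfold sp at h; exact_mod_cast h
lemma bond_cases (σ : S) (e : E) : bond σ e = 1 ∨ bond σ e = -1 := by
  rw [bond, ← sp_mul]; exact sp_cases _
lemma abs_bond (σ : S) (e : E) : |bond σ e| = 1 := by rcases bond_cases σ e with h | h <;> simp [h]
lemma bond_mul (σ τ : S) (e : E) : bond (σ * τ) e = bond σ e * bond τ e := by
  simp only [bond, Pi.mul_apply, sp_mul]; ring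
lemma abs_chr (A : Finset V) (σ : S) : |chr A σ| = 1 := by
  simp [chr, Finset.abs_prod, abs_sp]
lemma chr_mul (A : Finset V) (σ τ : S) : chr A (σ * τ) = chr A σ * chr A τ := by
  simp [chr, sp_mul, Finset.prod_mul_distrib]
lemma tip_ne (e : E) : tip e ≠ e.1 := by
  rcases e with ⟨⟨a, b⟩, _ | _⟩ <;> simp [tip]
lemma tip_shE (z : V) (e : E) : tip (shE z e) = tip e + z := by
  rcases e with ⟨x, _ | _⟩ <;> simp [tip, shE] <;> abel

lemma mem_touch {U : Finset V} {e : E} : e ∈ touch U ↔ e.1 ∈ U ∨ tip e ∈ U := by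
  rcases e with ⟨x, b⟩
  simp only [touch, Finset.mem_union, Finset.mem_product, Finset.mem_univ, and_true,
    Finset.mem_image, Prod.mk.injEq, tip]
  constructor
  · rintro ((h | ⟨y, hy, rfl, rfl⟩) | ⟨y, hy, rfl, rfl⟩)
    · exact Or.inl h
    · right; simpa using hy
    · right; simpa using hy
  · rintro (h | h)
    · exact Or.inl (Or.inl h)
    · cases b
      · exact Or.inl (Or.inr ⟨_, h, by simp, rfl⟩)
      · exact Or.inr ⟨_, h, by simp, rfl⟩

lemma mem_cob {U : Finset V} {e : E} : e ∈ cob U ↔ ¬ (e.1 ∈ U ↔ tip e ∈ U) := by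
  simp only [cob, Finset.mem_filter, mem_touch]; tauto

lemma sp_flp (U : Finset V) (σ : S) (x : V) :
    sp (flp U σ x) = if x ∈ U then -sp (σ x) else sp (σ x) := by
  unfold flp; split_ifs <;> simp [sp_neg]

lemma bond_flp (U : Finset V) (σ : S) (e : E) :
    bond (flp U σ) e = if e ∈ cob U then -bond σ e else bond σ e := by
  simp only [bond, sp_flp, mem_cob]
  by_cases h1 : e.1 ∈ U <;> by_cases h2 : tip e ∈ U <;> simp [h1, h2]

lemma chr_flp (A U : Finset V) (σ : S) :
    chr A (flp U σ) = (-1) ^ (A ∩ U).card * chr A σ := by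
  have : ∀ x, sp (flp U σ x) = (if x ∈ U then -1 else 1) * sp (σ x) := fun x => by
    rw [sp_flp]; split_ifs <;> simp
  simp only [chr, this, Finset.prod_mul_distrib]
  congr 1
  rw [Finset.prod_ite, Finset.prod_const_one, mul_one, Finset.prod_const, Finset.filter_mem_eq_inter]

lemma flp_flp (U : Finset V) (σ : S) : flp U (flp U σ) = σ := by
  funext x; unfold flp; split_ifs <;> simp

lemma flp_flp' (U U' : Finset V) (σ : S) : flp U (flp U' σ) = flp (U ∆ U') σ := by
  funext x; unfold flp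
  by_cases h : x ∈ U <;> by_cases h' : x ∈ U' <;> simp [h, h', Finset.mem_symmDiff]

lemma flp_mul_flp (U : Finset V) (σ τ : S) : flp U σ * flp U τ = σ * τ := by
  funext x; simp only [Pi.mul_apply, flp]; split_ifs <;> simp

lemma cob_symmDiff (U U' : Finset V) : cob (U ∆ U') = cob U ∆ cob U' := by
  ext e; simp only [mem_cob, Finset.mem_symmDiff]; tauto

lemma measurable_flp (U : Finset V) : Measurable (flp U) := by
  refine measurable_pi_lambda _ fun x => ?_
  unfold flp; split_ifs
  · exact (Measurable.of_discrete (f := fun u : ℤˣ => -u)).comp (measurable_pi_apply x)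
  · exact measurable_pi_apply x

lemma measurable_sp (x : V) : Measurable fun σ : S => sp (σ x) :=
  (Measurable.of_discrete (f := sp)).comp (measurable_pi_apply x)

lemma measurable_bond (e : E) : Measurable fun σ : S => bond σ e :=
  (measurable_sp _).mul (measurable_sp _)

lemma measurable_chr (A : Finset V) : Measurable (chr A) :=
  Finset.measurable_prod _ fun x _ => measurable_sp x

lemma measurable_en (K : W) (F : Finset E) : Measurable (en K F) :=
  Finset.measurable_sum _ fun e _ => (measurable_bond e).const_mul _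

lemma measurable_en2 (β : ℝ) (F : Finset E) : Measurable fun p : W × S => en (β • p.1) F p.2 :=
  Finset.measurable_sum _ fun e _ =>
    (((measurable_pi_apply e).comp measurable_fst).const_smul β).mul
      ((measurable_bond e).comp measurable_snd)

lemma abs_en_le (K : W) (F : Finset E) (σ : S) : |en K F σ| ≤ ∑ e ∈ F, |K e| :=
  (Finset.abs_sum_le_sum_abs _ _).trans (le_of_eq (by simp [abs_mul, abs_bond]))

lemma measurable_mul2 : Measurable fun p : S × S => p.1 * p.2 := by
  refine measurable_pi_lambda _ fun x => ?_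
  have h1 : Measurable fun p : S × S => p.1 x := (measurable_pi_apply x).comp measurable_fst
  have h2 : Measurable fun p : S × S => p.2 x := (measurable_pi_apply x).comp measurable_snd
  have h3 : Measurable fun q : ℤˣ × ℤˣ => q.1 * q.2 := Measurable.of_discrete
  exact h3.comp (h1.prodMk h2)

lemma measurable_shW (z : V) : Measurable (shW z) :=
  measurable_pi_lambda _ fun _ => measurable_pi_apply _
lemma measurable_shS (z : V) : Measurable (shS z) :=
  measurable_pi_lambda _ fun _ => measurable_pi_apply _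
lemma measurable_gauge (g : S) : Measurable (gauge g) :=
  measurable_pi_lambda _ fun e => (measurable_pi_apply e).const_mul _

lemma bond_shS (z : V) (σ : S) (e : E) : bond (shS z σ) e = bond σ (shE z e) := by
  simp only [bond, shS, tip_shE]; rfl

lemma dl_sum_symm {α : Type*} [DecidableEq α] (f : α → ZMod 2) (G G' : Finset α) :
    ∑ e ∈ G ∆ G', f e = ∑ e ∈ G, f e + ∑ e ∈ G', f e := by
  have h2 : ∀ a : ZMod 2, a + a = 0 := by decide
  rw [symmDiff_def, Finset.sup_eq_union, Finset.sum_union disjoint_sdiff_sdiff,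
    ← Finset.sum_sdiff (Finset.inter_subset_left (s₁ := G) (s₂ := G')),
    ← Finset.sum_sdiff (Finset.inter_subset_right (s₁ := G) (s₂ := G')),
    Finset.sdiff_inter_self_left, Finset.sdiff_inter_self_right]
  linear_combination (-1 : ZMod 2) * h2 (∑ e ∈ G ∩ G', f e)

lemma fbd_symmDiff (G G' : Finset E) (p : V) : fbd (G ∆ G') p = fbd G p + fbd G' p :=
  dl_sum_symm _ _ _
lemma vbd_symmDiff (G G' : Finset E) (p : V) : vbd (G ∆ G') p = vbd G p + vbd G' p :=
  dl_sum_symm _ _ _
lemma fbd_singleton (e : E) (p : V) : fbd {e} p = dl (fA e) p + dl (fB e) p := by simp [fbd]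
lemma vbd_singleton (e : E) (p : V) : vbd {e} p = dl e.1 p + dl (tip e) p := by simp [vbd]

lemma iIndep_P : iIndepFun (fun (e : E) (w : W) => w e) P :=
  iIndepFun_infinitePi (X := fun _ x => x) fun _ => measurable_id

lemma mp_eval (e : E) : MeasurePreserving (fun w : W => w e) P (gaussianReal 0 1) :=
  measurePreserving_eval_infinitePi _ e

lemma mp_shW (z : V) : MeasurePreserving (shW z) P P := by
  refine ⟨measurable_shW z, ?_⟩
  let q : E ≃ E := Equiv.prodCongr (Equiv.addRight (-z)) (Equiv.refl _)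
  have h := Measure.infinitePi_map_piCongrLeft (fun _ : E => gaussianReal 0 1) q
  unfold P
  convert h using 2
  funext w e
  obtain ⟨e, rfl⟩ := q.surjective e
  rw [MeasurableEquiv.piCongrLeft_apply_apply]
  simp [shW, q]

lemma mp_gauge (g : S) : MeasurePreserving (gauge g) P P := by
  refine ⟨measurable_gauge g, ?_⟩
  unfold P
  have h := Measure.infinitePi_map_pi (fun _ : E => gaussianReal 0 1)
    (f := fun e (t : ℝ) => bond g e * t) (fun e => measurable_const_mul _)
  refine h.trans ?_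
  congr 1; funext e
  rcases bond_cases g e with h1 | h1
  · simp [h1]
  · simp only [h1, neg_mul, one_mul]
    simpa using gaussianReal_map_neg (μ := 0) (v := 1)

end Pool.Agent.MP_c70b3b_mp

end

section

open MeasureTheory ProbabilityTheory Filter Topology
open scoped symmDiff ENNReal

namespace Pool.Agent.MP_c70b3b_mp

lemma integrable_of_bdd {α : Type*} [MeasurableSpace α] {ρ : Measure α} [IsFiniteMeasure ρ]
    {g : α → ℝ} (hg : Measurable g) (C : ℝ) (hb : ∀ σ, |g σ| ≤ C) : Integrable g ρ :=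
  Integrable.of_bound hg.aestronglyMeasurable C (Eventually.of_forall hb)

lemma en_flp (K : W) {F : Finset E} {U : Finset V} (hU : cob U ⊆ F) (σ : S) :
    en K F (flp U σ) = en K F σ - 2 * en K (cob U) σ := by
  unfold en
  rw [← Finset.sum_sdiff hU, ← Finset.sum_sdiff hU (f := fun e => K e * bond σ e)]
  have h1 : ∑ e ∈ F \ cob U, K e * bond (flp U σ) e = ∑ e ∈ F \ cob U, K e * bond σ e :=
    Finset.sum_congr rfl fun e he => by rw [bond_flp, if_neg (Finset.mem_sdiff.1 he).2]
  have h2 : ∑ e ∈ cob U, K e * bond (flp U σ) e = -∑ e ∈ cob U, K e * bond σ e := by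
    rw [← Finset.sum_neg_distrib]
    exact Finset.sum_congr rfl fun e he => by rw [bond_flp, if_pos he]; ring
  rw [h1, h2]; ring

lemma gib_meas (K : W) (c : ℝ) (F : Finset E) :
    Measurable fun σ => ENNReal.ofReal (Real.exp (c * en K F σ)) :=
  ((measurable_en K F).const_mul c).exp.ennreal_ofReal

lemma gib_lint {ρ : Measure S} {U : Finset V} {d : S → ℝ≥0∞} (hd : Measurable d) :
    ρ.map (flp U) = ρ.withDensity d ↔
      ∀ g : S → ℝ≥0∞, Measurable g → ∫⁻ σ, g (flp U σ) ∂ρ = ∫⁻ σ, d σ * g σ ∂ρ := by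
  constructor
  · intro h g hg
    rw [← lintegral_map hg (measurable_flp U), h, lintegral_withDensity_eq_lintegral_mul _ hd hg]
    rfl
  · intro h
    ext s hs
    have := h (s.indicator 1) (measurable_one.indicator hs)
    rw [← lintegral_map (measurable_one.indicator hs) (measurable_flp U),
      lintegral_indicator_one hs] at this
    rw [this, withDensity_apply _ hs, ← lintegral_indicator hs]
    congr 1; funext σ
    by_cases h : σ ∈ s <;> simp [h]

lemma gib_cocycle (K : W) (U U' : Finset V) (σ : S) :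
    en K (cob (U ∆ U')) σ = en K (cob U') σ + en K (cob U) (flp U' σ) := by
  have h1 := en_flp K (F := cob U ∪ cob U') (U := U ∆ U')
    (by rw [cob_symmDiff]; exact symmDiff_le_sup) σ
  have h2 := en_flp K (F := cob U ∪ cob U') (U := U) Finset.subset_union_left (flp U' σ)
  have h3 := en_flp K (F := cob U ∪ cob U') (U := U') Finset.subset_union_right σ
  rw [flp_flp'] at h2
  linarith

lemma Gibbs.map_flp {K : W} {ρ : Measure S} (h : Gibbs K ρ) (U : Finset V) :
    ρ.map (flp U) = ρ.withDensity fun σ => ENNReal.ofReal (Real.exp (-2 * en K (cob U) σ)) := by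
  induction U using Finset.induction_on with
  | empty =>
    have h1 : flp ∅ = id := by funext σ x; simp [flp]
    have h2 : cob ∅ = ∅ := by ext e; simp [mem_cob]
    simp [h1, h2, en]
  | insert x U hx ih =>
    have e1 : insert x U = U ∆ {x} := by
      ext y; simp only [Finset.mem_insert, Finset.mem_symmDiff, Finset.mem_singleton]
      by_cases hy : y = x <;> simp [hy, hx]
    rw [gib_lint (gib_meas K _ _)] at ih ⊢
    have hx := (gib_lint (gib_meas K _ _)).1 (h.2 x)
    intro g hg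
    rw [e1]
    simp_rw [← flp_flp']
    have e2 : ∀ σ, flp U (flp {x} σ) = flp {x} (flp U σ) := fun σ => by
      rw [flp_flp', flp_flp', symmDiff_comm]
    simp_rw [e2]
    rw [ih (fun σ => g (flp {x} σ)) (hg.comp (measurable_flp _))]
    have := hx (fun σ => ENNReal.ofReal (Real.exp (-2 * en K (cob U) (flp {x} σ))) * g σ)
      (((gib_meas K _ _).comp (measurable_flp _)).mul hg)
    simp only [flp_flp] at this
    rw [this]
    congr 1; funext σ
    rw [← mul_assoc, ← ENNReal.ofReal_mul (Real.exp_pos _).le, ← Real.exp_add, gib_cocycle]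
    congr 3; ring

lemma gib_integral (ρ : Measure S) {d : S → ℝ} (hd : Measurable d) (g : S → ℝ) :
    ∫ σ, g σ ∂(ρ.withDensity fun σ => ENNReal.ofReal (Real.exp (d σ))) =
      ∫ σ, g σ * Real.exp (d σ) ∂ρ := by
  rw [integral_withDensity_eq_integral_toReal_smul hd.exp.ennreal_ofReal
    (Eventually.of_forall fun _ => ENNReal.ofReal_lt_top)]
  congr 1; funext σ
  rw [ENNReal.toReal_ofReal (Real.exp_pos _).le, smul_eq_mul, mul_comm]

lemma Gibbs.integral_flp {K : W} {ρ : Measure S} (h : Gibbs K ρ) (U : Finset V) {g : S → ℝ}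
    (hg : Measurable g) :
    ∫ σ, g (flp U σ) ∂ρ = ∫ σ, g σ * Real.exp (-2 * en K (cob U) σ) ∂ρ := by
  rw [← integral_map (measurable_flp U).aemeasurable hg.aestronglyMeasurable, h.map_flp,
    gib_integral _ ((measurable_en K _).const_mul _)]

lemma Gibbs.ac {K : W} {ρ : Measure S} (h : Gibbs K ρ) (U : Finset V) : ρ.map (flp U) ≪ ρ := by
  rw [h.map_flp]; exact withDensity_absolutelyContinuous _ _

lemma integral_tilt (K : W) (F : Finset E) (ρ : Measure S) (g : S → ℝ) :
    ∫ σ, g σ ∂tilt K F ρ = ∫ σ, g σ * Real.exp (en K F σ) ∂ρ :=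
  gib_integral ρ (measurable_en K F) g

lemma tilt_ac (K : W) (F : Finset E) (ρ : Measure S) : tilt K F ρ ≪ ρ :=
  withDensity_absolutelyContinuous _ _

lemma en_add (K K' : W) (F : Finset E) (σ : S) : en (K + K') F σ = en K F σ + en K' F σ := by
  simp [en, add_mul, Finset.sum_add_distrib]

lemma en_cut (K : W) {F F' : Finset E} (h : F ⊆ F') (σ : S) : en (cut F K) F' σ = en K F σ := by
  unfold en cut
  rw [← Finset.sum_subset h (fun e _ he => by simp [he])]
  exact Finset.sum_congr rfl fun e he => by simp [he]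

lemma Gibbs.tilt {K : W} {ρ : Measure S} (h : Gibbs K ρ) (K' : W) (F : Finset E) :
    Gibbs (K + cut F K') (tilt K' F ρ) := by
  have := h.1
  have hm : Measurable fun σ => ENNReal.ofReal (Real.exp (en K' F σ)) :=
    (measurable_en K' F).exp.ennreal_ofReal
  refine ⟨?_, fun x => ?_⟩
  · refine isFiniteMeasure_withDensity_ofReal (Integrable.hasFiniteIntegral ?_)
    refine integrable_of_bdd (measurable_en K' F).exp (Real.exp (∑ e ∈ F, |K' e|)) fun σ => ?_
    rw [abs_of_pos (Real.exp_pos _)]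
    exact Real.exp_le_exp.2 ((le_abs_self _).trans (abs_en_le _ _ _))
  · rw [gib_lint (gib_meas _ _ _)]
    intro g hg
    unfold MP_c70b3b_mp.tilt
    rw [lintegral_withDensity_eq_lintegral_mul _ hm (g := fun σ => g (flp {x} σ))
        (hg.comp (measurable_flp _)),
      lintegral_withDensity_eq_lintegral_mul _ hm (g := fun σ => ENNReal.ofReal
        (Real.exp (-2 * en (K + cut F K') (cob {x}) σ)) * g σ) ((gib_meas _ _ _).mul hg)]
    have := (gib_lint (gib_meas K _ _)).1 (h.2 x)
      (fun σ => ENNReal.ofReal (Real.exp (en K' F (flp {x} σ))) * g σ)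
      ((hm.comp (measurable_flp _)).mul hg)
    simp only [flp_flp] at this
    simp only [Pi.mul_apply]
    refine this.trans ?_
    congr 1; funext σ
    rw [← mul_assoc, ← mul_assoc, ← ENNReal.ofReal_mul (Real.exp_pos _).le,
      ← ENNReal.ofReal_mul (Real.exp_pos _).le, ← Real.exp_add, ← Real.exp_add, en_add]
    have h1 := en_flp (cut F K') (F := F ∪ cob {x}) (U := {x}) Finset.subset_union_right σ
    rw [en_cut K' Finset.subset_union_left, en_cut K' Finset.subset_union_left] at h1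
    congr 3; linarith

instance : IsProbabilityMeasure unif := by unfold unif; infer_instance

lemma gib_unif_neg : (uniformOn (Set.univ : Set ℤˣ)).map (fun u => -u) = uniformOn Set.univ := by
  refine Measure.ext_of_singleton fun u => ?_
  rw [Measure.map_apply Measurable.of_discrete (measurableSet_singleton _)]
  have : (fun u : ℤˣ => -u) ⁻¹' {u} = {-u} := by ext v; simp [neg_eq_iff_eq_neg]
  rw [this, uniformOn_univ, uniformOn_univ]; simp

lemma gibbs_unif : Gibbs 0 unif := by
  refine ⟨inferInstance, fun x => ?_⟩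
  have h := Measure.infinitePi_map_pi (fun _ : V => uniformOn (Set.univ : Set ℤˣ))
    (f := fun y (u : ℤˣ) => if y ∈ ({x} : Finset V) then -u else u)
    (fun _ => Measurable.of_discrete)
  simp only [en, Pi.zero_apply, zero_mul, Finset.sum_const_zero, mul_zero, Real.exp_zero,
    ENNReal.ofReal_one]
  refine h.trans ?_
  rw [show (fun _ : S => (1 : ℝ≥0∞)) = 1 from rfl, withDensity_one]
  unfold unif
  congr 1; funext y
  split_ifs
  · exact gib_unif_neg
  · exact Measure.map_id

lemma unif_neg : unif.map (fun σ : S => -σ) = unif := by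
  have h := Measure.infinitePi_map_pi (fun _ : V => uniformOn (Set.univ : Set ℤˣ))
    (f := fun _ (u : ℤˣ) => -u) (fun _ => Measurable.of_discrete)
  refine h.trans ?_
  unfold unif
  congr 1; funext y
  exact gib_unif_neg

lemma unif_cyl (A : Finset V) (η : S) :
    unif.real {σ | ∀ x ∈ A, σ x = η x} = (1 / 2) ^ A.card := by
  have : {σ : S | ∀ x ∈ A, σ x = η x} = Set.pi (A : Set V) fun x => {η x} := by
    ext σ; simp [Set.mem_pi]
  rw [this, Measure.real, unif, Measure.infinitePi_pi _ fun _ _ => measurableSet_singleton _]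
  simp [uniformOn_univ]

lemma gib_sum_flp (L : Finset V) (f : S → ℝ) {U : Finset V} (hU : U ⊆ L) (σ : S) :
    ∑ U' ∈ L.powerset, f (flp U' (flp U σ)) = ∑ U' ∈ L.powerset, f (flp U' σ) := by
  have hm : ∀ U' ∈ L.powerset, U' ∆ U ∈ L.powerset := fun U' h =>
    Finset.mem_powerset.2 (symmDiff_le_sup.trans (sup_le (Finset.mem_powerset.1 h) hU))
  refine Finset.sum_nbij' (· ∆ U) (· ∆ U) hm hm (fun _ _ => symmDiff_symmDiff_cancel_right _ _)
    (fun _ _ => symmDiff_symmDiff_cancel_right _ _) fun U' _ => by rw [flp_flp']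

lemma cob_subset_touch {U L : Finset V} (hU : U ⊆ L) : cob U ⊆ touch L := fun e he => by
  have := mem_touch.1 (Finset.mem_filter.1 he).1
  exact mem_touch.2 (this.imp (fun h => hU h) (fun h => hU h))

/-- Finite volume DLR equation. -/
lemma Gibbs.avg {K : W} {ρ : Measure S} (h : Gibbs K ρ) (L : Finset V) {g : S → ℝ}
    (hg : Measurable g) (C : ℝ) (hb : ∀ σ, |g σ| ≤ C) :
    ∫ σ, g σ ∂ρ = ∫ σ, (∑ U ∈ L.powerset, g (flp U σ) * Real.exp (en K (touch L) (flp U σ))) /
      (∑ U ∈ L.powerset, Real.exp (en K (touch L) (flp U σ))) ∂ρ := by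
  have := h.1
  set Z : S → ℝ := fun σ => ∑ U ∈ L.powerset, Real.exp (en K (touch L) (flp U σ)) with hZ
  have hZp : ∀ σ, 0 < Z σ := fun σ =>
    Finset.sum_pos (fun _ _ => Real.exp_pos _) ⟨∅, by simp⟩
  have hZm : Measurable Z :=
    Finset.measurable_sum _ fun U _ => ((measurable_en _ _).comp (measurable_flp U)).exp
  have hle : ∀ U ∈ L.powerset, ∀ σ, Real.exp (en K (touch L) (flp U σ)) / Z σ ≤ 1 := fun U hU σ =>
    (div_le_one (hZp σ)).2 (Finset.single_le_sum
      (f := fun U => Real.exp (en K (touch L) (flp U σ))) (fun _ _ => (Real.exp_pos _).le) hU)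
  have hI : ∀ U ∈ L.powerset, ∀ f : S → ℝ, Measurable f → (∀ σ, |f σ| ≤ C) →
      Integrable (fun σ => f σ * Real.exp (en K (touch L) (flp U σ)) / Z σ) ρ := by
    intro U hU f hf hfb
    refine integrable_of_bdd
      ((hf.mul ((measurable_en _ _).comp (measurable_flp U)).exp).div hZm) C fun σ => ?_
    rw [mul_div_assoc, abs_mul, abs_of_pos (div_pos (Real.exp_pos _) (hZp σ))]
    exact (mul_le_of_le_one_right (abs_nonneg _) (hle U hU σ)).trans (hfb σ)
  have key : ∀ U ∈ L.powerset,
      ∫ σ, g (flp U σ) * Real.exp (en K (touch L) (flp U σ)) / Z σ ∂ρ =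
      ∫ σ, g σ * Real.exp (en K (touch L) (flp U σ)) / Z σ ∂ρ := by
    intro U hU
    have hU' := Finset.mem_powerset.1 hU
    have h1 := h.integral_flp U (g := fun σ => g σ * Real.exp (en K (touch L) σ) / Z σ)
      ((hg.mul (measurable_en _ _).exp).div hZm)
    have h2 : ∀ σ, Z (flp U σ) = Z σ := fun σ =>
      gib_sum_flp L (fun σ => Real.exp (en K (touch L) σ)) hU' σ
    simp only [h2] at h1
    rw [h1]
    congr 1; funext σ
    rw [en_flp K (cob_subset_touch hU'), sub_eq_add_neg, Real.exp_add, neg_mul]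
    ring
  simp_rw [Finset.sum_div]
  change _ = ∫ σ, ∑ U ∈ L.powerset, g (flp U σ) * Real.exp (en K (touch L) (flp U σ)) / Z σ ∂ρ
  rw [integral_finsetSum _ fun U hU => hI U hU (fun σ => g (flp U σ))
      (hg.comp (measurable_flp U)) fun σ => hb _,
    Finset.sum_congr rfl key, ← integral_finsetSum _ fun U hU => hI U hU g hg hb]
  congr 1; funext σ
  rw [← Finset.sum_div, ← Finset.mul_sum, mul_div_assoc, div_self (hZp σ).ne', mul_one]

lemma gib_ind (A : Finset V) (η σ : S) :
    Set.indicator {σ : S | ∀ x ∈ A, σ x = η x} (1 : S → ℝ) σ =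
      (1 / 2) ^ A.card * ∑ B ∈ A.powerset, chr B η * chr B σ := by
  simp_rw [← chr_mul]
  have : ∑ B ∈ A.powerset, chr B (η * σ) = ∏ x ∈ A, (1 + sp ((η * σ) x)) := by
    rw [Finset.prod_one_add]; rfl
  rw [this]
  by_cases h : ∀ x ∈ A, σ x = η x
  · rw [Set.indicator_of_mem (by exact h), Finset.prod_congr rfl (g := fun _ => (2 : ℝ))
      fun x hx => by rw [Pi.mul_apply, h x hx, sp_mul, sp_mul_self]; norm_num]
    simp [← mul_pow]
  · rw [Set.indicator_of_notMem (by exact h)]
    push Not at h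
    obtain ⟨x, hx, hne⟩ := h
    rw [Finset.prod_eq_zero hx, mul_zero]
    rw [Pi.mul_apply, sp_mul]
    rcases sp_cases (σ x) with h1 | h1 <;> rcases sp_cases (η x) with h2 | h2 <;>
      first | exact absurd (sp_inj (h1.trans h2.symm)) hne | simp [h1, h2]

lemma ext_chr {ρ ρ' : Measure S} [IsFiniteMeasure ρ] [IsFiniteMeasure ρ']
    (h : ∀ A : Finset V, ∫ σ, chr A σ ∂ρ = ∫ σ, chr A σ ∂ρ') : ρ = ρ' := by
  have hm : ∀ (A : Finset V) (η : S), MeasurableSet {σ : S | ∀ x ∈ A, σ x = η x} := by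
    intro A η
    have : {σ : S | ∀ x ∈ A, σ x = η x} = Set.pi (A : Set V) fun x => {η x} := by
      ext σ; simp [Set.mem_pi]
    rw [this]; exact MeasurableSet.pi A.countable_toSet fun _ _ => measurableSet_singleton _
  have key : ∀ (A : Finset V) (η : S),
      ρ {σ : S | ∀ x ∈ A, σ x = η x} = ρ' {σ : S | ∀ x ∈ A, σ x = η x} := by
    intro A η
    have k : ∀ (r : Measure S) [IsFiniteMeasure r], r.real {σ : S | ∀ x ∈ A, σ x = η x} =
        (1 / 2) ^ A.card * ∑ B ∈ A.powerset, chr B η * ∫ σ, chr B σ ∂r := by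
      intro r _
      rw [← integral_indicator_one (hm A η)]
      simp_rw [gib_ind]
      rw [integral_const_mul, integral_finsetSum _ fun B _ =>
        (integrable_of_bdd (measurable_chr B) 1 fun σ => (abs_chr B σ).le).const_mul _]
      simp_rw [integral_const_mul]
    rw [← measureReal_eq_measureReal_iff, k ρ, k ρ']
    simp_rw [h]
  have hA : ∀ A : Finset V, ρ.map A.restrict = ρ'.map A.restrict := by
    intro A
    refine Measure.ext_of_singleton fun η => ?_
    rw [Measure.map_apply (Finset.measurable_restrict A) (measurableSet_singleton _),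
      Measure.map_apply (Finset.measurable_restrict A) (measurableSet_singleton _)]
    have : (A.restrict : S → _) ⁻¹' {η} = {σ : S | ∀ x ∈ A, σ x = glue A η 1 x} := by
      ext σ
      simp only [Set.mem_preimage, Set.mem_singleton_iff, Set.mem_setOf_eq, funext_iff, glue]
      exact ⟨fun h x hx => by rw [dif_pos hx]; exact h ⟨x, hx⟩,
        fun h x => by have := h x.1 x.2; rwa [dif_pos x.2] at this⟩
    rw [this, key]
  exact IsProjectiveLimit.unique (P := fun A : Finset V => ρ.map A.restrict) (fun _ => rfl)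
    (fun A => (hA A).symm)

end Pool.Agent.MP_c70b3b_mp

end

section

open MeasureTheory ProbabilityTheory Filter Topology
open scoped symmDiff ENNReal

namespace Pool.Agent.MP_c70b3b_mp

/-- Forget the spin at `x`. -/
def setupPi (x : V) (p : W × S) : W × ({y // y ∉ ({x} : Finset V)} → ℤˣ) :=
  (p.1, fun y => p.2 y)

/-- Put the spin `s` at `x`. -/
def setupPut (x : V) (s : ℤˣ) (p : W × ({y // y ∉ ({x} : Finset V)} → ℤˣ)) : W × S :=
  (p.1, fun y => if h : y ∈ ({x} : Finset V) then s else p.2 ⟨y, h⟩)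

/-- Replace the spin at `x` by `s`. -/
def setupR (x : V) (s : ℤˣ) (p : W × S) : W × S := (p.1, glue {x} (fun _ => s) p.2)

/-- The density of the flipped measure. -/
noncomputable def setupD (β : ℝ) (x : V) (p : W × S) : ℝ≥0∞ :=
  ENNReal.ofReal (Real.exp (-2 * en (β • p.1) (cob {x}) p.2))

lemma setup_mPi (x : V) : Measurable (setupPi x) :=
  measurable_fst.prodMk (measurable_pi_lambda _ fun y =>
    (measurable_pi_apply y.1).comp measurable_snd)

lemma setup_mPut (x : V) (s : ℤˣ) : Measurable (setupPut x s) := by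
  refine measurable_fst.prodMk (measurable_pi_lambda _ fun y => ?_)
  split_ifs with h
  · exact measurable_const
  · exact (measurable_pi_apply _).comp measurable_snd

lemma setup_mR (x : V) (s : ℤˣ) : Measurable (setupR x s) :=
  (setup_mPut x s).comp (setup_mPi x)

lemma setup_mD (β : ℝ) (x : V) : Measurable (setupD β x) :=
  ((measurable_en2 β _).const_mul _).exp.ennreal_ofReal

lemma setup_mA (x : V) (s : ℤˣ) : MeasurableSet {p : W × S | p.2 x = s} :=
  (show Measurable fun p : W × S => p.2 x from (measurable_pi_apply x).comp measurable_snd)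
    (measurableSet_singleton s)

lemma setup_nonneg (β : ℝ) (C : Finset V) (η : C → ℤˣ) (p : W × S) : 0 ≤ boltz β C η p :=
  div_nonneg (Real.exp_pos _).le (Finset.sum_nonneg fun _ _ => (Real.exp_pos _).le)

lemma setup_key {β : ℝ} {ν : Measure (W × S)} {L : Set V} (h : IsEAOn β L ν) (x : V)
    (hx : x ∈ L) (s t : ℤˣ)
    {f : W × S → ℝ≥0∞} (hf : Measurable f) :
    ∫⁻ p in {p : W × S | p.2 x = s}, f (setupR x t p) ∂ν =
      ∫⁻ p, ENNReal.ofReal (boltz β {x} (fun _ => s) p) * f (setupR x t p) ∂ν := by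
  have := h.1
  have h1 := h.2.2 {x} (fun _ => s) (by simpa using hx)
  have hA : {p : W × S | ∀ y : ({x} : Finset V), p.2 y = s} = {p | p.2 x = s} := by
    ext p
    simp
  rw [hA] at h1
  have hm := (setup_mPi x).comap_le
  have hi : Integrable (boltz β {x} fun _ => s) ν := integrable_condExp.congr h1
  have h2 : (ν.restrict {p : W × S | p.2 x = s}).map (setupPi x) =
      (ν.withDensity fun p => ENNReal.ofReal (boltz β {x} (fun _ => s) p)).map (setupPi x) := by
    ext B hB
    have hB' := setup_mPi x hB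
    rw [Measure.map_apply (setup_mPi x) hB, Measure.map_apply (setup_mPi x) hB,
      Measure.restrict_apply hB', withDensity_apply _ hB',
      ← ofReal_integral_eq_lintegral_ofReal hi.integrableOn
        (Eventually.of_forall fun p => setup_nonneg _ _ _ p),
      ← setIntegral_congr_ae hB' (h1.mono fun p hp _ => hp)]
    erw [setIntegral_condExp hm ((integrable_const (1 : ℝ)).indicator (setup_mA x s)) ⟨B, hB, rfl⟩]
    rw [setIntegral_indicator (setup_mA x s), setIntegral_const, smul_eq_mul, mul_one,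
      ofReal_measureReal]
  have h3 := congrArg (fun μ => ∫⁻ p, f (setupPut x t p) ∂μ) h2
  have hf' : Measurable fun p => f (setupPut x t p) := hf.comp (setup_mPut x t)
  rw [lintegral_map hf' (setup_mPi x), lintegral_map hf' (setup_mPi x),
    lintegral_withDensity_eq_lintegral_mul₀ hi.1.aemeasurable.ennreal_ofReal
      (show Measurable fun p => f (setupPut x t (setupPi x p)) from
        hf'.comp (setup_mPi x)).aemeasurable] at h3
  exact h3

lemma setup_ham (β : ℝ) (x : V) (w : W) (σ : S) :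
    -β * ham {x} w (flp {x} σ) = -β * ham {x} w σ + -2 * en (β • w) (cob {x}) σ := by
  have hs : cob {x} ⊆ (clo {x} ×ˢ (Finset.univ : Finset Bool)).filter
      (fun e => tip e ∈ clo {x}) := by
    rintro ⟨y, b⟩ he
    rw [mem_cob] at he
    simp only [Finset.mem_filter, Finset.mem_product, Finset.mem_univ, and_true, clo,
      Finset.mem_union, Finset.mem_singleton, Finset.singleton_biUnion, Finset.mem_insert] at he ⊢
    by_cases h1 : y = x
    · subst h1
      cases b <;> simp [tip]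
    · have h2 : tip (y, b) = x := by tauto
      subst h2
      cases b <;> simp [tip]
  have h1 : ∀ τ : S, ham {x} w τ = -∑ e ∈ (clo {x} ×ˢ (Finset.univ : Finset Bool)).filter
      (fun e => tip e ∈ clo {x}), w e * bond τ e := fun τ => by
    simp only [ham, bond, sp, mul_assoc]
  rw [h1, h1, ← Finset.sum_sdiff hs, ← Finset.sum_sdiff hs, en,
    Finset.sum_congr rfl fun e he => by rw [bond_flp, if_neg (Finset.mem_sdiff.1 he).2],
    Finset.sum_congr (s₁ := cob {x}) rfl fun e he => by rw [bond_flp, if_pos he]]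
  simp only [mul_neg, Finset.sum_neg_distrib, Pi.smul_apply, smul_eq_mul, mul_assoc,
    ← Finset.mul_sum]
  ring

lemma setup_boltz (β : ℝ) (x : V) (s : ℤˣ) (p : W × S) :
    ENNReal.ofReal (boltz β {x} (fun _ => -s) p) =
      ENNReal.ofReal (boltz β {x} (fun _ => s) p) * setupD β x (setupR x s p) := by
  have h1 : glue {x} (fun _ => -s) p.2 = flp {x} (glue {x} (fun _ => s) p.2) := by
    funext y
    simp only [glue, flp]
    split_ifs <;> rfl
  rw [setupD, ← ENNReal.ofReal_mul (setup_nonneg _ _ _ _), boltz, boltz, h1, setup_ham,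
    Real.exp_add, div_mul_eq_mul_div]
  rfl

lemma setup_split (ν : Measure (W × S)) (x : V) (s : ℤˣ) (f : W × S → ℝ≥0∞) :
    ∫⁻ p, f p ∂ν = ∫⁻ p in {p : W × S | p.2 x = s}, f p ∂ν +
      ∫⁻ p in {p : W × S | p.2 x = -s}, f p ∂ν := by
  rw [← lintegral_add_compl f (setup_mA x s)]
  congr 3
  ext p
  simp [Int.units_ne_iff_eq_neg]

lemma setup_flip' {β : ℝ} {ν : Measure (W × S)} {L : Set V} (h : IsEAOn β L ν) (x : V)
    (hx : x ∈ L) :
    ν.map (Prod.map id (flp {x})) = ν.withDensity (setupD β x) := by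
  have hT : Measurable (Prod.map id (flp {x}) : W × S → W × S) :=
    measurable_id.prodMap (measurable_flp _)
  have key : ∀ {f : W × S → ℝ≥0∞}, Measurable f → ∀ s : ℤˣ,
      ∫⁻ p in {p : W × S | p.2 x = -s}, f (Prod.map id (flp {x}) p) ∂ν =
        ∫⁻ p in {p : W × S | p.2 x = s}, (setupD β x * f) p ∂ν := by
    intro f hf s
    have h1 : ∀ p ∈ {p : W × S | p.2 x = -s}, f (Prod.map id (flp {x}) p) = f (setupR x s p) := by
      intro p hp
      refine congrArg f (Prod.ext rfl (funext fun y => ?_))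
      simp only [Prod.map_snd, flp, setupR, glue, Finset.mem_singleton]
      split_ifs with hy
      · rw [hy, hp, neg_neg]
      · rfl
    have h2 : ∀ p ∈ {p : W × S | p.2 x = s},
        (setupD β x * f) p = (setupD β x * f) (setupR x s p) := by
      intro p hp
      refine congrArg _ (Prod.ext rfl (funext fun y => ?_))
      simp only [setupR, glue, Finset.mem_singleton]
      split_ifs with hy
      · rw [hy, hp]
      · rfl
    rw [setLIntegral_congr_fun (setup_mA x _) h1, setLIntegral_congr_fun (setup_mA x _) h2,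
      setup_key h x hx _ s hf, setup_key h x hx _ s ((setup_mD β x).mul hf)]
    simp only [setup_boltz, Pi.mul_apply, mul_assoc]
  refine Measure.ext_of_lintegral _ fun f hf => ?_
  rw [lintegral_map hf hT, lintegral_withDensity_eq_lintegral_mul _ (setup_mD β x) hf,
    setup_split ν x 1, setup_split ν x 1 (setupD β x * f), key hf 1, ← key hf (-1), neg_neg,
    add_comm]

lemma setup_flip {β : ℝ} {ν : Measure (W × S)} (h : IsEA β ν) (x : V) :
    ν.map (Prod.map id (flp {x})) = ν.withDensity (setupD β x) :=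
  setup_flip' (isEA_iff.1 h) x (Set.mem_univ x)

lemma setup_gibbs {β : ℝ} {κ : Kernel W S} [IsMarkovKernel κ] (h : IsEA β (P ⊗ₘ κ)) (x : V) :
    ∀ᵐ w ∂P, (κ w).map (flp {x}) =
      (κ w).withDensity fun σ => ENNReal.ofReal (Real.exp (-2 * en (β • w) (cob {x}) σ)) := by
  have hD := setup_mD β x
  have hg : Measurable fun p => (1 + setupD β x p)⁻¹ := (hD.const_add 1).inv
  have h0 : ∀ p, 1 + setupD β x p ≠ 0 := fun p => by simp
  have ht : ∀ p, 1 + setupD β x p ≠ ∞ := fun p => by simp [setupD]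
  have := Kernel.IsMarkovKernel.map κ (measurable_flp {x})
  have : IsFiniteKernel ((κ.map (flp {x})).withDensity fun w σ => (1 + setupD β x (w, σ))⁻¹) :=
    Kernel.isFiniteKernel_withDensity_of_bounded _ ENNReal.one_ne_top fun w σ =>
      ENNReal.inv_le_one.2 le_self_add
  have : IsFiniteKernel (κ.withDensity fun w σ =>
      setupD β x (w, σ) * (1 + setupD β x (w, σ))⁻¹) :=
    Kernel.isFiniteKernel_withDensity_of_bounded _ ENNReal.one_ne_top fun w σ =>
      (mul_le_mul_left le_add_self _).trans_eq (ENNReal.mul_inv_cancel (h0 _) (ht _))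
  have h1 : P ⊗ₘ ((κ.map (flp {x})).withDensity fun w σ => (1 + setupD β x (w, σ))⁻¹) =
      P ⊗ₘ (κ.withDensity fun w σ => setupD β x (w, σ) * (1 + setupD β x (w, σ))⁻¹) := by
    rw [Measure.compProd_withDensity hg, Measure.compProd_withDensity (hD.mul hg),
      Measure.compProd_map (measurable_flp _), setup_flip h x, ← withDensity_mul _ hD hg]
    rfl
  filter_upwards [Kernel.ae_eq_of_compProd_eq h1] with w hw
  rw [Kernel.withDensity_apply _ hg, Kernel.withDensity_apply _ (hD.mul hg),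
    Kernel.map_apply _ (measurable_flp _)] at hw
  have hD' : Measurable fun σ => setupD β x (w, σ) := hD.comp measurable_prodMk_left
  have h2 := congrArg (fun μ : Measure S => μ.withDensity fun σ => 1 + setupD β x (w, σ)) hw
  have hg' : Measurable fun σ => (1 + setupD β x (w, σ))⁻¹ := (hD'.const_add 1).inv
  have hp : Measurable fun σ => setupD β x (w, σ) * (1 + setupD β x (w, σ))⁻¹ := hD'.mul hg'
  rw [← withDensity_mul _ hg' (hD'.const_add 1), ← withDensity_mul _ hp (hD'.const_add 1)] at h2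
  have h3 : ((fun σ => (1 + setupD β x (w, σ))⁻¹) * fun σ => 1 + setupD β x (w, σ)) = 1 :=
    funext fun σ => ENNReal.inv_mul_cancel (h0 _) (ht _)
  rw [h3, withDensity_one] at h2
  refine h2.trans (congrArg _ (funext fun σ => ?_))
  rw [Pi.mul_apply, mul_assoc, ENNReal.inv_mul_cancel (h0 _) (ht _), mul_one]
  rfl

lemma setup_cov {κ : Kernel W S} [IsMarkovKernel κ] (z : V)
    (h : (P ⊗ₘ κ).map (shift z) = P ⊗ₘ κ) : ∀ᵐ w ∂P, κ (shW z w) = (κ w).map (shS z) := by
  have := Kernel.IsMarkovKernel.map κ (measurable_shS z)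
  have hT : Measurable (shift z) := (measurable_shW z).prodMap (measurable_shS z)
  have h1 : P ⊗ₘ (κ.comap (shW z) (measurable_shW z)) = P ⊗ₘ (κ.map (shS z)) := by
    refine Measure.ext_prod fun {A B} hA hB => ?_
    have hA' := measurable_shW (-z) hA
    have h2 : A = shW z ⁻¹' (shW (-z) ⁻¹' A) := by
      ext w
      have : shW (-z) (shW z w) = w := by
        funext e
        simp [shW]
      simp [this]
    have h3 := congrArg (fun μ : Measure (W × S) => μ ((shW (-z) ⁻¹' A) ×ˢ B)) h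
    rw [Measure.map_apply hT (hA'.prod hB)] at h3
    have h4 : shift z ⁻¹' ((shW (-z) ⁻¹' A) ×ˢ B) = A ×ˢ (shS z ⁻¹' B) := by
      conv_rhs => rw [h2]
      rfl
    rw [h4, Measure.compProd_apply_prod hA (measurable_shS z hB),
      Measure.compProd_apply_prod hA' hB,
      ← (mp_shW z).setLIntegral_comp_preimage hA' (κ.measurable_coe hB), ← h2] at h3
    rw [Measure.compProd_apply_prod hA hB, Measure.compProd_apply_prod hA hB]
    simp only [Kernel.comap_apply, Kernel.map_apply' _ (measurable_shS z) _ hB]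
    exact h3.symm
  filter_upwards [Kernel.ae_eq_of_compProd_eq h1] with w hw
  rwa [Kernel.comap_apply, Kernel.map_apply _ (measurable_shS z)] at hw

theorem exists_kernel {β : ℝ} {k : ℤ} {ν : Measure (W × S)} (h : IsEA β ν)
    (hk : ∀ z : V, ν.map (shift (k • z)) = ν) :
    ∃ κ : Kernel W S, CovGibbs β k κ ∧ ν = P ⊗ₘ κ := by
  have := h.1
  have h1 : ν = P ⊗ₘ ν.condKernel := by
    have h2 : ν.fst = P := h.2.1
    rw [← h2, Measure.disintegrate]
  refine ⟨ν.condKernel, ⟨inferInstance, ?_, fun z => setup_cov _ (h1 ▸ hk z)⟩, h1⟩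
  filter_upwards [ae_all_iff.2 fun x => setup_gibbs (h1 ▸ h) x] with w hw
  exact ⟨inferInstance, hw⟩

end Pool.Agent.MP_c70b3b_mp

end

section

open MeasureTheory ProbabilityTheory Filter Topology
open scoped symmDiff ENNReal

set_option linter.unusedVariables false

namespace Pool.Agent.MP_c70b3b_mp

lemma mem_box {N : ℕ} {x : V} :
    x ∈ box N ↔ -(N : ℤ) ≤ x.1 ∧ x.1 < N ∧ -(N : ℤ) ≤ x.2 ∧ x.2 < N := by
  simp [box, and_assoc]

lemma bv_not_mem {N k : ℕ} (hk : k < 8 * N) : bv N k ∉ box N := by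
  rw [mem_box]; unfold bv; split_ifs <;> simp

lemma bv_inj {N k l : ℕ} (hk : k < 8 * N) (hl : l < 8 * N) (h : bv N k = bv N l) : k = l := by
  unfold bv at h; split_ifs at h <;> simp only [Prod.mk.injEq] at h <;> omega

lemma port_inj {N k l : ℕ} (hk : k < 8 * N) (hl : l < 8 * N) (h : port N k = port N l) :
    k = l := by
  unfold port at h
  split_ifs at h <;> simp only [Prod.mk.injEq, Bool.true_eq_false, Bool.false_eq_true, and_false,
    and_true] at h <;> omega

lemma port_ends {N k : ℕ} (hk : k < 8 * N) : ∃ u ∈ box N, Ends (port N k) (bv N k) u := by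
  unfold port bv Ends
  split_ifs
  · exact ⟨((k : ℤ) - N, -(N : ℤ)), by rw [mem_box]; simp; omega, Or.inl ⟨rfl, by simp [tip]⟩⟩
  · exact ⟨((N : ℤ) - 1, (k : ℤ) - 3 * N), by rw [mem_box]; simp; omega,
      Or.inr ⟨rfl, by simp [tip]⟩⟩
  · exact ⟨(5 * (N : ℤ) - 1 - k, (N : ℤ) - 1), by rw [mem_box]; simp; omega,
      Or.inr ⟨rfl, by simp [tip]⟩⟩
  · exact ⟨(-(N : ℤ), 7 * (N : ℤ) - 1 - k), by rw [mem_box]; simp; omega,
      Or.inl ⟨rfl, by simp [tip]⟩⟩

lemma port_mem_cob {N k : ℕ} (hk : k < 8 * N) : port N k ∈ cob (box N) := by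
  obtain ⟨u, hu, h | h⟩ := port_ends hk <;> rw [mem_cob, h.1, h.2] <;>
    have := bv_not_mem hk <;> tauto

lemma exists_port {N : ℕ} {e : E} (he : e ∈ cob (box N)) : ∃ k < 8 * N, e = port N k := by
  rcases e with ⟨⟨a, b⟩, c⟩
  rw [mem_cob, mem_box, mem_box] at he
  cases c
  · simp only [tip, Bool.false_eq_true, if_false, Prod.fst_add, Prod.snd_add] at he
    by_cases h : a = N - 1
    · refine ⟨(b + 3 * N).toNat, by omega, ?_⟩
      unfold port; split_ifs <;> simp only [Prod.mk.injEq, and_true] <;> omega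
    · refine ⟨(7 * N - 1 - b).toNat, by omega, ?_⟩
      unfold port; split_ifs <;> simp only [Prod.mk.injEq, and_true] <;> omega
  · simp only [tip, if_true, Prod.fst_add, Prod.snd_add] at he
    by_cases h : b = N - 1
    · refine ⟨(5 * N - 1 - a).toNat, by omega, ?_⟩
      unfold port; split_ifs <;> simp only [Prod.mk.injEq, and_true] <;> omega
    · refine ⟨(a + N).toNat, by omega, ?_⟩
      unfold port; split_ifs <;> simp only [Prod.mk.injEq, and_true] <;> omega

lemma port_faces {N k : ℕ} (hk : k < 8 * N) :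
    (fA (port N k) = rf N k ∧ fB (port N k) = rf N (k + 1)) ∨
    (fB (port N k) = rf N k ∧ fA (port N k) = rf N (k + 1)) := by
  unfold port rf fA fB
  split_ifs <;> simp_all [Prod.ext_iff] <;> omega

lemma fbd_port {N k : ℕ} (hk : k < 8 * N) (p : V) :
    fbd {port N k} p = dl (rf N k) p + dl (rf N (k + 1)) p := by
  rw [fbd_singleton]
  rcases port_faces hk with ⟨h1, h2⟩ | ⟨h1, h2⟩ <;> rw [h1, h2]
  exact add_comm _ _

lemma corner_rf {N k : ℕ} (hk : k < 8 * N) :
    Corner (bv N k) (rf N k) ∧ Corner (bv N k) (rf N (k + 1)) := by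
  unfold Corner bv rf
  split_ifs <;> simp [Prod.ext_iff] <;> omega

lemma card_cob_box (N : ℕ) : (cob (box N)).card ≤ 8 * N := by
  have : cob (box N) ⊆ (Finset.range (8 * N)).image (port N) := fun e he => by
    obtain ⟨k, hk, rfl⟩ := exists_port he
    exact Finset.mem_image_of_mem _ (Finset.mem_range.2 hk)
  exact (Finset.card_le_card this).trans (Finset.card_image_le.trans (by simp))

lemma exists_box (A : Finset V) : ∃ N : ℕ, 0 < N ∧ A ⊆ box N := by
  refine ⟨A.sup (fun x => x.1.natAbs + x.2.natAbs) + 1, by omega, fun x hx => ?_⟩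
  have := Finset.le_sup (f := fun x : V => x.1.natAbs + x.2.natAbs) hx
  rw [mem_box]; omega

/-- `n²` disjoint translates of `A` by vectors of `k ℤ²` inside a box of size `c n`. -/
lemma exists_grid {k : ℤ} (hk : 0 < k) (A : Finset V) :
    ∃ c : ℕ, ∀ n : ℕ, 0 < n → ∃ z : Fin n × Fin n → V,
      (∀ i j, i ≠ j → ∀ x ∈ A, ∀ y ∈ A, x + k • z i ≠ y + k • z j) ∧
      ∀ i, ∀ x ∈ A, x + k • z i ∈ box (c * n) := by
  obtain ⟨r, -, hr⟩ := exists_box A
  obtain ⟨k, rfl⟩ := Int.eq_ofNat_of_zero_le hk.le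
  have hk1 : (1 : ℤ) ≤ k := by omega
  refine ⟨k * (2 * r) + r, fun n hn => ⟨fun i => (2 * r * (i.1 : ℤ), 2 * r * (i.2 : ℤ)), ?_, ?_⟩⟩
  · have key : ∀ (a b : ℤ) (u v : ℕ), -(r : ℤ) ≤ a → a < r → -(r : ℤ) ≤ b → b < r →
        a + k * (2 * r * (u : ℤ)) = b + k * (2 * r * (v : ℤ)) → u = v := by
      intro a b u v h1 h2 h3 h4 h
      by_contra hne
      have hr0 : (0 : ℤ) ≤ r := by omega
      have hk' : (2 * r : ℤ) ≤ k * (2 * r) := by nlinarith
      rcases Nat.lt_or_gt_of_ne hne with hl | hl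
      · have : (u : ℤ) + 1 ≤ v := by omega
        nlinarith
      · have : (v : ℤ) + 1 ≤ u := by omega
        nlinarith
    intro i j hij x hx y hy h
    have hx := mem_box.1 (hr hx); have hy := mem_box.1 (hr hy)
    simp only [Prod.ext_iff, Prod.fst_add, Prod.snd_add, Prod.smul_fst, Prod.smul_snd,
      smul_eq_mul] at h
    exact hij (Prod.ext (Fin.ext (key _ _ _ _ hx.1 hx.2.1 hy.1 hy.2.1 h.1))
      (Fin.ext (key _ _ _ _ hx.2.2.1 hx.2.2.2 hy.2.2.1 hy.2.2.2 h.2)))
  · have key : ∀ (a : ℤ) (u : ℕ), -(r : ℤ) ≤ a → a < r → u < n →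
        -(((k * (2 * r) + r) * n : ℕ) : ℤ) ≤ a + k * (2 * r * (u : ℤ)) ∧
        a + k * (2 * r * (u : ℤ)) < (((k * (2 * r) + r) * n : ℕ) : ℤ) := by
      intro a u h1 h2 hu
      have hu' : (u : ℤ) + 1 ≤ n := by omega
      have h0 : (0 : ℤ) ≤ k * (2 * r) := by positivity
      have h3 : (0 : ℤ) ≤ u := by positivity
      have h4 : (0 : ℤ) ≤ r := by positivity
      push_cast
      constructor <;> nlinarith
    intro i x hx
    have hx := mem_box.1 (hr hx)
    rw [mem_box]
    simp only [Prod.fst_add, Prod.snd_add, Prod.smul_fst, Prod.smul_snd, smul_eq_mul]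
    have a := key _ _ hx.1 hx.2.1 i.1.2
    have b := key _ _ hx.2.2.1 hx.2.2.2 i.2.2
    exact ⟨a.1, a.2, b.1, b.2⟩

end Pool.Agent.MP_c70b3b_mp

end

section

open MeasureTheory ProbabilityTheory Filter Topology
open scoped symmDiff ENNReal

namespace Pool.Agent.MP_c70b3b_mp

/-- The gauge field equal to `s i` on the block `B i`. -/
def blk {ι : Type} [Fintype ι] (B : ι → Finset V) (s : ι → ℤˣ) : S :=
  fun x => ∏ i, if x ∈ B i then s i else 1

/-- The finite volume average of a character. -/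
noncomputable def oddAv (K : W) (L A : Finset V) (σ : S) : ℝ :=
  (∑ U ∈ L.powerset, chr A (flp U σ) * Real.exp (en K (touch L) (flp U σ))) /
    (∑ U ∈ L.powerset, Real.exp (en K (touch L) (flp U σ)))

lemma odddet_abs (K : W) (L A : Finset V) (σ : S) : |oddAv K L A σ| ≤ 1 := by
  have hpos : 0 < ∑ U ∈ L.powerset, Real.exp (en K (touch L) (flp U σ)) :=
    Finset.sum_pos (fun _ _ => Real.exp_pos _) ⟨∅, Finset.empty_mem_powerset L⟩
  rw [oddAv, abs_div, abs_of_pos hpos, div_le_one hpos]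
  refine (Finset.abs_sum_le_sum_abs _ _).trans (le_of_eq (Finset.sum_congr rfl fun U _ => ?_))
  rw [abs_mul, abs_chr, one_mul, abs_of_pos (Real.exp_pos _)]

lemma odddet_gauge (g : S) (K : W) (L A : Finset V) (σ : S) :
    oddAv (gauge g K) L A σ = chr A g * oddAv K L A (g * σ) := by
  have h1 : ∀ U : Finset V, flp U (g * σ) = g * flp U σ := fun U => by
    funext x
    simp only [flp, Pi.mul_apply]
    split_ifs <;> simp
  have h2 : ∀ τ : S, en (gauge g K) (touch L) τ = en K (touch L) (g * τ) := fun τ =>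
    Finset.sum_congr rfl fun e _ => by rw [gauge, bond_mul]; ring
  have h3 : chr A g * chr A g = 1 := by
    rw [chr, ← Finset.prod_mul_distrib]
    exact Finset.prod_eq_one fun x _ => sp_mul_self _
  simp only [oddAv, h1, h2, chr_mul]
  rw [← mul_div_assoc, Finset.mul_sum]
  refine congrArg (· / _) (Finset.sum_congr rfl fun U _ => ?_)
  rw [← mul_assoc, ← mul_assoc, h3, one_mul]

lemma odddet_flp (K : W) (L A : Finset V) (σ : S) {U' : Finset V} (hU : U' ⊆ L) :
    oddAv K L A (flp U' σ) = oddAv K L A σ := by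
  have key : ∀ f : S → ℝ, ∑ U ∈ L.powerset, f (flp U (flp U' σ)) =
      ∑ U ∈ L.powerset, f (flp U σ) := fun f => by
    have hm : ∀ U ∈ L.powerset, U ∆ U' ∈ L.powerset := fun U h =>
      Finset.mem_powerset.2 (symmDiff_le_sup.trans (sup_le (Finset.mem_powerset.1 h) hU))
    exact Finset.sum_nbij' (· ∆ U') (· ∆ U') hm hm (fun U _ => symmDiff_symmDiff_cancel_right _ _)
      (fun U _ => symmDiff_symmDiff_cancel_right _ _) fun U _ => by rw [flp_flp']
  rw [oddAv, oddAv, key fun τ => chr A τ * Real.exp (en K (touch L) τ),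
    key fun τ => Real.exp (en K (touch L) τ)]

lemma odddet_ring (K : W) {N : ℕ} {A : Finset V} (hA : A ⊆ box N) {σ σ' : S}
    (h : ∀ k < 8 * N, σ (bv N k) = σ' (bv N k)) :
    oddAv K (box N) A σ = oddAv K (box N) A σ' := by
  obtain ⟨τ, hτ⟩ : ∃ τ, τ = flp ((box N).filter fun x => σ x ≠ σ' x) σ := ⟨_, rfl⟩
  have h1 : ∀ x ∈ box N, τ x = σ' x := fun x hx => by
    rw [hτ, flp]
    by_cases e : σ x = σ' x
    · rw [if_neg (by simp [e]), e]
    · rw [if_pos (Finset.mem_filter.2 ⟨hx, e⟩)]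
      rcases Int.units_eq_one_or (σ x) with e1 | e1 <;>
        rcases Int.units_eq_one_or (σ' x) with e2 | e2 <;> simp_all
  have h2 : ∀ k < 8 * N, τ (bv N k) = σ' (bv N k) := fun k hk => by
    rw [hτ, flp, if_neg fun e => bv_not_mem hk (Finset.mem_filter.1 e).1, h k hk]
  have h3 : ∀ e ∈ touch (box N), τ e.1 = σ' e.1 ∧ τ (tip e) = σ' (tip e) := fun e he => by
    by_cases hc : e ∈ cob (box N)
    · obtain ⟨k, hk, rfl⟩ := exists_port hc
      obtain ⟨u, hu, e1 | e1⟩ := port_ends hk
      · rw [e1.1, e1.2]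
        exact ⟨h2 k hk, h1 u hu⟩
      · rw [e1.1, e1.2]
        exact ⟨h1 u hu, h2 k hk⟩
    · rw [mem_cob, not_not] at hc
      rw [mem_touch] at he
      exact ⟨h1 _ (by tauto), h1 _ (by tauto)⟩
  have h4 : ∀ U, chr A (flp U τ) = chr A (flp U σ') := fun U =>
    Finset.prod_congr rfl fun x hx => by rw [sp_flp, sp_flp, h1 x (hA hx)]
  have h5 : ∀ U, en K (touch (box N)) (flp U τ) = en K (touch (box N)) (flp U σ') := fun U =>
    Finset.sum_congr rfl fun e he => by
      rw [bond_flp, bond_flp, bond, bond, (h3 e he).1, (h3 e he).2]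
  rw [← odddet_flp K (box N) A σ (Finset.filter_subset (fun x => σ x ≠ σ' x) _), ← hτ]
  simp only [oddAv, h4, h5]

lemma odddet_cosh {ι : Type} [Fintype ι] [DecidableEq ι] (c : ι → ℝ) (hc : ∀ i, |c i| ≤ 1)
    (l : ℝ) : ∑ s : ι → ℤˣ, Real.exp (l * ∑ i, sp (s i) * c i) ≤
      2 ^ Fintype.card ι * Real.exp (Fintype.card ι * l ^ 2 / 2) := by
  have h1 : ∑ s : ι → ℤˣ, Real.exp (l * ∑ i, sp (s i) * c i) =
      ∏ i, ∑ u : ℤˣ, Real.exp (l * (sp u * c i)) := by
    rw [Finset.prod_univ_sum, Fintype.piFinset_univ]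
    exact Finset.sum_congr rfl fun s _ => by rw [Finset.mul_sum, Real.exp_sum]
  have h2 : ∀ i, ∑ u : ℤˣ, Real.exp (l * (sp u * c i)) ≤ 2 * Real.exp (l ^ 2 / 2) := fun i => by
    have e1 := Real.cosh_le_exp_half_sq (l * c i)
    have e2 : Real.exp ((l * c i) ^ 2 / 2) ≤ Real.exp (l ^ 2 / 2) := by
      have := sq_le_one_iff_abs_le_one (c i) |>.2 (hc i)
      exact Real.exp_le_exp.2 (by rw [mul_pow]; nlinarith [sq_nonneg l])
    rw [Real.cosh_eq] at e1
    rw [UnitsInt.univ, Finset.sum_pair (by decide), sp_neg, sp_one, one_mul, neg_one_mul, mul_neg]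
    linarith
  rw [h1]
  refine (Finset.prod_le_prod (fun i _ => Finset.sum_nonneg fun _ _ => (Real.exp_pos _).le)
    fun i _ => h2 i).trans (le_of_eq ?_)
  rw [Finset.prod_const, Finset.card_univ, mul_pow, ← Real.exp_nat_mul, mul_div_assoc]

theorem odd_det {ι : Type} [Fintype ι] [DecidableEq ι] (N : ℕ) (B A : ι → Finset V)
    (hB : ∀ i j, i ≠ j → Disjoint (B i) (B j)) (hbox : ∀ i, B i ⊆ box N) (hA : ∀ i, A i ⊆ B i)
    (hodd : ∀ i, Odd (A i).card) (a : ι → ℝ) (ha : ∀ i, |a i| ≤ 1) (K : W)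
    (ρ : (ι → ℤˣ) → Measure S) (hp : ∀ s, IsProbabilityMeasure (ρ s))
    (hρ : ∀ s, Gibbs (gauge (blk B s) K) (ρ s)) (t l : ℝ) (hl : 0 < l) :
    (∑ s, ∑ i, a i * ∫ σ, chr (A i) σ ∂ρ s) / 2 ^ Fintype.card ι ≤
      t + 2 ^ (8 * N) * Real.exp (Fintype.card ι * l ^ 2 / 2 - l * t) / l := by
  classical
  obtain ⟨res, hres⟩ : ∃ res : S → Fin (8 * N) → ℤˣ, res = fun σ k => σ (bv N k) := ⟨_, rfl⟩
  have hm : Measurable res := hres ▸ measurable_pi_lambda _ fun k => measurable_pi_apply _
  obtain ⟨b, hb1, hb2⟩ : ∃ b : ι → (Fin (8 * N) → ℤˣ) → ℝ, (∀ i η, |b i η| ≤ 1) ∧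
      ∀ i σ, oddAv K (box N) (A i) σ = b i (res σ) :=
    ⟨fun i η => oddAv K (box N) (A i) (Function.invFun res η), fun _ _ => odddet_abs _ _ _ _,
      fun i σ => odddet_ring K ((hA i).trans (hbox i)) fun k hk => by
        have h := congrFun (Function.invFun_eq (f := res) ⟨σ, rfl⟩) ⟨k, hk⟩
        rw [hres] at h ⊢
        exact h.symm⟩
  have h1 : ∀ s i, chr (A i) (blk B s) = sp (s i) := fun s i => by
    have e : ∀ x ∈ A i, sp (blk B s x) = sp (s i) := fun x hx => by
      rw [blk, Finset.prod_eq_single i (fun j _ hj => if_neg fun h =>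
        Finset.disjoint_left.1 (hB j i hj) h (hA i hx)) (by simp), if_pos (hA i hx)]
    rw [chr, Finset.prod_congr rfl e, Finset.prod_const]
    rcases sp_cases (s i) with h | h <;> rw [h]
    exacts [one_pow _, (hodd i).neg_one_pow]
  have h2 : ∀ s σ, res (blk B s * σ) = res σ := fun s σ => by
    funext k
    rw [hres]
    change blk B s _ * _ = _
    rw [blk, Finset.prod_eq_one fun j _ => if_neg fun h => bv_not_mem k.2 (hbox j h), one_mul]
  have h3 : ∀ s i, a i * ∫ σ, chr (A i) σ ∂ρ s = ∫ σ, sp (s i) * (a i * b i (res σ)) ∂ρ s :=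
    fun s i => by
      rw [(hρ s).avg (box N) (measurable_chr (A i)) 1 fun σ => (abs_chr _ σ).le,
        ← integral_const_mul]
      refine integral_congr_ae (Eventually.of_forall fun σ => ?_)
      change a i * oddAv (gauge (blk B s) K) (box N) (A i) σ = _
      rw [odddet_gauge, h1, hb2, h2]
      ring
  have hc : ∀ η i, |a i * b i η| ≤ 1 := fun η i => by
    rw [abs_mul]
    exact mul_le_one₀ (ha i) (abs_nonneg _) (hb1 i η)
  have h4 : ∀ s, ∑ i, a i * ∫ σ, chr (A i) σ ∂ρ s ≤
      t + (∑ η : Fin (8 * N) → ℤˣ, Real.exp (l * ∑ i, sp (s i) * (a i * b i η))) *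
        Real.exp (-(l * t)) / l := fun s => by
    have := hp s
    have hi : ∀ i ∈ Finset.univ, Integrable (fun σ => sp (s i) * (a i * b i (res σ))) (ρ s) :=
      fun i _ => integrable_of_bdd
        ((Measurable.of_discrete (f := fun η => sp (s i) * (a i * b i η))).comp hm) 1 fun σ => by
          rw [abs_mul, abs_sp, one_mul]
          exact hc _ i
    simp only [h3]
    rw [← integral_finsetSum _ hi]
    refine (integral_mono (integrable_finsetSum _ hi) (integrable_const _) fun σ => ?_).trans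
      (le_of_eq (by rw [integral_const, probReal_univ, one_smul]))
    have e1 := Finset.single_le_sum (f := fun η : Fin (8 * N) → ℤˣ =>
      Real.exp (l * ∑ i, sp (s i) * (a i * b i η))) (fun _ _ => (Real.exp_pos _).le)
      (Finset.mem_univ (res σ))
    have e2 := Real.add_one_le_exp (l * ∑ i, sp (s i) * (a i * b i (res σ)) + -(l * t))
    rw [Real.exp_add] at e2
    have e3 := mul_le_mul_of_nonneg_right e1 (Real.exp_pos (-(l * t))).le
    change ∑ i, sp (s i) * (a i * b i (res σ)) ≤ _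
    rw [← sub_le_iff_le_add', le_div_iff₀ hl]
    linarith
  have h5 : ∑ s : ι → ℤˣ, ∑ η : Fin (8 * N) → ℤˣ, Real.exp (l * ∑ i, sp (s i) * (a i * b i η)) ≤
      2 ^ (8 * N) * (2 ^ Fintype.card ι * Real.exp (Fintype.card ι * l ^ 2 / 2)) := by
    rw [Finset.sum_comm]
    refine (Finset.sum_le_sum fun η _ => odddet_cosh _ (hc η) l).trans (le_of_eq ?_)
    simp [Fintype.card_units_int]
  have h6 : (0 : ℝ) < 2 ^ Fintype.card ι := by positivity
  rw [div_le_iff₀ h6]
  refine (Finset.sum_le_sum fun s _ => h4 s).trans ?_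
  rw [Finset.sum_add_distrib, ← Finset.sum_div, ← Finset.sum_mul, sub_eq_add_neg, Real.exp_add,
    add_mul]
  refine add_le_add (le_of_eq (by simp [Fintype.card_units_int, mul_comm])) ?_
  refine (div_le_div_of_nonneg_right (mul_le_mul_of_nonneg_right h5 (Real.exp_pos _).le)
    hl.le).trans (le_of_eq (by ring))

end Pool.Agent.MP_c70b3b_mp

end

section

open MeasureTheory ProbabilityTheory Filter Topology
open scoped symmDiff ENNReal

namespace Pool.Agent.MP_c70b3b_mp

lemma approx_gauss (a : ℝ) : gaussianReal a 1 =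
    (gaussianReal 0 1).withDensity fun x => ENNReal.ofReal (Real.exp (a * x - a ^ 2 / 2)) := by
  rw [gaussianReal_of_var_ne_zero a one_ne_zero, gaussianReal_of_var_ne_zero 0 one_ne_zero,
    ← withDensity_mul _ (measurable_gaussianPDF _ _) (by fun_prop)]
  congr 1
  funext x
  simp only [gaussianPDF, Pi.mul_apply]
  rw [← ENNReal.ofReal_mul (gaussianPDFReal_nonneg _ _ _)]
  congr 1
  simp only [gaussianPDFReal]
  rw [mul_assoc _ (Real.exp _), ← Real.exp_add]
  congr 2
  push_cast
  ring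

lemma approx_cyl (e : E) (a : ℝ) (s : Finset E) (he : e ∈ s) (t : E → Set ℝ)
    (ht : ∀ i, MeasurableSet (t i)) :
    (P.withDensity fun w => ENNReal.ofReal (Real.exp (a * w e - a ^ 2 / 2))) (Set.pi s t) =
      ∏ i ∈ s, gaussianReal ((Pi.single e a : W) i) 1 (t i) := by
  have hm : MeasurableSet (Set.pi (s : Set E) t) := .pi s.countable_toSet fun i _ => ht i
  let Y : E → ℝ → ℝ≥0∞ := fun i => (t i).indicator fun x =>
    ENNReal.ofReal (Real.exp ((Pi.single e a : W) i * x - ((Pi.single e a : W) i) ^ 2 / 2))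
  have hY : ∀ i, Measurable (Y i) := fun i => Measurable.indicator (by fun_prop) (ht i)
  have h1 := lintegral_prod_eq_prod_lintegral_of_indepFun s (fun i (w : W) => Y i (w i))
    (iIndep_P.comp Y hY) (fun i => (hY i).comp (measurable_pi_apply i))
  rw [withDensity_apply _ hm, ← lintegral_indicator hm]
  have h2 : ∀ w : W, (Set.pi (s : Set E) t).indicator
      (fun w : W => ENNReal.ofReal (Real.exp (a * w e - a ^ 2 / 2))) w = ∏ i ∈ s, Y i (w i) := by
    intro w
    by_cases hw : w ∈ Set.pi (s : Set E) t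
    · rw [Set.indicator_of_mem hw, Finset.prod_eq_single e]
      · simp only [Y]
        rw [Set.indicator_of_mem (hw e he), Pi.single_eq_same]
      · intro i hi hie
        simp only [Y]
        rw [Set.indicator_of_mem (hw i hi), Pi.single_eq_of_ne hie]
        simp
      · intro h
        exact absurd he h
    · rw [Set.indicator_of_notMem hw]
      simp only [Set.mem_pi, Finset.mem_coe, not_forall] at hw
      obtain ⟨i, hi, hwi⟩ := hw
      refine (Finset.prod_eq_zero hi ?_).symm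
      simp only [Y]
      rw [Set.indicator_of_notMem hwi]
  simp_rw [h2]
  rw [h1]
  refine Finset.prod_congr rfl fun i _ => ?_
  rw [(mp_eval i).lintegral_comp (hY i), approx_gauss ((Pi.single e a : W) i),
    withDensity_apply _ (ht i), ← lintegral_indicator (ht i)]

theorem shift_formula (e : E) (a : ℝ) :
    P.map (fun w : W => w + Pi.single e a) =
      P.withDensity fun w => ENNReal.ofReal (Real.exp (a * w e - a ^ 2 / 2)) := by
  have h := Measure.infinitePi_map_pi (fun _ : E => gaussianReal 0 1)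
    (f := fun i (x : ℝ) => x + (Pi.single e a : W) i) (fun i => measurable_add_const _)
  simp only [gaussianReal_map_add_const, zero_add] at h
  refine Eq.trans h (Measure.eq_infinitePi _ fun s t ht => ?_).symm
  let t' : E → Set ℝ := fun i => if i ∈ s then t i else Set.univ
  have ht' : ∀ i, MeasurableSet (t' i) := fun i => by
    simp only [t']
    split_ifs
    · exact ht i
    · exact MeasurableSet.univ
  have h1 : Set.pi (s : Set E) t = Set.pi ((insert e s : Finset E) : Set E) t' := by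
    ext w
    simp only [Set.mem_pi, Finset.mem_coe, t']
    constructor
    · intro hw i _
      split_ifs with hi
      · exact hw i hi
      · trivial
    · intro hw i hi
      simpa [hi] using hw i (Finset.mem_insert_of_mem hi)
  rw [h1, approx_cyl e a _ (Finset.mem_insert_self e s) t' ht']
  symm
  refine Finset.prod_subset_one_on_sdiff (Finset.subset_insert e s) (fun i hi => ?_)
    (fun i hi => ?_)
  · simp [t', (Finset.mem_sdiff.mp hi).2]
  · simp [t', hi]

lemma approx_cont_cut (B : Finset E) : Continuous (cut B) := by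
  refine continuous_pi fun e => ?_
  unfold cut
  split_ifs
  · exact continuous_apply e
  · exact continuous_const

lemma approx_tendsto_cut (w : W) : Tendsto (fun B : Finset E => cut B w) atTop (𝓝 w) := by
  refine tendsto_pi_nhds.mpr fun e => tendsto_const_nhds.congr' ?_
  filter_upwards [eventually_ge_atTop ({e} : Finset E)] with B hB
  simp [cut, hB (Finset.mem_singleton_self e)]

lemma approx_clip {C x : ℝ} (hx : |x| ≤ C) (y : ℝ) : |x - max (-C) (min C y)| ≤ |x - y| := by
  obtain ⟨h1, h2⟩ := abs_le.mp hx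
  rcases le_total y C with h | h
  · rw [min_eq_right h]
    rcases le_total y (-C) with h' | h'
    · rw [max_eq_left h', abs_of_nonneg (by linarith), abs_of_nonneg (by linarith)]
      linarith
    · rw [max_eq_right h']
  · rw [min_eq_left h, max_eq_right (by linarith), abs_of_nonpos (by linarith),
      abs_of_nonpos (by linarith)]
    linarith

lemma approx_sub_le {C D x y : ℝ} (hx : |x| ≤ C) (hy : |y| ≤ D) : |(|x - y|)| ≤ C + D := by
  rw [abs_abs]
  exact (abs_sub x y).trans (add_le_add hx hy)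

theorem exists_local {α : W → ℝ} (hα : Measurable α) {C : ℝ} (hb : ∀ w, |α w| ≤ C) {ε : ℝ}
    (hε : 0 < ε) : ∃ (B : Finset E) (g : W → ℝ), Continuous g ∧ DependsOn g (B : Set E) ∧
      (∀ w, |g w| ≤ C) ∧ ∫ w, |α w - g w| ∂P ≤ ε := by
  have hC : 0 ≤ C := (abs_nonneg _).trans (hb 0)
  have hi : Integrable α P := integrable_of_bdd hα C hb
  obtain ⟨g0, hg0, hg0i⟩ := hi.exists_boundedContinuous_integral_sub_le (half_pos hε)
  let g1 : W → ℝ := fun w => max (-C) (min C (g0 w))
  have hg1 : Continuous g1 := continuous_const.max (continuous_const.min g0.continuous)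
  have hb1 : ∀ w, |g1 w| ≤ C := fun w =>
    abs_le.mpr ⟨le_max_left _ _, max_le (by linarith) (min_le_left _ _)⟩
  have h1 : ∫ w, |α w - g1 w| ∂P ≤ ε / 2 := by
    refine le_trans (integral_mono_of_nonneg (Eventually.of_forall fun w => abs_nonneg _)
      (hi.sub hg0i).norm (Eventually.of_forall fun w => approx_clip (hb w) _)) hg0
  have h2 : Tendsto (fun B : Finset E => ∫ w, |g1 w - g1 (cut B w)| ∂P) atTop
      (𝓝 (∫ _ : W, (0 : ℝ) ∂P)) := by
    refine tendsto_integral_filter_of_dominated_convergence (fun _ => C + C)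
      (Eventually.of_forall fun B => ?_) (Eventually.of_forall fun B =>
        Eventually.of_forall fun w => approx_sub_le (hb1 _) (hb1 _)) (integrable_const _)
      (Eventually.of_forall fun w => ?_)
    · exact (hg1.sub (hg1.comp (approx_cont_cut B))).abs.aestronglyMeasurable
    · have := (((hg1.tendsto w).comp (approx_tendsto_cut w)).const_sub (g1 w)).abs
      simpa using this
  rw [integral_zero] at h2
  obtain ⟨B, hB⟩ := (h2.eventually (gt_mem_nhds (half_pos hε))).exists
  have hc : Continuous fun w => g1 (cut B w) := hg1.comp (approx_cont_cut B)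
  refine ⟨B, fun w => g1 (cut B w), hc, fun w w' hw => ?_, fun w => hb1 _, ?_⟩
  · have : cut B w = cut B w' := by
      funext i
      unfold cut
      split_ifs with hi
      · exact hw i hi
      · rfl
    simp only [this]
  · have i1 : Integrable (fun w => |α w - g1 w|) P :=
      integrable_of_bdd (hα.sub hg1.measurable).abs _ fun w => approx_sub_le (hb w) (hb1 _)
    have i2 : Integrable (fun w => |g1 w - g1 (cut B w)|) P :=
      integrable_of_bdd (hg1.sub hc).abs.measurable _ fun w => approx_sub_le (hb1 w) (hb1 _)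
    calc ∫ w, |α w - g1 (cut B w)| ∂P
        ≤ ∫ w, (|α w - g1 w| + |g1 w - g1 (cut B w)|) ∂P :=
          integral_mono_of_nonneg (Eventually.of_forall fun w => abs_nonneg _) (i1.add i2)
            (Eventually.of_forall fun w => abs_sub_le _ _ _)
      _ = ∫ w, |α w - g1 w| ∂P + ∫ w, |g1 w - g1 (cut B w)| ∂P := integral_add i1 i2
      _ ≤ ε := by linarith

theorem exists_sign {h : W → ℝ} (hh : Measurable h) {C : ℝ} (hb : ∀ w, |h w| ≤ C) {ε : ℝ}
    (hε : 0 < ε) : ∃ (B : Finset E) (φ : W → ℝ), Measurable φ ∧ DependsOn φ (B : Set E) ∧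
      (∀ w, φ w = 1 ∨ φ w = -1) ∧ ∫ w, |h w| ∂P - ε ≤ ∫ w, φ w * h w ∂P := by
  obtain ⟨B, g, hg, hd, hgb, hi⟩ := exists_local hh hb (half_pos hε)
  let φ : W → ℝ := fun w => if 0 ≤ g w then 1 else -1
  have hφ : Measurable φ :=
    Measurable.ite (measurableSet_le measurable_const hg.measurable) measurable_const
      measurable_const
  have hφ1 : ∀ w, φ w = 1 ∨ φ w = -1 := fun w => by
    simp only [φ]
    split_ifs <;> simp
  refine ⟨B, φ, hφ, fun w w' hw => ?_, hφ1, ?_⟩
  · simp only [φ, hd hw]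
  · have i1 : Integrable (fun w => |h w - g w|) P :=
      integrable_of_bdd (hh.sub hg.measurable).abs _ fun w => approx_sub_le (hb w) (hgb _)
    have i2 : Integrable (fun w => |h w|) P :=
      integrable_of_bdd hh.abs C fun w => by rw [abs_abs]; exact hb w
    have i3 : Integrable (fun w => φ w * h w) P :=
      integrable_of_bdd (hφ.mul hh) C fun w => by
        rcases hφ1 w with h1 | h1 <;> simpa [h1] using hb w
    have h3 : ∫ w, (|h w| - 2 * |h w - g w|) ∂P ≤ ∫ w, φ w * h w ∂P := by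
      refine integral_mono (i2.sub (i1.const_mul 2)) i3 fun w => ?_
      simp only [φ]
      split_ifs with h0
      · rcases abs_cases (h w) with h1 | h1 <;> rcases abs_cases (h w - g w) with h2 | h2 <;>
          linarith [h1.1, h1.2, h2.1, h2.2]
      · rw [not_le] at h0
        rcases abs_cases (h w) with h1 | h1 <;> rcases abs_cases (h w - g w) with h2 | h2 <;>
          linarith [h1.1, h1.2, h2.1, h2.2]
    rw [integral_sub i2 (i1.const_mul 2), integral_const_mul] at h3
    linarith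

lemma approx_shift_le {f : W → ℝ} (hf : Measurable f) {M : ℝ} (h0 : ∀ w, 0 ≤ f w)
    (hM : ∀ w, f w ≤ M) (e : E) {a : ℝ} (ha : |a| ≤ 1) {l : ℝ} (hl : 0 < l) :
    ∫ w, f (w + Pi.single e a) ∂P ≤ l * ∫ w, f w ∂P + 3 * M / l := by
  have hM0 : 0 ≤ M := (h0 0).trans (hM 0)
  have hm : Measurable fun w : W => w + Pi.single e a := measurable_add_const _
  have hq : Measurable fun w : W => Real.exp (a * w e - a ^ 2 / 2) := by fun_prop
  have i1 : Integrable f P :=
    integrable_of_bdd hf M fun w => by rw [abs_of_nonneg (h0 w)]; exact hM w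
  have i2 : Integrable (fun w : W => Real.exp (2 * a * w e)) P :=
    (mp_eval e).integrable_comp_of_integrable (integrable_exp_mul_gaussianReal (2 * a))
  have e2 : ∫ w : W, Real.exp (2 * a * w e) ∂P = Real.exp (2 * a ^ 2) := by
    have := mgf_gaussianReal (mp_eval e).map_eq (2 * a)
    rw [mgf] at this
    rw [this]
    congr 1
    push_cast
    ring
  rw [← integral_map hm.aemeasurable hf.aestronglyMeasurable, shift_formula,
    integral_withDensity_eq_integral_toReal_smul hq.ennreal_ofReal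
      (Eventually.of_forall fun w => ENNReal.ofReal_lt_top)]
  have ha2 : a ^ 2 ≤ 1 := by
    rw [← sq_abs]
    exact pow_le_one₀ (abs_nonneg a) ha
  calc ∫ w : W, (ENNReal.ofReal (Real.exp (a * w e - a ^ 2 / 2))).toReal • f w ∂P
      ≤ ∫ w : W, (l * f w + M / l * Real.exp (-a ^ 2) * Real.exp (2 * a * w e)) ∂P := by
        refine integral_mono_of_nonneg (Eventually.of_forall fun w => ?_)
          ((i1.const_mul l).add (i2.const_mul _)) (Eventually.of_forall fun w => ?_)
        · exact smul_nonneg ENNReal.toReal_nonneg (h0 w)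
        · have hq0 := Real.exp_pos (a * w e - a ^ 2 / 2)
          have hq2 : Real.exp (-a ^ 2) * Real.exp (2 * a * w e) =
              Real.exp (a * w e - a ^ 2 / 2) * Real.exp (a * w e - a ^ 2 / 2) := by
            rw [← Real.exp_add, ← Real.exp_add]
            congr 1
            ring
          simp only [ENNReal.toReal_ofReal hq0.le, smul_eq_mul]
          rw [mul_assoc, hq2]
          generalize Real.exp (a * w e - a ^ 2 / 2) = q at hq0
          have h1 := h0 w
          have h2 := hM w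
          rcases le_total q l with h | h
          · have : 0 ≤ M / l * (q * q) := by positivity
            nlinarith
          · have h3 : M * q ≤ M / l * (q * q) := by
              rw [div_mul_eq_mul_div, le_div_iff₀ hl]
              have := mul_nonneg hM0 hq0.le
              nlinarith
            have : 0 ≤ l * f w := by positivity
            nlinarith
    _ = l * ∫ w, f w ∂P + M / l * Real.exp (a ^ 2) := by
        rw [integral_add (i1.const_mul l) (i2.const_mul _), integral_const_mul, integral_const_mul,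
          e2, mul_assoc, ← Real.exp_add]
        congr 3
        ring
    _ ≤ l * ∫ w, f w ∂P + 3 * M / l := by
        have h1 : Real.exp (a ^ 2) ≤ 3 :=
          (Real.exp_le_exp.mpr ha2).trans (Real.exp_one_lt_d9.le.trans (by norm_num))
        have h2 : 0 ≤ M / l := by positivity
        have h3 : 3 * M / l = M / l * 3 := by ring
        rw [h3]
        gcongr

theorem shift_cont {α : W → ℝ} (hα : Measurable α) {C : ℝ} (hb : ∀ w, |α w| ≤ C) (e : E) {ε : ℝ}
    (hε : 0 < ε) : ∃ δ : ℝ, 0 < δ ∧ ∀ a : ℝ, |a| ≤ δ →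
      ∫ w, |α (w + Pi.single e a) - α w| ∂P ≤ ε := by
  have hC : 0 ≤ C := (abs_nonneg _).trans (hb 0)
  obtain ⟨l, hl, hl2⟩ : ∃ l : ℝ, 0 < l ∧ 3 * (C + C) / l ≤ ε / 3 := by
    refine ⟨(18 * C + 1) / ε, by positivity, ?_⟩
    rw [div_le_iff₀ (by positivity)]
    have : ε / 3 * ((18 * C + 1) / ε) = (18 * C + 1) / 3 := by field_simp
    rw [this]
    linarith
  have hη : 0 < ε / 3 / (l + 1) := by positivity
  obtain ⟨B, g, hg, -, hgb, hi⟩ := exists_local hα hb hη
  have hs : ∀ w : W, Continuous fun a : ℝ => w + Pi.single e a := fun w =>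
    continuous_const.add (continuous_single (A := fun _ : E => ℝ) e)
  have h2 : Tendsto (fun a : ℝ => ∫ w, |g (w + Pi.single e a) - g w| ∂P) (𝓝 0)
      (𝓝 (∫ _ : W, (0 : ℝ) ∂P)) := by
    refine tendsto_integral_filter_of_dominated_convergence (fun _ => C + C)
      (Eventually.of_forall fun a => ?_) (Eventually.of_forall fun a =>
        Eventually.of_forall fun w => approx_sub_le (hgb _) (hgb _)) (integrable_const _)
      (Eventually.of_forall fun w => ?_)
    · exact ((hg.comp (continuous_id.add continuous_const)).sub hg).abs.aestronglyMeasurable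
    · have := (((hg.comp (hs w)).tendsto 0).sub_const (g w)).abs
      simpa using this
  rw [integral_zero] at h2
  obtain ⟨δ, hδ, hd⟩ := Metric.eventually_nhds_iff.mp
    (h2.eventually (gt_mem_nhds (show (0 : ℝ) < ε / 3 by positivity)))
  refine ⟨min 1 (δ / 2), lt_min one_pos (half_pos hδ), fun a ha => ?_⟩
  have ha1 : |a| ≤ 1 := ha.trans (min_le_left _ _)
  have ha2 : dist a 0 < δ := by
    rw [Real.dist_eq, sub_zero]
    linarith [ha.trans (min_le_right _ _)]
  have h3 := hd ha2
  have hm : Measurable fun w : W => w + Pi.single e a := measurable_add_const _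
  have hf : Measurable fun w => |α w - g w| := (hα.sub hg.measurable).abs
  have hfb : ∀ w, |(|α w - g w|)| ≤ C + C := fun w => approx_sub_le (hb w) (hgb w)
  have h4 := approx_shift_le hf (fun w => abs_nonneg _) (fun w => (le_abs_self _).trans (hfb w))
    e ha1 hl
  have i1 : Integrable (fun w => |α (w + Pi.single e a) - g (w + Pi.single e a)|) P :=
    integrable_of_bdd (hf.comp hm) _ fun w => hfb _
  have i2 : Integrable (fun w => |g (w + Pi.single e a) - g w|) P :=
    integrable_of_bdd ((hg.measurable.comp hm).sub hg.measurable).abs _ fun w =>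
      approx_sub_le (hgb _) (hgb _)
  have i3 : Integrable (fun w => |α w - g w|) P := integrable_of_bdd hf _ hfb
  have h5 : (l + 1) * ∫ w, |α w - g w| ∂P ≤ ε / 3 := by
    rw [le_div_iff₀ (by positivity)] at hi
    linarith
  calc ∫ w, |α (w + Pi.single e a) - α w| ∂P
      ≤ ∫ w, (|α (w + Pi.single e a) - g (w + Pi.single e a)| + |g (w + Pi.single e a) - g w| +
          |α w - g w|) ∂P := by
        refine integral_mono_of_nonneg (Eventually.of_forall fun w => abs_nonneg _)
          ((i1.add i2).add i3) (Eventually.of_forall fun w => ?_)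
        have h6 := abs_sub_le (α (w + Pi.single e a)) (g (w + Pi.single e a)) (α w)
        have h7 := abs_sub_le (g (w + Pi.single e a)) (g w) (α w)
        have h8 := abs_sub_comm (g w) (α w)
        simp only
        linarith
    _ = ∫ w, |α (w + Pi.single e a) - g (w + Pi.single e a)| ∂P +
          ∫ w, |g (w + Pi.single e a) - g w| ∂P + ∫ w, |α w - g w| ∂P := by
        rw [← integral_add i1 i2]
        exact integral_add (i1.add i2) i3
    _ ≤ ε := by linarith

end Pool.Agent.MP_c70b3b_mp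

end

section

open MeasureTheory ProbabilityTheory Filter Topology
open scoped symmDiff ENNReal

namespace Pool.Agent.MP_c70b3b_mp

lemma odd_meas (κ : Kernel W S) [IsMarkovKernel κ] (A : Finset V) :
    Measurable fun w => ∫ σ, chr A σ ∂κ w :=
  ((measurable_chr A).stronglyMeasurable.integral_kernel (κ := κ)).measurable

lemma odd_abs (κ : Kernel W S) [IsMarkovKernel κ] (A : Finset V) (w : W) :
    |∫ σ, chr A σ ∂κ w| ≤ 1 := by
  have h := norm_integral_le_of_norm_le_const (μ := κ w) (f := chr A) (C := 1)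
    (Eventually.of_forall fun σ => by rw [Real.norm_eq_abs, abs_chr])
  simpa using h

lemma odd_chr_shS (A : Finset V) (z : V) (σ : S) :
    chr A (shS z σ) = chr (A.image (· + z)) σ := by
  unfold chr
  rw [Finset.prod_image (fun x _ y _ h => add_right_cancel h)]
  rfl

lemma odd_blk {ι : Type} [Fintype ι] [DecidableEq ι] (B : ι → Finset V)
    (hB : ∀ i j, i ≠ j → Disjoint (B i) (B j)) (s : ι → ℤˣ) {i : ι} {x : V} (hx : x ∈ B i) :
    blk B s x = s i := by
  unfold blk
  rw [Finset.prod_eq_single i]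
  · simp [hx]
  · intro j _ hj
    rw [if_neg (Finset.disjoint_left.1 (hB i j (Ne.symm hj)) hx)]
  · simp

lemma odd_term {β : ℝ} {k : ℤ} {κ : Kernel W S} (h : CovGibbs β k κ) (A : Finset V)
    {φ : W → ℝ} (hφ : Measurable φ) (z : V) (g : S)
    (hg : ∀ w, φ (shW (k • z) (gauge g w)) = φ (shW (k • z) w)) :
    ∫ w, φ (shW (k • z) w) * ∫ σ, chr (A.image (· + k • z)) σ ∂κ (gauge g w) ∂P
      = ∫ w, φ w * ∫ σ, chr A σ ∂κ w ∂P := by
  have := h.markov
  have m1 : Measurable fun w => φ (shW (k • z) w) * ∫ σ, chr (A.image (· + k • z)) σ ∂κ w :=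
    (hφ.comp (measurable_shW _)).mul (odd_meas κ _)
  have m2 : Measurable fun w => φ w * ∫ σ, chr A σ ∂κ w := hφ.mul (odd_meas κ _)
  have e1 := integral_map (μ := P) (φ := gauge g) (measurable_gauge g).aemeasurable
    (f := fun w => φ (shW (k • z) w) * ∫ σ, chr (A.image (· + k • z)) σ ∂κ w)
    m1.aestronglyMeasurable
  rw [(mp_gauge g).map_eq] at e1
  have e2 := integral_map (μ := P) (φ := shW (k • z)) (measurable_shW _).aemeasurable
    (f := fun w => φ w * ∫ σ, chr A σ ∂κ w) m2.aestronglyMeasurable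
  rw [(mp_shW _).map_eq] at e2
  simp only [hg] at e1
  rw [← e1, e2]
  refine integral_congr_ae ?_
  filter_upwards [h.cov z] with w hw
  rw [hw, integral_map (measurable_shS _).aemeasurable (measurable_chr A).aestronglyMeasurable]
  simp only [odd_chr_shS]

lemma odd_num {c : ℝ} (hc : 0 < c) (c0 : ℕ) : ∃ n : ℕ, 0 < n ∧
    (n : ℝ) ^ 2 * (c / 4) + 2 ^ (8 * (c0 * n)) *
      Real.exp ((n : ℝ) ^ 2 * (c / 4) ^ 2 / 2 - c / 4 * ((n : ℝ) ^ 2 * (c / 4))) / (c / 4)
      < (n : ℝ) ^ 2 * (c / 2) := by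
  obtain ⟨n, hn⟩ := exists_nat_gt (256 * c0 / c ^ 2 + 4 / c)
  have h1 : (0 : ℝ) ≤ 256 * c0 / c ^ 2 := by positivity
  have h2 : (0 : ℝ) < 4 / c := by positivity
  have hn0 : (0 : ℝ) < n := by linarith
  refine ⟨n, by exact_mod_cast hn0, ?_⟩
  have h3 : 256 * (c0 : ℝ) ≤ n * c ^ 2 := by
    have : 256 * (c0 : ℝ) / c ^ 2 ≤ n := by linarith
    rwa [div_le_iff₀ (by positivity)] at this
  have h4 : 4 < n * c := by
    have : 4 / c < n := by linarith
    rwa [div_lt_iff₀ hc] at this
  have h5 : (2 : ℝ) ^ (8 * (c0 * n)) ≤ Real.exp (8 * (c0 * n)) := by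
    have h6 : (2 : ℝ) ≤ Real.exp 1 := by linarith [Real.add_one_le_exp (1 : ℝ)]
    calc (2 : ℝ) ^ (8 * (c0 * n)) ≤ Real.exp 1 ^ (8 * (c0 * n)) :=
          pow_le_pow_left₀ (by norm_num) h6 _
      _ = Real.exp (8 * (c0 * n)) := by rw [← Real.exp_nat_mul]; push_cast; ring_nf
  have h7 : (2 : ℝ) ^ (8 * (c0 * n)) *
      Real.exp ((n : ℝ) ^ 2 * (c / 4) ^ 2 / 2 - c / 4 * ((n : ℝ) ^ 2 * (c / 4))) ≤ 1 := by
    refine (mul_le_mul_of_nonneg_right h5 (Real.exp_pos _).le).trans ?_
    rw [← Real.exp_add, Real.exp_le_one_iff]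
    nlinarith [mul_le_mul_of_nonneg_left h3 hn0.le]
  have h8 : (2 : ℝ) ^ (8 * (c0 * n)) *
      Real.exp ((n : ℝ) ^ 2 * (c / 4) ^ 2 / 2 - c / 4 * ((n : ℝ) ^ 2 * (c / 4))) / (c / 4)
      < (n : ℝ) ^ 2 * (c / 4) := by
    rw [div_lt_iff₀ (by positivity)]
    nlinarith
  linarith

theorem odd_zero {β : ℝ} {k : ℤ} (hk : 0 < k) {κ : Kernel W S} (h : CovGibbs β k κ)
    (A : Finset V) (hA : Odd A.card) : ∀ᵐ w ∂P, ∫ σ, chr A σ ∂κ w = 0 := by
  have := h.markov
  have hm := odd_meas κ A
  have hint : Integrable (fun w => |∫ σ, chr A σ ∂κ w|) P :=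
    integrable_of_bdd hm.abs 1 fun w => by rw [abs_abs]; exact odd_abs κ A w
  have h0 : 0 ≤ ∫ w, |∫ σ, chr A σ ∂κ w| ∂P := integral_nonneg fun w => abs_nonneg _
  rcases h0.eq_or_lt with hc | hc
  · have := (integral_eq_zero_iff_of_nonneg (fun w => abs_nonneg _) hint).1 hc.symm
    filter_upwards [this] with w hw
    exact abs_eq_zero.1 hw
  exfalso
  set c := ∫ w, |∫ σ, chr A σ ∂κ w| ∂P with hcdef
  obtain ⟨B, φ, hφ, hdep, hφ1, hI⟩ := exists_sign hm (odd_abs κ A) (half_pos hc)
  have hφa : ∀ w, |φ w| ≤ 1 := fun w => by rcases hφ1 w with h1 | h1 <;> simp [h1]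
  set V0 : Finset V := A ∪ B.image (·.1) ∪ B.image tip with hV0
  obtain ⟨c0, hgrid⟩ := exists_grid hk V0
  obtain ⟨n, hn, hnum⟩ := odd_num hc c0
  obtain ⟨z, hz1, hz2⟩ := hgrid n hn
  set Bl : Fin n × Fin n → Finset V := fun i => V0.image (· + k • z i) with hBl
  set Al : Fin n × Fin n → Finset V := fun i => A.image (· + k • z i) with hAl
  have hdis : ∀ i j, i ≠ j → Disjoint (Bl i) (Bl j) := by
    intro i j hij
    rw [Finset.disjoint_left]
    intro x hx hx'
    obtain ⟨a, ha, rfl⟩ := Finset.mem_image.1 hx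
    obtain ⟨b, hb, hab⟩ := Finset.mem_image.1 hx'
    exact hz1 i j hij a ha b hb hab.symm
  have hbox : ∀ i, Bl i ⊆ box (c0 * n) := by
    intro i x hx
    obtain ⟨a, ha, rfl⟩ := Finset.mem_image.1 hx
    exact hz2 i a ha
  have hAB : ∀ i, Al i ⊆ Bl i := fun i =>
    Finset.image_subset_image (Finset.subset_union_left.trans Finset.subset_union_left)
  have hodd : ∀ i, Odd (Al i).card := fun i => by
    rw [hAl, Finset.card_image_of_injective _ (add_left_injective _)]
    exact hA
  have hg : ∀ (s : Fin n × Fin n → ℤˣ) i w,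
      φ (shW (k • z i) (gauge (blk Bl s) w)) = φ (shW (k • z i) w) := by
    intro s i w
    refine hdep fun e he => ?_
    have he' : e ∈ B := he
    have h1 : e.1 + k • z i ∈ Bl i := Finset.mem_image_of_mem _
      (Finset.mem_union_left _ (Finset.mem_union_right _ (Finset.mem_image_of_mem _ he')))
    have h2 : tip e + k • z i ∈ Bl i := Finset.mem_image_of_mem _
      (Finset.mem_union_right _ (Finset.mem_image_of_mem _ he'))
    have h3 : bond (blk Bl s) (shE (k • z i) e) = 1 := by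
      rw [bond, tip_shE, odd_blk Bl hdis s h2]
      change sp (blk Bl s (e.1 + k • z i)) * _ = 1
      rw [odd_blk Bl hdis s h1, sp_mul_self]
    change bond (blk Bl s) (shE (k • z i) e) * w (shE (k • z i) e) = w (shE (k • z i) e)
    rw [h3, one_mul]
  have hgib : ∀ᵐ w ∂P, ∀ s : Fin n × Fin n → ℤˣ,
      Gibbs (gauge (blk Bl s) (β • w)) (κ (gauge (blk Bl s) w)) := by
    rw [ae_all_iff]
    intro s
    filter_upwards [(mp_gauge (blk Bl s)).quasiMeasurePreserving.ae h.gibbs] with w hw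
    have : β • gauge (blk Bl s) w = gauge (blk Bl s) (β • w) := by
      funext e; simp only [gauge, Pi.smul_apply, smul_eq_mul]; ring
    rwa [this] at hw
  have hcard : (Fintype.card (Fin n × Fin n) : ℝ) = (n : ℝ) ^ 2 := by
    simp [sq]
  have hi : ∀ (s : Fin n × Fin n → ℤˣ) i, Integrable (fun w => φ (shW (k • z i) w) *
      ∫ σ, chr (Al i) σ ∂κ (gauge (blk Bl s) w)) P := by
    intro s i
    refine integrable_of_bdd ((hφ.comp (measurable_shW _)).mul
      ((odd_meas κ _).comp (measurable_gauge _))) 1 fun w => ?_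
    rw [abs_mul]
    exact mul_le_one₀ (hφa _) (abs_nonneg _) (odd_abs κ _ _)
  have hle : ∫ w, (∑ s : Fin n × Fin n → ℤˣ, ∑ i, φ (shW (k • z i) w) *
      ∫ σ, chr (Al i) σ ∂κ (gauge (blk Bl s) w)) / 2 ^ Fintype.card (Fin n × Fin n) ∂P ≤
      ∫ _w, ((n : ℝ) ^ 2 * (c / 4) + 2 ^ (8 * (c0 * n)) *
        Real.exp ((n : ℝ) ^ 2 * (c / 4) ^ 2 / 2 - c / 4 * ((n : ℝ) ^ 2 * (c / 4))) / (c / 4)) ∂P := by
    refine integral_mono_ae ?_ (integrable_const _) ?_
    · exact (integrable_finsetSum _ fun s _ => integrable_finsetSum _ fun i _ => hi s i).div_const _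
    · filter_upwards [hgib] with w hw
      have := odd_det (c0 * n) Bl Al hdis hbox hAB hodd (fun i => φ (shW (k • z i) w))
        (fun i => hφa _) (β • w) (fun s => κ (gauge (blk Bl s) w)) (fun s => inferInstance) hw
        ((n : ℝ) ^ 2 * (c / 4)) (c / 4) (by positivity)
      rwa [hcard] at this
  rw [integral_div, integral_finsetSum _ fun s _ => integrable_finsetSum _ fun i _ => hi s i] at hle
  have hs : ∀ s : Fin n × Fin n → ℤˣ, ∫ w, ∑ i, φ (shW (k • z i) w) *
      ∫ σ, chr (Al i) σ ∂κ (gauge (blk Bl s) w) ∂P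
      = (n : ℝ) ^ 2 * ∫ w, φ w * ∫ σ, chr A σ ∂κ w ∂P := by
    intro s
    rw [integral_finsetSum _ fun i _ => hi s i,
      Finset.sum_congr rfl fun i _ => odd_term h A hφ (z i) (blk Bl s) (hg s i)]
    rw [Finset.sum_const, Finset.card_univ, nsmul_eq_mul, hcard]
  simp only [hs, Finset.sum_const, Finset.card_univ, nsmul_eq_mul, integral_const,
    probReal_univ, smul_eq_mul, one_mul] at hle
  have hc2 : (Fintype.card (Fin n × Fin n → ℤˣ) : ℝ) = 2 ^ Fintype.card (Fin n × Fin n) := by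
    rw [Fintype.card_fun, Fintype.card_units_int]; push_cast; rfl
  rw [hc2, mul_div_cancel_left₀ _ (by positivity)] at hle
  have hI' : c / 2 ≤ ∫ w, φ w * ∫ σ, chr A σ ∂κ w ∂P := by linarith
  have := mul_le_mul_of_nonneg_left hI' (sq_nonneg (n : ℝ))
  linarith

end Pool.Agent.MP_c70b3b_mp

end

section

open MeasureTheory ProbabilityTheory Filter Topology
open scoped symmDiff ENNReal

namespace Pool.Agent.MP_c70b3b_mp

/-- Links of the medial lattice: `(g, false)` joins `g` to `g + (1,0)`, `(g, true)` joins `g`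
to `g + (0,1)`. -/
def aO (g : V) : V × Bool := (g, false)
def aI (g : V) : V × Bool := (g - (1, 0), false)
def bO (g : V) : V × Bool := (g, true)
def bI (g : V) : V × Bool := (g - (0, 1), true)

def Lk (g : V) (l : V × Bool) : Prop := l = aO g ∨ l = aI g ∨ l = bO g ∨ l = bI g

def sg (g : V) : ℝ := if (g.1 + g.2) % 2 = 0 then 1 else -1

/-- Medial shift induced by the lattice shift `z`. -/
def msh (z : V) : V := (z.1 + z.2, z.2 - z.1)

structure LocRel (L : V → ℝ) (D : V × Bool → V × Bool → ℝ) : Prop where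
  symm : ∀ l m, D l m = D m l
  two : ∀ g m l l', Lk g l → Lk g l' → l ≠ l' → D l m = 0 → D l' m = 0 →
    ∀ l'', Lk g l'' → D l'' m = 0
  r1 : ∀ g m, D (aO g) m = 0 → D (bO g) m = Real.exp (-(sg g * L g)) * D (bI g) m
  r2 : ∀ g m, D (aI g) m = 0 → D (bO g) m = Real.exp (sg g * L g) * D (bI g) m
  r3 : ∀ g m, D (bO g) m = 0 → D (aO g) m = Real.exp (-(sg g * L g)) * D (aI g) m
  r4 : ∀ g m, D (bI g) m = 0 → D (aO g) m = Real.exp (sg g * L g) * D (aI g) m
  base : ∀ g l l', Lk g l → Lk g l' → D l l' = 0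

/-- The corner (vertex, face) carried by a link. -/
def cor (l : V × Bool) : V × V :=
  if l.2 then
    (if (gate l.1).2 then (tip (gate l.1), fB (gate l.1)) else ((gate l.1).1, fA (gate l.1)))
  else (tip (gate l.1), fA (gate l.1))

lemma gate_inj : Function.Injective gate := by
  rintro ⟨a, b⟩ ⟨c, d⟩ h
  unfold gate at h
  split_ifs at h <;> simp only [Prod.mk.injEq, Bool.true_eq_false, Bool.false_eq_true, and_false,
    and_true] at h ⊢ <;> omega

lemma gate_msh (g z : V) : gate (g + msh z) = shE z (gate g) := by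
  rcases g with ⟨a, b⟩; rcases z with ⟨c, d⟩
  simp only [gate, msh, shE, Prod.mk_add_mk]
  split_ifs <;> simp only [Prod.mk_add_mk, Prod.mk.injEq, and_true] <;> omega

lemma gate_snd (g : V) : (gate g).2 = false ↔ (g.1 + g.2) % 2 = 0 := by
  unfold gate; split_ifs with h <;> simp [h]

lemma cor_aO (g : V) : cor (aO g) = (tip (gate g), fA (gate g)) := rfl

lemma cor_aI (g : V) : cor (aI g) = ((gate g).1, fB (gate g)) := by
  rcases g with ⟨a, b⟩
  simp only [cor, aI, gate, tip, fA, fB, Prod.mk_sub_mk, Bool.false_eq_true, if_false]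
  split_ifs <;> simp_all [Prod.ext_iff] <;> omega

lemma cor_bO (g : V) : cor (bO g) =
    if (gate g).2 then (tip (gate g), fB (gate g)) else ((gate g).1, fA (gate g)) := rfl

lemma cor_bI (g : V) : cor (bI g) =
    if (gate g).2 then ((gate g).1, fA (gate g)) else (tip (gate g), fB (gate g)) := by
  rcases g with ⟨a, b⟩
  simp only [cor, bI, gate, tip, fA, fB, Prod.mk_sub_mk, if_true]
  split_ifs <;> simp_all [Prod.ext_iff] <;> omega

lemma cor_shift (l : V × Bool) (z : V) :
    cor (l.1 + msh z, l.2) = ((cor l).1 + z, (cor l).2 + z) := by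
  have hB : ∀ e : E, fB (shE z e) = fB e + z := by
    rintro ⟨x, _ | _⟩ <;> simp [fB, shE] <;> abel
  have hA : ∀ e : E, fA (shE z e) = fA e + z := fun e => rfl
  have h1 : ∀ e : E, (shE z e).1 = e.1 + z := fun e => rfl
  have h2 : ∀ e : E, (shE z e).2 = e.2 := fun e => rfl
  simp only [cor, gate_msh, tip_shE, hA, hB, h1, h2]
  split_ifs <;> rfl

lemma cor_surj {x p : V} (h : Corner x p) : ∃ l, cor l = (x, p) := by
  rcases x with ⟨a, b⟩
  rcases h with rfl | rfl | rfl | rfl
  · refine ⟨bO (a + b, b - a), ?_⟩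
    have : (a + b + (b - a)) % 2 = 0 := by omega
    simp [cor_bO, gate, this, fA]; omega
  · refine ⟨aO (a - 1 + b, b - (a - 1)), ?_⟩
    have : (a - 1 + b + (b - (a - 1))) % 2 = 0 := by omega
    simp [cor_aO, gate, this, fA, tip]; omega
  · refine ⟨aI (a + b, b - a), ?_⟩
    have : (a + b + (b - a)) % 2 = 0 := by omega
    simp [cor_aI, gate, this, fB]; omega
  · refine ⟨bI (a - 1 + b, b - (a - 1)), ?_⟩
    have : (a - 1 + b + (b - (a - 1))) % 2 = 0 := by omega
    simp [cor_bI, gate, this, fB, tip]; omega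

end Pool.Agent.MP_c70b3b_mp

end

section

open MeasureTheory ProbabilityTheory Filter Topology
open scoped symmDiff ENNReal

namespace Pool.Agent.MP_c70b3b_mp

lemma rw_meas_ls (β : ℝ) : Measurable (ls β) := by
  unfold ls
  exact Real.measurable_log.comp
    ((Real.continuous_sinh.comp (by fun_prop)).abs.measurable)

lemma rw_fiber {β : ℝ} (hβ : β ≠ 0) (c : ℝ) : {x : ℝ | ls β x = c}.Countable := by
  have hsub : {x : ℝ | ls β x = c} ⊆
      {0, Real.arsinh (Real.exp c) / (2 * β), Real.arsinh (-Real.exp c) / (2 * β)} := by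
    intro x hx
    simp only [Set.mem_ofPred_eq, ls] at hx
    by_cases h0 : x = 0
    · simp [h0]
    have hs : Real.sinh (2 * (β * x)) ≠ 0 := by
      rw [Real.sinh_ne_zero]; positivity
    have h1 : |Real.sinh (2 * (β * x))| = Real.exp c := by
      rw [← hx, Real.exp_log (abs_pos.mpr hs)]
    rcases abs_eq (Real.exp_pos c).le |>.mp h1 with h | h
    · right; left
      rw [← h, Real.arsinh_sinh]; field_simp
    · right; right
      rw [Set.mem_singleton_iff, ← h, Real.arsinh_sinh]; field_simp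
  exact (Set.toFinite _).countable.mono hsub

/-- The characteristic function of one step. -/
noncomputable def rwPsi (β t : ℝ) : ℂ := charFun ((gaussianReal 0 1).map (ls β)) t

lemma rw_psi_lt {β : ℝ} (hβ : β ≠ 0) {t : ℝ} (ht : t ≠ 0) : ‖rwPsi β t‖ < 1 := by
  have hint : rwPsi β t = ∫ x, Complex.exp (t * (ls β x : ℝ) * Complex.I) ∂(gaussianReal 0 1) := by
    rw [rwPsi, charFun_apply_real, integral_map (rw_meas_ls β).aemeasurable]
    exact (by fun_prop : Continuous fun x : ℝ =>
      Complex.exp (t * x * Complex.I)).aestronglyMeasurable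
  have hle : ∀ᵐ x ∂(gaussianReal 0 1),
      ‖Complex.exp (t * (ls β x : ℝ) * Complex.I)‖ ≤ 1 := by
    refine Eventually.of_forall fun x => le_of_eq ?_
    rw [← Complex.ofReal_mul]; exact Complex.norm_exp_ofReal_mul_I _
  rcases ae_eq_const_or_norm_integral_lt_of_norm_le_const hle with h | h
  · exfalso
    set c := ⨍ x, Complex.exp (t * (ls β x : ℝ) * Complex.I) ∂(gaussianReal 0 1)
    have hc : {x : ℝ | Complex.exp (t * (ls β x : ℝ) * Complex.I) = c}.Countable := by
      have h1 : (Complex.exp ⁻¹' {c}).Countable := (Set.countable_singleton c).preimage_cexp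
      have h2 : ((fun y : ℝ => (t * y * Complex.I : ℂ)) ⁻¹' (Complex.exp ⁻¹' {c})).Countable := by
        refine h1.preimage_of_injOn fun y _ z _ hyz => ?_
        have h3 : (t : ℂ) ≠ 0 := by exact_mod_cast ht
        have h4 := mul_left_cancel₀ h3 (mul_right_cancel₀ Complex.I_ne_zero hyz)
        exact_mod_cast h4
      refine (h2.biUnion fun y _ => rw_fiber hβ y).mono fun x hx => ?_
      simp only [Set.mem_iUnion]
      exact ⟨ls β x, hx, rfl⟩
    have := nullSingletonClass_gaussianReal (μ := 0) (v := 1) one_ne_zero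
    have h0 := hc.measure_zero (gaussianReal 0 1)
    have h1 : ∀ᵐ x ∂(gaussianReal 0 1), False := by
      filter_upwards [h, measure_eq_zero_iff_ae_notMem.mp h0] with x hx hx'
      exact hx' hx
    exact (ae_neBot.mpr (IsProbabilityMeasure.ne_zero _)).ne (eventually_false_iff_eq_bot.mp h1)
  · rw [hint]; simpa using h

lemma rw_char (β : ℝ) (F : Finset E) (a : E → ℝ) (ha : ∀ e ∈ F, a e = 1 ∨ a e = -1) (t : ℝ) :
    ‖charFun (P.map fun w => ∑ e ∈ F, a e * ls β (w e)) t‖ = ‖rwPsi β t‖ ^ F.card := by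
  have hm : ∀ e, Measurable fun x : ℝ => a e * ls β x := fun e => (rw_meas_ls β).const_mul _
  have hind : iIndepFun (fun (e : E) (w : W) => a e * ls β (w e)) P :=
    iIndep_P.comp (fun e x => a e * ls β x) hm
  have hm' : ∀ e ∈ F, AEMeasurable (fun w : W => a e * ls β (w e)) P :=
    fun e _ => ((hm e).comp (measurable_pi_apply e)).aemeasurable
  rw [(hind.restrict F).charFun_map_fun_finsetSum_eq_prod hm', Finset.prod_apply, norm_prod,
    ← Finset.prod_const]
  refine Finset.prod_congr rfl fun e he => ?_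
  have h1 : P.map (fun w : W => a e * ls β (w e)) =
      ((gaussianReal 0 1).map (ls β)).map (fun y => a e * y) := by
    rw [← (mp_eval e).map_eq, Measure.map_map (rw_meas_ls β) (measurable_pi_apply e),
      Measure.map_map (measurable_const_mul _) ((rw_meas_ls β).comp (measurable_pi_apply e))]
    rfl
  rw [h1, charFun_map_mul]
  rcases ha e he with h | h
  · rw [h, one_mul]; rfl
  · rw [h, neg_one_mul, charFun_neg, Complex.norm_conj]; rfl

lemma rw_gauss (μ : Measure ℝ) [IsProbabilityMeasure μ] :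
    ∫ x, Real.exp (-(x ^ 2 / 2)) ∂μ ≤ ∫ t, ‖charFun μ t‖ ∂(gaussianReal 0 1) := by
  have h1 : ∀ x : ℝ, ((Real.exp (-(x ^ 2 / 2)) : ℝ) : ℂ) =
      ∫ t : ℝ, Complex.exp (x * t * Complex.I) ∂(gaussianReal 0 1) := fun x => by
    rw [← charFun_apply_real, charFun_gaussianReal]; push_cast; congr 1; simp
  have hi : Integrable (Function.uncurry fun (x t : ℝ) => Complex.exp (x * t * Complex.I))
      (μ.prod (gaussianReal 0 1)) := by
    refine Integrable.of_bound (C := 1) ?_ (Eventually.of_forall fun p => le_of_eq ?_)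
    · exact (by fun_prop : Continuous fun p : ℝ × ℝ =>
        Complex.exp (p.1 * p.2 * Complex.I)).aestronglyMeasurable
    · show ‖Complex.exp (p.1 * p.2 * Complex.I)‖ = 1
      rw [← Complex.ofReal_mul]; exact Complex.norm_exp_ofReal_mul_I _
  have h2 : ((∫ x, Real.exp (-(x ^ 2 / 2)) ∂μ : ℝ) : ℂ) =
      ∫ t, charFun μ t ∂(gaussianReal 0 1) := by
    rw [← integral_complex_ofReal]
    refine (integral_congr_ae (Eventually.of_forall fun x => h1 x)).trans ?_
    rw [integral_integral_swap hi]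
    refine integral_congr_ae (Eventually.of_forall fun t => ?_)
    simp only [charFun_apply_real, mul_comm (t : ℂ)]
  calc ∫ x, Real.exp (-(x ^ 2 / 2)) ∂μ ≤ ‖((∫ x, Real.exp (-(x ^ 2 / 2)) ∂μ : ℝ) : ℂ)‖ := by
        rw [Complex.norm_real]; exact Real.le_norm_self _
    _ ≤ _ := by rw [h2]; exact norm_integral_le_integral_norm _

lemma rw_markov (μ : Measure ℝ) [IsProbabilityMeasure μ] (M : ℝ) :
    μ.real {x | |x| ≤ M} ≤ Real.exp (M ^ 2 / 2) * ∫ x, Real.exp (-(x ^ 2 / 2)) ∂μ := by
  have hm : MeasurableSet {x : ℝ | |x| ≤ M} := measurableSet_le (by fun_prop) measurable_const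
  rw [← integral_const_mul, ← integral_indicator_one hm]
  refine integral_mono ((integrable_const 1).indicator hm) ?_ fun x => ?_
  · refine Integrable.const_mul (Integrable.of_bound (C := 1) ?_
      (Eventually.of_forall fun x => ?_)) _
    · exact (by fun_prop : Continuous fun x : ℝ => Real.exp (-(x ^ 2 / 2))).aestronglyMeasurable
    · rw [Real.norm_eq_abs, abs_of_pos (Real.exp_pos _), Real.exp_le_one_iff]
      have := sq_nonneg x; linarith
  · by_cases hx : |x| ≤ M
    · rw [Set.indicator_of_mem (show x ∈ {x : ℝ | |x| ≤ M} from hx), ← Real.exp_add]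
      have h2 : x ^ 2 ≤ M ^ 2 := by
        rw [← sq_abs x]; exact pow_le_pow_left₀ (abs_nonneg x) hx 2
      exact Real.one_le_exp (by linarith)
    · rw [Set.indicator_of_notMem (show x ∉ {x : ℝ | |x| ≤ M} from hx)]
      positivity

lemma rw_lim {β : ℝ} (hβ : β ≠ 0) :
    Tendsto (fun n : ℕ => ∫ t, ‖rwPsi β t‖ ^ n ∂(gaussianReal 0 1)) atTop (𝓝 0) := by
  have : IsProbabilityMeasure ((gaussianReal 0 1).map (ls β)) :=
    Measure.isProbabilityMeasure_map (rw_meas_ls β).aemeasurable
  have h := tendsto_integral_of_dominated_convergence (μ := gaussianReal 0 1)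
    (F := fun (n : ℕ) t => ‖rwPsi β t‖ ^ n) (f := fun _ => (0 : ℝ)) (fun _ => 1)
    (fun n => ((measurable_charFun.norm).pow_const n).aestronglyMeasurable) (integrable_const 1)
    (fun n => Eventually.of_forall fun t => by
      rw [norm_pow, norm_norm]
      exact pow_le_one₀ (norm_nonneg _) (norm_charFun_le_one t)) ?_
  · simpa using h
  · have := nullSingletonClass_gaussianReal (μ := 0) (v := 1) one_ne_zero
    have h0 : (gaussianReal 0 1) {0} = 0 := measure_singleton _
    filter_upwards [measure_eq_zero_iff_ae_notMem.mp h0] with t ht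
    exact tendsto_pow_atTop_nhds_zero_of_lt_one (norm_nonneg _) (rw_psi_lt hβ ht)

lemma rw_meas_sum (β : ℝ) (F : Finset E) (a : E → ℝ) :
    Measurable fun w : W => ∑ e ∈ F, a e * ls β (w e) :=
  Finset.measurable_sum _ fun e _ => ((rw_meas_ls β).comp (measurable_pi_apply e)).const_mul _

theorem anticonc {β : ℝ} (hβ : β ≠ 0) (F : ℕ → Finset E) (hF : ∀ n, n ≤ (F n).card)
    (a : ℕ → E → ℝ) (ha : ∀ n, ∀ e ∈ F n, a n e = 1 ∨ a n e = -1) (M : ℝ) :
    Tendsto (fun n => P {w | |∑ e ∈ F n, a n e * ls β (w e)| ≤ M}) atTop (𝓝 0) := by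
  have : IsProbabilityMeasure ((gaussianReal 0 1).map (ls β)) :=
    Measure.isProbabilityMeasure_map (rw_meas_ls β).aemeasurable
  have hle : ∀ t, ‖rwPsi β t‖ ≤ 1 := fun t => norm_charFun_le_one t
  have hint : ∀ n : ℕ, Integrable (fun t => ‖rwPsi β t‖ ^ n) (gaussianReal 0 1) := fun n =>
    Integrable.of_bound (C := 1) ((measurable_charFun.norm).pow_const n).aestronglyMeasurable
      (Eventually.of_forall fun t => by
        rw [norm_pow, norm_norm]; exact pow_le_one₀ (norm_nonneg _) (hle t))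
  have key : ∀ n, P.real {w | |∑ e ∈ F n, a n e * ls β (w e)| ≤ M} ≤
      Real.exp (M ^ 2 / 2) * ∫ t, ‖rwPsi β t‖ ^ n ∂(gaussianReal 0 1) := fun n => by
    have hm := rw_meas_sum β (F n) (a n)
    have : IsProbabilityMeasure (P.map fun w => ∑ e ∈ F n, a n e * ls β (w e)) :=
      Measure.isProbabilityMeasure_map hm.aemeasurable
    have h1 := rw_markov (P.map fun w => ∑ e ∈ F n, a n e * ls β (w e)) M
    rw [map_measureReal_apply hm (measurableSet_le (by fun_prop) measurable_const)] at h1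
    refine h1.trans (mul_le_mul_of_nonneg_left ((rw_gauss _).trans ?_) (Real.exp_pos _).le)
    simp only [rw_char β (F n) (a n) (ha n)]
    exact integral_mono (hint _) (hint _) fun t =>
      pow_le_pow_of_le_one (norm_nonneg _) (hle t) (hF n)
  have h2 : Tendsto (fun n => P.real {w | |∑ e ∈ F n, a n e * ls β (w e)| ≤ M}) atTop (𝓝 0) := by
    refine squeeze_zero (fun n => measureReal_nonneg) key ?_
    simpa using (rw_lim hβ).const_mul (Real.exp (M ^ 2 / 2))
  have h3 := ENNReal.tendsto_ofReal h2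
  simpa [ofReal_measureReal] using h3

theorem rw_zero {β : ℝ} (hβ : β ≠ 0) (F : ℕ → Finset E) (hF : ∀ n, n ≤ (F n).card)
    (a : ℕ → E → ℝ) (ha : ∀ n, ∀ e ∈ F n, a n e = 1 ∨ a n e = -1) {lam : W → ℝ}
    (hm : Measurable lam) (h0 : ∀ w, 0 ≤ lam w) (T : ℕ → W → W)
    (hT : ∀ n, MeasurePreserving (T n) P P)
    (hrec : ∀ n, ∀ᵐ w ∂P, lam (T n w) = lam w * Real.exp (∑ e ∈ F n, a n e * ls β (w e))) :
    ∀ᵐ w ∂P, lam w = 0 := by
  have hB : ∀ R : ℕ, MeasurableSet {w | (R : ℝ) < |Real.log (lam w)|} := fun R =>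
    measurableSet_lt measurable_const (Real.measurable_log.comp hm).abs
  have hlim : Tendsto (fun R : ℕ => P {w | (R : ℝ) < |Real.log (lam w)|}) atTop (𝓝 0) := by
    have h := tendsto_measure_iInter_atTop (μ := P)
      (s := fun R : ℕ => {w | (R : ℝ) < |Real.log (lam w)|})
      (fun R => (hB R).nullMeasurableSet)
      (fun R R' hR w (hw : (R' : ℝ) < _) =>
        show (R : ℝ) < _ from lt_of_le_of_lt (Nat.cast_le.mpr hR) hw) ⟨0, measure_ne_top _ _⟩
    have he : (⋂ R : ℕ, {w | (R : ℝ) < |Real.log (lam w)|}) = ∅ := by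
      refine Set.eq_empty_of_forall_notMem fun w hw => ?_
      obtain ⟨R, hR⟩ := exists_nat_gt |Real.log (lam w)|
      exact lt_asymm hR (Set.mem_iInter.mp hw R)
    rw [he, measure_empty] at h
    exact h
  have hbound : ∀ R : ℕ, P {w | lam w ≠ 0} ≤
      P {w | (R : ℝ) < |Real.log (lam w)|} + P {w | (R : ℝ) < |Real.log (lam w)|} := fun R => by
    have h1 : ∀ n, P {w | lam w ≠ 0} ≤
        (P {w | (R : ℝ) < |Real.log (lam w)|} + P {w | (R : ℝ) < |Real.log (lam w)|}) +
          P {w | |∑ e ∈ F n, a n e * ls β (w e)| ≤ 2 * R} := fun n => by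
      have h2 : {w | lam w ≠ 0} ≤ᵐ[P] (({w | (R : ℝ) < |Real.log (lam w)|} ∪
          T n ⁻¹' {w | (R : ℝ) < |Real.log (lam w)|} ∪
          {w | |∑ e ∈ F n, a n e * ls β (w e)| ≤ 2 * R} : Set W)) := by
        filter_upwards [hrec n] with w hw hne
        by_contra hcon
        have hc : ¬ (w ∈ ({w | (R : ℝ) < |Real.log (lam w)|} ∪
          T n ⁻¹' {w | (R : ℝ) < |Real.log (lam w)|} ∪
          {w | |∑ e ∈ F n, a n e * ls β (w e)| ≤ 2 * R} : Set W)) := hcon
        simp only [Set.mem_union, Set.mem_ofPred_eq, Set.mem_preimage, not_or, not_lt] at hc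
        obtain ⟨⟨c1, c2⟩, c3⟩ := hc
        rw [hw, Real.log_mul hne (Real.exp_pos _).ne', Real.log_exp] at c2
        apply c3
        rw [abs_le] at c1 c2 ⊢
        constructor <;> linarith [c1.1, c1.2, c2.1, c2.2]
      refine (measure_mono_ae h2).trans ((measure_union_le _ _).trans ?_)
      gcongr
      refine (measure_union_le _ _).trans ?_
      rw [(hT n).measure_preimage (hB R).nullMeasurableSet]
    have h3 := (anticonc hβ F hF a ha (2 * R)).const_add
      (P {w | (R : ℝ) < |Real.log (lam w)|} + P {w | (R : ℝ) < |Real.log (lam w)|})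
    rw [add_zero] at h3
    exact ge_of_tendsto' h3 h1
  have h4 := hlim.add hlim
  rw [add_zero] at h4
  have h5 := ge_of_tendsto' h4 hbound
  have _ := h0
  exact ae_iff.mpr (nonpos_iff_eq_zero.mp h5)

end Pool.Agent.MP_c70b3b_mp

end

section

open MeasureTheory ProbabilityTheory Filter Topology
open scoped symmDiff ENNReal

namespace Pool.Agent.MP_c70b3b_mp

/-- All correlations between links of `g` and links of `g + d` vanish. -/
def towerAbsV (D : V × Bool → V × Bool → ℝ) (d : V) : Prop :=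
  ∀ g l m, Lk g l → Lk (g + d) m → D l m = 0

lemma towerAbs_aI (g : V) : Lk (g - (1, 0)) (aI g) := Or.inl rfl
lemma towerAbs_bI (g : V) : Lk (g - (0, 1)) (bI g) := Or.inr (Or.inr (Or.inl rfl))
lemma towerAbs_aO_eq (g : V) : aO g = aI (g + (1, 0)) := by simp [aO, aI]
lemma towerAbs_bO_eq (g : V) : bO g = bI (g + (0, 1)) := by simp [bO, bI]
lemma towerAbs_aO (g : V) : Lk (g + (1, 0)) (aO g) := Or.inr (Or.inl (towerAbs_aO_eq g))
lemma towerAbs_bO (g : V) : Lk (g + (0, 1)) (bO g) :=
  Or.inr (Or.inr (Or.inr (towerAbs_bO_eq g)))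
lemma towerAbs_lk1 (g : V) : Lk g (aO g) := Or.inl rfl
lemma towerAbs_lk2 (g : V) : Lk g (aI g) := Or.inr (Or.inl rfl)
lemma towerAbs_lk3 (g : V) : Lk g (bO g) := Or.inr (Or.inr (Or.inl rfl))
lemma towerAbs_lk4 (g : V) : Lk g (bI g) := Or.inr (Or.inr (Or.inr rfl))

section det

variable {L : V → ℝ} {D : V × Bool → V × Bool → ℝ}

lemma towerAbs_zero (h : LocRel L D) : towerAbsV D 0 := fun g l m hl hm =>
  h.base g l m hl (by simpa using hm)

lemma towerAbs_neg (h : LocRel L D) {d : V} (hd : towerAbsV D d) : towerAbsV D (-d) := by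
  intro g l m hl hm
  rw [h.symm]
  exact hd (g + -d) m l hm (by simpa using hl)

/-- Two vanishing links of `g` of different direction kill all links of `g` (right slot). -/
lemma towerAbs_two (h : LocRel L D) {g : V} {l m1 m2 : V × Bool} (h1 : Lk g m1) (h2 : Lk g m2)
    (hne : m1.2 ≠ m2.2) (e1 : D l m1 = 0) (e2 : D l m2 = 0) {m : V × Bool} (hm : Lk g m) :
    D l m = 0 := by
  rw [h.symm] at e1 e2 ⊢
  exact h.two g l m1 m2 h1 h2 (fun e => hne (by rw [e])) e1 e2 m hm

lemma towerAbs_off (h : LocRel L D) {d s t : V} (hs : s = (1, 0) ∨ s = (-1, 0))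
    (ht : t = (0, 1) ∨ t = (0, -1)) (h1 : towerAbsV D (d + s)) (h2 : towerAbsV D (d + t)) :
    towerAbsV D d := by
  intro g l m hl hm
  have ha : ∃ m1, Lk (g + d) m1 ∧ m1.2 = false ∧ Lk (g + (d + s)) m1 := by
    rcases hs with rfl | rfl
    · exact ⟨aO (g + d), towerAbs_lk1 _, rfl, by rw [← add_assoc]; exact towerAbs_aO _⟩
    · refine ⟨aI (g + d), towerAbs_lk2 _, rfl, ?_⟩
      have : g + (d + (-1, 0)) = g + d - (1, 0) := by ext <;> simp <;> ring
      rw [this]; exact towerAbs_aI _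
  have hb : ∃ m1, Lk (g + d) m1 ∧ m1.2 = true ∧ Lk (g + (d + t)) m1 := by
    rcases ht with rfl | rfl
    · exact ⟨bO (g + d), towerAbs_lk3 _, rfl, by rw [← add_assoc]; exact towerAbs_bO _⟩
    · refine ⟨bI (g + d), towerAbs_lk4 _, rfl, ?_⟩
      have : g + (d + (0, -1)) = g + d - (0, 1) := by ext <;> simp <;> ring
      rw [this]; exact towerAbs_bI _
  obtain ⟨m1, a1, a2, a3⟩ := ha
  obtain ⟨m2, b1, b2, b3⟩ := hb
  exact towerAbs_two h a1 b1 (by simp [a2, b2]) (h1 g l m1 hl a3) (h2 g l m2 hl b3) hm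

lemma towerAbs_x1 {d : V} (hd : towerAbsV D (d - (1, 0))) (g : V) {m : V × Bool}
    (hm : Lk (g + d) m) : D (aO g) m = 0 :=
  hd (g + (1, 0)) _ m (towerAbs_aO g) (by
    have : g + (1, 0) + (d - (1, 0)) = g + d := by abel
    rwa [this])

lemma towerAbs_x2 {d : V} (hd : towerAbsV D (d - (1, 0))) (g : V) {l : V × Bool}
    (hl : Lk g l) : D l (aI (g + d)) = 0 :=
  hd g l _ hl (by rw [← add_sub_assoc]; exact towerAbs_aI _)

lemma towerAbs_y1 {d : V} (hd : towerAbsV D (d - (0, 1))) (g : V) {m : V × Bool}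
    (hm : Lk (g + d) m) : D (bO g) m = 0 :=
  hd (g + (0, 1)) _ m (towerAbs_bO g) (by
    have : g + (0, 1) + (d - (0, 1)) = g + d := by abel
    rwa [this])

lemma towerAbs_y2 {d : V} (hd : towerAbsV D (d - (0, 1))) (g : V) {l : V × Bool}
    (hl : Lk g l) : D l (bI (g + d)) = 0 :=
  hd g l _ hl (by rw [← add_sub_assoc]; exact towerAbs_bI _)

lemma towerAbs_xrec (h : LocRel L D) {d : V} (hd : towerAbsV D (d - (1, 0))) (g : V) :
    D (bI (g + (0, 1))) (bI (g + (0, 1) + d)) =
      D (bI g) (bI (g + d)) * Real.exp (-(sg g * L g) + sg (g + d) * L (g + d)) := by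
  have e : g + (0, 1) + d = g + d + (0, 1) := by abel
  rw [e, ← towerAbs_bO_eq, ← towerAbs_bO_eq,
    h.r1 g _ (towerAbs_x1 hd g (towerAbs_lk3 _)), h.symm (bI g) (bO (g + d)),
    h.r2 (g + d) _ (by rw [h.symm]; exact towerAbs_x2 hd g (towerAbs_lk4 _)),
    h.symm (bI (g + d)) (bI g), Real.exp_add]
  ring

lemma towerAbs_yrec (h : LocRel L D) {d : V} (hd : towerAbsV D (d - (0, 1))) (g : V) :
    D (aI (g + (1, 0))) (aI (g + (1, 0) + d)) =
      D (aI g) (aI (g + d)) * Real.exp (-(sg g * L g) + sg (g + d) * L (g + d)) := by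
  have e : g + (1, 0) + d = g + d + (1, 0) := by abel
  rw [e, ← towerAbs_aO_eq, ← towerAbs_aO_eq,
    h.r3 g _ (towerAbs_y1 hd g (towerAbs_lk1 _)), h.symm (aI g) (aO (g + d)),
    h.r4 (g + d) _ (by rw [h.symm]; exact towerAbs_y2 hd g (towerAbs_lk2 _)),
    h.symm (aI (g + d)) (aI g), Real.exp_add]
  ring

lemma towerAbs_xfin (h : LocRel L D) {d : V} (hd : towerAbsV D (d - (1, 0)))
    (hz : ∀ g, D (bI g) (bI (g + d)) = 0) : towerAbsV D d := by
  intro g l m hl hm
  have h1 : D (bI g) m = 0 := towerAbs_two h (towerAbs_lk4 (g + d)) (towerAbs_lk2 (g + d))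
    (by simp [aI, bI]) (hz g) (towerAbs_x2 hd g (towerAbs_lk4 _)) hm
  exact h.two g m (bI g) (aO g) (towerAbs_lk4 _) (towerAbs_lk1 _) (by simp [aO, bI]) h1
    (towerAbs_x1 hd g hm) l hl

lemma towerAbs_yfin (h : LocRel L D) {d : V} (hd : towerAbsV D (d - (0, 1)))
    (hz : ∀ g, D (aI g) (aI (g + d)) = 0) : towerAbsV D d := by
  intro g l m hl hm
  have h1 : D (aI g) m = 0 := towerAbs_two h (towerAbs_lk2 (g + d)) (towerAbs_lk4 (g + d))
    (by simp [aI, bI]) (hz g) (towerAbs_y2 hd g (towerAbs_lk2 _)) hm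
  exact h.two g m (aI g) (bO g) (towerAbs_lk2 _) (towerAbs_lk3 _) (by simp [aI, bO]) h1
    (towerAbs_y1 hd g hm) l hl

lemma towerAbs_iter {lam c : V → ℝ} {u : V} (h : ∀ g, lam (g + u) = lam g * Real.exp (c g))
    (g : V) (n : ℕ) :
    lam (g + n • u) = lam g * Real.exp (∑ j ∈ Finset.range n, c (g + j • u)) := by
  induction n with
  | zero => simp
  | succ n ih =>
    rw [succ_nsmul, ← add_assoc, h, ih, Finset.sum_range_succ, Real.exp_add, mul_assoc]

end det

lemma towerAbs_sg (g : V) : sg g = 1 ∨ sg g = -1 := by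
  unfold sg; split_ifs <;> simp

/-- The random walk argument along the direction `u`. -/
lemma towerAbs_walk {β : ℝ} (hβ : β ≠ 0) {k : ℤ} (hk : 0 < k)
    (D : W → V × Bool → V × Bool → ℝ)
    (hm : ∀ l m, Measurable fun w => D w l m) (h0 : ∀ w l m, 0 ≤ D w l m)
    (hcov : ∀ (z : V) (l m : V × Bool), ∀ᵐ w ∂P, D (shW (k • z) w) l m =
      D w (l.1 + msh (k • z), l.2) (m.1 + msh (k • z), m.2))
    (lk : V → V × Bool) (hlk : ∀ g s, lk (g + s) = ((lk g).1 + s, (lk g).2))
    (u d : V) (z : ℕ → V) (hz : ∀ n, msh (k • z n) = (2 * k.toNat * n) • u)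
    (hinj : ∀ i j : ℕ, (i • u = j • u → i = j) ∧ i • u ≠ d + j • u)
    (hrec : ∀ᵐ w ∂P, ∀ g, D w (lk (g + u)) (lk (g + u + d)) = D w (lk g) (lk (g + d)) *
      Real.exp (-(sg g * ls β (w (gate g))) + sg (g + d) * ls β (w (gate (g + d))))) :
    ∀ᵐ w ∂P, ∀ g, D w (lk g) (lk (g + d)) = 0 := by
  classical
  rw [ae_all_iff]
  intro g
  let pt : ℕ × Bool → V := fun p => if p.2 then g + p.1 • u + d else g + p.1 • u
  have hpt : Function.Injective pt := by
    rintro ⟨i, b⟩ ⟨j, c⟩ h
    cases b <;> cases c <;> simp only [pt, Bool.false_eq_true, if_false, if_true] at h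
    · rw [(hinj i j).1 (add_left_cancel h)]
    · refine absurd ?_ (hinj i j).2
      rw [add_assoc] at h
      rw [add_left_cancel h, add_comm]
    · refine absurd ?_ (hinj j i).2
      rw [add_assoc] at h
      rw [← add_left_cancel h, add_comm]
    · rw [(hinj i j).1 (add_left_cancel (add_right_cancel h))]
  have hq : Function.Injective (fun p => gate (pt p)) := gate_inj.comp hpt
  let q : E → ℕ × Bool := Function.invFun fun p => gate (pt p)
  have hqq : ∀ p, q (gate (pt p)) = p := Function.leftInverse_invFun hq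
  let a : E → ℝ := fun e => if (q e).2 then sg (pt (q e)) else -sg (pt (q e))
  let F : ℕ → Finset E := fun n =>
    (Finset.range (2 * k.toNat * n) ×ˢ (Finset.univ : Finset Bool)).image fun p => gate (pt p)
  refine rw_zero hβ F (fun n => ?_) (fun _ => a) (fun n e _ => ?_) (hm _ _) (fun w => h0 w _ _)
    (fun n => shW (k • z n)) (fun n => mp_shW _) (fun n => ?_)
  · simp only [F]
    rw [Finset.card_image_of_injective _ hq, Finset.card_product, Finset.card_range]
    have : 1 ≤ k.toNat := by omega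
    simp only [Finset.card_univ, Fintype.card_bool]
    nlinarith
  · simp only [a]
    split_ifs
    · exact towerAbs_sg _
    · rcases towerAbs_sg (pt (q e)) with h | h <;> simp [h]
  · filter_upwards [hrec, hcov (z n) (lk g) (lk (g + d))] with w h1 h2
    rw [h2, ← hlk, ← hlk, hz]
    have h3 := towerAbs_iter (lam := fun g => D w (lk g) (lk (g + d))) h1 g (2 * k.toNat * n)
    have e : g + d + (2 * k.toNat * n) • u = g + (2 * k.toNat * n) • u + d := by abel
    rw [e, h3]
    congr 2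
    simp only [F]
    rw [Finset.sum_image fun p _ p' _ h => hq h, Finset.sum_product]
    refine Finset.sum_congr rfl fun j _ => ?_
    simp only [Fintype.univ_bool, a, hqq]
    rw [Finset.sum_pair (by simp)]
    simp only [pt, Bool.false_eq_true, if_false, if_true]
    ring

theorem tower_abs {β : ℝ} (hβ : β ≠ 0) {k : ℤ} (hk : 0 < k) (D : W → V × Bool → V × Bool → ℝ)
    (hm : ∀ l m, Measurable fun w => D w l m) (h0 : ∀ w l m, 0 ≤ D w l m)
    (hloc : ∀ᵐ w ∂P, LocRel (fun g => ls β (w (gate g))) (D w))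
    (hcov : ∀ (z : V) (l m : V × Bool), ∀ᵐ w ∂P, D (shW (k • z) w) l m =
      D w (l.1 + msh (k • z), l.2) (m.1 + msh (k • z), m.2)) :
    ∀ᵐ w ∂P, ∀ l m, D w l m = 0 := by
  have hkk : ((k.toNat : ℕ) : ℤ) = k := Int.toNat_of_nonneg hk.le
  have hx : ∀ x : ℤ, 0 < x → (∀ᵐ w ∂P, towerAbsV (D w) ((x, 0) - (1, 0))) →
      ∀ᵐ w ∂P, towerAbsV (D w) (x, 0) := by
    intro x hx hd
    have hw := towerAbs_walk hβ hk D hm h0 hcov bI (fun g s => by
        simp only [bI, Prod.mk.injEq, and_true]; abel) (0, 1) (x, 0)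
      (fun n => (-(n : ℤ), (n : ℤ))) (fun n => by
        ext <;> simp [msh, hkk] <;> ring) (fun i j => by
        constructor
        · intro h; simpa using h
        · intro h
          have := congrArg Prod.fst h
          simp at this; omega) (by
        filter_upwards [hloc, hd] with w h1 h2 g using towerAbs_xrec h1 h2 g)
    filter_upwards [hloc, hd, hw] with w h1 h2 h3 using towerAbs_xfin h1 h2 h3
  have hy : ∀ y : ℤ, 0 < y → (∀ᵐ w ∂P, towerAbsV (D w) ((0, y) - (0, 1))) →
      ∀ᵐ w ∂P, towerAbsV (D w) (0, y) := by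
    intro y hy hd
    have hw := towerAbs_walk hβ hk D hm h0 hcov aI (fun g s => by
        simp only [aI, Prod.mk.injEq, and_true]; abel) (1, 0) (0, y)
      (fun n => ((n : ℤ), (n : ℤ))) (fun n => by
        ext <;> simp [msh, hkk] <;> ring) (fun i j => by
        constructor
        · intro h; simpa using h
        · intro h
          have := congrArg Prod.snd h
          simp at this; omega) (by
        filter_upwards [hloc, hd] with w h1 h2 g using towerAbs_yrec h1 h2 g)
    filter_upwards [hloc, hd, hw] with w h1 h2 h3 using towerAbs_yfin h1 h2 h3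
  have hneg : ∀ d : V, (∀ᵐ w ∂P, towerAbsV (D w) d) → ∀ᵐ w ∂P, towerAbsV (D w) (-d) := by
    intro d hd
    filter_upwards [hloc, hd] with w h1 h2 using towerAbs_neg h1 h2
  have key : ∀ n : ℕ, ∀ x y : ℤ, x.natAbs + y.natAbs ≤ n →
      ∀ᵐ w ∂P, towerAbsV (D w) (x, y) := by
    intro n
    induction n with
    | zero =>
      intro x y h
      have h1 : x = 0 := by omega
      have h2 : y = 0 := by omega
      subst h1 h2
      filter_upwards [hloc] with w hw using towerAbs_zero hw
    | succ n ih =>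
      intro x y h
      by_cases hy0 : y = 0
      · subst hy0
        rcases lt_trichotomy x 0 with hx0 | rfl | hx0
        · have := hneg _ (hx (-x) (by omega) (by
            simpa using ih (-x - 1) 0 (by omega)))
          simpa using this
        · exact ih 0 0 (by simp)
        · exact hx x hx0 (by simpa using ih (x - 1) 0 (by omega))
      by_cases hx0 : x = 0
      · subst hx0
        rcases lt_or_gt_of_ne hy0 with hy1 | hy1
        · have := hneg _ (hy (-y) (by omega) (by
            simpa using ih 0 (-y - 1) (by omega)))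
          simpa using this
        · exact hy y hy1 (by simpa using ih 0 (y - 1) (by omega))
      have hs : ∃ s : ℤ, (s = 1 ∨ s = -1) ∧ (x + s).natAbs < x.natAbs := by
        rcases lt_or_gt_of_ne hx0 with h1 | h1
        · exact ⟨1, Or.inl rfl, by omega⟩
        · exact ⟨-1, Or.inr rfl, by omega⟩
      have ht : ∃ t : ℤ, (t = 1 ∨ t = -1) ∧ (y + t).natAbs < y.natAbs := by
        rcases lt_or_gt_of_ne hy0 with h1 | h1
        · exact ⟨1, Or.inl rfl, by omega⟩
        · exact ⟨-1, Or.inr rfl, by omega⟩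
      obtain ⟨s, hs, hs'⟩ := hs
      obtain ⟨t, ht, ht'⟩ := ht
      filter_upwards [hloc, ih (x + s) y (by omega), ih x (y + t) (by omega)] with w h1 h2 h3
      refine towerAbs_off h1 (s := (s, 0)) (t := (0, t)) ?_ ?_ (by simpa using h2)
        (by simpa using h3)
      · rcases hs with rfl | rfl <;> simp
      · rcases ht with rfl | rfl <;> simp
  have hall : ∀ᵐ w ∂P, ∀ d : V, towerAbsV (D w) d :=
    ae_all_iff.2 fun d => key _ d.1 d.2 le_rfl
  have hlk : ∀ l : V × Bool, Lk l.1 l := by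
    rintro ⟨g, _ | _⟩
    · exact towerAbs_lk1 g
    · exact towerAbs_lk3 g
  filter_upwards [hall] with w hw l m
  exact hw (m.1 - l.1) l.1 l m (hlk l) (by simpa using hlk m)

end Pool.Agent.MP_c70b3b_mp

end

section

open MeasureTheory ProbabilityTheory Filter Topology
open scoped symmDiff ENNReal

namespace Pool.Agent.MP_c70b3b_mp

lemma dual_const (g : ℤ → ZMod 2) (h : ∀ i, g i = g (i + 1)) (n : ℤ) (hn : g n = 0) (i : ℤ) :
    g i = 0 := by
  have h0 : ∀ k, g k = g 0 := fun k => by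
    induction k using Int.induction_on with
    | zero => rfl
    | succ k ih => rw [← h, ih]
    | pred k ih => rw [h, sub_add_cancel, ih]
  rw [h0 i, ← h0 n, hn]

lemma dual_core (a b : V → ZMod 2) (N : ℤ)
    (hs : ∀ i j, N < |i| ∨ N < |j| → a (i, j) = 0 ∧ b (i, j) = 0)
    (h : ∀ i j, a (i, j) + b (i + 1, j) + a (i, j + 1) + b (i, j) = 0) :
    ∃ U : Finset V, ∀ i j, (a (i, j) = 1 ↔ ¬ ((i, j) ∈ U ↔ (i + 1, j) ∈ U)) ∧
      (b (i, j) = 1 ↔ ¬ ((i, j) ∈ U ↔ (i, j + 1) ∈ U)) := by
  have h2 : ∀ x : ZMod 2, x + x = 0 := by decide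
  set f : ℤ → ℤ → ZMod 2 := fun i j => ∑ k ∈ Finset.Icc i N, a (k, j) with hf
  have f0 : ∀ i j, N < i → f i j = 0 := fun i j hi => by
    simp only [hf, Finset.Icc_eq_empty_of_lt hi, Finset.sum_empty]
  have f1 : ∀ i j, f i j = a (i, j) + f (i + 1) j := fun i j => by
    rcases le_or_gt i N with hi | hi
    · simp only [hf]
      rw [← Finset.insert_Icc_add_one_left_eq_Icc hi, Finset.sum_insert (by simp)]
    · rw [f0 i j hi, f0 (i + 1) j (by omega), (hs i j (Or.inl (hi.trans_le (le_abs_self i)))).1,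
        add_zero]
  have f2 : ∀ j i, f i j + f i (j + 1) + b (i, j) = 0 := fun j =>
    dual_const (fun i => f i j + f i (j + 1) + b (i, j))
      (fun i => by
        rw [f1 i j, f1 i (j + 1)]
        linear_combination h i j - h2 (b (i + 1, j)))
      (N + 1) (by
        simp only [f0 (N + 1) _ (by omega),
          (hs (N + 1) j (Or.inl ((lt_add_one N).trans_le (le_abs_self _)))).2, add_zero])
  have f3 : ∀ i j, N < |j| → f i j = 0 := fun i j hj =>
    Finset.sum_eq_zero fun k _ => (hs k j (Or.inr hj)).1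
  have f4 : ∀ i j, N < |i| → f i j = 0 := fun i j hi =>
    dual_const (f i) (fun j => by
      have h3 := f2 j i
      rw [(hs i j (Or.inl hi)).2] at h3
      linear_combination h3 - h2 (f i (j + 1))) (N + 1)
      (f3 i _ ((lt_add_one N).trans_le (le_abs_self _))) j
  refine ⟨(Finset.Icc (-N) N ×ˢ Finset.Icc (-N) N).filter fun p => f p.1 p.2 = 1, fun i j => ?_⟩
  have hU : ∀ i j, ((i, j) ∈ (Finset.Icc (-N) N ×ˢ Finset.Icc (-N) N).filter
      fun p => f p.1 p.2 = 1) ↔ f i j = 1 := fun i j => by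
    simp only [Finset.mem_filter, Finset.mem_product, Finset.mem_Icc, ← abs_le]
    refine ⟨fun h => h.2, fun h => ⟨⟨not_lt.1 fun h' => ?_, not_lt.1 fun h' => ?_⟩, h⟩⟩
    · rw [f4 i j h'] at h; exact absurd h (by decide)
    · rw [f3 i j h'] at h; exact absurd h (by decide)
  have k1 : ∀ x y z : ZMod 2, x = z + y → (z = 1 ↔ ¬ (x = 1 ↔ y = 1)) := by decide
  have k2 : ∀ x y z : ZMod 2, x + y + z = 0 → (z = 1 ↔ ¬ (x = 1 ↔ y = 1)) := by decide
  rw [hU, hU, hU]
  exact ⟨k1 _ _ _ (f1 i j), k2 _ _ _ (f2 j i)⟩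

/-- Indicator of an edge set mod 2. -/
def dualInd (G : Finset E) (e : E) : ZMod 2 := if e ∈ G then 1 else 0

lemma dual_ind_sum (G : Finset E) (e : E) :
    dualInd G e = ∑ e' ∈ G, if e' = e then 1 else 0 := by
  rw [Finset.sum_ite_eq', dualInd]

lemma dual_ind_one (G : Finset E) (e : E) : dualInd G e = 1 ↔ e ∈ G := by
  unfold dualInd
  split_ifs with h <;> simp [h]

lemma dual_bound (G : Finset E) : ∃ N : ℤ, ∀ i j c, N < |i| + 1 ∨ N < |j| + 1 →
    dualInd G ((i, j), c) = 0 := by
  obtain ⟨N, hN⟩ := (G.image fun e => max |e.1.1| |e.1.2|).bddAbove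
  refine ⟨N + 1, fun i j c h => if_neg fun hG => ?_⟩
  have h1 : max |i| |j| ≤ N := hN (Finset.mem_coe.2 (Finset.mem_image_of_mem _ hG))
  rw [max_le_iff] at h1
  omega

lemma dual_fbd (G : Finset E) (i j : ℤ) : fbd G (i, j) = dualInd G ((i, j), false) +
    dualInd G ((i + 1, j), true) + dualInd G ((i, j + 1), false) + dualInd G ((i, j), true) := by
  simp only [dual_ind_sum, ← Finset.sum_add_distrib, fbd]
  refine Finset.sum_congr rfl ?_
  rintro ⟨⟨x, y⟩, _ | _⟩ -
  · simp [dl, fA, fB, sub_eq_iff_eq_add]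
  · simp [dl, fA, fB, sub_eq_iff_eq_add, add_comm]

lemma dual_vbd (G : Finset E) (i j : ℤ) : vbd G (i + 1, j + 1) = dualInd G ((i + 1, j), true) +
    dualInd G ((i + 1, j + 1), false) + dualInd G ((i + 1, j + 1), true) +
      dualInd G ((i, j + 1), false) := by
  simp only [dual_ind_sum, ← Finset.sum_add_distrib, vbd]
  refine Finset.sum_congr rfl ?_
  rintro ⟨⟨x, y⟩, _ | _⟩ -
  · simp [dl, tip]
  · simp [dl, tip, add_comm]

theorem exists_cob (G : Finset E) (h : ∀ p, fbd G p = 0) : ∃ U : Finset V, cob U = G := by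
  obtain ⟨N, hN⟩ := dual_bound G
  obtain ⟨U, hU⟩ := dual_core (fun p => dualInd G (p, false)) (fun p => dualInd G (p, true)) N
    (fun i j hij => ⟨hN i j _ (by omega), hN i j _ (by omega)⟩)
    fun i j => by rw [← dual_fbd, h]
  refine ⟨U, Finset.ext ?_⟩
  rintro ⟨⟨i, j⟩, _ | _⟩
  · rw [mem_cob, ← dual_ind_one, (hU i j).1]
    simp [tip]
  · rw [mem_cob, ← dual_ind_one, (hU i j).2]
    simp [tip]

theorem exists_faces (C : Finset E) (h : ∀ x, vbd C x = 0) :
    ∃ Φ : Finset V, ∀ e, e ∈ C ↔ ¬ (fA e ∈ Φ ↔ fB e ∈ Φ) := by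
  obtain ⟨N, hN⟩ := dual_bound C
  have ha : ∀ i : ℤ, |i| ≤ |i + 1| + 1 := fun i => by
    simpa using abs_add_le (i + 1) (-1)
  obtain ⟨U, hU⟩ := dual_core (fun p => dualInd C ((p.1 + 1, p.2), true))
    (fun p => dualInd C ((p.1, p.2 + 1), false)) N
    (fun i j hij => ⟨hN (i + 1) j _ (by have := ha i; omega),
      hN i (j + 1) _ (by have := ha j; omega)⟩)
    fun i j => by rw [← dual_vbd, h]
  refine ⟨U, ?_⟩
  rintro ⟨⟨i, j⟩, _ | _⟩
  · have h1 := (hU i (j - 1)).2
    simp only [sub_add_cancel, dual_ind_one] at h1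
    rw [h1, iff_comm (a := (i, j - 1) ∈ U)]
    simp [fA, fB]
  · have h1 := (hU (i - 1) j).1
    simp only [sub_add_cancel, dual_ind_one] at h1
    rw [h1, iff_comm (a := (i - 1, j) ∈ U)]
    simp [fA, fB]

lemma dual_trans {p q s : V} (h1 : ∃ G : Finset E, ∀ r, fbd G r = dl p r + dl q r)
    (h2 : ∃ G : Finset E, ∀ r, fbd G r = dl q r + dl s r) :
    ∃ G : Finset E, ∀ r, fbd G r = dl p r + dl s r := by
  obtain ⟨G, hG⟩ := h1
  obtain ⟨G', hG'⟩ := h2
  have h3 : ∀ x : ZMod 2, x + x = 0 := by decide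
  exact ⟨G ∆ G', fun r => by
    rw [fbd_symmDiff, hG, hG']
    linear_combination h3 (dl q r)⟩

lemma dual_line (c : ℤ → V)
    (h : ∀ k, ∃ G : Finset E, ∀ r, fbd G r = dl (c (k + 1)) r + dl (c k) r) (k : ℤ) :
    ∃ G : Finset E, ∀ r, fbd G r = dl (c k) r + dl (c 0) r := by
  have h3 : ∀ x : ZMod 2, x + x = 0 := by decide
  induction k using Int.induction_on with
  | zero => exact ⟨∅, fun r => by simp [fbd, h3]⟩
  | succ k ih => exact dual_trans (h k) ih
  | pred k ih =>
    refine dual_trans ?_ ih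
    obtain ⟨G, hG⟩ := h (-(k : ℤ) - 1)
    exact ⟨G, fun r => by rw [hG, sub_add_cancel, add_comm]⟩

theorem exists_dual_path (p q : V) : ∃ G : Finset E, ∀ r, fbd G r = dl p r + dl q r := by
  obtain ⟨a, b⟩ := p
  obtain ⟨c, d⟩ := q
  have h1 := dual_line (fun k => (c + k, b))
    (fun k => ⟨{((c + (k + 1), b), true)}, fun r => by
      rw [fbd_singleton]; simp [fA, fB, add_sub_assoc]⟩) (a - c)
  have h2 := dual_line (fun k => (c, d + k))
    (fun k => ⟨{((c, d + (k + 1)), false)}, fun r => by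
      rw [fbd_singleton]; simp [fA, fB, add_sub_assoc]⟩) (b - d)
  simp only [add_sub_cancel, add_zero] at h1 h2
  exact dual_trans h1 h2

theorem chain_of_conn {G : Set E} {O : Set V} {x y : V} (h : Conn G O x y) :
    ∃ C : Finset E, (∀ e ∈ C, e ∈ G ∧ e.1 ∈ O ∧ tip e ∈ O) ∧
      ∀ v, vbd C v = dl x v + dl y v := by
  have h3 : ∀ x : ZMod 2, x + x = 0 := by decide
  induction h with
  | refl => exact ⟨∅, by simp, fun v => by simp [vbd, h3]⟩
  | @tail b c _ hbc ih =>
    obtain ⟨C, hC, hv⟩ := ih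
    obtain ⟨hb, hc, e, he, hE⟩ := hbc
    refine ⟨C ∆ {e}, fun e' he' => ?_, fun v => ?_⟩
    · rcases Finset.mem_symmDiff.1 he' with h | h
      · exact hC e' h.1
      · rw [Finset.mem_singleton.1 h.1]
        rcases hE with ⟨h1, h2⟩ | ⟨h1, h2⟩
        · exact ⟨he, h1 ▸ hb, h2 ▸ hc⟩
        · exact ⟨he, h1 ▸ hc, h2 ▸ hb⟩
    · rw [vbd_symmDiff, hv, vbd_singleton]
      rcases hE with ⟨h1, h2⟩ | ⟨h1, h2⟩ <;> rw [h1, h2] <;> linear_combination h3 (dl b v)

end Pool.Agent.MP_c70b3b_mp

end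

section

open MeasureTheory ProbabilityTheory Filter Topology
open scoped symmDiff ENNReal

namespace Pool.Agent.MP_c70b3b_mp

noncomputable def pth (p q : V) : Finset E := (exists_dual_path p q).choose

lemma fbd_pth (p q r : V) : fbd (pth p q) r = dl p r + dl q r :=
  (exists_dual_path p q).choose_spec r

noncomputable def DD (K : W) (ρ ρ' : Measure S) (l m : V × Bool) : ℝ :=
  |kc K ρ (cor l).1 (cor m).1 (pth (cor l).2 (cor m).2) -
    kc K ρ' (cor l).1 (cor m).1 (pth (cor l).2 (cor m).2)|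

lemma towerloc_en (K : W) {U : Finset V} {G G' : Finset E} (hU : cob U = G ∆ G') (σ : S) :
    en K G (flp U σ) + en K (cob U) σ = en K G' σ := by
  have e1 : en K G (flp U σ) =
      ∑ e ∈ G ∪ G', if e ∈ G then K e * (if e ∈ G' then bond σ e else -bond σ e) else 0 := by
    rw [← Finset.sum_filter, Finset.filter_mem_eq_inter, Finset.union_inter_cancel_left]
    refine Finset.sum_congr rfl fun e he => ?_
    rw [bond_flp, hU]
    by_cases h : e ∈ G' <;> simp [Finset.mem_symmDiff, h, he]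
  have e2 : ∀ F : Finset E, F ⊆ G ∪ G' →
      en K F σ = ∑ e ∈ G ∪ G', if e ∈ F then K e * bond σ e else 0 := fun F hF => by
    rw [← Finset.sum_filter, Finset.filter_mem_eq_inter, Finset.inter_eq_right.2 hF]
    rfl
  rw [e1, hU, e2 G' Finset.subset_union_right,
    e2 (G ∆ G') (fun e he => by
      rw [Finset.mem_symmDiff] at he
      rw [Finset.mem_union]
      tauto), ← Finset.sum_add_distrib]
  refine Finset.sum_congr rfl fun e _ => ?_
  by_cases h : e ∈ G <;> by_cases h' : e ∈ G' <;> simp [Finset.mem_symmDiff, h, h']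

lemma towerloc_flp {K : W} {ρ : Measure S} (h : Gibbs K ρ) (x y : V) {U : Finset V}
    {G G' : Finset E} (hU : cob U = G ∆ G') :
    kc K ρ x y G' = ((if x ∈ U then -1 else 1) * (if y ∈ U then -1 else 1)) * kc K ρ x y G := by
  have hm : Measurable fun σ : S => sp (σ x) * sp (σ y) * Real.exp (-2 * en K G (flp U σ)) :=
    ((measurable_sp x).mul (measurable_sp y)).mul
      (((measurable_en K G).comp (measurable_flp U)).const_mul _).exp
  have := h.integral_flp U hm
  simp only [flp_flp, mul_assoc, ← Real.exp_add, ← mul_add, towerloc_en K hU] at this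
  unfold kc
  simp only [mul_assoc]
  rw [← this, ← integral_const_mul, ← integral_const_mul]
  refine integral_congr_ae (Eventually.of_forall fun σ => ?_)
  simp only [sp_flp]
  split_ifs <;> ring

theorem abs_kc_indep {K : W} {ρ ρ' : Measure S} (h : Gibbs K ρ) (h' : Gibbs K ρ') (x y : V)
    {G G' : Finset E} (hG : ∀ r, fbd G r = fbd G' r) :
    |kc K ρ x y G - kc K ρ' x y G| = |kc K ρ x y G' - kc K ρ' x y G'| := by
  have h2 : ∀ a : ZMod 2, a + a = 0 := by decide
  obtain ⟨U, hU⟩ := exists_cob (G ∆ G') fun p => by rw [fbd_symmDiff, hG, h2]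
  rw [towerloc_flp h x y hU, towerloc_flp h' x y hU, ← mul_sub, abs_mul]
  split_ifs <;> simp

lemma towerloc_DD {K : W} {ρ ρ' : Measure S} (h : Gibbs K ρ) (h' : Gibbs K ρ') {l m : V × Bool}
    {x p : V} (hl : cor l = (x, p)) {G : Finset E}
    (hG : ∀ r, fbd G r = dl p r + dl (cor m).2 r) :
    DD K ρ ρ' l m = |kc K ρ x (cor m).1 G - kc K ρ' x (cor m).1 G| := by
  unfold DD
  rw [hl]
  exact abs_kc_indep h h' _ _ fun r => by rw [fbd_pth, hG]

lemma towerloc_int (K : W) (ρ : Measure S) [IsFiniteMeasure ρ] (x y : V) (G : Finset E) :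
    Integrable (fun σ : S => sp (σ x) * sp (σ y) * Real.exp (-2 * en K G σ)) ρ := by
  refine integrable_of_bdd (((measurable_sp x).mul (measurable_sp y)).mul
    ((measurable_en K G).const_mul _).exp) (Real.exp (2 * ∑ e ∈ G, |K e|)) fun σ => ?_
  rw [abs_mul, abs_mul, abs_sp, abs_sp, one_mul, one_mul, abs_of_pos (Real.exp_pos _)]
  have := abs_le.1 (abs_en_le K G σ)
  exact Real.exp_le_exp.2 (by linarith [this.1])

lemma towerloc_exp (K : W) (G : Finset E) (e : E) (σ : S) :
    Real.exp (-2 * en K (G ∆ {e}) σ) = Real.exp (-2 * en K G σ) *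
      (Real.cosh (2 * K e) - (if e ∈ G then -1 else 1) * Real.sinh (2 * K e) * bond σ e) := by
  have key : ∀ t b : ℝ, (b = 1 ∨ b = -1) →
      Real.exp (-2 * (t * b)) = Real.cosh (2 * t) - Real.sinh (2 * t) * b := by
    rintro t b (rfl | rfl)
    · rw [mul_one, mul_one, Real.cosh_sub_sinh]; congr 1; ring
    · rw [mul_neg_one (Real.sinh _), sub_neg_eq_add, Real.cosh_add_sinh]; congr 1; ring
  split_ifs with he
  · have e1 : G ∆ {e} = G.erase e := by
      ext a
      by_cases ha : a = e <;> simp [Finset.mem_symmDiff, ha, he]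
    have e2 : en K (G.erase e) σ = en K G σ + K e * (-bond σ e) := by
      unfold en
      rw [← Finset.add_sum_erase G _ he]
      ring
    rw [e1, e2, mul_add, Real.exp_add, key _ _ (by rcases bond_cases σ e with h | h <;> simp [h])]
    ring
  · have e1 : G ∆ {e} = insert e G := by
      ext a
      by_cases ha : a = e <;> simp [Finset.mem_symmDiff, ha, he]
    have e2 : en K (insert e G) σ = en K G σ + K e * bond σ e := by
      unfold en
      rw [Finset.sum_insert he]
      ring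
    rw [e1, e2, mul_add, Real.exp_add, key _ _ (bond_cases σ e)]
    ring

lemma towerloc_edge (K : W) (ρ : Measure S) [IsFiniteMeasure ρ] (G : Finset E) (e : E)
    {u v : V} (huv : Ends e u v) (z : V) :
    kc K ρ u z (G ∆ {e}) = Real.cosh (2 * K e) * kc K ρ u z G -
      (if e ∈ G then -1 else 1) * Real.sinh (2 * K e) * kc K ρ v z G := by
  unfold kc
  rw [← integral_const_mul, ← integral_const_mul,
    ← integral_sub ((towerloc_int K ρ u z G).const_mul _) ((towerloc_int K ρ v z G).const_mul _)]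
  refine integral_congr_ae (Eventually.of_forall fun σ => ?_)
  have hb : sp (σ u) * bond σ e = sp (σ v) := by
    have := sp_mul_self (σ u)
    rcases huv with ⟨h1, h2⟩ | ⟨h1, h2⟩
    · rw [bond, h1, h2, ← mul_assoc, this, one_mul]
    · rw [bond, h1, h2, mul_left_comm, this, mul_one]
  simp only [towerloc_exp]
  rw [← hb]
  ring

/-- The four links at a gate, seen from `m`. -/
lemma towerloc_four {K : W} {ρ ρ' : Measure S} (h : Gibbs K ρ) (h' : Gibbs K ρ') (g : V)
    (m : V × Bool) {G : Finset E} (hG : ∀ r, fbd G r = dl (fA (gate g)) r + dl (cor m).2 r) :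
    ∃ A B C D s : ℝ, |s| = |Real.sinh (2 * K (gate g))| ∧
      C = Real.cosh (2 * K (gate g)) * A - s * B ∧ D = Real.cosh (2 * K (gate g)) * B - s * A ∧
      A = kc K ρ (gate g).1 (cor m).1 G - kc K ρ' (gate g).1 (cor m).1 G ∧
      B = kc K ρ (tip (gate g)) (cor m).1 G - kc K ρ' (tip (gate g)) (cor m).1 G ∧
      C = kc K ρ (gate g).1 (cor m).1 (G ∆ {gate g}) -
        kc K ρ' (gate g).1 (cor m).1 (G ∆ {gate g}) ∧
      D = kc K ρ (tip (gate g)) (cor m).1 (G ∆ {gate g}) -
        kc K ρ' (tip (gate g)) (cor m).1 (G ∆ {gate g}) ∧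
      DD K ρ ρ' (aO g) m = |B| ∧ DD K ρ ρ' (aI g) m = |C| ∧
      ((sg g = 1 ∧ DD K ρ ρ' (bO g) m = |A| ∧ DD K ρ ρ' (bI g) m = |D|) ∨
        (sg g = -1 ∧ DD K ρ ρ' (bO g) m = |D| ∧ DD K ρ ρ' (bI g) m = |A|)) := by
  have := h.1
  have := h'.1
  have h2 : ∀ a b c : ZMod 2, a + c + (a + b) = b + c := by decide
  have hG' : ∀ r, fbd (G ∆ {gate g}) r = dl (fB (gate g)) r + dl (cor m).2 r := fun r => by
    rw [fbd_symmDiff, hG, fbd_singleton, h2]
  refine ⟨_, _, _, _, (if gate g ∈ G then -1 else 1) * Real.sinh (2 * K (gate g)), ?_, ?_, ?_,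
    rfl, rfl, rfl, rfl, towerloc_DD h h' (cor_aO g) hG, towerloc_DD h h' (cor_aI g) hG', ?_⟩
  · split_ifs <;> simp
  · rw [towerloc_edge K ρ G _ (Or.inl ⟨rfl, rfl⟩), towerloc_edge K ρ' G _ (Or.inl ⟨rfl, rfl⟩)]
    ring
  · rw [towerloc_edge K ρ G _ (Or.inr ⟨rfl, rfl⟩), towerloc_edge K ρ' G _ (Or.inr ⟨rfl, rfl⟩)]
    ring
  · by_cases hg : (g.1 + g.2) % 2 = 0
    · have hb := (gate_snd g).2 hg
      exact Or.inl ⟨by simp [sg, hg], towerloc_DD h h' (by rw [cor_bO, hb]; rfl) hG,
        towerloc_DD h h' (by rw [cor_bI, hb]; rfl) hG'⟩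
    · have hb : (gate g).2 = true := by
        by_contra hn
        exact hg ((gate_snd g).1 (by simpa using hn))
      exact Or.inr ⟨by simp [sg, hg], towerloc_DD h h' (by rw [cor_bO, hb]; rfl) hG',
        towerloc_DD h h' (by rw [cor_bI, hb]; rfl) hG⟩

lemma towerloc_alg {c s A B C D : ℝ} (hc : c ≠ 0) (hs : s ≠ 0) (hcs : c ^ 2 - s ^ 2 = 1)
    (hC : C = c * A - s * B) (hD : D = c * B - s * A) :
    (B = 0 → |D| = |s| * |A|) ∧ (C = 0 → |A| = |s| * |D|) ∧ (A = 0 → |C| = |s| * |B|) ∧
      (D = 0 → |B| = |s| * |C|) ∧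
      (A = 0 ∧ B = 0 ∨ A = 0 ∧ C = 0 ∨ A = 0 ∧ D = 0 ∨ B = 0 ∧ C = 0 ∨ B = 0 ∧ D = 0 ∨
        C = 0 ∧ D = 0 → A = 0 ∧ B = 0 ∧ C = 0 ∧ D = 0) := by
  have iA : A = c * C + s * D := by rw [hC, hD]; linear_combination (-A) * hcs
  have iB : B = c * D + s * C := by rw [hC, hD]; linear_combination (-B) * hcs
  have fin : A = 0 → B = 0 → A = 0 ∧ B = 0 ∧ C = 0 ∧ D = 0 := fun a b => by
    simp [hC, hD, a, b]
  refine ⟨fun b => ?_, fun b => ?_, fun b => ?_, fun b => ?_, ?_⟩
  · rw [hD, b, mul_zero, zero_sub, abs_neg, abs_mul]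
  · rw [iA, b, mul_zero, zero_add, abs_mul]
  · rw [hC, b, mul_zero, zero_sub, abs_neg, abs_mul]
  · rw [iB, b, mul_zero, zero_add, abs_mul]
  · rintro (⟨a, b⟩ | ⟨a, b⟩ | ⟨a, b⟩ | ⟨a, b⟩ | ⟨a, b⟩ | ⟨a, b⟩)
    · exact fin a b
    · refine fin a ?_
      rw [a, b] at hC
      simpa [hs] using hC
    · refine fin a ?_
      rw [a, b] at hD
      simpa [hc] using hD
    · refine fin ?_ a
      rw [a, b] at hC
      simpa [hc] using hC
    · refine fin ?_ a
      rw [a, b] at hD
      simpa [hs] using hD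
    · exact fin (by rw [iA, a, b]; ring) (by rw [iB, a, b]; ring)

lemma towerloc_cor {g : V} {l : V × Bool} (hl : Lk g l) :
    ((cor l).1 = (gate g).1 ∨ (cor l).1 = tip (gate g)) ∧
      ((cor l).2 = fA (gate g) ∨ (cor l).2 = fB (gate g)) := by
  rcases hl with rfl | rfl | rfl | rfl
  · rw [cor_aO]; simp
  · rw [cor_aI]; simp
  · rw [cor_bO]; split_ifs <;> simp
  · rw [cor_bI]; split_ifs <;> simp

theorem locRel {β : ℝ} {w : W} (hw : ∀ e, β * w e ≠ 0) {ρ ρ' : Measure S}
    [IsProbabilityMeasure ρ] [IsProbabilityMeasure ρ'] (h : Gibbs (β • w) ρ)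
    (h' : Gibbs (β • w) ρ') (hE : ∀ e, ∫ σ, bond σ e ∂ρ = ∫ σ, bond σ e ∂ρ') :
    LocRel (fun g => ls β (w (gate g))) (DD (β • w) ρ ρ') := by
  have hK : ∀ e, (β • w) e = β * w e := fun e => rfl
  have hsh : ∀ e, Real.sinh (2 * (β • w) e) ≠ 0 := fun e => by
    rw [hK, Ne, Real.sinh_eq_zero]
    exact mul_ne_zero two_ne_zero (hw e)
  have hL : ∀ g, Real.exp (ls β (w (gate g))) = |Real.sinh (2 * (β • w) (gate g))| := fun g =>
    Real.exp_log (abs_pos.2 (hsh _))
  have main : ∀ (g : V) (m : V × Bool) (G : Finset E),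
      (∀ r, fbd G r = dl (fA (gate g)) r + dl (cor m).2 r) → ∃ A B C D : ℝ,
      ((B = 0 → |D| = Real.exp (ls β (w (gate g))) * |A|) ∧
        (C = 0 → |A| = Real.exp (ls β (w (gate g))) * |D|) ∧
        (A = 0 → |C| = Real.exp (ls β (w (gate g))) * |B|) ∧
        (D = 0 → |B| = Real.exp (ls β (w (gate g))) * |C|) ∧
        (A = 0 ∧ B = 0 ∨ A = 0 ∧ C = 0 ∨ A = 0 ∧ D = 0 ∨ B = 0 ∧ C = 0 ∨ B = 0 ∧ D = 0 ∨
          C = 0 ∧ D = 0 → A = 0 ∧ B = 0 ∧ C = 0 ∧ D = 0)) ∧
      A = kc (β • w) ρ (gate g).1 (cor m).1 G - kc (β • w) ρ' (gate g).1 (cor m).1 G ∧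
      B = kc (β • w) ρ (tip (gate g)) (cor m).1 G - kc (β • w) ρ' (tip (gate g)) (cor m).1 G ∧
      C = kc (β • w) ρ (gate g).1 (cor m).1 (G ∆ {gate g}) -
        kc (β • w) ρ' (gate g).1 (cor m).1 (G ∆ {gate g}) ∧
      D = kc (β • w) ρ (tip (gate g)) (cor m).1 (G ∆ {gate g}) -
        kc (β • w) ρ' (tip (gate g)) (cor m).1 (G ∆ {gate g}) ∧
      DD (β • w) ρ ρ' (aO g) m = |B| ∧ DD (β • w) ρ ρ' (aI g) m = |C| ∧
      ((sg g = 1 ∧ DD (β • w) ρ ρ' (bO g) m = |A| ∧ DD (β • w) ρ ρ' (bI g) m = |D|) ∨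
        (sg g = -1 ∧ DD (β • w) ρ ρ' (bO g) m = |D| ∧ DD (β • w) ρ ρ' (bI g) m = |A|)) := by
    intro g m G hG
    obtain ⟨A, B, C, D, s, hs, hC, hD, rest⟩ := towerloc_four h h' g m hG
    refine ⟨A, B, C, D, ?_, rest⟩
    rw [hL, ← hs]
    refine towerloc_alg (Real.cosh_pos _).ne' ?_ ?_ hC hD
    · rw [← abs_pos, hs, abs_pos]; exact hsh _
    · rw [← sq_abs s, hs, sq_abs, Real.cosh_sq]; ring
  have inv : ∀ {L a b : ℝ}, a = Real.exp L * b → b = Real.exp (-L) * a := fun {L a b} e => by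
    rw [e, ← mul_assoc, ← Real.exp_add, neg_add_cancel, Real.exp_zero, one_mul]
  have all : ∀ {g : V} {m : V × Bool} {A B C D : ℝ}, A = 0 ∧ B = 0 ∧ C = 0 ∧ D = 0 →
      DD (β • w) ρ ρ' (aO g) m = |B| → DD (β • w) ρ ρ' (aI g) m = |C| →
      ((sg g = 1 ∧ DD (β • w) ρ ρ' (bO g) m = |A| ∧ DD (β • w) ρ ρ' (bI g) m = |D|) ∨
        (sg g = -1 ∧ DD (β • w) ρ ρ' (bO g) m = |D| ∧ DD (β • w) ρ ρ' (bI g) m = |A|)) →
      ∀ l, Lk g l → DD (β • w) ρ ρ' l m = 0 := by
    rintro g m A B C D ⟨rfl, rfl, rfl, rfl⟩ e1 e2 (⟨-, e3, e4⟩ | ⟨-, e3, e4⟩) l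
      (rfl | rfl | rfl | rfl) <;> simp [e1, e2, e3, e4]
  refine ⟨fun l m => ?_, fun g m l l' hl hl' hne z z' => ?_, fun g m z => ?_, fun g m z => ?_,
    fun g m z => ?_, fun g m z => ?_, fun g l l' hl hl' => ?_⟩
  · have hc : ∀ (ν : Measure S) (x y : V) (G : Finset E),
        kc (β • w) ν x y G = kc (β • w) ν y x G := fun ν x y G => by
      unfold kc
      refine integral_congr_ae (Eventually.of_forall fun σ => ?_)
      ring
    unfold DD
    rw [hc ρ, hc ρ']
    exact abs_kc_indep h h' _ _ fun r => by rw [fbd_pth, fbd_pth, add_comm]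
  · obtain ⟨A, B, C, D, ⟨-, -, -, -, t⟩, -, -, -, -, e1, e2, e34⟩ := main g m _ (fbd_pth _ _)
    refine all (t ?_) e1 e2 e34
    rcases e34 with ⟨-, e3, e4⟩ | ⟨-, e3, e4⟩ <;> rcases hl with rfl | rfl | rfl | rfl <;>
      rcases hl' with rfl | rfl | rfl | rfl <;>
      first
        | exact absurd rfl hne
        | (simp only [e1, e2, e3, e4, abs_eq_zero] at z z'; tauto)
  · obtain ⟨A, B, C, D, ⟨t1, t2, t3, t4, -⟩, -, -, -, -, e1, e2, ⟨s, e3, e4⟩ | ⟨s, e3, e4⟩⟩ :=
      main g m _ (fbd_pth _ _) <;> rw [e1, abs_eq_zero] at z <;> rw [e3, e4, s]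
    · simpa using inv (t1 z)
    · simpa using t1 z
  · obtain ⟨A, B, C, D, ⟨t1, t2, t3, t4, -⟩, -, -, -, -, e1, e2, ⟨s, e3, e4⟩ | ⟨s, e3, e4⟩⟩ :=
      main g m _ (fbd_pth _ _) <;> rw [e2, abs_eq_zero] at z <;> rw [e3, e4, s]
    · simpa using t2 z
    · simpa using inv (t2 z)
  · obtain ⟨A, B, C, D, ⟨t1, t2, t3, t4, -⟩, -, -, -, -, e1, e2, ⟨s, e3, e4⟩ | ⟨s, e3, e4⟩⟩ :=
      main g m _ (fbd_pth _ _) <;> rw [e3, abs_eq_zero] at z <;> rw [e1, e2, s]
    · simpa using inv (t3 z)
    · simpa using t4 z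
  · obtain ⟨A, B, C, D, ⟨t1, t2, t3, t4, -⟩, -, -, -, -, e1, e2, ⟨s, e3, e4⟩ | ⟨s, e3, e4⟩⟩ :=
      main g m _ (fbd_pth _ _) <;> rw [e4, abs_eq_zero] at z <;> rw [e1, e2, s]
    · simpa using t4 z
    · simpa using inv (t3 z)
  · have h0 : ∀ u v : V, (u = (gate g).1 ∨ u = tip (gate g)) →
        (v = (gate g).1 ∨ v = tip (gate g)) →
        kc (β • w) ρ u v ∅ - kc (β • w) ρ' u v ∅ = 0 := by
      have hb := hE (gate g)
      simp only [bond] at hb
      rintro u v (rfl | rfl) (rfl | rfl) <;>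
        simp only [kc, en, Finset.sum_empty, mul_zero, Real.exp_zero, mul_one, sp_mul_self]
      · simp
      · rw [hb, sub_self]
      · simp only [fun σ : S => mul_comm (sp (σ (tip (gate g)))) (sp (σ (gate g).1))]
        rw [hb, sub_self]
      · simp
    have h2 : ∀ a : ZMod 2, 0 = a + a := by decide
    obtain ⟨hx, hq | hq⟩ := towerloc_cor hl'
    · obtain ⟨A, B, C, D, ⟨-, -, -, -, t⟩, a, b, -, -, e1, e2, e34⟩ := main g l' ∅
        fun r => by rw [hq, ← h2]; rfl
      exact all (t (Or.inl ⟨a.trans (h0 _ _ (Or.inl rfl) hx), b.trans (h0 _ _ (Or.inr rfl) hx)⟩))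
        e1 e2 e34 l hl
    · obtain ⟨A, B, C, D, ⟨-, -, -, -, t⟩, -, -, a, b, e1, e2, e34⟩ := main g l' {gate g}
        fun r => by rw [hq, fbd_singleton]
      rw [symmDiff_self, Finset.bot_eq_empty] at a b
      exact all (t (Or.inr (Or.inr (Or.inr (Or.inr (Or.inr
        ⟨a.trans (h0 _ _ (Or.inl rfl) hx), b.trans (h0 _ _ (Or.inr rfl) hx)⟩)))))) e1 e2 e34 l hl

theorem kceq_of_DD {K : W} {ρ ρ' : Measure S} (h : Gibbs K ρ) (h' : Gibbs K ρ')
    (hD : ∀ l m, DD K ρ ρ' l m = 0) : KCeq K ρ ρ' := by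
  intro x p y q G hx hy hG
  obtain ⟨l, hl⟩ := cor_surj hx
  obtain ⟨m, hm⟩ := cor_surj hy
  have := towerloc_DD h h' (m := m) hl (G := G) (by rw [hm]; exact hG)
  rw [hD, hm] at this
  exact sub_eq_zero.1 (abs_eq_zero.1 this.symm)

end Pool.Agent.MP_c70b3b_mp

end

section

open MeasureTheory ProbabilityTheory Filter Topology
open scoped symmDiff ENNReal

namespace Pool.Agent.MP_c70b3b_mp

lemma edgedet_inner (L : Finset V) (K : W) (σ : S) :
    ∑ U ∈ L.powerset, Real.exp (en K (touch L \ cob L) (flp U σ)) =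
      ∑ U ∈ L.powerset, Real.exp (en K (touch L \ cob L) (flp U 1)) := by
  classical
  rw [← gib_sum_flp L (fun σ => Real.exp (en K (touch L \ cob L) σ))
    (U := L.filter fun x => σ x ≠ 1) (Finset.filter_subset _ _) 1]
  refine Finset.sum_congr rfl fun U _ => ?_
  congr 1
  refine Finset.sum_congr rfl fun e he => ?_
  have h1 := mem_touch.1 (Finset.mem_sdiff.1 he).1
  have h2 := (Finset.mem_sdiff.1 he).2
  rw [mem_cob, not_not] at h2
  have k : ∀ x ∈ L, flp U σ x = flp U (flp (L.filter fun x => σ x ≠ 1) 1) x := by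
    intro x hx
    rcases Int.units_eq_one_or (σ x) with h | h <;> simp [flp, hx, h]
  simp only [bond]
  rw [k _ (by tauto), k _ (by tauto)]

lemma edgedet_split (L : Finset V) (K : W) (σ : S) :
    |en K (touch L) σ - en K (touch L \ cob L) σ| ≤ ∑ e ∈ cob L, |K e| := by
  have : en K (touch L) σ - en K (touch L \ cob L) σ = en K (cob L) σ := by
    unfold en
    rw [← Finset.sum_sdiff (cob_subset_touch (Finset.Subset.refl L))]; ring
  rw [this]; exact abs_en_le _ _ _

lemma edgedet_half (L : Finset V) (K K' : W) (B : ℝ) (hB : ∑ e ∈ cob L, |K e| ≤ B)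
    (hB' : ∑ e ∈ cob L, |K' e| ≤ B) (ρ : Measure S) [IsProbabilityMeasure ρ] (h : Gibbs K ρ) :
    Real.exp (∫ σ, en (K' - K) (touch L) σ ∂ρ) ≤ Real.exp (2 * B) *
      ((∑ U ∈ L.powerset, Real.exp (en K' (touch L \ cob L) (flp U 1))) /
        ∑ U ∈ L.powerset, Real.exp (en K (touch L \ cob L) (flp U 1))) := by
  have hm := measurable_en (K' - K) (touch L)
  have hb : ∀ σ, |Real.exp (en (K' - K) (touch L) σ)| ≤
      Real.exp (∑ e ∈ touch L, |(K' - K) e|) := fun σ => by
    rw [abs_of_pos (Real.exp_pos _)]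
    exact Real.exp_le_exp.2 ((le_abs_self _).trans (abs_en_le _ _ _))
  have h1 : Real.exp (∫ σ, en (K' - K) (touch L) σ ∂ρ) ≤
      ∫ σ, Real.exp (en (K' - K) (touch L) σ) ∂ρ :=
    convexOn_exp.map_integral_le Real.continuous_exp.continuousOn isClosed_univ
      (Eventually.of_forall fun _ => Set.mem_univ _)
      (integrable_of_bdd hm _ (abs_en_le _ _)) (integrable_of_bdd hm.exp _ hb)
  refine h1.trans ?_
  rw [h.avg L hm.exp _ hb]
  have hp : ∀ (K : W) (F : Finset E) (σ : S),
      0 < ∑ U ∈ L.powerset, Real.exp (en K F (flp U σ)) := fun K F σ =>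
    Finset.sum_pos (fun _ _ => Real.exp_pos _) ⟨∅, by simp⟩
  have hc : ∀ (f : S → ℝ) (c : ℝ), (∀ σ, 0 ≤ f σ) → (∀ σ, f σ ≤ c) → ∫ σ, f σ ∂ρ ≤ c :=
    fun f c h0 h1 => (integral_mono_of_nonneg (Eventually.of_forall h0)
      (integrable_const c) (Eventually.of_forall h1)).trans (le_of_eq (by simp))
  refine hc _ _ (fun σ => by positivity) fun σ => ?_
  have e1 : ∀ τ, Real.exp (en (K' - K) (touch L) τ) * Real.exp (en K (touch L) τ) =
      Real.exp (en K' (touch L) τ) := fun τ => by
    rw [← Real.exp_add, ← en_add, sub_add_cancel]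
  simp only [e1]
  rw [← edgedet_inner L K σ, ← edgedet_inner L K' σ, ← mul_div_assoc,
    div_le_div_iff₀ (hp _ _ _) (hp _ _ _)]
  have u1 : ∑ U ∈ L.powerset, Real.exp (en K' (touch L) (flp U σ)) ≤
      Real.exp B * ∑ U ∈ L.powerset, Real.exp (en K' (touch L \ cob L) (flp U σ)) := by
    rw [Finset.mul_sum]
    refine Finset.sum_le_sum fun U _ => ?_
    rw [← Real.exp_add]
    have := abs_le.1 (edgedet_split L K' (flp U σ))
    exact Real.exp_le_exp.2 (by linarith)
  have u2 : ∑ U ∈ L.powerset, Real.exp (en K (touch L \ cob L) (flp U σ)) ≤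
      Real.exp B * ∑ U ∈ L.powerset, Real.exp (en K (touch L) (flp U σ)) := by
    rw [Finset.mul_sum]
    refine Finset.sum_le_sum fun U _ => ?_
    rw [← Real.exp_add]
    have := abs_le.1 (edgedet_split L K (flp U σ))
    exact Real.exp_le_exp.2 (by linarith)
  refine (mul_le_mul u1 u2 (hp _ _ _).le (by positivity)).trans (le_of_eq ?_)
  rw [two_mul, Real.exp_add]; ring

theorem edge_det (N : ℕ) (K D : W) (F : Finset E) (hF : ∀ e ∈ F, e.1 ∈ box N ∧ tip e ∈ box N)
    (ρ ρ' : Measure S) [IsProbabilityMeasure ρ] [IsProbabilityMeasure ρ'] (h : Gibbs K ρ)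
    (h' : Gibbs (K + cut F D) ρ') :
    ∑ e ∈ F, D e * (∫ σ, bond σ e ∂ρ - ∫ σ, bond σ e ∂ρ') ≤ 4 * ∑ e ∈ cob (box N), |K e| := by
  have hc : ∀ e ∈ cob (box N), cut F D e = 0 := fun e he => by
    have : e ∉ F := fun hf => (mem_cob.1 he) (iff_of_true (hF e hf).1 (hF e hf).2)
    simp [cut, this]
  have hB' : ∑ e ∈ cob (box N), |(K + cut F D) e| ≤ ∑ e ∈ cob (box N), |K e| :=
    le_of_eq (Finset.sum_congr rfl fun e he => by simp [hc e he])
  have hFt : F ⊆ touch (box N) := fun e he => mem_touch.2 (Or.inl (hF e he).1)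
  have h1 := edgedet_half (box N) K (K + cut F D) _ le_rfl hB' ρ h
  have h2 := edgedet_half (box N) (K + cut F D) K _ hB' le_rfl ρ' h'
  have hp : ∀ (K : W), 0 < ∑ U ∈ (box N).powerset,
      Real.exp (en K (touch (box N) \ cob (box N)) (flp U 1)) := fun K =>
    Finset.sum_pos (fun _ _ => Real.exp_pos _) ⟨∅, by simp⟩
  have h3 := mul_le_mul h1 h2 (Real.exp_pos _).le (by have := hp K; have := hp (K + cut F D); positivity)
  rw [mul_mul_mul_comm, div_mul_div_cancel₀ (hp _).ne', div_self (hp _).ne', mul_one,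
    ← Real.exp_add, ← Real.exp_add, Real.exp_le_exp] at h3
  have e1 : ∀ σ, en (K + cut F D - K) (touch (box N)) σ = en D F σ := fun σ => by
    rw [add_sub_cancel_left, en_cut D hFt]
  have e2 : ∀ σ, en (K - (K + cut F D)) (touch (box N)) σ = -en D F σ := fun σ => by
    rw [← e1]; simp only [en, ← Finset.sum_neg_distrib]
    exact Finset.sum_congr rfl fun e _ => by simp only [Pi.sub_apply]; ring
  have e3 : ∀ (r : Measure S) [IsProbabilityMeasure r],
      ∫ σ, en D F σ ∂r = ∑ e ∈ F, D e * ∫ σ, bond σ e ∂r := by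
    intro r _
    unfold en
    rw [integral_finsetSum _ fun e _ =>
      (integrable_of_bdd (measurable_bond e) 1 fun σ => (abs_bond σ e).le).const_mul _]
    simp_rw [integral_const_mul]
  simp only [e1, e2, integral_neg, e3] at h3
  simp only [mul_sub, Finset.sum_sub_distrib]
  linarith

end Pool.Agent.MP_c70b3b_mp

end

section

open MeasureTheory ProbabilityTheory Filter Topology
open scoped symmDiff ENNReal

namespace Pool.Agent.MP_c70b3b_mp

/-- Move the couplings `e i`, `i ∈ T`, by `δ φ i`. -/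
noncomputable def mv {ι : Type} (e : ι → E) (φ : ι → W → ℝ) (δ : ℝ) (T : Finset ι) (w : W) : W :=
  w + ∑ i ∈ T, Pi.single (e i) (δ * φ i w)

structure Blocks {ι : Type} (e : ι → E) (B : ι → Finset E) (φ : ι → W → ℝ) : Prop where
  disj : ∀ i j, i ≠ j → Disjoint (B i) (B j)
  mem : ∀ i, e i ∈ B i
  meas : ∀ i, Measurable (φ i)
  dep : ∀ i, DependsOn (φ i) (B i : Set E)
  sgn : ∀ i w, φ i w = 1 ∨ φ i w = -1

variable {ι : Type} [DecidableEq ι] {e : ι → E} {B : ι → Finset E} {φ : ι → W → ℝ}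

/-- The Cameron-Martin density. -/
noncomputable def tiltD (x : E) (a : ℝ) (w : W) : ℝ≥0∞ :=
  ENNReal.ofReal (Real.exp (a * w x - a ^ 2 / 2))

/-- One half of the density of a single move. -/
noncomputable def tiltH (x : E) (ψ : W → ℝ) (δ s : ℝ) (w : W) : ℝ≥0∞ :=
  if ψ (w - Pi.single x (δ * s)) = s then tiltD x (δ * s) w else 0

/-- The density of a single move. -/
noncomputable def tiltQ (x : E) (ψ : W → ℝ) (δ : ℝ) (w : W) : ℝ≥0∞ :=
  tiltH x ψ δ 1 w + tiltH x ψ δ (-1) w

/-- A single move. -/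
noncomputable def tiltS (x : E) (ψ : W → ℝ) (δ : ℝ) (w : W) : W := w + Pi.single x (δ * ψ w)

theorem tilt_mD (x : E) (a : ℝ) : Measurable (tiltD x a) := by
  unfold tiltD
  fun_prop

theorem tilt_mH (x : E) {ψ : W → ℝ} (hψ : Measurable ψ) (δ s : ℝ) :
    Measurable (tiltH x ψ δ s) :=
  Measurable.ite (measurableSet_eq_fun (hψ.comp (measurable_id.sub_const _)) measurable_const)
    (tilt_mD _ _) measurable_const

theorem tilt_mQ (x : E) {ψ : W → ℝ} (hψ : Measurable ψ) (δ : ℝ) : Measurable (tiltQ x ψ δ) :=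
  (tilt_mH x hψ δ 1).add (tilt_mH x hψ δ (-1))

theorem tilt_msingle (x : E) {g : W → ℝ} (hg : Measurable g) :
    Measurable fun w => (Pi.single x (g w) : W) := by
  refine measurable_pi_lambda _ fun y => ?_
  by_cases h : y = x
  · subst h; simpa using hg
  · simp [Pi.single_eq_of_ne h]

theorem tilt_mS (x : E) {ψ : W → ℝ} (hψ : Measurable ψ) (δ : ℝ) : Measurable (tiltS x ψ δ) :=
  measurable_id.add (tilt_msingle x (hψ.const_mul δ))

theorem tilt_shift (x : E) (a : ℝ) {F : W → ℝ≥0∞} (hF : Measurable F) :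
    ∫⁻ w, F (w + Pi.single x a) ∂P = ∫⁻ w, tiltD x a w * F w ∂P := by
  rw [← lintegral_map hF (measurable_add_const _), shift_formula]
  exact lintegral_withDensity_eq_lintegral_mul _ (tilt_mD x a) hF

theorem tilt_step (x : E) {ψ : W → ℝ} (hψ : Measurable ψ) (hs : ∀ w, ψ w = 1 ∨ ψ w = -1) (δ : ℝ)
    {F : W → ℝ≥0∞} (hF : Measurable F) :
    ∫⁻ w, F (tiltS x ψ δ w) ∂P = ∫⁻ w, F w * tiltQ x ψ δ w ∂P := by
  let G : ℝ → W → ℝ≥0∞ := fun s w => if ψ (w - Pi.single x (δ * s)) = s then F w else 0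
  have hG : ∀ s, Measurable (G s) := fun s =>
    Measurable.ite (measurableSet_eq_fun (hψ.comp (measurable_id.sub_const _)) measurable_const)
      hF measurable_const
  have e1 : ∀ w, F (tiltS x ψ δ w) =
      G 1 (w + Pi.single x (δ * 1)) + G (-1) (w + Pi.single x (δ * (-1))) := by
    intro w
    simp only [G, add_sub_cancel_right, tiltS]
    rcases hs w with h | h
    · rw [h, if_pos rfl, if_neg (by norm_num), add_zero]
    · rw [h, if_neg (by norm_num), if_pos rfl, zero_add]
  have e2 : ∀ s w, tiltD x (δ * s) w * G s w = F w * tiltH x ψ δ s w := by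
    intro s w
    simp only [G, tiltH]
    split_ifs
    · exact mul_comm _ _
    · simp
  simp only [e1]
  have m1 : Measurable fun w : W => G 1 (w + Pi.single x (δ * 1)) :=
    (hG 1).comp (measurable_add_const _)
  have m2 : Measurable fun w => F w * tiltH x ψ δ 1 w := hF.mul (tilt_mH x hψ δ 1)
  rw [lintegral_add_left m1, tilt_shift x _ (hG 1), tilt_shift x _ (hG (-1))]
  simp only [e2, tiltQ, mul_add]
  rw [lintegral_add_left m2]

theorem tilt_intD (x : E) (a : ℝ) : ∫⁻ w, tiltD x a w ∂P = 1 := by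
  simpa using (tilt_shift x a (F := fun _ => 1) measurable_const).symm

theorem tilt_intD2 (x : E) (a : ℝ) :
    ∫⁻ w, tiltD x a w ^ 2 ∂P = ENNReal.ofReal (Real.exp (a ^ 2)) := by
  have e1 : ∀ w, tiltD x a w ^ 2 = ENNReal.ofReal (Real.exp (a ^ 2)) * tiltD x (2 * a) w := by
    intro w
    rw [tiltD, tiltD, ← ENNReal.ofReal_pow (Real.exp_pos _).le,
      ← ENNReal.ofReal_mul (Real.exp_pos _).le, ← Real.exp_add, ← Real.exp_nat_mul]
    congr 2
    push_cast
    ring
  simp only [e1]
  rw [lintegral_const_mul _ (tilt_mD _ _), tilt_intD, mul_one]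

theorem tilt_intQ (x : E) {ψ : W → ℝ} (hψ : Measurable ψ) (hs : ∀ w, ψ w = 1 ∨ ψ w = -1)
    (δ : ℝ) : ∫⁻ w, tiltQ x ψ δ w ∂P = 1 := by
  simpa using (tilt_step x hψ hs δ (F := fun _ => 1) measurable_const).symm

theorem tilt_intQ2 (x : E) (ψ : W → ℝ) (δ : ℝ) :
    ∫⁻ w, tiltQ x ψ δ w ^ 2 ∂P ≤ ENNReal.ofReal (4 * Real.exp (δ ^ 2)) := by
  have h1 : ∀ s w, tiltH x ψ δ s w ≤ tiltD x (δ * s) w := by
    intro s w
    unfold tiltH
    split_ifs <;> simp
  have h2 : ∀ w, tiltQ x ψ δ w ^ 2 ≤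
      2 * (tiltD x (δ * 1) w ^ 2 + tiltD x (δ * (-1)) w ^ 2) := by
    intro w
    have h3 := ENNReal.rpow_add_le_mul_rpow_add_rpow (tiltD x (δ * 1) w) (tiltD x (δ * (-1)) w)
      (p := 2) (by norm_num)
    norm_num at h3
    refine le_trans (pow_le_pow_left' (add_le_add (h1 1 w) (h1 (-1) w)) 2) ?_
    simpa using h3
  refine (lintegral_mono h2).trans_eq ?_
  have m1 : Measurable fun w => tiltD x (δ * 1) w ^ 2 + tiltD x (δ * (-1)) w ^ 2 :=
    ((tilt_mD _ _).pow_const 2).add ((tilt_mD _ _).pow_const 2)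
  rw [lintegral_const_mul _ m1, lintegral_add_left ((tilt_mD _ _).pow_const 2), tilt_intD2, tilt_intD2,
    ENNReal.ofReal_mul (by norm_num)]
  simp only [mul_one, mul_neg, neg_sq, ENNReal.ofReal_ofNat]
  ring

theorem tilt_depQ {x : E} {ψ : W → ℝ} {A : Set E} (hx : x ∈ A) (hψ : DependsOn ψ A) (δ : ℝ) :
    DependsOn (tiltQ x ψ δ) A := by
  intro w w' h
  have h1 : ∀ s, tiltH x ψ δ s w = tiltH x ψ δ s w' := by
    intro s
    have h2 : ψ (w - Pi.single x (δ * s)) = ψ (w' - Pi.single x (δ * s)) :=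
      hψ fun y hy => by simp only [Pi.sub_apply, h y hy]
    simp only [tiltH, tiltD, h2, h x hx]
  simp only [tiltQ, h1]

theorem tilt_indep {A A' : Finset E} (hd : Disjoint A A') {F G : W → ℝ≥0∞} (hF : Measurable F)
    (hG : Measurable G) (dF : DependsOn F (A : Set E)) (dG : DependsOn G (A' : Set E)) :
    ∫⁻ w, F w * G w ∂P = (∫⁻ w, F w ∂P) * ∫⁻ w, G w ∂P := by
  have ext : ∀ C : Finset E, Measurable
      fun (x : C → ℝ) (y : E) => if h : y ∈ C then x ⟨y, h⟩ else 0 := by
    intro C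
    refine measurable_pi_lambda _ fun y => ?_
    by_cases h : y ∈ C
    · simpa [h] using measurable_pi_apply _
    · simp [h]
  have h1 := (iIndep_P.indepFun_finset A A' hd fun y => measurable_pi_apply y).comp
    (hF.comp (ext A)) (hG.comp (ext A'))
  have h2 : IndepFun F G P := by
    convert h1 using 1
    · funext w
      exact dF fun y hy => by simp [Finset.mem_coe.1 hy]
    · funext w
      exact dG fun y hy => by simp [Finset.mem_coe.1 hy]
  exact lintegral_mul_eq_lintegral_mul_lintegral_of_indepFun hF hG h2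

theorem tilt_prod (h : Blocks e B φ) {F : ι → W → ℝ≥0∞} (hF : ∀ j, Measurable (F j))
    (dF : ∀ j, DependsOn (F j) (B j : Set E)) (J : Finset ι) :
    ∫⁻ w, ∏ j ∈ J, F j w ∂P = ∏ j ∈ J, ∫⁻ w, F j w ∂P := by
  induction J using Finset.induction_on with
  | empty => simp
  | insert k J hk ih =>
    simp only [Finset.prod_insert hk]
    rw [tilt_indep (A := B k) (A' := J.biUnion B) _ (hF k)
      (Finset.measurable_prod _ fun j _ => hF j) (dF k), ih]
    · intro w w' hw
      refine Finset.prod_congr rfl fun j hj => dF j fun y hy => hw y ?_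
      exact Finset.mem_coe.2 (Finset.mem_biUnion.2 ⟨j, hj, hy⟩)
    · exact (Finset.disjoint_biUnion_right _ _ _).2 fun j hj =>
        h.disj k j fun hkj => hk (hkj ▸ hj)

omit [DecidableEq ι] in
theorem tilt_ne (h : Blocks e B φ) {i j : ι} (hij : i ≠ j) {y : E} (hy : y ∈ B j) : y ≠ e i := by
  rintro rfl
  exact Finset.disjoint_left.1 (h.disj i j hij) (h.mem i) hy

theorem tilt_insert (h : Blocks e B φ) (δ : ℝ) {T : Finset ι} {j : ι} (hj : j ∉ T) (w : W) :
    mv e φ δ (insert j T) w = tiltS (e j) (φ j) δ (mv e φ δ T w) := by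
  have h1 : φ j (mv e φ δ T w) = φ j w := by
    refine h.dep j fun y hy => ?_
    simp only [mv, Pi.add_apply, Finset.sum_apply, add_eq_left]
    refine Finset.sum_eq_zero fun i hi => Pi.single_eq_of_ne ?_ _
    exact tilt_ne h (fun hij : i = j => hj (hij ▸ hi)) hy
  rw [tiltS, h1, mv, mv, Finset.sum_insert hj]
  abel

theorem measurable_mv (h : Blocks e B φ) (δ : ℝ) (T : Finset ι) : Measurable (mv e φ δ T) := by
  exact measurable_id.add
    (Finset.measurable_sum _ fun i _ => tilt_msingle _ ((h.meas i).const_mul δ))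

theorem mv_qmp (h : Blocks e B φ) (δ : ℝ) (T : Finset ι) :
    Measure.QuasiMeasurePreserving (mv e φ δ T) P P := by
  induction T using Finset.induction_on with
  | empty =>
    have : mv e φ δ ∅ = id := by funext w; simp [mv]
    rw [this]
    exact Measure.QuasiMeasurePreserving.id P
  | insert j T hj ih =>
    have h1 : Measure.QuasiMeasurePreserving (tiltS (e j) (φ j) δ) P P := by
      have hm := tilt_mS (e j) (h.meas j) δ
      refine ⟨hm, Measure.AbsolutelyContinuous.mk fun s hs h0 => ?_⟩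
      have hI : Measurable (s.indicator (1 : W → ℝ≥0∞)) := measurable_one.indicator hs
      rw [← lintegral_indicator_one hs, lintegral_map hI hm,
        tilt_step _ (h.meas j) (h.sgn j) δ hI]
      refine lintegral_eq_zero_of_ae_eq_zero ?_
      filter_upwards [measure_eq_zero_iff_ae_notMem.1 h0] with w hw
      simp [hw]
    have : mv e φ δ (insert j T) = tiltS (e j) (φ j) δ ∘ mv e φ δ T :=
      funext (tilt_insert h δ hj)
    rw [this]
    exact h1.comp ih

theorem tilt_sum (h : Blocks e B φ) (δ : ℝ) (a b : ℝ≥0∞) (J : Finset ι) {i : ι} (hi : i ∉ J)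
    {F : W → ℝ≥0∞} (hF : Measurable F) :
    ∑ T ∈ J.powerset, b ^ T.card * a ^ (J.card - T.card) *
        ∫⁻ w, F (mv e φ δ (insert i T) w) ∂P =
      ∫⁻ w, F w * (tiltQ (e i) (φ i) δ w * ∏ j ∈ J, (a + b * tiltQ (e j) (φ j) δ w)) ∂P := by
  have mQ : ∀ j, Measurable (tiltQ (e j) (φ j) δ) := fun j => tilt_mQ _ (h.meas j) δ
  induction J using Finset.induction_on generalizing F with
  | empty =>
    simp only [Finset.powerset_empty, Finset.sum_singleton, Finset.card_empty, pow_zero,
      Nat.sub_zero, one_mul, Finset.prod_empty, mul_one]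
    rw [← tilt_step _ (h.meas i) (h.sgn i) δ hF]
    refine lintegral_congr fun w => ?_
    rw [tilt_insert h δ (Finset.notMem_empty i)]
    simp [mv]
  | insert k J hk ih =>
    have hiJ : i ∉ J := fun h1 => hi (Finset.mem_insert_of_mem h1)
    have hik : k ≠ i := fun h1 => hi (h1 ▸ Finset.mem_insert_self _ _)
    have hS := tilt_mS (e k) (h.meas k) δ
    set U : W → ℝ≥0∞ := fun w =>
      tiltQ (e i) (φ i) δ w * ∏ j ∈ J, (a + b * tiltQ (e j) (φ j) δ w) with hU
    have mU : Measurable U :=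
      (mQ i).mul (Finset.measurable_prod _ fun j _ => ((mQ j).const_mul b).const_add a)
    have hQS : ∀ j, k ≠ j → ∀ w,
        tiltQ (e j) (φ j) δ (tiltS (e k) (φ k) δ w) = tiltQ (e j) (φ j) δ w := by
      intro j hkj w
      refine tilt_depQ (Finset.mem_coe.2 (h.mem j)) (h.dep j) δ fun y hy => ?_
      simp [tiltS, Pi.single_eq_of_ne (tilt_ne h hkj hy)]
    have hUS : ∀ w, U (tiltS (e k) (φ k) δ w) = U w := by
      intro w
      simp only [hU]
      rw [hQS i hik]
      congr 1
      exact Finset.prod_congr rfl fun j hj => by rw [hQS j fun hkj => hk (hkj ▸ hj)]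
    have mFU : Measurable fun w => F w * U w := hF.mul mU
    have mFUQ : Measurable fun w => F w * U w * tiltQ (e k) (φ k) δ w := mFU.mul (mQ k)
    have mFS : Measurable fun w => F (tiltS (e k) (φ k) δ w) := hF.comp hS
    have e1 : ∑ T ∈ J.powerset, b ^ T.card * a ^ ((insert k J).card - T.card) *
        ∫⁻ w, F (mv e φ δ (insert i T) w) ∂P = a * ∫⁻ w, F w * U w ∂P := by
      rw [← ih hiJ hF, Finset.mul_sum]
      refine Finset.sum_congr rfl fun T hT => ?_
      have := Finset.card_le_card (Finset.mem_powerset.1 hT)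
      rw [Finset.card_insert_of_notMem hk, Nat.sub_add_comm this, pow_succ]
      ring
    have e2 : ∑ T ∈ J.powerset, b ^ (insert k T).card * a ^ ((insert k J).card - (insert k T).card) *
        ∫⁻ w, F (mv e φ δ (insert i (insert k T)) w) ∂P =
        b * ∫⁻ w, F w * U w * tiltQ (e k) (φ k) δ w ∂P := by
      rw [← tilt_step _ (h.meas k) (h.sgn k) δ mFU]
      simp only [hUS]
      rw [← ih hiJ mFS, Finset.mul_sum]
      refine Finset.sum_congr rfl fun T hT => ?_
      have hkT : k ∉ T := fun h1 => hk (Finset.mem_powerset.1 hT h1)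
      have hkT' : k ∉ insert i T := by simp [hik, hkT]
      rw [Finset.card_insert_of_notMem hk, Finset.card_insert_of_notMem hkT,
        Nat.add_sub_add_right, pow_succ, Finset.insert_comm]
      simp only [tilt_insert h δ hkT']
      ring
    rw [Finset.sum_powerset_insert hk, e1, e2, ← lintegral_const_mul _ mFU,
      ← lintegral_const_mul _ mFUQ, ← lintegral_add_left (mFU.const_mul a)]
    refine lintegral_congr fun w => ?_
    simp only [hU, Finset.prod_insert hk]
    ring

theorem tilt_sq (h : Blocks e B φ) (δ : ℝ) {p : ℝ} (hp0 : 0 ≤ p) (hp1 : p ≤ 1) (J : Finset ι)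
    {i : ι} (hi : i ∉ J) :
    ∫⁻ w, (tiltQ (e i) (φ i) δ w * ∏ j ∈ J, (ENNReal.ofReal (1 - p) +
        ENNReal.ofReal p * tiltQ (e j) (φ j) δ w)) ^ 2 ∂P ≤
      ENNReal.ofReal ((4 * Real.exp (δ ^ 2)) *
        Real.exp (J.card * p ^ 2 * (4 * Real.exp (δ ^ 2)))) := by
  have mQ : ∀ j, Measurable (tiltQ (e j) (φ j) δ) := fun j => tilt_mQ _ (h.meas j) δ
  have dQ : ∀ j, DependsOn (tiltQ (e j) (φ j) δ) (B j : Set E) := fun j =>
    tilt_depQ (Finset.mem_coe.2 (h.mem j)) (h.dep j) δ
  set a := ENNReal.ofReal (1 - p) with ha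
  set b := ENNReal.ofReal p with hb
  set c : ℝ := 4 * Real.exp (δ ^ 2) with hc
  have hc0 : 0 ≤ c := by positivity
  have hab : a + b = 1 := by
    rw [ha, hb, ← ENNReal.ofReal_add (by linarith) hp0]; simp
  let F : ι → W → ℝ≥0∞ := fun j w =>
    if j = i then tiltQ (e i) (φ i) δ w ^ 2 else (a + b * tiltQ (e j) (φ j) δ w) ^ 2
  have mF : ∀ j, Measurable (F j) := by
    intro j
    by_cases hj : j = i
    · simpa [F, hj] using (mQ i).pow_const 2
    · simpa [F, hj] using (((mQ j).const_mul b).const_add a).pow_const 2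
  have dF : ∀ j, DependsOn (F j) (B j : Set E) := by
    intro j w w' hw
    by_cases hj : j = i
    · subst hj
      simp only [F, if_true, dQ j hw]
    · simp only [F, if_neg hj, dQ j hw]
  have hne : ∀ j ∈ J, j ≠ i := fun j hj hji => hi (hji ▸ hj)
  have e1 : ∀ w, (tiltQ (e i) (φ i) δ w * ∏ j ∈ J, (a + b * tiltQ (e j) (φ j) δ w)) ^ 2 =
      ∏ j ∈ insert i J, F j w := by
    intro w
    rw [Finset.prod_insert hi, mul_pow, ← Finset.prod_pow]
    simp only [F, if_true]
    congr 1
    exact Finset.prod_congr rfl fun j hj => (if_neg (hne j hj)).symm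
  have e2 : ∀ j ∈ J, ∫⁻ w, F j w ∂P ≤ ENNReal.ofReal (Real.exp (p ^ 2 * c)) := by
    intro j hj
    have e3 : ∀ w, F j w = a ^ 2 + (2 * a * b * tiltQ (e j) (φ j) δ w +
        b ^ 2 * tiltQ (e j) (φ j) δ w ^ 2) := by
      intro w
      simp only [F, if_neg (hne j hj)]
      ring
    simp only [e3]
    rw [lintegral_add_left measurable_const, lintegral_add_left ((mQ j).const_mul _),
      lintegral_const_mul _ (mQ j), lintegral_const_mul _ ((mQ j).pow_const 2),
      tilt_intQ _ (h.meas j) (h.sgn j), lintegral_const, measure_univ]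
    calc _ ≤ (a + b) ^ 2 + b ^ 2 * ENNReal.ofReal c := by
          have h1 := mul_le_mul_right (tilt_intQ2 (e j) (φ j) δ) (b ^ 2)
          calc _ ≤ a ^ 2 * 1 + (2 * a * b * 1 + b ^ 2 * ENNReal.ofReal c) + b ^ 2 :=
                le_add_right (add_le_add le_rfl (add_le_add le_rfl h1))
            _ = _ := by ring
      _ = ENNReal.ofReal (p ^ 2 * c + 1) := by
          rw [hab, one_pow, hb, ← ENNReal.ofReal_pow hp0, ← ENNReal.ofReal_mul (by positivity),
            ENNReal.ofReal_add (by positivity) zero_le_one, ENNReal.ofReal_one, add_comm]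
      _ ≤ _ := ENNReal.ofReal_le_ofReal (Real.add_one_le_exp _)
  simp only [e1]
  rw [tilt_prod h mF dF, Finset.prod_insert hi, ENNReal.ofReal_mul hc0]
  refine mul_le_mul' ?_ ?_
  · simpa only [F, if_true] using tilt_intQ2 (e i) (φ i) δ
  · refine (Finset.prod_le_prod' e2).trans_eq ?_
    rw [Finset.prod_const, ← ENNReal.ofReal_pow (Real.exp_pos _).le, ← Real.exp_nat_mul,
      mul_assoc]

theorem mv_bound (h : Blocks e B φ) (δ : ℝ) {p : ℝ} (hp0 : 0 ≤ p) (hp1 : p ≤ 1) (J : Finset ι)
    {i : ι} (hi : i ∉ J) {f : W → ℝ} (hf : Measurable f) (h0 : ∀ w, 0 ≤ f w) (h2 : ∀ w, f w ≤ 2)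
    {l : ℝ} (hl : 0 < l) :
    ∑ T ∈ J.powerset, p ^ T.card * (1 - p) ^ (J.card - T.card) *
        ∫ w, f (mv e φ δ (insert i T) w) ∂P ≤
      l * ∫ w, f w ∂P + 2 * (4 * Real.exp (δ ^ 2)) *
        Real.exp (J.card * p ^ 2 * (4 * Real.exp (δ ^ 2))) / l := by
  have hp2 : 0 ≤ 1 - p := by linarith
  have conv : ∀ g : W → W, Measurable g → ENNReal.ofReal (∫ w, f (g w) ∂P) =
      ∫⁻ w, ENNReal.ofReal (f (g w)) ∂P := fun g hg =>
    ofReal_integral_eq_lintegral_ofReal
      (Integrable.of_bound (hf.comp hg).aestronglyMeasurable 2 (ae_of_all _ fun w => by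
        rw [Real.norm_of_nonneg (h0 _)]; exact h2 _)) (ae_of_all _ fun w => h0 _)
  have hI : 0 ≤ ∫ w, f w ∂P := integral_nonneg h0
  have hF : Measurable fun w => ENNReal.ofReal (f w) := hf.ennreal_ofReal
  have hL0 : ENNReal.ofReal l ≠ 0 := (ENNReal.ofReal_pos.2 hl).ne'
  have pt : ∀ (x : ℝ) (U : ℝ≥0∞), x ≤ 2 → ENNReal.ofReal x * U ≤
      ENNReal.ofReal l * ENNReal.ofReal x + 2 * (ENNReal.ofReal l)⁻¹ * U ^ 2 := by
    intro x U hx
    rcases le_total U (ENNReal.ofReal l) with h1 | h1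
    · exact le_add_right (by rw [mul_comm]; exact mul_le_mul_left h1 _)
    · refine le_add_left ?_
      have h3 : ENNReal.ofReal x ≤ 2 := by simpa using ENNReal.ofReal_le_ofReal hx
      calc _ ≤ 2 * U := mul_le_mul_left h3 _
        _ = 2 * (ENNReal.ofReal l)⁻¹ * (ENNReal.ofReal l * U) := by
          rw [mul_assoc 2, ← mul_assoc _ _ U, ENNReal.inv_mul_cancel hL0 ENNReal.ofReal_ne_top,
            one_mul]
        _ ≤ _ := by
          rw [pow_two]
          exact mul_le_mul_right (mul_le_mul_left h1 _) _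
  have mQ : ∀ j, Measurable (tiltQ (e j) (φ j) δ) := fun j => tilt_mQ _ (h.meas j) δ
  rw [← ENNReal.ofReal_le_ofReal_iff (by positivity), ENNReal.ofReal_sum_of_nonneg fun T _ =>
    mul_nonneg (by positivity) (integral_nonneg fun w => h0 _)]
  calc _ = ∑ T ∈ J.powerset, ENNReal.ofReal p ^ T.card *
          ENNReal.ofReal (1 - p) ^ (J.card - T.card) *
          ∫⁻ w, ENNReal.ofReal (f (mv e φ δ (insert i T) w)) ∂P := by
        refine Finset.sum_congr rfl fun T _ => ?_
        rw [ENNReal.ofReal_mul (by positivity), ENNReal.ofReal_mul (by positivity),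
          ENNReal.ofReal_pow hp0, ENNReal.ofReal_pow hp2, conv _ (measurable_mv h δ _)]
    _ = _ := tilt_sum h δ _ _ J hi hF
    _ ≤ _ := lintegral_mono fun w => pt _ _ (h2 w)
    _ ≤ ENNReal.ofReal l * ENNReal.ofReal (∫ w, f w ∂P) + 2 * (ENNReal.ofReal l)⁻¹ *
        ENNReal.ofReal ((4 * Real.exp (δ ^ 2)) *
          Real.exp (J.card * p ^ 2 * (4 * Real.exp (δ ^ 2)))) := by
        have m1 : Measurable fun w => (tiltQ (e i) (φ i) δ w * ∏ j ∈ J, (ENNReal.ofReal (1 - p) +
            ENNReal.ofReal p * tiltQ (e j) (φ j) δ w)) ^ 2 :=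
          ((mQ i).mul (Finset.measurable_prod _ fun j _ =>
            ((mQ j).const_mul _).const_add _)).pow_const 2
        rw [lintegral_add_left (hF.const_mul _), lintegral_const_mul _ hF,
          lintegral_const_mul _ m1, conv (fun w => w) measurable_id]
        exact add_le_add le_rfl (mul_le_mul_right (tilt_sq h δ hp0 hp1 J hi) _)
    _ = _ := by
        rw [ENNReal.ofReal_add (by positivity) (by positivity), ENNReal.ofReal_mul hl.le,
          ENNReal.ofReal_div_of_pos hl, mul_assoc (2 : ℝ), ENNReal.ofReal_mul zero_le_two,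
          ENNReal.ofReal_ofNat, div_eq_mul_inv]
        ring

end Pool.Agent.MP_c70b3b_mp

end

section

open MeasureTheory ProbabilityTheory Filter Topology
open scoped symmDiff ENNReal

namespace Pool.Agent.MP_c70b3b_mp

variable {ι : Type} [DecidableEq ι] {e : ι → E} {B : ι → Finset E} {φ : ι → W → ℝ}

omit [DecidableEq ι] in
lemma edgeavg_one (I : Finset ι) (p : ℝ) :
    ∑ T ∈ I.powerset, p ^ T.card * (1 - p) ^ (I.card - T.card) = 1 := by
  rw [Finset.sum_pow_mul_eq_add_pow]
  simp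

lemma edgeavg_sum (I : Finset ι) (p : ℝ) (f : ι → Finset ι → ℝ) :
    ∑ T ∈ I.powerset, p ^ T.card * (1 - p) ^ (I.card - T.card) * ∑ i ∈ T, f i T =
      p * ∑ i ∈ I, ∑ T ∈ (I.erase i).powerset,
        p ^ T.card * (1 - p) ^ ((I.erase i).card - T.card) * f i (insert i T) := by
  have h1 : ∀ T ∈ I.powerset, p ^ T.card * (1 - p) ^ (I.card - T.card) * ∑ i ∈ T, f i T =
      ∑ i ∈ I, if i ∈ T then p ^ T.card * (1 - p) ^ (I.card - T.card) * f i T else 0 := by
    intro T hT
    rw [← Finset.sum_filter, Finset.filter_mem_eq_inter,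
      Finset.inter_eq_right.2 (Finset.mem_powerset.1 hT), Finset.mul_sum]
  rw [Finset.sum_congr rfl h1, Finset.sum_comm, Finset.mul_sum]
  refine Finset.sum_congr rfl fun i hi => ?_
  have h2 : I.powerset = (insert i (I.erase i)).powerset := by rw [Finset.insert_erase hi]
  rw [h2, Finset.sum_powerset_insert (Finset.notMem_erase i I), Finset.mul_sum]
  have h3 : ∑ T ∈ (I.erase i).powerset,
      (if i ∈ T then p ^ T.card * (1 - p) ^ (I.card - T.card) * f i T else 0) = 0 := by
    refine Finset.sum_eq_zero fun T hT => if_neg fun hiT => ?_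
    exact Finset.notMem_erase i I (Finset.mem_powerset.1 hT hiT)
  rw [h3, zero_add]
  refine Finset.sum_congr rfl fun T hT => ?_
  have hiT : i ∉ T := fun hiT => Finset.notMem_erase i I (Finset.mem_powerset.1 hT hiT)
  rw [if_pos (Finset.mem_insert_self i T), Finset.card_insert_of_notMem hiT,
    Finset.card_erase_of_mem hi]
  have h4 : I.card - (T.card + 1) = I.card - 1 - T.card := by omega
  rw [h4]
  ring

lemma edgeavg_count (h : Blocks e B φ) (J : Finset ι) (Bg : Finset E) :
    ∑ j ∈ J, (if e j ∈ Bg then (1 : ℝ) else 0) ≤ Bg.card := by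
  rw [Finset.sum_boole]
  have : (J.filter fun j => e j ∈ Bg).card ≤ Bg.card := by
    refine Finset.card_le_card_of_injOn e (fun j hj => ?_) (fun j _ k _ hjk => ?_)
    · exact (Finset.mem_filter.1 hj).2
    · by_contra hne
      exact Finset.disjoint_left.1 (h.disj j k hne) (h.mem j) (hjk ▸ h.mem k)
  exact_mod_cast this

lemma edgeavg_mean (h : Blocks e B φ) {p : ℝ} (hp0 : 0 ≤ p) (J : Finset ι) (Bg : Finset E) :
    ∑ T ∈ J.powerset, p ^ T.card * (1 - p) ^ (J.card - T.card) *
      ∑ j ∈ T, (if e j ∈ Bg then (1 : ℝ) else 0) ≤ p * Bg.card := by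
  rw [edgeavg_sum J p (fun j _ => if e j ∈ Bg then (1 : ℝ) else 0)]
  refine mul_le_mul_of_nonneg_left ?_ hp0
  refine le_trans (le_of_eq ?_) (edgeavg_count h J Bg)
  refine Finset.sum_congr rfl fun j _ => ?_
  rw [← Finset.sum_mul, edgeavg_one, one_mul]

lemma edgeavg_loc (δ : ℝ) {T : Finset ι} {i : ι} (hi : i ∉ T) {g : W → ℝ}
    (hg1 : ∀ w, |g w| ≤ 1) (Bg : Finset E) (hd : DependsOn g (Bg : Set E)) (w : W) :
    |g (mv e φ δ (insert i T) w) - g (mv e φ δ {i} w)| ≤
      2 * ∑ j ∈ T, (if e j ∈ Bg then (1 : ℝ) else 0) := by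
  have hnn : ∀ j ∈ T, (0 : ℝ) ≤ if e j ∈ Bg then (1 : ℝ) else 0 := fun j _ => by
    split_ifs <;> norm_num
  by_cases hx : ∃ j ∈ T, e j ∈ Bg
  · obtain ⟨j, hj, hjB⟩ := hx
    have h1 := Finset.single_le_sum hnn hj
    rw [if_pos hjB] at h1
    have h2 := abs_sub (g (mv e φ δ (insert i T) w)) (g (mv e φ δ {i} w))
    have h3 := hg1 (mv e φ δ (insert i T) w)
    have h4 := hg1 (mv e φ δ {i} w)
    linarith
  · have heq : g (mv e φ δ (insert i T) w) = g (mv e φ δ {i} w) := by
      refine hd fun x hx' => ?_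
      have hx0 : ∑ j ∈ T, (Pi.single (e j) (δ * φ j w) : W) x = 0 := by
        refine Finset.sum_eq_zero fun j hj => ?_
        refine Pi.single_eq_of_ne (fun hxe => hx ⟨j, hj, ?_⟩) _
        rw [← hxe]; exact hx'
      simp only [mv, Finset.sum_insert hi, Finset.sum_singleton, Pi.add_apply, Finset.sum_apply,
        hx0, add_zero]
    rw [heq, sub_self, abs_zero]
    exact mul_nonneg (by norm_num) (Finset.sum_nonneg hnn)

lemma edgeavg_int {f : W → ℝ} (hf : Measurable f) (h2 : ∀ w, |f w| ≤ 2) : Integrable f P :=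
  Integrable.of_bound hf.aestronglyMeasurable 2 (Eventually.of_forall fun w => h2 w)

/-- Sparse random moves elsewhere do not change the mean of `a ∘ mv` much: `g` is a local
approximation of `a` and at most `c` of the moved edges lie in its support. -/
theorem mv_avg (h : Blocks e B φ) (δ : ℝ) {p : ℝ} (hp0 : 0 ≤ p) (hp1 : p ≤ 1) (J : Finset ι)
    {i : ι} (hi : i ∉ J) {a g : W → ℝ} (ha : Measurable a) (hg : Measurable g)
    (ha1 : ∀ w, |a w| ≤ 1) (hg1 : ∀ w, |g w| ≤ 1) (Bg : Finset E) (hd : DependsOn g (Bg : Set E))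
    {l : ℝ} (hl : 0 < l) :
    ∑ T ∈ J.powerset, p ^ T.card * (1 - p) ^ (J.card - T.card) *
        ∫ w, |a (mv e φ δ (insert i T) w) - a (mv e φ δ {i} w)| ∂P ≤
      2 * (l * ∫ w, |a w - g w| ∂P + 2 * (4 * Real.exp (δ ^ 2)) *
        Real.exp (J.card * p ^ 2 * (4 * Real.exp (δ ^ 2))) / l) + 2 * p * Bg.card := by
  set F : W → ℝ := fun w => |a w - g w| with hF
  have hFm : Measurable F := (ha.sub hg).abs
  have hF0 : ∀ w, 0 ≤ F w := fun w => abs_nonneg _
  have hF2 : ∀ w, F w ≤ 2 := fun w => by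
    have h1 := abs_sub (a w) (g w)
    have h2 := ha1 w
    have h3 := hg1 w
    simp only [hF]; linarith
  have hFa : ∀ w, |F w| ≤ 2 := fun w => by rw [abs_of_nonneg (hF0 w)]; exact hF2 w
  have hint : ∀ T : Finset ι, Integrable (fun w => F (mv e φ δ T w)) P := fun T =>
    edgeavg_int (hFm.comp (measurable_mv h δ T)) fun w => hFa _
  have hA := mv_bound h δ hp0 hp1 J hi hFm hF0 hF2 hl
  have hB := mv_bound h δ hp0 hp1 ∅ (Finset.notMem_empty i) hFm hF0 hF2 hl
  have hC := edgeavg_mean h hp0 J Bg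
  have hone := edgeavg_one J p
  have hB' : ∫ w, F (mv e φ δ {i} w) ∂P ≤ l * ∫ w, F w ∂P + 2 * (4 * Real.exp (δ ^ 2)) *
        Real.exp (J.card * p ^ 2 * (4 * Real.exp (δ ^ 2))) / l := by
    simp only [Finset.powerset_empty, Finset.sum_singleton, Finset.card_empty, pow_zero,
      Nat.sub_self, one_mul, Nat.cast_zero, zero_mul, Real.exp_zero, mul_one,
      LawfulSingleton.insert_empty_eq] at hB
    refine hB.trans ?_
    have h1 : (1 : ℝ) ≤ Real.exp (J.card * p ^ 2 * (4 * Real.exp (δ ^ 2))) :=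
      Real.one_le_exp (by positivity)
    have h2 : 2 * (4 * Real.exp (δ ^ 2)) ≤ 2 * (4 * Real.exp (δ ^ 2)) *
        Real.exp (J.card * p ^ 2 * (4 * Real.exp (δ ^ 2))) :=
      le_mul_of_one_le_right (by positivity) h1
    have h3 := div_le_div_of_nonneg_right h2 hl.le
    linarith
  have hterm : ∀ T ∈ J.powerset, p ^ T.card * (1 - p) ^ (J.card - T.card) *
        ∫ w, |a (mv e φ δ (insert i T) w) - a (mv e φ δ {i} w)| ∂P ≤
      p ^ T.card * (1 - p) ^ (J.card - T.card) * ∫ w, F (mv e φ δ (insert i T) w) ∂P +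
      2 * (p ^ T.card * (1 - p) ^ (J.card - T.card) *
        ∑ j ∈ T, (if e j ∈ Bg then (1 : ℝ) else 0)) +
      p ^ T.card * (1 - p) ^ (J.card - T.card) * ∫ w, F (mv e φ δ {i} w) ∂P := by
    intro T hT
    have hiT : i ∉ T := fun hh => hi (Finset.mem_powerset.1 hT hh)
    have hw : 0 ≤ p ^ T.card * (1 - p) ^ (J.card - T.card) :=
      mul_nonneg (pow_nonneg hp0 _) (pow_nonneg (sub_nonneg.2 hp1) _)
    have hle : ∫ w, |a (mv e φ δ (insert i T) w) - a (mv e φ δ {i} w)| ∂P ≤
        ∫ w, (F (mv e φ δ (insert i T) w) + 2 * ∑ j ∈ T, (if e j ∈ Bg then (1 : ℝ) else 0) +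
          F (mv e φ δ {i} w)) ∂P := by
      refine integral_mono_of_nonneg (Eventually.of_forall fun w => abs_nonneg _)
        (((hint _).add (integrable_const _)).add (hint _)) (Eventually.of_forall fun w => ?_)
      have h1 := edgeavg_loc (e := e) (φ := φ) δ hiT hg1 Bg hd w
      have h2 := abs_sub_le (a (mv e φ δ (insert i T) w)) (g (mv e φ δ (insert i T) w))
        (a (mv e φ δ {i} w))
      have h3 := abs_sub_le (g (mv e φ δ (insert i T) w)) (g (mv e φ δ {i} w))
        (a (mv e φ δ {i} w))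
      have h4 := abs_sub_comm (g (mv e φ δ {i} w)) (a (mv e φ δ {i} w))
      simp only [hF]
      linarith
    have hi2 : Integrable (fun w => F (mv e φ δ (insert i T) w) +
        2 * ∑ j ∈ T, (if e j ∈ Bg then (1 : ℝ) else 0)) P := (hint _).add (integrable_const _)
    rw [integral_add hi2 (hint _),
      integral_add (hint _) (integrable_const _), integral_const, probReal_univ, one_smul] at hle
    have := mul_le_mul_of_nonneg_left hle hw
    linarith
  refine (Finset.sum_le_sum hterm).trans ?_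
  rw [Finset.sum_add_distrib, Finset.sum_add_distrib, ← Finset.mul_sum, ← Finset.sum_mul, hone]
  linarith

/-- Bernoulli average of a sum over the selected indices. -/
theorem bern_sum (I : Finset ι) (p : ℝ) (f : ι → Finset ι → ℝ) :
    ∑ T ∈ I.powerset, p ^ T.card * (1 - p) ^ (I.card - T.card) * ∑ i ∈ T, f i T =
      p * ∑ i ∈ I, ∑ T ∈ (I.erase i).powerset,
        p ^ T.card * (1 - p) ^ ((I.erase i).card - T.card) * f i (insert i T) := by
  exact edgeavg_sum I p f

theorem bern_one (I : Finset ι) (p : ℝ) :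
    ∑ T ∈ I.powerset, p ^ T.card * (1 - p) ^ (I.card - T.card) = 1 := by
  exact edgeavg_one I p

end Pool.Agent.MP_c70b3b_mp

end

section

open MeasureTheory ProbabilityTheory Filter Topology
open scoped symmDiff ENNReal

namespace Pool.Agent.MP_c70b3b_mp

/-- The mean of the bond at `e`. -/
noncomputable def edgeAl (κ : Kernel W S) (e : E) (w : W) : ℝ := ∫ σ, bond σ e ∂κ w

/-- The first absolute moment of a coupling. -/
noncomputable def edgeG : ℝ := ∫ x, |x| ∂gaussianReal 0 1

lemma edge_meas (κ : Kernel W S) (e : E) : Measurable (edgeAl κ e) :=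
  ((measurable_bond e).stronglyMeasurable.integral_kernel (κ := κ)).measurable

lemma edge_abs (κ : Kernel W S) [IsMarkovKernel κ] (e : E) (w : W) : |edgeAl κ e w| ≤ 1 := by
  have := norm_integral_le_of_norm_le_const (μ := κ w) (f := fun σ => bond σ e) (C := 1)
    (Eventually.of_forall fun σ => (abs_bond σ e).le)
  simpa [edgeAl] using this

lemma edge_cov {κ : Kernel W S} {z : V} {w : W} (hc : κ (shW z w) = (κ w).map (shS z)) (e : E) :
    ∫ σ, bond σ (shE z e) ∂κ w = edgeAl κ e (shW z w) := by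
  rw [edgeAl, hc, integral_map (measurable_shS z).aemeasurable
    (measurable_bond e).aestronglyMeasurable]
  simp only [bond_shS]

lemma edge_sh (z : V) {f : W → ℝ} (hf : Measurable f) :
    ∫ w, f (shW z w) ∂P = ∫ w, f w ∂P := by
  rw [← integral_map (measurable_shW z).aemeasurable hf.aestronglyMeasurable, (mp_shW z).map_eq]

lemma edge_abs_int (e : E) : Integrable (fun w : W => |w e|) P ∧ ∫ w : W, |w e| ∂P = edgeG := by
  have h : Integrable (fun x : ℝ => |x|) (gaussianReal 0 1) :=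
    ((memLp_id_gaussianReal 1).integrable le_rfl).abs
  refine ⟨(mp_eval e).integrable_comp_of_integrable h, ?_⟩
  rw [edgeG, ← (mp_eval e).map_eq]
  exact (integral_map (φ := fun w : W => w e) (f := fun x : ℝ => |x|)
    (measurable_pi_apply e).aemeasurable continuous_abs.measurable.aestronglyMeasurable).symm

lemma edge_G_nonneg : 0 ≤ edgeG := integral_nonneg fun _ => abs_nonneg _

section
variable {ι : Type} [DecidableEq ι] {e : ι → E} {B : ι → Finset E} {φ : ι → W → ℝ}

lemma edge_inj (h : Blocks e B φ) : Function.Injective e := fun i j hij => by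
  by_contra hne
  exact Finset.disjoint_left.1 (h.disj i j hne) (h.mem i) (hij ▸ h.mem j)

lemma edge_mv_mem (h : Blocks e B φ) (δ : ℝ) {T : Finset ι} {i : ι} (hi : i ∈ T) (w : W) :
    mv e φ δ T w (e i) = w (e i) + δ * φ i w := by
  rw [mv, Pi.add_apply, Finset.sum_apply, Finset.sum_eq_single_of_mem i hi
    fun j _ hj => Pi.single_eq_of_ne (fun hij => hj (edge_inj h hij).symm) _, Pi.single_eq_same]

omit [DecidableEq ι] in
lemma edge_mv_not (δ : ℝ) {T : Finset ι} {a : E} (ha : a ∉ T.image e) (w : W) :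
    mv e φ δ T w a = w a := by
  rw [mv, Pi.add_apply, Finset.sum_apply, Finset.sum_eq_zero fun j hj =>
    Pi.single_eq_of_ne (fun hij => ha (Finset.mem_image.2 ⟨j, hj, hij.symm⟩)) _, add_zero]

omit [DecidableEq ι] in
lemma edge_phi (h : Blocks e B φ) (i : ι) (w : W) : |φ i w| = 1 := by
  rcases h.sgn i w with h | h <;> simp [h]

end

lemma edge_bdd {φ a b : W → ℝ} (hφ : Measurable φ) (ha : Measurable a) (hb : Measurable b)
    (h1 : ∀ w, |φ w| = 1) (h2 : ∀ w, |a w| ≤ 1) (h3 : ∀ w, |b w| ≤ 1) :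
    Integrable (fun w => φ w * (a w - b w)) P :=
  integrable_of_bdd (hφ.mul (ha.sub hb)) 2 fun w => by
    rw [abs_mul, h1, one_mul]
    linarith [abs_sub (a w) (b w), h2 w, h3 w]

lemma edge_bdd' {a b : W → ℝ} (ha : Measurable a) (hb : Measurable b)
    (h2 : ∀ w, |a w| ≤ 1) (h3 : ∀ w, |b w| ≤ 1) : Integrable (fun w => |a w - b w|) P :=
  integrable_of_bdd (ha.sub hb).abs 2 fun w => by
    rw [abs_abs]
    linarith [abs_sub (a w) (b w), h2 w, h3 w]

/-- Replacing `b` by `b'` costs at most the distance in mean. -/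
lemma edge_swap {φ a b b' : W → ℝ} (hφ : Measurable φ) (ha : Measurable a) (hb : Measurable b)
    (hb' : Measurable b') (h1 : ∀ w, |φ w| = 1) (h2 : ∀ w, |a w| ≤ 1) (h3 : ∀ w, |b w| ≤ 1)
    (h4 : ∀ w, |b' w| ≤ 1) :
    ∫ w, φ w * (a w - b w) ∂P - ∫ w, |b' w - b w| ∂P ≤ ∫ w, φ w * (a w - b' w) ∂P := by
  rw [← integral_sub (edge_bdd hφ ha hb h1 h2 h3) (edge_bdd' hb' hb h4 h3)]
  refine integral_mono ((edge_bdd hφ ha hb h1 h2 h3).sub (edge_bdd' hb' hb h4 h3))
    (edge_bdd hφ ha hb' h1 h2 h4) fun w => ?_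
  have := le_abs_self (φ w * (b' w - b w))
  rw [abs_mul, h1, one_mul] at this
  dsimp only
  linarith

/-- The surface bound. -/
lemma edge_up {β : ℝ} (hβ : 0 < β) {k : ℤ} {κ κ' : Kernel W S} (h : CovGibbs β k κ)
    (h' : CovGibbs β k κ') (e : E) {ι : Type} [DecidableEq ι] [Countable ι] {z : ι → V}
    {B : ι → Finset E} {φ : ι → W → ℝ} (hB : Blocks (fun i => shE (k • z i) e) B φ) (N : ℕ)
    (hN : ∀ i, e.1 + k • z i ∈ box N ∧ tip e + k • z i ∈ box N) (δ : ℝ) (T : Finset ι) :
    δ * ∑ i ∈ T, ∫ w, φ i w * (edgeAl κ e (shW (k • z i) w) -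
      edgeAl κ' e (shW (k • z i) (mv (fun i => shE (k • z i) e) φ δ T w))) ∂P ≤
      32 * N * edgeG := by
  have := h.markov
  have := h'.markov
  set ee : ι → E := fun i => shE (k • z i) e with hee
  have hq := mv_qmp hB δ T
  have hm := measurable_mv hB δ T
  have hI : ∀ i ∈ T, Integrable (fun w => φ i w * (edgeAl κ e (shW (k • z i) w) -
      edgeAl κ' e (shW (k • z i) (mv ee φ δ T w)))) P := fun i _ =>
    edge_bdd (hB.meas i) ((edge_meas κ e).comp (measurable_shW _))
      ((edge_meas κ' e).comp ((measurable_shW _).comp hm)) (edge_phi hB i)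
      (fun _ => edge_abs κ e _) (fun _ => edge_abs κ' e _)
  have key : ∀ᵐ w ∂P, δ * ∑ i ∈ T, φ i w * (edgeAl κ e (shW (k • z i) w) -
      edgeAl κ' e (shW (k • z i) (mv ee φ δ T w))) ≤ 4 * ∑ a ∈ cob (box N), |w a| := by
    filter_upwards [h.gibbs, hq.ae h'.gibbs, ae_all_iff.2 fun i => h.cov (z i),
      hq.ae (ae_all_iff.2 fun i => h'.cov (z i))] with w g1 g2 c1 c2
    have e1 : β • mv ee φ δ T w = β • w + cut (T.image ee) (β • (mv ee φ δ T w - w)) := by
      funext a
      simp only [Pi.add_apply, Pi.smul_apply, cut, Pi.sub_apply, smul_eq_mul]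
      split_ifs with ha
      · ring
      · rw [edge_mv_not δ ha, add_zero]
    rw [e1] at g2
    have h1 := edge_det N (β • w) (β • (mv ee φ δ T w - w)) (T.image ee) (by
      intro a ha
      obtain ⟨i, -, rfl⟩ := Finset.mem_image.1 ha
      rw [hee, tip_shE]
      exact hN i) (κ w) (κ' (mv ee φ δ T w)) g1 g2
    rw [Finset.sum_image (edge_inj hB).injOn] at h1
    have h2 : ∑ i ∈ T, (β • (mv ee φ δ T w - w)) (ee i) *
        (∫ σ, bond σ (ee i) ∂κ w - ∫ σ, bond σ (ee i) ∂κ' (mv ee φ δ T w)) =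
        β * (δ * ∑ i ∈ T, φ i w * (edgeAl κ e (shW (k • z i) w) -
          edgeAl κ' e (shW (k • z i) (mv ee φ δ T w)))) := by
      rw [Finset.mul_sum, Finset.mul_sum]
      refine Finset.sum_congr rfl fun i hi => ?_
      rw [Pi.smul_apply, Pi.sub_apply, edge_mv_mem hB δ hi, ← edge_cov (c1 i), ← edge_cov (c2 i),
        smul_eq_mul]
      ring
    have h3 : ∑ a ∈ cob (box N), |(β • w) a| = β * ∑ a ∈ cob (box N), |w a| := by
      rw [Finset.mul_sum]
      exact Finset.sum_congr rfl fun a _ => by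
        rw [Pi.smul_apply, smul_eq_mul, abs_mul, abs_of_pos hβ]
    rw [h2, h3, mul_left_comm 4 β] at h1
    exact le_of_mul_le_mul_left h1 hβ
  have h4 := integral_mono_ae ((integrable_finsetSum T hI).const_mul δ)
    ((integrable_finsetSum (cob (box N)) fun a _ => (edge_abs_int a).1).const_mul 4) key
  rw [integral_const_mul, integral_const_mul, integral_finsetSum T hI,
    integral_finsetSum _ fun a _ => (edge_abs_int a).1,
    Finset.sum_congr rfl fun a _ => (edge_abs_int a).2, Finset.sum_const, nsmul_eq_mul] at h4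
  have h5 : ((cob (box N)).card : ℝ) ≤ 8 * N := by exact_mod_cast card_cob_box N
  nlinarith [edge_G_nonneg]

lemma edge_sh_single (z : V) (e : E) (w : W) (t : ℝ) :
    shW z (w + Pi.single (shE z e) t) = shW z w + Pi.single e t := by
  funext a
  have : shW z (w + Pi.single (shE z e) t) a =
      w (shE z a) + (Pi.single (shE z e) t : W) (shE z a) := rfl
  rw [this, Pi.add_apply]
  congr 1
  by_cases h : a = e
  · rw [h, Pi.single_eq_same, Pi.single_eq_same]
  · rw [Pi.single_eq_of_ne h, Pi.single_eq_of_ne]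
    intro h1
    simp only [shE, Prod.mk.injEq, add_left_inj] at h1
    exact h (Prod.ext h1.1 h1.2)

/-- The volume bound. -/
lemma edge_low {κ κ' : Kernel W S} [IsMarkovKernel κ] [IsMarkovKernel κ'] (e : E) {ι : Type}
    [DecidableEq ι] {z : ι → V} {B : ι → Finset E} {φ : W → ℝ} (hφ : Measurable φ)
    (hB : Blocks (fun i => shE (z i) e) B fun i w => φ (shW (z i) w)) (δ : ℝ) {c : ℝ}
    (hc : c ≤ ∫ w, φ w * (edgeAl κ e w - edgeAl κ' e (w + Pi.single e (δ * φ w))) ∂P)
    {p : ℝ} (hp0 : 0 ≤ p) (hp1 : p ≤ 1) (J : Finset ι) {i : ι} (hi : i ∉ J) {g : W → ℝ}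
    (hg : Measurable g) (hg1 : ∀ w, |g w| ≤ 1) (Bg : Finset E) (hd : DependsOn g (Bg : Set E))
    {l : ℝ} (hl : 0 < l) :
    c - (2 * (l * ∫ w, |edgeAl κ' e w - g w| ∂P + 2 * (4 * Real.exp (δ ^ 2)) *
        Real.exp (J.card * p ^ 2 * (4 * Real.exp (δ ^ 2))) / l) + 2 * p * Bg.card) ≤
      ∑ T ∈ J.powerset, p ^ T.card * (1 - p) ^ (J.card - T.card) *
        ∫ w, φ (shW (z i) w) * (edgeAl κ e (shW (z i) w) - edgeAl κ' e (shW (z i)
          (mv (fun i => shE (z i) e) (fun i w => φ (shW (z i) w)) δ (insert i T) w))) ∂P := by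
  have ms := measurable_shW (z i)
  have h1 := mv_avg hB δ hp0 hp1 J hi (a := fun w => edgeAl κ' e (shW (z i) w))
    (g := fun w => g (shW (z i) w)) ((edge_meas κ' e).comp ms) (hg.comp ms)
    (fun _ => edge_abs κ' e _) (fun _ => hg1 _) (Bg.image (shE (z i)))
    (fun w w' hw => hd fun a ha => hw (shE (z i) a)
      (Finset.mem_coe.2 (Finset.mem_image_of_mem _ ha))) hl
  rw [edge_sh (z i) (f := fun w => |edgeAl κ' e w - g w|) ((edge_meas κ' e).sub hg).abs] at h1
  have h2 : ((Bg.image (shE (z i))).card : ℝ) ≤ Bg.card := by exact_mod_cast Finset.card_image_le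
  have mψ : Measurable fun w : W => w + Pi.single e (δ * φ w) := by
    refine measurable_pi_lambda _ fun a => (measurable_pi_apply a).add ?_
    by_cases h : a = e
    · simp only [h, Pi.single_eq_same]
      exact hφ.const_mul δ
    · simp only [Pi.single_eq_of_ne h]
      exact measurable_const
  replace hc := hc.trans_eq (edge_sh (z i) (f := fun w => φ w * (edgeAl κ e w -
    edgeAl κ' e (w + Pi.single e (δ * φ w))))
    (hφ.mul ((edge_meas κ e).sub ((edge_meas κ' e).comp mψ)))).symm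
  set ee : ι → E := fun i => shE (z i) e with hee
  set φφ : ι → W → ℝ := fun i w => φ (shW (z i) w) with hφφ
  have h3 : ∀ w, shW (z i) w + Pi.single e (δ * φ (shW (z i) w)) =
      shW (z i) (mv ee φφ δ {i} w) := fun w => by
    rw [mv, Finset.sum_singleton, edge_sh_single]
  simp only [h3] at hc
  have h4 : ∀ T ∈ J.powerset, p ^ T.card * (1 - p) ^ (J.card - T.card) * c -
      p ^ T.card * (1 - p) ^ (J.card - T.card) * ∫ w, |edgeAl κ' e (shW (z i)
        (mv ee φφ δ (insert i T) w)) - edgeAl κ' e (shW (z i) (mv ee φφ δ {i} w))| ∂P ≤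
      p ^ T.card * (1 - p) ^ (J.card - T.card) * ∫ w, φ (shW (z i) w) *
        (edgeAl κ e (shW (z i) w) - edgeAl κ' e (shW (z i) (mv ee φφ δ (insert i T) w))) ∂P := by
    intro T _
    rw [← mul_sub]
    refine mul_le_mul_of_nonneg_left ?_
      (mul_nonneg (pow_nonneg hp0 _) (pow_nonneg (sub_nonneg.2 hp1) _))
    exact (sub_le_sub_right hc _).trans (edge_swap (hφ.comp ms) ((edge_meas κ e).comp ms)
      ((edge_meas κ' e).comp (ms.comp (measurable_mv hB δ _)))
      ((edge_meas κ' e).comp (ms.comp (measurable_mv hB δ _))) (edge_phi hB i)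
      (fun _ => edge_abs κ e _) (fun _ => edge_abs κ' e _) (fun _ => edge_abs κ' e _))
  have h5 := Finset.sum_le_sum h4
  rw [Finset.sum_sub_distrib, ← Finset.sum_mul, bern_one, one_mul] at h5
  nlinarith

/-- A local sign and a small move that keep a definite gap. -/
lemma edge_gap {a b : W → ℝ} (ha : Measurable a) (hb : Measurable b) (ha1 : ∀ w, |a w| ≤ 1)
    (hb1 : ∀ w, |b w| ≤ 1) (e : E) {c : ℝ} (hc : 0 < c) (hc' : c ≤ ∫ w, |a w - b w| ∂P) :
    ∃ (B : Finset E) (φ : W → ℝ) (δ : ℝ), e ∈ B ∧ Measurable φ ∧ DependsOn φ (B : Set E) ∧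
      (∀ w, φ w = 1 ∨ φ w = -1) ∧ 0 < δ ∧
      c / 2 ≤ ∫ w, φ w * (a w - b (w + Pi.single e (δ * φ w))) ∂P := by
  obtain ⟨B, φ, hφ, hd, hs, h1⟩ := exists_sign (h := fun w => a w - b w) (ha.sub hb) (C := 2)
    (fun w => by linarith [abs_sub (a w) (b w), ha1 w, hb1 w]) (ε := c / 4) (by positivity)
  obtain ⟨δ, hδ, h2⟩ := shift_cont hb hb1 e (ε := c / 8) (by positivity)
  refine ⟨insert e B, φ, δ, Finset.mem_insert_self _ _, hφ,
    hd.mono (Finset.coe_subset.2 (Finset.subset_insert _ _)), hs, hδ, ?_⟩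
  have mψ : Measurable fun w : W => w + Pi.single e (δ * φ w) := by
    refine measurable_pi_lambda _ fun a => (measurable_pi_apply a).add ?_
    by_cases h : a = e
    · simp only [h, Pi.single_eq_same]
      exact hφ.const_mul δ
    · simp only [Pi.single_eq_of_ne h]
      exact measurable_const
  have h3 := edge_swap hφ ha hb (hb.comp mψ) (fun w => by rcases hs w with h | h <;> simp [h])
    ha1 hb1 (fun _ => hb1 _)
  have i1 := edge_bdd' (hb.comp (measurable_add_const (Pi.single e δ : W))) hb (fun _ => hb1 _) hb1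
  have i2 := edge_bdd' (hb.comp (measurable_add_const (Pi.single e (-δ) : W))) hb
    (fun _ => hb1 _) hb1
  have h4 : ∫ w, |b (w + Pi.single e (δ * φ w)) - b w| ∂P ≤
      ∫ w, |b (w + Pi.single e δ) - b w| + |b (w + Pi.single e (-δ)) - b w| ∂P := by
    refine integral_mono (edge_bdd' (hb.comp mψ) hb (fun _ => hb1 _) hb1) (i1.add i2) fun w => ?_
    dsimp only
    rcases hs w with h | h
    · rw [h, mul_one]
      exact le_add_of_nonneg_right (abs_nonneg _)
    · rw [h, mul_neg_one]
      exact le_add_of_nonneg_left (abs_nonneg _)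
  have h5 := integral_add i1 i2
  have h6 := h2 δ (abs_of_pos hδ).le
  have h7 := h2 (-δ) (by rw [abs_neg, abs_of_pos hδ])
  simp only [Function.comp_apply] at h1 h3 h5
  linarith

theorem edge_eq {β : ℝ} (hβ : 0 < β) {k : ℤ} (hk : 0 < k) {κ κ' : Kernel W S}
    (h : CovGibbs β k κ) (h' : CovGibbs β k κ') (e : E) :
    ∀ᵐ w ∂P, ∫ σ, bond σ e ∂κ w = ∫ σ, bond σ e ∂κ' w := by
  have := h.markov
  have := h'.markov
  have m := edge_meas κ e
  have m' := edge_meas κ' e
  suffices h0 : ∫ w, |edgeAl κ e w - edgeAl κ' e w| ∂P ≤ 0 by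
    have := (integral_eq_zero_iff_of_nonneg (fun _ => abs_nonneg _)
      (edge_bdd' m m' (edge_abs κ e) (edge_abs κ' e))).1
      (le_antisymm h0 (integral_nonneg fun _ => abs_nonneg _))
    filter_upwards [this] with w hw
    exact sub_eq_zero.1 (abs_eq_zero.1 hw)
  by_contra hc
  rw [not_le] at hc
  obtain ⟨B, φ, δ, heB, hφ, hd, hs, hδ, hgap⟩ :=
    edge_gap m m' (edge_abs κ e) (edge_abs κ' e) e hc le_rfl
  generalize ∫ w, |edgeAl κ e w - edgeAl κ' e w| ∂P = c at hc hgap
  obtain ⟨c0, hgrid⟩ := exists_grid hk (B.image Prod.fst ∪ B.image tip)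
  have hG := edge_G_nonneg
  obtain ⟨M, hM0, hM⟩ : ∃ M : ℝ, 0 < M ∧ 32 * c0 * edgeG < δ * M * (c / 4) := by
    refine ⟨128 * c0 * edgeG / (δ * c) + 1, by positivity, ?_⟩
    have : δ * (128 * c0 * edgeG / (δ * c) + 1) * (c / 4) = 32 * c0 * edgeG + δ * c / 4 := by
      field_simp
      ring
    rw [this]
    exact lt_add_of_pos_right _ (by positivity)
  set a : ℝ := 4 * Real.exp (δ ^ 2) with ha
  have ha0 : 0 < a := by positivity
  obtain ⟨l, hl0, hl⟩ : ∃ l : ℝ, 0 < l ∧ 2 * a * Real.exp (M ^ 2 * a) / l ≤ c / 32 := by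
    refine ⟨64 * a * Real.exp (M ^ 2 * a) / c, by positivity, le_of_eq ?_⟩
    field_simp
    ring
  obtain ⟨Bg, g, hg, hgd, hg1, hge⟩ := exists_local m' (edge_abs κ' e) (ε := c / (32 * l))
    (by positivity)
  obtain ⟨n, hn⟩ := exists_nat_ge (max M (32 * M * Bg.card / c))
  have hn1 : M ≤ n := (le_max_left _ _).trans hn
  have hn2 : 32 * M * Bg.card / c ≤ n := (le_max_right _ _).trans hn
  have hn0 : (0 : ℝ) < n := hM0.trans_le hn1
  obtain ⟨z, hz1, hz2⟩ := hgrid n (by exact_mod_cast hn0)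
  have hB : Blocks (fun i => shE (k • z i) e) (fun i => B.image (shE (k • z i)))
      fun i w => φ (shW (k • z i) w) := by
    refine ⟨fun i j hij => Finset.disjoint_left.2 fun x hx hy => ?_,
      fun i => Finset.mem_image_of_mem _ heB, fun i => hφ.comp (measurable_shW _),
      fun i w w' hw => hd fun a ha => hw (shE (k • z i) a)
        (Finset.mem_coe.2 (Finset.mem_image_of_mem _ ha)), fun i w => hs _⟩
    obtain ⟨b, hb, rfl⟩ := Finset.mem_image.1 hx
    obtain ⟨b', hb', hbb⟩ := Finset.mem_image.1 hy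
    exact hz1 i j hij b.1 (Finset.mem_union_left _ (Finset.mem_image_of_mem _ hb)) b'.1
      (Finset.mem_union_left _ (Finset.mem_image_of_mem _ hb')) (congrArg Prod.fst hbb).symm
  set p : ℝ := M / n with hp
  have hp0 : 0 ≤ p := by positivity
  have hp1 : p ≤ 1 := (div_le_one hn0).2 hn1
  have hpn : p * n = M := div_mul_cancel₀ _ hn0.ne'
  set X : Fin n × Fin n → Finset (Fin n × Fin n) → ℝ := fun i T =>
    ∫ w, φ (shW (k • z i) w) * (edgeAl κ e (shW (k • z i) w) - edgeAl κ' e (shW (k • z i)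
      (mv (fun i => shE (k • z i) e) (fun i w => φ (shW (k • z i) w)) δ T w))) ∂P with hX
  have up : ∀ T, δ * ∑ i ∈ T, X i T ≤ 32 * (c0 * n : ℕ) * edgeG := fun T =>
    edge_up hβ h h' e hB (c0 * n) (fun i =>
      ⟨hz2 i _ (Finset.mem_union_left _ (Finset.mem_image_of_mem _ heB)),
        hz2 i _ (Finset.mem_union_right _ (Finset.mem_image_of_mem _ heB))⟩) δ T
  have low : ∀ i ∈ (Finset.univ : Finset (Fin n × Fin n)), c / 4 ≤
      ∑ T ∈ (Finset.univ.erase i).powerset,
        p ^ T.card * (1 - p) ^ ((Finset.univ.erase i).card - T.card) * X i (insert i T) := by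
    intro i _
    refine le_trans ?_ (edge_low e (z := fun i => k • z i) hφ hB δ hgap hp0 hp1 _
      (Finset.notMem_erase i _) hg.measurable hg1 Bg hgd hl0)
    have c1 : ((Finset.univ.erase i).card : ℝ) ≤ n ^ 2 := by
      have := Finset.card_erase_le (s := (Finset.univ : Finset (Fin n × Fin n))) (a := i)
      rw [Finset.card_univ, Fintype.card_prod, Fintype.card_fin, ← sq] at this
      exact_mod_cast this
    have c2 : ((Finset.univ.erase i).card : ℝ) * p ^ 2 ≤ M ^ 2 := by
      rw [← hpn, mul_pow, mul_comm]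
      exact mul_le_mul_of_nonneg_left c1 (sq_nonneg _)
    have c3 : 2 * a * Real.exp ((Finset.univ.erase i).card * p ^ 2 * a) / l ≤ c / 32 := by
      refine le_trans ?_ hl
      gcongr
    have c4 : l * ∫ w, |edgeAl κ' e w - g w| ∂P ≤ c / 32 := by
      refine (mul_le_mul_of_nonneg_left hge hl0.le).trans (le_of_eq ?_)
      field_simp
    have c5 : 2 * p * Bg.card ≤ c / 16 := by
      rw [div_le_iff₀ hc] at hn2
      refine le_of_mul_le_mul_right ?_ hn0
      calc 2 * p * Bg.card * n = 2 * (p * n) * Bg.card := by ring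
        _ ≤ c / 16 * n := by rw [hpn]; linarith
    linarith
  have h1 := Finset.sum_le_sum low
  rw [Finset.sum_const, Finset.card_univ, Fintype.card_prod, Fintype.card_fin, nsmul_eq_mul] at h1
  have h2 := mul_le_mul_of_nonneg_left h1 hp0
  rw [← bern_sum] at h2
  have h3 : δ * ∑ T ∈ (Finset.univ : Finset (Fin n × Fin n)).powerset,
      p ^ T.card * (1 - p) ^ ((Finset.univ : Finset (Fin n × Fin n)).card - T.card) *
        ∑ i ∈ T, X i T ≤ 32 * (c0 * n : ℕ) * edgeG := by
    refine le_of_le_of_eq ?_ ((congrArg (· * (32 * ((c0 * n : ℕ) : ℝ) * edgeG))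
      (bern_one (Finset.univ : Finset (Fin n × Fin n)) p)).trans (one_mul _))
    rw [Finset.sum_mul, Finset.mul_sum]
    refine Finset.sum_le_sum fun T _ => ?_
    rw [mul_left_comm]
    exact mul_le_mul_of_nonneg_left (up T)
      (mul_nonneg (pow_nonneg hp0 _) (pow_nonneg (sub_nonneg.2 hp1) _))
  have h4 := (mul_le_mul_of_nonneg_left h2 hδ.le).trans h3
  push_cast at h4
  have h5 : δ * (p * (n * n * (c / 4))) = δ * M * (c / 4) * n := by rw [← hpn]; ring
  rw [h5] at h4
  nlinarith

end Pool.Agent.MP_c70b3b_mp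

end

section

open MeasureTheory ProbabilityTheory Filter Topology
open scoped symmDiff ENNReal

namespace Pool.Agent.MP_c70b3b_mp

lemma tower_shE_inj (z : V) : Function.Injective (shE z) := by
  rintro ⟨a, b⟩ ⟨c, d⟩ h
  simp only [shE, Prod.mk.injEq, add_left_inj] at h
  exact Prod.ext h.1 h.2

lemma tower_en_shift (β : ℝ) (z : V) (w : W) (G : Finset E) (σ : S) :
    en (β • shW z w) G (shS z σ) = en (β • w) (G.image (shE z)) σ := by
  unfold en
  rw [Finset.sum_image fun a _ b _ h => tower_shE_inj z h]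
  refine Finset.sum_congr rfl fun e _ => ?_
  rw [bond_shS]; rfl

lemma tower_meas_int (K : W) (x y : V) (G : Finset E) :
    Measurable fun σ : S => sp (σ x) * sp (σ y) * Real.exp (-2 * en K G σ) :=
  ((measurable_sp x).mul (measurable_sp y)).mul
    (Real.measurable_exp.comp ((measurable_en K G).const_mul _))

lemma tower_kc_shift (β : ℝ) (z : V) (w : W) (ρ : Measure S) (x y : V) (G : Finset E) :
    kc (β • shW z w) (ρ.map (shS z)) x y G =
      kc (β • w) ρ (x + z) (y + z) (G.image (shE z)) := by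
  unfold kc
  rw [integral_map (measurable_shS z).aemeasurable (tower_meas_int _ x y G).aestronglyMeasurable]
  refine integral_congr_ae (Eventually.of_forall fun σ => ?_)
  simp only [tower_en_shift]; rfl

lemma tower_dl_shift (a z r : V) : dl (a + z) r = dl a (r - z) := by
  unfold dl
  by_cases h : a + z = r
  · rw [if_pos h, if_pos (by rw [← h]; abel)]
  · rw [if_neg h, if_neg fun h' => h (by rw [h']; abel)]

lemma tower_fbd_shift (z : V) (G : Finset E) (r : V) :
    fbd (G.image (shE z)) r = fbd G (r - z) := by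
  have hB : ∀ e : E, fB (shE z e) = fB e + z := by
    rintro ⟨x, _ | _⟩ <;> simp [fB, shE] <;> abel
  have hA : ∀ e : E, fA (shE z e) = fA e + z := fun e => rfl
  unfold fbd
  rw [Finset.sum_image fun a _ b _ h => tower_shE_inj z h]
  simp only [hA, hB, tower_dl_shift]

lemma tower_meas_kc (β : ℝ) (κ : Kernel W S) [IsMarkovKernel κ] (x y : V) (G : Finset E) :
    Measurable fun w => kc (β • w) (κ w) x y G := by
  have hf : Measurable fun p : W × S =>
      sp (p.2 x) * sp (p.2 y) * Real.exp (-2 * en (β • p.1) G p.2) :=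
    (((measurable_sp x).comp measurable_snd).mul ((measurable_sp y).comp measurable_snd)).mul
      (Real.measurable_exp.comp ((measurable_en2 β G).const_mul _))
  exact (hf.stronglyMeasurable.integral_kernel_prod_right' (κ := κ)).measurable

lemma tower_ne {β : ℝ} (hβ : β ≠ 0) : ∀ᵐ w ∂P, ∀ e, β * w e ≠ 0 := by
  refine ae_all_iff.2 fun e => ?_
  have := nullSingletonClass_gaussianReal (μ := 0) (v := 1) one_ne_zero
  have h1 : ∀ᵐ t ∂(gaussianReal 0 1), t ≠ (0 : ℝ) := by
    simp [ae_iff]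
  filter_upwards [(mp_eval e).quasiMeasurePreserving.ae h1] with w hw
  exact mul_ne_zero hβ hw

theorem kc_eq {β : ℝ} (hβ : 0 < β) {k : ℤ} (hk : 0 < k) {κ κ' : Kernel W S}
    (h : CovGibbs β k κ) (h' : CovGibbs β k κ') : ∀ᵐ w ∂P, KCeq (β • w) (κ w) (κ' w) := by
  have := h.markov; have := h'.markov
  have key := tower_abs hβ.ne' hk (fun w => DD (β • w) (κ w) (κ' w))
    (fun l m => ((tower_meas_kc β κ _ _ _).sub (tower_meas_kc β κ' _ _ _)).abs)
    (fun w l m => abs_nonneg _)
    (by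
      filter_upwards [h.gibbs, h'.gibbs, tower_ne hβ.ne',
        ae_all_iff.2 fun e => edge_eq hβ hk h h' e] with w hw hw' hne hE
      exact locRel hne hw hw' hE)
    (fun z l m => by
      filter_upwards [h.gibbs, h'.gibbs, h.cov z, h'.cov z] with w hw hw' hc hc'
      simp only [DD, hc, hc', tower_kc_shift, cor_shift]
      refine abs_kc_indep hw hw' _ _ fun r => ?_
      rw [tower_fbd_shift, fbd_pth, fbd_pth, tower_dl_shift, tower_dl_shift])
  filter_upwards [key, h.gibbs, h'.gibbs] with w hD hw hw'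
  exact kceq_of_DD hw hw' hD

end Pool.Agent.MP_c70b3b_mp

end

section

open MeasureTheory ProbabilityTheory Filter Topology
open scoped symmDiff ENNReal

namespace Pool.Agent.MP_c70b3b_mp

/-- `n` distinct infinite clusters. -/
def Many (n : ℕ) (O : Set V) : Prop :=
  ∃ y : Fin n → V, (∀ i, InfC O (y i)) ∧ ∀ i j, i ≠ j → ¬ Conn Set.univ O (y i) (y j)

/-- `L` is an open trifurcation set. -/
def Tri (τ : S) (L : Finset V) : Prop :=
  (∀ x ∈ L, τ x = 1) ∧ ∃ y : Fin 3 → V, (∀ i, InfC {v | v ∉ L ∧ τ v = 1} (y i)) ∧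
    (∀ i, ∃ x ∈ L, ∃ e, Ends e x (y i)) ∧
    ∀ i j, i ≠ j → ¬ Conn Set.univ {v | v ∉ L ∧ τ v = 1} (y i) (y j)

/-- Set the spins of `L` to `s`. -/
def setOn (L : Finset V) (s : ℤˣ) (τ : S) : S := fun x => if x ∈ L then s else τ x

lemma Conn.symm {G : Set E} {O : Set V} {x y : V} (h : Conn G O x y) : Conn G O y x := by
  unfold Conn at h ⊢
  induction h with
  | refl => exact Relation.ReflTransGen.refl
  | tail _ hbc ih =>
    obtain ⟨h1, h2, e, he, h3⟩ := hbc
    exact Relation.ReflTransGen.head ⟨h2, h1, e, he, h3.symm⟩ ih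

lemma Conn.mono {G G' : Set E} {O O' : Set V} (hG : G ⊆ G') (hO : O ⊆ O') {x y : V}
    (h : Conn G O x y) : Conn G' O' x y := by
  unfold Conn at h ⊢
  induction h with
  | refl => exact Relation.ReflTransGen.refl
  | tail _ hbc ih =>
    obtain ⟨h1, h2, e, he, h3⟩ := hbc
    exact Relation.ReflTransGen.tail ih ⟨hO h1, hO h2, e, hG he, h3⟩

lemma bkdet_hor (N : ℕ) (a b : ℤ) (n : ℕ) (h1 : -(N : ℤ) ≤ a) (h2 : a + n < N)
    (h3 : -(N : ℤ) ≤ b) (h4 : b < N) :
    Conn (touch (box N) : Set E) (box N : Set V) (a, b) (a + n, b) := by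
  induction n with
  | zero => simp only [Nat.cast_zero, add_zero]; exact Relation.ReflTransGen.refl
  | succ n ih =>
    have hm : ((a + n, b) : V) ∈ box N := by rw [mem_box]; simp only; omega
    have hm' : ((a + (n + 1 : ℕ), b) : V) ∈ box N := by rw [mem_box]; simp only; omega
    refine Relation.ReflTransGen.tail (ih (by omega)) ⟨hm, hm', ((a + n, b), false), ?_, ?_⟩
    · exact Finset.mem_coe.2 (mem_touch.2 (Or.inl hm))
    · left
      refine ⟨rfl, ?_⟩
      simp only [tip, Bool.false_eq_true, if_false, Prod.mk_add_mk, Prod.mk.injEq]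
      omega

lemma bkdet_ver (N : ℕ) (a b : ℤ) (n : ℕ) (h1 : -(N : ℤ) ≤ a) (h2 : a < N)
    (h3 : -(N : ℤ) ≤ b) (h4 : b + n < N) :
    Conn (touch (box N) : Set E) (box N : Set V) (a, b) (a, b + n) := by
  induction n with
  | zero => simp only [Nat.cast_zero, add_zero]; exact Relation.ReflTransGen.refl
  | succ n ih =>
    have hm : ((a, b + n) : V) ∈ box N := by rw [mem_box]; simp only; omega
    have hm' : ((a, b + (n + 1 : ℕ)) : V) ∈ box N := by rw [mem_box]; simp only; omega
    refine Relation.ReflTransGen.tail (ih (by omega)) ⟨hm, hm', ((a, b + n), true), ?_, ?_⟩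
    · exact Finset.mem_coe.2 (mem_touch.2 (Or.inl hm))
    · left
      refine ⟨rfl, ?_⟩
      simp only [tip, if_true, Prod.mk_add_mk, Prod.mk.injEq]
      omega

lemma conn_box (N : ℕ) {x y : V} (hx : x ∈ box N) (hy : y ∈ box N) :
    Conn (touch (box N) : Set E) (box N : Set V) x y := by
  have hx' := mem_box.1 hx
  have hy' := mem_box.1 hy
  obtain ⟨a, b⟩ := x
  obtain ⟨c, d⟩ := y
  simp only at hx' hy'
  have h1 : Conn (touch (box N) : Set E) (box N : Set V) (a, b) (c, b) := by
    rcases le_total a c with h | h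
    · have := bkdet_hor N a b (c - a).toNat (by omega) (by omega) (by omega) (by omega)
      rwa [show a + ((c - a).toNat : ℤ) = c by omega] at this
    · have := bkdet_hor N c b (a - c).toNat (by omega) (by omega) (by omega) (by omega)
      rw [show c + ((a - c).toNat : ℤ) = a by omega] at this
      exact this.symm
  have h2 : Conn (touch (box N) : Set E) (box N : Set V) (c, b) (c, d) := by
    rcases le_total b d with h | h
    · have := bkdet_ver N c b (d - b).toNat (by omega) (by omega) (by omega) (by omega)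
      rwa [show b + ((d - b).toNat : ℤ) = d by omega] at this
    · have := bkdet_ver N c d (b - d).toNat (by omega) (by omega) (by omega) (by omega)
      rw [show d + ((b - d).toNat : ℤ) = b by omega] at this
      exact this.symm
  exact Relation.ReflTransGen.trans h1 h2

/-- An infinite cluster meeting `L` contains an infinite cluster of the complement of `L`
adjacent to `L`. -/
lemma exists_arm {O : Set V} {L : Finset V} {x : V} (hx : x ∈ L) (h : InfC O x) :
    ∃ y, InfC {v | v ∉ L ∧ v ∈ O} y ∧ Conn Set.univ O x y ∧ ∃ u ∈ L, ∃ e, Ends e u y := by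
  classical
  by_contra hcon
  have key : ∀ z, Conn Set.univ O x z → z ∈ L ∨
      ∃ y, (y ∉ L ∧ y ∈ O ∧ Conn Set.univ O x y ∧ ∃ u ∈ L, ∃ e, Ends e u y) ∧
        Conn Set.univ {v | v ∉ L ∧ v ∈ O} y z := by
    intro z hz
    unfold Conn at hz
    induction hz with
    | refl => exact Or.inl hx
    | @tail b c hab hbc ih =>
      obtain ⟨h1, h2, e, he, h3⟩ := hbc
      by_cases hc : c ∈ L
      · exact Or.inl hc
      right
      by_cases hb : b ∈ L
      · exact ⟨c, ⟨hc, h2, Relation.ReflTransGen.tail hab ⟨h1, h2, e, he, h3⟩, b, hb, e, h3⟩,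
          Relation.ReflTransGen.refl⟩
      · rcases ih with ih | ⟨y, hy, hyb⟩
        · exact absurd ih hb
        · exact ⟨y, hy, Relation.ReflTransGen.tail hyb ⟨⟨hb, h1⟩, ⟨hc, h2⟩, e, he, h3⟩⟩
  have hfin : {y | y ∉ L ∧ y ∈ O ∧ Conn Set.univ O x y ∧ ∃ u ∈ L, ∃ e, Ends e u y}.Finite := by
    refine ((touch L).image Prod.fst ∪ (touch L).image tip).finite_toSet.subset ?_
    rintro y ⟨-, -, -, u, hu, e, ⟨h1, h2⟩ | ⟨h1, h2⟩⟩
    · exact Finset.mem_coe.2 (Finset.mem_union_right _ (Finset.mem_image.2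
        ⟨e, mem_touch.2 (Or.inl (h1 ▸ hu)), h2⟩))
    · exact Finset.mem_coe.2 (Finset.mem_union_left _ (Finset.mem_image.2
        ⟨e, mem_touch.2 (Or.inr (h2 ▸ hu)), h1⟩))
  apply h.2
  refine (L.finite_toSet.union (hfin.biUnion
    (t := fun y => {z | Conn Set.univ {v | v ∉ L ∧ v ∈ O} y z}) ?_)).subset ?_
  · intro y hy
    by_contra hinf
    exact hcon ⟨y, ⟨⟨hy.1, hy.2.1⟩, hinf⟩, hy.2.2.1, hy.2.2.2⟩
  · intro z hz
    rcases key z hz with h1 | ⟨y, hy, hyz⟩
    · exact Or.inl h1
    · exact Or.inr (Set.mem_biUnion hy hyz)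

lemma bkdet_mem {G : Set E} {O : Set V} {x y : V} (h : Conn G O x y) (hx : x ∈ O) : y ∈ O := by
  unfold Conn at h
  induction h with
  | refl => exact hx
  | tail _ hbc _ => exact hbc.2.1

lemma bkdet_port {N : ℕ} {a b : V} {e : E} (ha : a ∈ box N) (hb : b ∉ box N) (he : Ends e a b) :
    ∃ k < 8 * N, b = bv N k := by
  have hcob : e ∈ cob (box N) := by
    rw [mem_cob]
    rcases he with ⟨h1, h2⟩ | ⟨h1, h2⟩ <;> rw [h1, h2] <;> tauto
  obtain ⟨k, hk, rfl⟩ := exists_port hcob
  refine ⟨k, hk, ?_⟩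
  obtain ⟨u, hu, h⟩ := port_ends hk
  have hbv := bv_not_mem hk
  rcases he with ⟨h1, h2⟩ | ⟨h1, h2⟩ <;> rcases h with ⟨h3, h4⟩ | ⟨h3, h4⟩
  · exact absurd (h3 ▸ h1 ▸ ha) hbv
  · exact h2.symm.trans h4
  · exact h1.symm.trans h3
  · exact absurd (h4 ▸ h2 ▸ ha) hbv

lemma bkdet_exit {N : ℕ} {O : Set V} {x y : V} {e : E} (hy : InfC O y) (hx : x ∈ box N)
    (he : Ends e x y) : ∃ k < 8 * N, Conn Set.univ O y (bv N k) := by
  by_cases hyb : y ∈ box N
  · by_contra hcon
    apply hy.2
    refine (box N).finite_toSet.subset ?_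
    intro z hz
    have hz' : Conn Set.univ O y z := hz
    unfold Conn at hz'
    induction hz' with
    | refl => exact hyb
    | @tail b c hab hbc ih =>
      by_contra hc
      obtain ⟨h1, h2, e', he', h3⟩ := hbc
      obtain ⟨k, hk, rfl⟩ := bkdet_port (ih hab) hc h3
      exact hcon ⟨k, hk, hz⟩
  · obtain ⟨k, hk, rfl⟩ := bkdet_port hx hyb he
    exact ⟨k, hk, Relation.ReflTransGen.refl⟩

theorem tri_count {ι : Type} [Fintype ι] (τ : S) (N : ℕ) (L : ι → Finset V)
    (hd : ∀ i j, i ≠ j → Disjoint (L i) (L j)) (hbox : ∀ i, L i ⊆ box N)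
    (hc : ∀ i, ∀ x ∈ L i, ∀ y ∈ L i, Conn Set.univ (L i : Set V) x y)
    (ht : ∀ i, Tri τ (L i)) : Fintype.card ι ≤ 8 * N := by
  classical
  let O : Set V := {v | τ v = 1}
  let Oi : ι → Set V := fun i => {v | v ∉ L i ∧ τ v = 1}
  let Dall : ι → Set ℕ := fun i => {k | k < 8 * N ∧ ∃ x ∈ L i, Conn Set.univ O x (bv N k)}
  let R : ι → ℕ → ℕ → Prop := fun i k l => Conn Set.univ (Oi i) (bv N k) (bv N l)
  let D : ι → Set ℕ := fun i => {k | k ∈ Dall i ∧ ¬ R i (sInf (Dall i)) k}
  let D' : ι → Set ℕ := fun i => {k | k ∈ D i ∧ ¬ R i (sInf (D i)) k}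
  have hOi : ∀ i, Oi i ⊆ O := fun i v hv => hv.2
  have hLO : ∀ i, (L i : Set V) ⊆ O := fun i v hv => (ht i).1 v hv
  have hLi : ∀ i j, i ≠ j → (L j : Set V) ⊆ Oi i := fun i j hij v hv =>
    ⟨fun h => Finset.disjoint_left.1 (hd i j hij) h hv, (ht j).1 v hv⟩
  have hRs : ∀ i k l, R i k l → R i l k := fun i k l h => Conn.symm h
  have hRt : ∀ i k l m, R i k l → R i l m → R i k m := fun i k l m h h' =>
    Relation.ReflTransGen.trans h h'
  have hne : ∀ i, (D' i).Nonempty := by
    intro i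
    obtain ⟨h1, y, hy, hadj, hsep⟩ := ht i
    have hk : ∀ a, ∃ k ∈ Dall i, Conn Set.univ (Oi i) (y a) (bv N k) := by
      intro a
      obtain ⟨x, hx, e, he⟩ := hadj a
      obtain ⟨k, hk, hc⟩ := bkdet_exit (hy a) (hbox i hx) he
      refine ⟨k, ⟨hk, x, hx, ?_⟩, hc⟩
      exact Relation.ReflTransGen.head ⟨h1 x hx, (hy a).1.2, e, Set.mem_univ _, he⟩
        (Conn.mono subset_rfl (hOi i) hc)
    choose k hk hck using hk
    have hsep' : ∀ a b, a ≠ b → ¬ R i (k a) (k b) := fun a b hab h =>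
      hsep a b hab (Relation.ReflTransGen.trans (hck a)
        (Relation.ReflTransGen.trans h (Conn.symm (hck b))))
    by_contra hcon
    have hor : ∀ a, R i (sInf (Dall i)) (k a) ∨ R i (sInf (D i)) (k a) := by
      intro a
      by_contra h
      rw [not_or] at h
      exact hcon ⟨k a, ⟨hk a, h.1⟩, h.2⟩
    have hno : ∀ r a b, a ≠ b → R i r (k a) → R i r (k b) → False := fun r a b hab h h' =>
      hsep' a b hab (hRt _ _ _ _ (hRs _ _ _ h) h')
    rcases hor 0 with h0 | h0 <;> rcases hor 1 with h1 | h1 <;> rcases hor 2 with h2 | h2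
    all_goals first
      | exact hno _ 0 1 (by decide) h0 h1
      | exact hno _ 0 2 (by decide) h0 h2
      | exact hno _ 1 2 (by decide) h1 h2
  have hf : ∀ i, sInf (D' i) ∈ D' i := fun i => Nat.sInf_mem (hne i)
  have hsub : ∀ i j, sInf (D' i) = sInf (D' j) → Dall i ⊆ Dall j := by
    rintro i j hij k ⟨hk, x, hx, hxk⟩
    obtain ⟨-, u, hu, hu'⟩ := (hf i).1.1
    obtain ⟨-, w, hw, hw'⟩ := (hf j).1.1
    rw [← hij] at hw'
    refine ⟨hk, w, hw, Relation.ReflTransGen.trans hw' (Relation.ReflTransGen.trans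
      (Conn.symm hu') (Relation.ReflTransGen.trans ?_ hxk))⟩
    exact Conn.mono subset_rfl (hLO i) (hc i u hu x hx)
  have hcov : ∀ i j, i ≠ j → ∀ xi ∈ L i, ∀ xj ∈ L j, ∀ v, Conn Set.univ O xi v →
      Conn Set.univ (Oi i) xj v ∨ Conn Set.univ (Oi j) xi v := by
    intro i j hij xi hxi xj hxj v hv
    unfold Conn at hv
    induction hv with
    | refl => exact Or.inr Relation.ReflTransGen.refl
    | @tail b c hab hbc ih =>
      obtain ⟨h1, h2, e, he, h3⟩ := hbc
      by_cases hcj : c ∈ L j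
      · exact Or.inl (Conn.mono subset_rfl (hLi i j hij) (hc j xj hxj c hcj))
      by_cases hci : c ∈ L i
      · exact Or.inr (Conn.mono subset_rfl (hLi j i hij.symm) (hc i xi hxi c hci))
      rcases ih with ih | ih
      · exact Or.inl (Relation.ReflTransGen.tail ih
          ⟨bkdet_mem ih (hLi i j hij hxj), ⟨hci, h2⟩, e, he, h3⟩)
      · exact Or.inr (Relation.ReflTransGen.tail ih
          ⟨bkdet_mem ih (hLi j i hij.symm hxi), ⟨hcj, h2⟩, e, he, h3⟩)
  have hcov' : ∀ i j, i ≠ j → ∀ xi ∈ L i, ∀ xj ∈ L j, ∀ k ∈ Dall i,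
      Conn Set.univ (Oi i) xj (bv N k) ∨ Conn Set.univ (Oi j) xi (bv N k) := by
    rintro i j hij xi hxi xj hxj k ⟨-, x, hx, hxk⟩
    exact hcov i j hij xi hxi xj hxj _ (Relation.ReflTransGen.trans
      (Conn.mono subset_rfl (hLO i) (hc i xi hxi x hx)) hxk)
  have hmain : ∀ i j, i ≠ j → sInf (D' i) = sInf (D' j) → ∀ xi ∈ L i, ∀ xj ∈ L j,
      Conn Set.univ (Oi j) xi (bv N (sInf (Dall j))) → False := by
    intro i j hij hfij xi hxi xj hxj hr
    have hji := hsub j i hfij.symm
    have hB : ∀ k ∈ D j, Conn Set.univ (Oi i) xj (bv N k) := by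
      intro k hk
      rcases hcov' i j hij xi hxi xj hxj k (hji hk.1) with h | h
      · exact h
      · exact absurd (Relation.ReflTransGen.trans (Conn.symm hr) h) hk.2
    have hfi := hf i
    have hDD : D j ⊆ D' i := by
      intro k hk
      have h1 : R i k (sInf (D' i)) := by
        have h2 := hB _ (hf j).1
        rw [← hfij] at h2
        exact Relation.ReflTransGen.trans (Conn.symm (hB k hk)) h2
      exact ⟨⟨hji hk.1, fun h => hfi.1.2 (hRt _ _ _ _ h h1)⟩, fun h => hfi.2 (hRt _ _ _ _ h h1)⟩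
    have hm : sInf (D j) ∈ D j := Nat.sInf_mem ⟨_, (hf j).1⟩
    have h1 : sInf (D' i) ≤ sInf (D j) := Nat.sInf_le (hDD hm)
    have h2 : sInf (D j) ≤ sInf (D' j) := Nat.sInf_le (hf j).1
    have h3 : sInf (D j) = sInf (D' j) := by omega
    apply (hf j).2
    rw [h3]
    exact Relation.ReflTransGen.refl
  have hinj : Function.Injective fun i => (⟨sInf (D' i), (hf i).1.1.1⟩ : Fin (8 * N)) := by
    intro i j hij
    have hfij : sInf (D' i) = sInf (D' j) := congrArg Fin.val hij
    by_contra hne'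
    obtain ⟨-, xi, hxi, -⟩ := (hf i).1.1
    obtain ⟨-, xj, hxj, -⟩ := (hf j).1.1
    have heq : Dall i = Dall j := Set.Subset.antisymm (hsub i j hfij) (hsub j i hfij.symm)
    have hr : sInf (Dall i) ∈ Dall i := Nat.sInf_mem ⟨_, (hf i).1.1⟩
    rcases hcov' i j hne' xi hxi xj hxj _ hr with h | h
    · exact hmain j i (Ne.symm hne') hfij.symm xj hxj xi hxi h
    · rw [heq] at h
      exact hmain i j hne' hfij xi hxi xj hxj h
  simpa using Fintype.card_le_of_injective _ hinj

end Pool.Agent.MP_c70b3b_mp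

end

section

open MeasureTheory ProbabilityTheory Filter Topology
open scoped symmDiff ENNReal

namespace Pool.Agent.MP_c70b3b_mp

/-- `n` steps of a relation. -/
def bkmeasStep (r : V → V → Prop) (x : V) : ℕ → V → Prop
  | 0, y => y = x
  | n + 1, y => ∃ z, bkmeasStep r x n z ∧ r z y

lemma bkmeas_iff (r : V → V → Prop) (x y : V) :
    Relation.ReflTransGen r x y ↔ ∃ n, bkmeasStep r x n y := by
  constructor
  · intro h
    induction h with
    | refl => exact ⟨0, rfl⟩
    | tail _ h ih => obtain ⟨n, hn⟩ := ih; exact ⟨n + 1, _, hn, h⟩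
  · rintro ⟨n, hn⟩
    induction n generalizing y with
    | zero => exact hn ▸ Relation.ReflTransGen.refl
    | succ n ih => obtain ⟨z, h1, h2⟩ := hn; exact (ih z h1).tail h2

lemma bkmeas_eq (v : V) (s : ℤˣ) : Measurable fun τ : S => τ v = s :=
  (Measurable.of_discrete (f := fun u : ℤˣ => u = s)).comp (measurable_pi_apply v)

lemma bkmeas_mem (L : Finset V) (s : ℤˣ) (v : V) :
    Measurable fun τ : S => v ∈ {v | v ∉ L ∧ τ v = s} :=
  measurable_const.and (bkmeas_eq v s)

lemma bkmeas_conn (L : Finset V) (s : ℤˣ) (x y : V) :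
    Measurable fun τ : S => Conn Set.univ {v | v ∉ L ∧ τ v = s} x y := by
  simp only [Conn, bkmeas_iff]
  refine Measurable.exists fun n => ?_
  induction n generalizing y with
  | zero => exact measurable_const
  | succ n ih =>
    exact Measurable.exists fun z => (ih z).and
      ((bkmeas_mem L s z).and ((bkmeas_mem L s y).and measurable_const))

lemma bkmeas_infC (L : Finset V) (s : ℤˣ) (x : V) :
    Measurable fun τ : S => InfC {v | v ∉ L ∧ τ v = s} x := by
  have h : ∀ A : Set V, A.Infinite ↔ ∀ F : Finset V, ∃ y, y ∈ A ∧ y ∉ F := fun A =>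
    ⟨fun h F => h.exists_notMem_finset F, fun h hA => by
      obtain ⟨y, h1, h2⟩ := h hA.toFinset
      exact h2 (hA.mem_toFinset.2 h1)⟩
  simp only [InfC, h]
  exact (bkmeas_mem L s x).and (Measurable.forall fun F => Measurable.exists fun y =>
    (bkmeas_conn L s x y).and measurable_const)

lemma measurableSet_conn (L : Finset V) (s : ℤˣ) (x y : V) :
    MeasurableSet {τ : S | Conn Set.univ {v | v ∉ L ∧ τ v = s} x y} :=
  (bkmeas_conn L s x y).setOf

lemma measurableSet_infC (L : Finset V) (s : ℤˣ) (x : V) :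
    MeasurableSet {τ : S | InfC {v | v ∉ L ∧ τ v = s} x} :=
  (bkmeas_infC L s x).setOf

lemma measurableSet_many (n : ℕ) (L : Finset V) (s : ℤˣ) :
    MeasurableSet {τ : S | Many n {v | v ∉ L ∧ τ v = s}} :=
  Measurable.setOf <| Measurable.exists fun y => (Measurable.forall fun i =>
    bkmeas_infC L s (y i)).and (Measurable.forall fun i => Measurable.forall fun j =>
      measurable_const.imp (bkmeas_conn L s (y i) (y j)).not)

lemma measurableSet_tri (L : Finset V) : MeasurableSet {τ : S | Tri τ L} :=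
  Measurable.setOf <| (Measurable.forall fun x => measurable_const.imp (bkmeas_eq x 1)).and <|
    Measurable.exists fun y => (Measurable.forall fun i => bkmeas_infC L 1 (y i)).and
      (measurable_const.and (Measurable.forall fun i => Measurable.forall fun j =>
        measurable_const.imp (bkmeas_conn L 1 (y i) (y j)).not))

lemma measurableSet_uniqAll : MeasurableSet {τ : S | UniqAll τ} :=
  Measurable.setOf <| Measurable.forall fun L => Measurable.forall fun s =>
    Measurable.forall fun x => Measurable.forall fun y =>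
      (bkmeas_infC L s x).imp ((bkmeas_infC L s y).imp (bkmeas_conn L s x y))

lemma measurable_setOn (L : Finset V) (s : ℤˣ) : Measurable (setOn L s) := by
  refine measurable_pi_lambda _ fun x => ?_
  unfold setOn
  split_ifs
  · exact measurable_const
  · exact measurable_pi_apply x

lemma bkmeas_flp_ac {Q : Measure S} (hac : ∀ x : V, Q.map (flp {x}) ≪ Q) (U : Finset V) :
    Q.map (flp U) ≪ Q := by
  induction U using Finset.induction_on with
  | empty =>
    rw [show flp ∅ = id from funext fun τ => funext fun x => by simp [flp], Measure.map_id]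
  | insert x U hx ih =>
    have h : flp (insert x U) = flp {x} ∘ flp U := by
      funext τ y
      by_cases h1 : y = x
      · simp [flp, h1, hx]
      · simp [flp, h1]
    rw [h, ← Measure.map_map (measurable_flp _) (measurable_flp _)]
    exact (ih.map (measurable_flp _)).trans (hac x)

lemma setOn_ac {Q : Measure S} (hac : ∀ x : V, Q.map (flp {x}) ≪ Q) (L : Finset V) (s : ℤˣ) :
    Q.map (setOn L s) ≪ Q := by
  refine Measure.AbsolutelyContinuous.mk fun A hA h0 => ?_
  rw [Measure.map_apply (measurable_setOn L s) hA]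
  refine measure_mono_null (t := ⋃ U : Finset V, flp U ⁻¹' A) (fun τ hτ => ?_)
    (measure_iUnion_null fun U => ?_)
  · refine Set.mem_iUnion.2 ⟨L.filter fun x => τ x ≠ s, ?_⟩
    have : flp (L.filter fun x => τ x ≠ s) τ = setOn L s τ := by
      funext x
      simp only [flp, setOn, Finset.mem_filter]
      by_cases h1 : x ∈ L
      · rcases Int.units_eq_one_or (τ x) with h | h <;>
          rcases Int.units_eq_one_or s with h' | h' <;> simp [h1, h, h']
      · simp [h1]
    rw [Set.mem_preimage, this]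
    exact hτ
  · rw [← Measure.map_apply (measurable_flp U) hA]
    exact bkmeas_flp_ac hac U h0

lemma bkmeas_ends (z : V) {x y : V} (h : ∃ e, Ends e x y) : ∃ e, Ends e (x + z) (y + z) := by
  obtain ⟨e, ⟨rfl, rfl⟩ | ⟨rfl, rfl⟩⟩ := h
  · exact ⟨shE z e, Or.inl ⟨rfl, tip_shE z e⟩⟩
  · exact ⟨shE z e, Or.inr ⟨rfl, tip_shE z e⟩⟩

lemma bkmeas_conn_add (z : V) {O O' : Set V} (h : ∀ v ∈ O, v + z ∈ O') {x y : V}
    (hc : Conn Set.univ O x y) : Conn Set.univ O' (x + z) (y + z) := by
  induction hc with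
  | refl => exact Relation.ReflTransGen.refl
  | tail _ h1 ih =>
    obtain ⟨h1, h2, e, -, h3⟩ := h1
    obtain ⟨e', h4⟩ := bkmeas_ends z ⟨e, h3⟩
    exact ih.tail ⟨h _ h1, h _ h2, e', trivial, h4⟩

lemma conn_shift (z : V) (O : Set V) (x y : V) :
    Conn Set.univ {v | v + z ∈ O} x y ↔ Conn Set.univ O (x + z) (y + z) := by
  refine ⟨bkmeas_conn_add z fun _ h => h, fun h => ?_⟩
  simpa using bkmeas_conn_add (-z) (O' := {v | v + z ∈ O}) (fun v hv => by simpa using hv) h

lemma bkmeas_infC_shift (z : V) (O : Set V) (x : V) :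
    InfC {v | v + z ∈ O} x ↔ InfC O (x + z) := by
  refine and_congr Iff.rfl ?_
  simp only [conn_shift]
  exact ⟨fun h h' => h (h'.preimage (f := (· + z)) (add_left_injective z).injOn), fun h =>
    h.preimage (f := (· + z)) fun y _ => ⟨y - z, sub_add_cancel y z⟩⟩

lemma many_shift (n : ℕ) (z : V) (O : Set V) : Many n {v | v + z ∈ O} ↔ Many n O := by
  simp only [Many, bkmeas_infC_shift, conn_shift]
  exact ⟨fun ⟨y, h⟩ => ⟨fun i => y i + z, h⟩, fun ⟨y, h⟩ => ⟨fun i => y i - z, by simpa using h⟩⟩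

lemma tri_shift (z : V) (τ : S) (L : Finset V) :
    Tri (shS z τ) L ↔ Tri τ (L.image (· + z)) := by
  have h : {v | v ∉ L ∧ shS z τ v = 1} =
      {v | v + z ∈ {v | v ∉ L.image (· + z) ∧ τ v = 1}} := by
    ext v
    simp [shS]
  unfold Tri
  rw [h]
  simp only [bkmeas_infC_shift, conn_shift]
  refine and_congr (by simp only [Finset.forall_mem_image, shS]) ⟨?_, ?_⟩
  · rintro ⟨y, h1, h2, h3⟩
    refine ⟨fun i => y i + z, h1, fun i => ?_, h3⟩
    obtain ⟨x, hx, h4⟩ := h2 i
    exact ⟨x + z, Finset.mem_image_of_mem _ hx, bkmeas_ends z h4⟩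
  · rintro ⟨y, h1, h2, h3⟩
    refine ⟨fun i => y i - z, by simpa only [sub_add_cancel] using h1, fun i => ?_,
      by simpa only [sub_add_cancel] using h3⟩
    obtain ⟨x, hx, h4⟩ := h2 i
    obtain ⟨x, hx', rfl⟩ := Finset.mem_image.1 hx
    exact ⟨x, hx', by simpa only [add_neg_cancel_right, ← sub_eq_add_neg, add_sub_cancel_right]
      using bkmeas_ends (-z) h4⟩

end Pool.Agent.MP_c70b3b_mp

end

section

open MeasureTheory ProbabilityTheory Filter Topology
open scoped symmDiff ENNReal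

namespace Pool.Agent.MP_c70b3b_mp

lemma bk3_det {τ : S} (h : Many 3 {v | τ v = 1}) : ∃ r, Tri (setOn (box r) 1 τ) (box r) := by
  obtain ⟨y, h1, h2⟩ := h
  obtain ⟨r, -, hr⟩ := exists_box (Finset.univ.image y)
  choose y' g1 g2 g3 using fun i =>
    exists_arm (hr (Finset.mem_image_of_mem y (Finset.mem_univ i))) (h1 i)
  have e : {v | v ∉ box r ∧ setOn (box r) 1 τ v = 1} = {v | v ∉ box r ∧ v ∈ {v | τ v = 1}} := by
    ext v
    exact and_congr_right fun hv => by rw [setOn, if_neg hv]; rfl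
  refine ⟨r, fun x hx => if_pos hx, y', ?_, g3, ?_⟩
  · rw [e]
    exact g1
  · rw [e]
    exact fun i j hij hc => h2 i j hij
      (((g2 i).trans (hc.mono subset_rfl fun v hv => hv.2)).trans (g2 j).symm)

lemma bk3_conn (r : ℕ) (z : V) {x y : V} (hx : x ∈ (box r).image (· + z))
    (hy : y ∈ (box r).image (· + z)) :
    Conn Set.univ (((box r).image (· + z) : Finset V) : Set V) x y := by
  obtain ⟨x, h1, rfl⟩ := Finset.mem_image.1 hx
  obtain ⟨y, h2, rfl⟩ := Finset.mem_image.1 hy
  refine (conn_shift z _ x y).1 ((conn_box r h1 h2).mono (Set.subset_univ _) fun v hv => ?_)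
  exact Finset.mem_image_of_mem (· + z) hv

lemma bk3_null {k : ℤ} (hk : 0 < k) (Q : Measure S) [IsProbabilityMeasure Q]
    (hinv : ∀ z : V, Q.map (shS (k • z)) = Q) (r : ℕ) : Q {τ | Tri τ (box r)} = 0 := by
  classical
  obtain ⟨c, hc⟩ := exists_grid hk (box r)
  have key : ∀ n : ℕ, 0 < n → (n : ℝ) * Q.real {τ | Tri τ (box r)} ≤ 8 * c := fun n hn => by
    obtain ⟨z, h1, h2⟩ := hc n hn
    let A : Fin n × Fin n → Set S := fun i => {τ | Tri τ ((box r).image (· + k • z i))}
    have hA : ∀ i, MeasurableSet (A i) := fun i => measurableSet_tri _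
    have e1 : ∀ i, Q.real (A i) = Q.real {τ | Tri τ (box r)} := fun i => by
      conv_rhs => rw [← hinv (z i), map_measureReal_apply (measurable_shS _) (measurableSet_tri _)]
      exact congrArg _ (Set.ext fun τ => (tri_shift _ τ _).symm)
    have hi : ∀ i, Integrable ((A i).indicator (1 : S → ℝ)) Q := fun i =>
      (integrable_const 1).indicator (hA i)
    have e2 : ∫ τ, ∑ i, (A i).indicator (1 : S → ℝ) τ ∂Q ≤ ∫ _, (8 * (c * n) : ℝ) ∂Q := by
      refine integral_mono (integrable_finsetSum _ fun i _ => hi i) (integrable_const _)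
        fun τ => ?_
      have := tri_count (ι := {i // τ ∈ A i}) τ (c * n) (fun i => (box r).image (· + k • z i.1))
        (fun i j hij => Finset.disjoint_left.2 fun v hv hv' => by
          obtain ⟨x, hx, rfl⟩ := Finset.mem_image.1 hv
          obtain ⟨y, hy, e⟩ := Finset.mem_image.1 hv'
          exact h1 _ _ (fun e => hij (Subtype.ext e)) x hx y hy e.symm)
        (fun i v hv => by
          obtain ⟨x, hx, rfl⟩ := Finset.mem_image.1 hv
          exact h2 _ x hx)
        (fun i x hx y hy => bk3_conn r _ hx hy) fun i => i.2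
      rw [Fintype.card_subtype] at this
      simp only [Set.indicator_apply, Pi.one_apply, Finset.sum_boole]
      exact_mod_cast this
    rw [integral_finsetSum _ fun i _ => hi i] at e2
    simp only [integral_indicator_one (hA _), e1, Finset.sum_const, Finset.card_univ,
      Fintype.card_prod, Fintype.card_fin, nsmul_eq_mul, integral_const, probReal_univ,
      one_smul, Nat.cast_mul] at e2
    have : (0 : ℝ) < n := by exact_mod_cast hn
    nlinarith
  rw [← measureReal_eq_zero_iff]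
  by_contra h0
  have hp : 0 < Q.real {τ | Tri τ (box r)} := lt_of_le_of_ne measureReal_nonneg (Ne.symm h0)
  obtain ⟨n, hn⟩ := exists_nat_gt (8 * c / Q.real {τ | Tri τ (box r)})
  have h1 := key (n + 1) n.succ_pos
  rw [div_lt_iff₀ hp] at hn
  push_cast at h1
  nlinarith

theorem bk_three {k : ℤ} (hk : 0 < k) (Q : Measure S) [IsProbabilityMeasure Q]
    (hinv : ∀ z : V, Q.map (shS (k • z)) = Q) (hac : ∀ x : V, Q.map (flp {x}) ≪ Q) :
    ∀ᵐ τ ∂Q, ¬ Many 3 {v | τ v = 1} := by
  have : ∀ᵐ τ ∂Q, ∀ r, ¬ Tri (setOn (box r) 1 τ) (box r) := ae_all_iff.2 fun r => by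
    have h := setOn_ac hac (box r) 1 (bk3_null hk Q hinv r)
    rw [Measure.map_apply (measurable_setOn _ _) (measurableSet_tri _)] at h
    exact measure_eq_zero_iff_ae_notMem.1 h
  filter_upwards [this] with τ h1 h2
  obtain ⟨r, hr⟩ := bk3_det h2
  exact h1 r hr

end Pool.Agent.MP_c70b3b_mp

end

section

open MeasureTheory ProbabilityTheory Filter Topology
open scoped symmDiff ENNReal

namespace Pool.Agent.MP_c70b3b_mp

lemma bk_eps {Q μ : Measure S} [IsFiniteMeasure Q] [IsFiniteMeasure μ] (h : μ ≪ Q) {ε : ℝ≥0∞}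
    (hε : ε ≠ 0) : ∃ δ > 0, ∀ s, Q s < δ → μ s < ε := by
  obtain ⟨δ, h1, h2⟩ := exists_pos_setLIntegral_lt_of_measure_lt
    (Measure.lintegral_rnDeriv_lt_top μ Q).ne hε
  exact ⟨δ, h1, fun s hs => Measure.setLIntegral_rnDeriv h s ▸ h2 s hs⟩

lemma bk_far {k : ℤ} (hk : 0 < k) (s L : Finset V) : ∃ z : V, ∀ x ∈ s, x + k • z ∉ L := by
  classical
  obtain ⟨N, -, hN⟩ := exists_box (s ∪ L)
  refine ⟨(2 * N, 0), fun x hx hL => ?_⟩
  have h1 := mem_box.1 (hN (Finset.mem_union_left _ hx))
  have h2 := mem_box.1 (hN (Finset.mem_union_right _ hL))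
  have h3 : (x + k • ((2 * N, 0) : V)).1 = x.1 + k * (2 * N) := rfl
  have h4 : (0 : ℤ) ≤ N := Int.natCast_nonneg N
  rw [h3] at h2
  nlinarith [h1.1, h2.2.1]

/-- An invariant event can not be destroyed by a local change. -/
lemma bk_core {k : ℤ} (hk : 0 < k) (Q : Measure S) [IsProbabilityMeasure Q]
    (hinv : ∀ z : V, Q.map (shS (k • z)) = Q) (hac : ∀ x : V, Q.map (flp {x}) ≪ Q)
    {A : Set S} (hA : MeasurableSet A) (hsh : ∀ z : V, shS z ⁻¹' A = A) (L : Finset V) :
    Q (A ∩ setOn L 1 ⁻¹' Aᶜ) = 0 := by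
  have key : ∀ ε : ℝ≥0∞, ε ≠ 0 → Q (A ∩ setOn L 1 ⁻¹' Aᶜ) ≤ ε + ε := fun ε hε => by
    obtain ⟨δ, hδ, h1⟩ := bk_eps (setOn_ac hac L 1) hε
    obtain ⟨η, hη, hη'⟩ : ∃ η : ℝ, 0 < η ∧ ENNReal.ofReal η < min δ ε := by
      obtain ⟨r, -, h2, h3⟩ := ENNReal.lt_iff_exists_real_btwn.1
        (lt_min hδ (pos_iff_ne_zero.2 hε))
      exact ⟨r, ENNReal.ofReal_pos.1 h2, h3⟩
    obtain ⟨C, hC, h2⟩ := (Measure.MeasureDense.of_generateFrom_isSetAlgebra_finite Q
      isSetAlgebra_measurableCylinders generateFrom_measurableCylinders.symm).approx A hA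
      (measure_ne_top _ _) η hη
    have hC' : MeasurableSet C := MeasurableSet.of_mem_measurableCylinders hC
    obtain ⟨s, T, -, rfl⟩ := (mem_measurableCylinders _).1 hC
    obtain ⟨z, hz⟩ := bk_far hk s L
    have h3 : Q (A ∆ (shS (k • z) ⁻¹' cylinder s T)) < min δ ε := by
      rw [← hinv z, Measure.map_apply (measurable_shS _) (hA.symmDiff hC'), Set.preimage_symmDiff,
        hsh] at h2
      exact h2.trans hη'
    have h4 : ∀ τ, setOn L 1 τ ∈ shS (k • z) ⁻¹' cylinder s T ↔
        τ ∈ shS (k • z) ⁻¹' cylinder s T := fun τ => by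
      have : s.restrict (shS (k • z) (setOn L 1 τ)) = s.restrict (shS (k • z) τ) :=
        funext fun x => if_neg (hz x.1 x.2)
      rw [Set.mem_preimage, Set.mem_preimage, mem_cylinder, mem_cylinder, this]
    have h5 := h1 _ (h3.trans_le (min_le_left _ _))
    rw [Measure.map_apply (measurable_setOn _ _) (hA.symmDiff (measurable_shS _ hC'))] at h5
    refine le_trans (measure_mono (t := A ∆ (shS (k • z) ⁻¹' cylinder s T) ∪
      setOn L 1 ⁻¹' (A ∆ (shS (k • z) ⁻¹' cylinder s T))) ?_) ((measure_union_le _ _).trans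
        (add_le_add (h3.le.trans (min_le_right _ _)) h5.le))
    rintro τ ⟨h6, h7⟩
    by_cases h8 : τ ∈ shS (k • z) ⁻¹' cylinder s T
    · exact Or.inr (Or.inr ⟨(h4 τ).2 h8, h7⟩)
    · exact Or.inl (Or.inl ⟨h6, h8⟩)
  refine le_antisymm (ENNReal.le_of_forall_pos_le_add fun ε hε _ => ?_) zero_le
  have := key (ε / 2) (ENNReal.half_pos (by exact_mod_cast hε.ne')).ne'
  rwa [ENNReal.add_halves, ← zero_add (ε : ℝ≥0∞)] at this

lemma bk_out {O O' : Set V} {L : Finset V} (h : ∀ v ∈ O', v ∉ L → v ∈ O) {u : V}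
    (hu : ∀ x ∈ L, ¬ Conn Set.univ O' u x) {z : V} (hz : Conn Set.univ O' u z) :
    Conn Set.univ O u z := by
  induction hz with
  | refl => exact Relation.ReflTransGen.refl
  | @tail b c hb hbc ih =>
    exact Relation.ReflTransGen.tail ih ⟨h b hbc.1 fun h1 => hu b h1 hb,
      h c hbc.2.1 fun h1 => hu c h1 (Relation.ReflTransGen.tail hb hbc), hbc.2.2⟩

lemma bk_det {τ : S} (h2 : Many 2 {v | τ v = 1}) (h3 : ¬ Many 3 {v | τ v = 1}) :
    ∃ r, ¬ Many 2 {v | setOn (box r) 1 τ v = 1} := by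
  classical
  obtain ⟨y, g1, g2⟩ := h2
  obtain ⟨r, -, hr⟩ := exists_box (Finset.univ.image y)
  have hy : ∀ i, y i ∈ box r := fun i => hr (Finset.mem_image_of_mem y (Finset.mem_univ i))
  refine ⟨r, fun ⟨u, k1, k2⟩ => ?_⟩
  have s1 : {v | τ v = 1} ⊆ {v | setOn (box r) 1 τ v = 1} := fun v hv => by
    rw [Set.mem_ofPred_eq, setOn]
    split_ifs
    exacts [rfl, hv]
  have s2 : (box r : Set V) ⊆ {v | setOn (box r) 1 τ v = 1} := fun v hv => if_pos hv
  have s3 : ∀ v ∈ {v | setOn (box r) 1 τ v = 1}, v ∉ box r → v ∈ {v | τ v = 1} := fun v hv h => by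
    rwa [Set.mem_ofPred_eq, setOn, if_neg h] at hv
  have key : ∀ i, ∃ x ∈ box r, Conn Set.univ {v | setOn (box r) 1 τ v = 1} (u i) x := fun i => by
    by_contra hc
    have hc' : ∀ x ∈ box r, ¬ Conn Set.univ {v | setOn (box r) 1 τ v = 1} (u i) x :=
      fun x hx h => hc ⟨x, hx, h⟩
    have i1 : InfC {v | τ v = 1} (u i) :=
      ⟨s3 _ (k1 i).1 fun h => hc' _ h Relation.ReflTransGen.refl,
        (k1 i).2.mono fun z hz => bk_out s3 hc' hz⟩
    have i2 : ∀ j, ¬ Conn Set.univ {v | τ v = 1} (u i) (y j) := fun j h =>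
      hc' _ (hy j) (h.mono subset_rfl s1)
    refine h3 ⟨![y 0, y 1, u i], fun a => ?_, fun a b hab => ?_⟩
    · fin_cases a
      exacts [g1 0, g1 1, i1]
    · fin_cases a <;> fin_cases b
      exacts [absurd rfl hab, g2 0 1 (by decide), fun h => i2 0 h.symm, g2 1 0 (by decide),
        absurd rfl hab, fun h => i2 1 h.symm, i2 0, i2 1, absurd rfl hab]
  obtain ⟨a, ha, ha'⟩ := key 0
  obtain ⟨b, hb, hb'⟩ := key 1
  exact k2 0 1 (by decide)
    ((ha'.trans ((conn_box r ha hb).mono (Set.subset_univ _) s2)).trans hb'.symm)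

lemma bk_meas : MeasurableSet {τ : S | Many 2 {v | τ v = 1}} := by
  simpa using measurableSet_many 2 ∅ 1

lemma bk_two {k : ℤ} (hk : 0 < k) (Q : Measure S) [IsProbabilityMeasure Q]
    (hinv : ∀ z : V, Q.map (shS (k • z)) = Q) (hac : ∀ x : V, Q.map (flp {x}) ≪ Q) :
    Q {τ : S | Many 2 {v | τ v = 1}} = 0 := by
  have h1 : ∀ᵐ τ ∂Q, ∀ r, τ ∉ {τ : S | Many 2 {v | τ v = 1}} ∩
      setOn (box r) 1 ⁻¹' {τ : S | Many 2 {v | τ v = 1}}ᶜ := ae_all_iff.2 fun r =>
    measure_eq_zero_iff_ae_notMem.1 (bk_core hk Q hinv hac bk_meas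
      (fun z => Set.ext fun τ => many_shift 2 z {v | τ v = 1}) (box r))
  rw [measure_eq_zero_iff_ae_notMem]
  filter_upwards [h1, bk_three hk Q hinv hac] with τ h2 h3 h4
  obtain ⟨r, hr⟩ := bk_det h4 h3
  exact h2 r ⟨h4, hr⟩

lemma bk_plus {k : ℤ} (hk : 0 < k) (Q : Measure S) [IsProbabilityMeasure Q]
    (hinv : ∀ z : V, Q.map (shS (k • z)) = Q) (hac : ∀ x : V, Q.map (flp {x}) ≪ Q) :
    ∀ᵐ τ ∂Q, ∀ L : Finset V, Uniq {x | x ∉ L ∧ τ x = 1} := by
  refine ae_all_iff.2 fun L => ?_
  have h := setOn_ac hac L (-1) (bk_two hk Q hinv hac)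
  rw [Measure.map_apply (measurable_setOn _ _) bk_meas] at h
  filter_upwards [measure_eq_zero_iff_ae_notMem.1 h] with τ h1 x y hx hy
  by_contra hc
  have e : {v | setOn L (-1) τ v = 1} = {x | x ∉ L ∧ τ x = 1} := by
    ext v
    by_cases hv : v ∈ L <;> simp [setOn, hv]
  refine h1 ?_
  rw [Set.mem_preimage, Set.mem_ofPred_eq, e]
  refine ⟨![x, y], fun a => ?_, fun a b hab => ?_⟩
  · fin_cases a
    exacts [hx, hy]
  · fin_cases a <;> fin_cases b
    exacts [absurd rfl hab, hc, fun h => hc h.symm, absurd rfl hab]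

theorem bk {k : ℤ} (hk : 0 < k) (Q : Measure S) [IsProbabilityMeasure Q]
    (hinv : ∀ z : V, Q.map (shS (k • z)) = Q) (hac : ∀ x : V, Q.map (flp {x}) ≪ Q) :
    ∀ᵐ τ ∂Q, UniqAll τ := by
  have hn : Measurable fun τ : S => -τ := measurable_pi_lambda _ fun x =>
    (Measurable.of_discrete (f := fun u : ℤˣ => -u)).comp (measurable_pi_apply x)
  have : IsProbabilityMeasure (Q.map fun τ : S => -τ) :=
    Measure.isProbabilityMeasure_map hn.aemeasurable
  have h1 := bk_plus hk (Q.map fun τ : S => -τ) (fun z => by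
    rw [Measure.map_map (measurable_shS _) hn]
    conv_rhs => rw [← hinv z, Measure.map_map hn (measurable_shS _)]
    rfl) fun x => by
    have e : flp {x} ∘ (fun τ : S => -τ) = (fun τ : S => -τ) ∘ flp {x} := by
      funext τ y
      simp only [Function.comp, flp, Pi.neg_apply]
      split_ifs <;> rfl
    rw [Measure.map_map (measurable_flp _) hn, e, ← Measure.map_map hn (measurable_flp _)]
    exact (hac x).map hn
  filter_upwards [bk_plus hk Q hinv hac, ae_of_ae_map hn.aemeasurable h1] with τ h2 h3 L s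
  rcases Int.units_eq_one_or s with rfl | rfl
  · exact h2 L
  · have := h3 L
    simpa only [Pi.neg_apply, neg_eq_iff_eq_neg] using this

end Pool.Agent.MP_c70b3b_mp

end

section

open MeasureTheory ProbabilityTheory Filter Topology
open scoped symmDiff ENNReal

namespace Pool.Agent.MP_c70b3b_mp

lemma pair_flp_mul (U : Finset V) (σ τ : S) : flp U σ * τ = flp U (σ * τ) := by
  funext x; simp only [Pi.mul_apply, flp]; split_ifs <;> simp

theorem pair_uniq {β : ℝ} {k : ℤ} (hk : 0 < k) {κ κ' : Kernel W S} (h : CovGibbs β k κ)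
    (h' : CovGibbs β k κ') : ∀ᵐ w ∂P, ∀ᵐ p ∂(κ w).prod (κ' w), UniqAll (p.1 * p.2) := by
  have := h.markov; have := h'.markov
  let η : Kernel W S := (κ ×ₖ κ').map fun p : S × S => p.1 * p.2
  have hηm : IsMarkovKernel η := Kernel.IsMarkovKernel.map _ measurable_mul2
  have hη : ∀ w, η w = ((κ w).prod (κ' w)).map fun p : S × S => p.1 * p.2 := fun w => by
    simp only [η]
    rw [Kernel.map_apply _ measurable_mul2, Kernel.prod_apply]
  have hcov : ∀ z : V, ∀ᵐ w ∂P, η (shW (k • z) w) = (η w).map (shS (k • z)) := fun z => by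
    filter_upwards [h.cov z, h'.cov z] with w hw hw'
    rw [hη, hη, hw, hw', Measure.map_prod_map _ _ (measurable_shS _) (measurable_shS _),
      Measure.map_map measurable_mul2 ((measurable_shS _).prodMap (measurable_shS _)),
      Measure.map_map (measurable_shS _) measurable_mul2]
    rfl
  have hac : ∀ x : V, ∀ᵐ w ∂P, (η w).map (flp {x}) ≪ η w := fun x => by
    filter_upwards [h.gibbs] with w hw
    have h1 : (η w).map (flp {x}) =
        (((κ w).map (flp {x})).prod (κ' w)).map fun p : S × S => p.1 * p.2 := by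
      conv_rhs => rw [← Measure.map_id (μ := κ' w)]
      rw [hη, Measure.map_prod_map _ _ (measurable_flp _) measurable_id,
        Measure.map_map measurable_mul2 ((measurable_flp _).prodMap measurable_id),
        Measure.map_map (measurable_flp _) measurable_mul2]
      congr 1; funext p
      exact (pair_flp_mul _ _ _).symm
    rw [h1, hη]
    exact ((hw.ac {x}).prod Measure.AbsolutelyContinuous.rfl).map measurable_mul2
  have hQ : ∀ A : Set S, MeasurableSet A → (η ∘ₘ P) A = ∫⁻ w, η w A ∂P := fun A hA =>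
    Measure.bind_apply hA η.aemeasurable
  have key := bk hk (η ∘ₘ P)
    (fun z => by
      ext A hA
      rw [Measure.map_apply (measurable_shS _) hA, hQ _ hA, hQ _ (measurable_shS _ hA),
        ← (mp_shW (k • z)).lintegral_comp (η.measurable_coe hA)]
      refine lintegral_congr_ae ?_
      filter_upwards [hcov z] with w hw
      rw [hw, Measure.map_apply (measurable_shS _) hA])
    (fun x => by
      refine Measure.AbsolutelyContinuous.mk fun A hA h0 => ?_
      rw [hQ _ hA, lintegral_eq_zero_iff (η.measurable_coe hA)] at h0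
      rw [Measure.map_apply (measurable_flp _) hA, hQ _ (measurable_flp _ hA),
        lintegral_eq_zero_iff (η.measurable_coe (measurable_flp _ hA))]
      filter_upwards [h0, hac x] with w hw hw'
      have h2 := hw' hw
      rwa [Measure.map_apply (measurable_flp _) hA] at h2)
  filter_upwards [Measure.ae_ae_of_ae_comp key] with w hw
  rw [hη] at hw
  exact ae_of_ae_map measurable_mul2.aemeasurable hw

end Pool.Agent.MP_c70b3b_mp

end

section

open MeasureTheory ProbabilityTheory Filter Topology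
open scoped symmDiff ENNReal

namespace Pool.Agent.MP_c70b3b_mp

lemma gluef_meas (N : ℕ) (η : Fin (8 * N) → ℤˣ) :
    MeasurableSet {σ : S | ∀ i : Fin (8 * N), σ (bv N i) = η i} := by
  have : {σ : S | ∀ i : Fin (8 * N), σ (bv N i) = η i} =
      ⋂ i : Fin (8 * N), (fun σ : S => σ (bv N i)) ⁻¹' {η i} := by ext σ; simp
  rw [this]
  exact MeasurableSet.iInter fun i => measurable_pi_apply _ (measurableSet_singleton _)

lemma gluef_mphi (N : ℕ) : Measurable fun (σ : S) (i : Fin (8 * N)) => σ (bv N i) :=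
  measurable_pi_lambda _ fun _ => measurable_pi_apply _

/-- A configuration with prescribed ring spins. -/
noncomputable def gluefExt (N : ℕ) (η : Fin (8 * N) → ℤˣ) : S :=
  fun x => if h : ∃ i : Fin (8 * N), bv N i = x then η h.choose else 1

lemma gluef_ext (N : ℕ) (η : Fin (8 * N) → ℤˣ) (i : Fin (8 * N)) :
    gluefExt N η (bv N i) = η i := by
  have h : ∃ j : Fin (8 * N), bv N j = bv N i := ⟨i, rfl⟩
  rw [gluefExt, dif_pos h]
  congr 1
  exact Fin.ext (bv_inj h.choose.2 i.2 h.choose_spec)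

lemma gluef_unif (N : ℕ) (η : Fin (8 * N) → ℤˣ) :
    unif.real {σ : S | ∀ i : Fin (8 * N), σ (bv N i) = η i} = (1 / 2) ^ (8 * N) := by
  have h := unif_cyl (Finset.univ.image fun i : Fin (8 * N) => bv N i) (gluefExt N η)
  rw [Finset.card_image_of_injective _ fun i j h => Fin.ext (bv_inj i.2 j.2 h), Finset.card_univ,
    Fintype.card_fin] at h
  rw [← h]; congr 1; ext σ
  simp [gluef_ext]

lemma gluef_bdd {g : S → ℝ} (D : Finset V) (hd : DependsOn g (D : Set V)) :
    ∃ C, ∀ σ, |g σ| ≤ C := by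
  obtain ⟨C, hC⟩ := (Set.finite_range fun η : D → ℤˣ => |g (glue D η 1)|).bddAbove
  refine ⟨C, fun σ => ?_⟩
  have : g σ = g (glue D (fun x => σ x) 1) := hd fun x hx => by
    simp only [glue]; rw [dif_pos (Finset.mem_coe.1 hx)]
  rw [this]; exact hC ⟨_, rfl⟩

lemma gluef_avg (N : ℕ) {g : S → ℝ}
    (hd : DependsOn g {x | x ∈ box N ∨ ∃ k < 8 * N, x = bv N k}) (σ : S) :
    ∑ U ∈ (box N).powerset, g (flp U σ) =
      ∑ U ∈ (box N).powerset, g (flp U (gluefExt N fun i => σ (bv N i))) := by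
  classical
  set τ := gluefExt N fun i => σ (bv N i)
  rw [← gib_sum_flp (box N) g (U := (box N).filter fun x => σ x ≠ τ x)
    (Finset.filter_subset _ _) τ]
  refine Finset.sum_congr rfl fun U _ => hd fun x hx => ?_
  have : σ x = flp ((box N).filter fun x => σ x ≠ τ x) τ x := by
    rcases hx with hx | ⟨k, hk, rfl⟩
    · simp only [flp, Finset.mem_filter, hx, true_and]
      rcases Int.units_eq_one_or (σ x) with h | h <;>
        rcases Int.units_eq_one_or (τ x) with h' | h' <;> simp [h, h']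
    · simp only [flp, Finset.mem_filter, bv_not_mem hk, false_and, if_false]
      exact (gluef_ext N (fun i => σ (bv N i)) ⟨k, hk⟩).symm
  simp only [flp] at this ⊢
  rw [this]

lemma gluef_red (N : ℕ) {K : W} (hK : ∀ e ∈ touch (box N), K e = 0) {ρ : Measure S}
    (h : Gibbs K ρ) {g : S → ℝ} (hg : Measurable g)
    (hd : DependsOn g {x | x ∈ box N ∨ ∃ k < 8 * N, x = bv N k}) :
    ∫ σ, g σ ∂ρ = ∑ η, ring N ρ η *
      ((∑ U ∈ (box N).powerset, g (flp U (gluefExt N η))) / 2 ^ (box N).card) := by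
  have := h.1
  obtain ⟨C, hC⟩ := gluef_bdd (box N ∪ (Finset.range (8 * N)).image (bv N)) (g := g)
    (hd.mono fun x hx => by
      rcases hx with hx | ⟨k, hk, rfl⟩
      · simp [hx]
      · simp only [Finset.coe_union, Set.mem_union, Finset.coe_image]
        exact Or.inr ⟨k, by simpa using hk, rfl⟩)
  have h0 : ∀ σ, en K (touch (box N)) σ = 0 := fun σ =>
    Finset.sum_eq_zero fun e he => by rw [hK e he, zero_mul]
  rw [h.avg (box N) hg C hC]
  simp only [h0, Real.exp_zero, mul_one, Finset.sum_const, Finset.card_powerset, nsmul_eq_mul,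
    Nat.cast_pow, Nat.cast_ofNat]
  rw [show (fun σ => (∑ U ∈ (box N).powerset, g (flp U σ)) / 2 ^ (box N).card) = fun σ =>
    (∑ U ∈ (box N).powerset, g (flp U (gluefExt N fun i => σ (bv N i)))) / 2 ^ (box N).card from
    funext fun σ => by rw [gluef_avg N hd σ]]
  let F : (Fin (8 * N) → ℤˣ) → ℝ := fun η =>
    (∑ U ∈ (box N).powerset, g (flp U (gluefExt N η))) / 2 ^ (box N).card
  have hm : Measurable F := Measurable.of_discrete
  have e := integral_map (μ := ρ) (gluef_mphi N).aemeasurable hm.aestronglyMeasurable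
  refine e.symm.trans ?_
  rw [integral_fintype Integrable.of_finite]
  refine Finset.sum_congr rfl fun η _ => ?_
  rw [smul_eq_mul, map_measureReal_apply (gluef_mphi N) (measurableSet_singleton _)]
  congr 2
  ext σ; simp [funext_iff]

/-- Gluing the inside of the box to a state whose couplings vanish on the edges touching it. -/
theorem glue_formula (N : ℕ) {K : W} (hK : ∀ e ∈ touch (box N), K e = 0) {ρ : Measure S}
    (h : Gibbs K ρ) {g : S → ℝ} (hg : Measurable g)
    (hd : DependsOn g {x | x ∈ box N ∨ ∃ k < 8 * N, x = bv N k}) :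
    ∫ σ, g σ ∂ρ = 2 ^ (8 * N) * ∑ η, ring N ρ η *
      ∫ σ in {σ : S | ∀ i : Fin (8 * N), σ (bv N i) = η i}, g σ ∂unif := by
  rw [gluef_red N hK h hg hd, Finset.mul_sum]
  refine Finset.sum_congr rfl fun η _ => ?_
  have hd' : DependsOn (Set.indicator {σ : S | ∀ i : Fin (8 * N), σ (bv N i) = η i} g)
      {x | x ∈ box N ∨ ∃ k < 8 * N, x = bv N k} := by
    intro σ τ hστ
    have : ∀ i : Fin (8 * N), σ (bv N i) = τ (bv N i) := fun i => hστ _ (Or.inr ⟨i, i.2, rfl⟩)
    simp only [Set.indicator, Set.mem_ofPred_eq, this, hd hστ]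
    congr
  rw [← integral_indicator (gluef_meas N η), gluef_red N (K := 0) (fun _ _ => rfl) gibbs_unif
    (hg.indicator (gluef_meas N η)) hd', Finset.sum_eq_single η]
  · have : ∀ U ∈ (box N).powerset,
        Set.indicator {σ : S | ∀ i : Fin (8 * N), σ (bv N i) = η i} g (flp U (gluefExt N η)) =
          g (flp U (gluefExt N η)) := fun U hU => Set.indicator_of_mem (fun i => by
      have : bv N i ∉ U := fun h => bv_not_mem i.2 (Finset.mem_powerset.1 hU h)
      simp [flp, this, gluef_ext]) _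
    rw [Finset.sum_congr rfl this, ring, ring, gluef_unif]
    field_simp
    simp [← mul_pow]
  · intro ζ _ hζ
    rw [Finset.sum_eq_zero, zero_div, mul_zero]
    intro U hU
    refine Set.indicator_of_notMem (fun h => hζ (funext fun i => ?_)) _
    have : bv N i ∉ U := fun h => bv_not_mem i.2 (Finset.mem_powerset.1 hU h)
    simpa [flp, this, gluef_ext] using h i
  · simp

lemma gluef_m (N : ℕ) (K : W) (η : Fin (8 * N) → ℤˣ) : Measurable fun σ : S =>
    Set.indicator {σ : S | ∀ i : Fin (8 * N), σ (bv N i) = η i} (1 : S → ℝ) σ *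
      Real.exp (en K (touch (box N)) σ) :=
  ((measurable_one.indicator (gluef_meas N η)) :
    Measurable (Set.indicator _ (1 : S → ℝ))).mul (measurable_en K (touch (box N))).exp

lemma gluef_ring (N : ℕ) (K : W) (η : Fin (8 * N) → ℤˣ) :
    ring N (tilt K (touch (box N)) unif) η =
      ∫ σ, Set.indicator {σ : S | ∀ i : Fin (8 * N), σ (bv N i) = η i} (1 : S → ℝ) σ *
        Real.exp (en K (touch (box N)) σ) ∂unif := by
  rw [ring, ← integral_indicator_one (gluef_meas N η), integral_tilt]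

/-- Flipping ring spins is the same as reversing the couplings of the ports. -/
theorem ring_flip (N : ℕ) (K : W) (I : Finset (Fin (8 * N))) (η : Fin (8 * N) → ℤˣ) :
    ring N (tilt K (touch (box N)) unif) (fl I η) =
      ∫ σ in {σ : S | ∀ i : Fin (8 * N), σ (bv N i) = η i},
        Real.exp (-2 * en K (I.image fun i : Fin (8 * N) => port N i) σ) *
          Real.exp (en K (touch (box N)) σ) ∂unif := by
  set U := I.image fun i : Fin (8 * N) => bv N i with hU
  have hmem : ∀ i : Fin (8 * N), bv N i ∈ U ↔ i ∈ I := fun i => by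
    simp only [hU, Finset.mem_image]
    exact ⟨fun ⟨j, hj, h⟩ => by rwa [← Fin.ext (bv_inj j.2 i.2 h)], fun h => ⟨i, h, rfl⟩⟩
  have hout : ∀ x ∈ U, x ∉ box N := fun x hx => by
    obtain ⟨i, -, rfl⟩ := Finset.mem_image.1 hx
    exact bv_not_mem i.2
  have h1 := gibbs_unif.integral_flp U (gluef_m N K (fl I η))
  have h0 : ∀ σ, en 0 (cob U) σ = 0 := fun σ => by simp [en]
  simp only [h0, mul_zero, Real.exp_zero, mul_one] at h1
  rw [gluef_ring, ← integral_indicator (gluef_meas N η)]
  refine h1.symm.trans ?_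
  congr 1; funext σ
  have e1 : (flp U σ ∈ {σ : S | ∀ i : Fin (8 * N), σ (bv N i) = fl I η i}) ↔
      σ ∈ {σ : S | ∀ i : Fin (8 * N), σ (bv N i) = η i} := by
    refine forall_congr' fun i => ?_
    simp only [flp, fl, hmem]
    split_ifs <;> simp
  by_cases hσ : σ ∈ {σ : S | ∀ i : Fin (8 * N), σ (bv N i) = η i}
  · rw [Set.indicator_of_mem (e1.2 hσ), Set.indicator_of_mem hσ, Pi.one_apply, one_mul,
      ← Real.exp_add]
    congr 1
    have hsub : (I.image fun i : Fin (8 * N) => port N i) ⊆ touch (box N) := fun e he => by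
      obtain ⟨i, -, rfl⟩ := Finset.mem_image.1 he
      exact cob_subset_touch subset_rfl (port_mem_cob i.2)
    have hc : ∀ e ∈ touch (box N), e ∈ cob U ↔ e ∈ I.image fun i : Fin (8 * N) => port N i := by
      intro e he
      have key : ∀ i : Fin (8 * N), port N i ∈ cob U ↔ i ∈ I := fun i => by
        obtain ⟨u, hu, h | h⟩ := port_ends i.2 <;> rw [mem_cob, h.1, h.2, hmem] <;>
          have := fun hh => hout u hh hu <;> tauto
      constructor
      · intro h
        have : e ∈ cob (box N) := by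
          rw [mem_cob] at h ⊢
          rw [mem_touch] at he
          have a := hout e.1; have b := hout (tip e)
          tauto
        obtain ⟨k, hk, rfl⟩ := exists_port this
        exact Finset.mem_image.2 ⟨⟨k, hk⟩, (key ⟨k, hk⟩).1 h, rfl⟩
      · intro h
        obtain ⟨i, hi, rfl⟩ := Finset.mem_image.1 h
        exact (key i).2 hi
    rw [← en_cut K hsub]
    simp only [en, Finset.mul_sum, ← Finset.sum_add_distrib]
    refine Finset.sum_congr rfl fun e he => ?_
    rw [bond_flp]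
    simp only [cut, hc e he]
    split_ifs <;> ring
  · rw [Set.indicator_of_notMem (fun h => hσ (e1.1 h)), Set.indicator_of_notMem hσ, zero_mul]

theorem ring_pos (N : ℕ) (K : W) (η : Fin (8 * N) → ℤˣ) :
    0 < ring N (tilt K (touch (box N)) unif) η := by
  have := (gibbs_unif.tilt K (touch (box N))).1
  refine ENNReal.toReal_pos (fun h => ?_) (measure_ne_top _ _)
  have h1 : unif ≪ tilt K (touch (box N)) unif :=
    withDensity_absolutelyContinuous' (measurable_en _ _).exp.ennreal_ofReal.aemeasurable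
      (Eventually.of_forall fun σ => (ENNReal.ofReal_pos.2 (Real.exp_pos _)).ne')
  have h2 := gluef_unif N η
  rw [Measure.real, h1 h, ENNReal.toReal_zero] at h2
  exact absurd h2 (by positivity)

theorem ring_neg (N : ℕ) (K : W) (η : Fin (8 * N) → ℤˣ) :
    ring N (tilt K (touch (box N)) unif) (-η) = ring N (tilt K (touch (box N)) unif) η := by
  have hm : Measurable fun σ : S => -σ := measurable_pi_lambda _ fun x =>
    (Measurable.of_discrete (f := fun u : ℤˣ => -u)).comp (measurable_pi_apply x)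
  rw [gluef_ring, gluef_ring]
  conv_lhs => rw [← unif_neg]
  rw [integral_map hm.aemeasurable (gluef_m N K (-η)).aestronglyMeasurable]
  congr 1; funext σ
  simp [Set.indicator, en, bond, sp_neg]

end Pool.Agent.MP_c70b3b_mp

end

section

open MeasureTheory ProbabilityTheory Filter Topology
open scoped symmDiff ENNReal

namespace Pool.Agent.MP_c70b3b_mp

lemma clu_dens (K : W) (U : Finset V) :
    Measurable fun σ : S => ENNReal.ofReal (Real.exp (-2 * en K (cob U) σ)) :=
  ((measurable_en K (cob U)).const_mul _).exp.ennreal_ofReal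

lemma clu_flip {K : W} {ρ ρ' : Measure S} (h : Gibbs K ρ) (h' : Gibbs K ρ') (U : Finset V)
    {g : S × S → ℝ} (hg : Measurable g) :
    ∫ p, g (flp U p.1, flp U p.2) ∂ρ.prod ρ' =
      ∫ p, g p * Real.exp (-2 * (en K (cob U) p.1 + en K (cob U) p.2)) ∂ρ.prod ρ' := by
  have := h.1
  have := h'.1
  have hm : Measurable (Prod.map (flp U) (flp U) : S × S → S × S) :=
    (measurable_flp U).prodMap (measurable_flp U)
  have e1 : ∫ p, g (flp U p.1, flp U p.2) ∂ρ.prod ρ' =
      ∫ p, g p ∂(ρ.prod ρ').map (Prod.map (flp U) (flp U)) := by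
    rw [integral_map hm.aemeasurable hg.aestronglyMeasurable]; rfl
  have hd : Measurable fun z : S × S => ENNReal.ofReal (Real.exp (-2 * en K (cob U) z.1)) *
      ENNReal.ofReal (Real.exp (-2 * en K (cob U) z.2)) :=
    ((clu_dens K U).comp measurable_fst).mul ((clu_dens K U).comp measurable_snd)
  rw [e1, ← Measure.map_prod_map _ _ (measurable_flp U) (measurable_flp U), h.map_flp, h'.map_flp,
    prod_withDensity (clu_dens K U) (clu_dens K U),
    integral_withDensity_eq_integral_toReal_smul hd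
      (Eventually.of_forall fun z => ENNReal.mul_lt_top ENNReal.ofReal_lt_top
        ENNReal.ofReal_lt_top)]
  refine integral_congr_ae (Eventually.of_forall fun p => ?_)
  simp only [ENNReal.toReal_mul, ENNReal.toReal_ofReal (Real.exp_pos _).le, smul_eq_mul]
  rw [← Real.exp_add, mul_comm]
  congr 2; ring

lemma clu_en (G : Set E) {K : W} (hK : ∀ e, e ∉ G → K e = 0) {σ σ' : S} {U : Finset V}
    (hc : Closed G (σ * σ') U) : en K (cob U) σ + en K (cob U) σ' = 0 := by
  unfold en
  rw [← Finset.sum_add_distrib]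
  refine Finset.sum_eq_zero fun e he => ?_
  by_cases hG : e ∈ G
  · have h1 := hc e he hG
    rw [bond_mul] at h1
    rcases bond_cases σ e with h2 | h2 <;> rcases bond_cases σ' e with h3 | h3 <;>
      rw [h2, h3] at h1 ⊢ <;> first | ring1 | (exfalso; linarith)
  · rw [hK e hG]; ring

lemma clu_one (G : Set E) {K : W} (hK : ∀ e, e ∉ G → K e = 0) {ρ ρ' : Measure S}
    (h : Gibbs K ρ) (h' : Gibbs K ρ') (A U : Finset V) {X : S → ℝ} (hX : Measurable X)
    (hU : ∀ τ, X τ ≠ 0 → Closed G τ U ∧ Odd (A ∩ U).card) :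
    ∫ p, chr A p.1 * X (p.1 * p.2) ∂ρ.prod ρ' = 0 := by
  by_cases ho : Odd (A ∩ U).card
  · have hg : Measurable fun p : S × S => chr A p.1 * X (p.1 * p.2) :=
      ((measurable_chr A).comp measurable_fst).mul (hX.comp measurable_mul2)
    have e := clu_flip h h' U hg
    simp only [chr_flp, flp_mul_flp, ho.neg_one_pow] at e
    have e2 : ∀ p : S × S, chr A p.1 * X (p.1 * p.2) *
        Real.exp (-2 * (en K (cob U) p.1 + en K (cob U) p.2)) = chr A p.1 * X (p.1 * p.2) := by
      intro p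
      by_cases h0 : X (p.1 * p.2) = 0
      · simp [h0]
      · rw [clu_en G hK (hU _ h0).1]; simp
    simp only [e2] at e
    simp only [neg_mul, one_mul, integral_neg] at e
    linarith
  · have : ∀ τ, X τ = 0 := fun τ => by
      by_contra h0; exact ho (hU τ h0).2
    simp [this]

lemma clu_meas (G : Set E) (A U : Finset V) :
    MeasurableSet {τ : S | Closed G τ U ∧ Odd (A ∩ U).card} := by
  have h1 : MeasurableSet {τ : S | Closed G τ U} := by
    have : {τ : S | Closed G τ U} = ⋂ e ∈ cob U, {τ : S | e ∈ G → bond τ e = -1} := by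
      ext τ; simp [Closed]
    rw [this]
    refine Finset.measurableSet_biInter _ fun e _ => ?_
    by_cases hG : e ∈ G
    · simp only [hG, true_implies]
      exact measurable_bond e (measurableSet_singleton _)
    · simp [hG]
  by_cases ho : Odd (A ∩ U).card
  · simpa [ho] using h1
  · simp [ho]

theorem cluster_zero (G : Set E) {K : W} (hK : ∀ e, e ∉ G → K e = 0) {ρ ρ' : Measure S}
    (h : Gibbs K ρ) (h' : Gibbs K ρ') (A : Finset V) {X : S → ℝ} (hX : Measurable X) (C : ℝ)
    (hb : ∀ τ, |X τ| ≤ C)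
    (hae : ∀ᵐ p ∂ρ.prod ρ', X (p.1 * p.2) ≠ 0 →
      ∃ U : Finset V, Closed G (p.1 * p.2) U ∧ Odd (A ∩ U).card) :
    ∫ p, chr A p.1 * X (p.1 * p.2) ∂ρ.prod ρ' = 0 := by
  have := h.1
  have := h'.1
  obtain ⟨u, hu⟩ := exists_surjective_nat (Finset V)
  let D : ℕ → Set S := fun n => {τ : S | Closed G τ (u n) ∧ Odd (A ∩ u n).card}
  have hD : ∀ n, MeasurableSet (D n) := fun n => clu_meas G A (u n)
  have hD' : ∀ n, MeasurableSet (disjointed D n) := fun n => MeasurableSet.disjointed hD n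
  let T : ℕ → Set (S × S) := fun n => (fun p : S × S => p.1 * p.2) ⁻¹' disjointed D n
  have hT : ∀ n, MeasurableSet (T n) := fun n => measurable_mul2 (hD' n)
  have hg : Measurable fun p : S × S => chr A p.1 * X (p.1 * p.2) :=
    ((measurable_chr A).comp measurable_fst).mul (hX.comp measurable_mul2)
  have hi : Integrable (fun p : S × S => chr A p.1 * X (p.1 * p.2)) (ρ.prod ρ') :=
    integrable_of_bdd hg C fun p => by rw [abs_mul, abs_chr, one_mul]; exact hb _
  have hdis : Pairwise (Function.onFun Disjoint T) := fun i j hij =>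
    Disjoint.preimage _ (disjoint_disjointed D hij)
  have e1 : ∫ p, chr A p.1 * X (p.1 * p.2) ∂ρ.prod ρ' =
      ∫ p in ⋃ n, T n, chr A p.1 * X (p.1 * p.2) ∂ρ.prod ρ' := by
    symm
    refine setIntegral_eq_integral_of_ae_compl_eq_zero ?_
    filter_upwards [hae] with p hp hn
    by_cases h0 : X (p.1 * p.2) = 0
    · simp [h0]
    · exfalso
      obtain ⟨U, hU⟩ := hp h0
      obtain ⟨n, rfl⟩ := hu U
      apply hn
      have : p.1 * p.2 ∈ ⋃ n, disjointed D n := by
        rw [iUnion_disjointed]; exact Set.mem_iUnion.2 ⟨n, hU⟩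
      obtain ⟨m, hm⟩ := Set.mem_iUnion.1 this
      exact Set.mem_iUnion.2 ⟨m, hm⟩
  rw [e1, integral_iUnion hT hdis hi.integrableOn]
  have e2 : ∀ n, ∫ p in T n, chr A p.1 * X (p.1 * p.2) ∂ρ.prod ρ' = 0 := by
    intro n
    rw [← integral_indicator (hT n)]
    have := clu_one G hK h h' A (u n) (hX.indicator (hD' n)) (fun τ hτ =>
      disjointed_subset D n (Set.mem_of_indicator_ne_zero hτ))
    rw [← this]
    refine integral_congr_ae (Eventually.of_forall fun p => ?_)
    by_cases hp : p.1 * p.2 ∈ disjointed D n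
    · have hp' : p ∈ T n := hp
      simp only [Set.indicator_of_mem hp, Set.indicator_of_mem hp']
    · have hp' : p ∉ T n := hp
      simp only [Set.indicator_of_notMem hp, Set.indicator_of_notMem hp', mul_zero]
  simp [e2]

lemma clu_mphi (N : ℕ) : Measurable fun (σ : S) (i : Fin (8 * N)) => σ (bv N i) :=
  measurable_pi_lambda _ fun _ => measurable_pi_apply _

lemma hat_ring (N : ℕ) (ρ : Measure S) [IsFiniteMeasure ρ] (I : Finset (Fin (8 * N))) :
    hat (ring N ρ) I = ∫ σ, ch I (fun i => σ (bv N i)) ∂ρ := by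
  have hm : Measurable (ch I) := Measurable.of_discrete
  rw [← integral_map (clu_mphi N).aemeasurable hm.aestronglyMeasurable,
    integral_fintype Integrable.of_finite]
  unfold hat ring
  refine Finset.sum_congr rfl fun η _ => ?_
  rw [map_measureReal_apply (clu_mphi N) (measurableSet_singleton _), smul_eq_mul]
  congr 2
  ext σ; simp [funext_iff]

lemma clu_ch_sq {m : ℕ} (I : Finset (Fin m)) (η : Fin m → ℤˣ) : ch I η * ch I η = 1 := by
  simp [ch, ← Finset.prod_mul_distrib, sp_mul_self]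

lemma clu_ch_mul {m : ℕ} (I : Finset (Fin m)) (η η' : Fin m → ℤˣ) :
    ch I (η * η') = ch I η * ch I η' := by
  simp [ch, sp_mul, Finset.prod_mul_distrib]

lemma clu_ch_symm {m : ℕ} (I J : Finset (Fin m)) (η : Fin m → ℤˣ) :
    ch (I ∆ J) η = ch I η * ch J η := by
  have key : ∀ A : Finset (Fin m), ch A η = ∏ i, if i ∈ A then sp (η i) else 1 := fun A => by
    rw [Finset.prod_ite_mem, Finset.univ_inter]; rfl
  simp only [key, ← Finset.prod_mul_distrib]
  refine Finset.prod_congr rfl fun i _ => ?_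
  by_cases h1 : i ∈ I <;> by_cases h2 : i ∈ J <;> simp [h1, h2, Finset.mem_symmDiff, sp_mul_self]

lemma clu_ch_one {m : ℕ} (a : Fin m) (η : Fin m → ℤˣ) : ch {a} η = sp (η a) := by simp [ch]

lemma clu_alg {m : ℕ} (I J : Finset (Fin m)) (a : Fin m) (s s' : Fin m → ℤˣ) :
    ch (I ∆ {a}) s * ch (J ∆ {a}) s' + ch (J ∆ {a}) s * ch (I ∆ {a}) s' =
      ch (I ∆ J) s * (ch J (s * s') * (1 + ch (I ∆ J) (s * s')) * sp ((s * s') a)) := by
  simp only [clu_ch_symm, clu_ch_mul, clu_ch_one, Pi.mul_apply, sp_mul]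
  have h1 := clu_ch_sq I s
  have h2 := clu_ch_sq J s
  have h3 := clu_ch_sq J s'
  linear_combination (-(ch I s * ch J s' * sp (s a) * sp (s' a)) -
      ch I s * ch I s * ch J s * ch J s' * ch J s' * ch I s' * sp (s a) * sp (s' a)) * h2 -
    (ch J s * ch J s' * ch J s' * ch I s' * sp (s a) * sp (s' a)) * h1 -
    (ch J s * ch I s' * sp (s a) * sp (s' a)) * h3

lemma clu_int (N : ℕ) {ρ ρ' : Measure S} [IsFiniteMeasure ρ] [IsFiniteMeasure ρ']
    (Y : (Fin (8 * N) → ℤˣ) × (Fin (8 * N) → ℤˣ) → ℝ) :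
    Integrable (fun p : S × S => Y (fun i => p.1 (bv N i), fun i => p.2 (bv N i))) (ρ.prod ρ') := by
  have hY : Measurable Y := Measurable.of_discrete
  refine integrable_of_bdd (hY.comp (((clu_mphi N).comp measurable_fst).prodMk
    ((clu_mphi N).comp measurable_snd))) (∑ q, |Y q|) fun p => ?_
  exact Finset.single_le_sum (f := fun q => |Y q|) (fun _ _ => abs_nonneg _) (Finset.mem_univ _)

theorem plu_of_alt (N : ℕ) (G : Set E) {K : W} (hK : ∀ e, e ∉ G → K e = 0) {ρ ρ' : Measure S}
    (h : Gibbs K ρ) (h' : Gibbs K ρ')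
    (hae : ∀ᵐ p ∂ρ.prod ρ', ∀ A : Finset (Fin (8 * N)), Even A.card →
      ch A (fun i => (p.1 * p.2) (bv N i)) = 1 →
      (∀ U : Finset V, Closed G (p.1 * p.2) U →
        Even (A.image (fun i : Fin (8 * N) => bv N i) ∩ U).card) →
      alt A (fun i => sp ((p.1 * p.2) (bv N i))) = 0) :
    Plu (ring N ρ) (ring N ρ') := by
  have := h.1
  have := h'.1
  intro I J hev
  let Y : (Fin (8 * N) → ℤˣ) → ℝ := fun t =>
    ch J t * (1 + ch (I ∆ J) t) * alt (I ∆ J) (fun i => sp (t i))
  have hY : Measurable Y := Measurable.of_discrete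
  have hz := cluster_zero G hK h h' ((I ∆ J).image fun i : Fin (8 * N) => bv N i)
    (X := fun τ => Y fun i => τ (bv N i)) (hY.comp (clu_mphi N)) (∑ q, |Y q|)
    (fun τ => Finset.single_le_sum (f := fun q => |Y q|) (fun _ _ => abs_nonneg _)
      (Finset.mem_univ _)) (by
      filter_upwards [hae] with p hp h0
      by_contra hn
      apply h0
      have h1 := clu_ch_sq (I ∆ J) fun i => (p.1 * p.2) (bv N i)
      rcases mul_self_eq_one_iff.1 h1 with h2 | h2
      · have h3 := hp (I ∆ J) hev h2 fun U hU => by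
          by_contra h4
          exact hn ⟨U, hU, Nat.not_even_iff_odd.1 h4⟩
        simp only [Y, h3, mul_zero]
      · simp only [Y, h2]; ring)
  have hchr : ∀ σ : S, chr ((I ∆ J).image fun i : Fin (8 * N) => bv N i) σ =
      ch (I ∆ J) fun i => σ (bv N i) := fun σ => by
    unfold chr ch
    rw [Finset.prod_image fun i _ j _ hij => Fin.ext (bv_inj i.2 j.2 hij)]
  have ht : ∀ a : Fin (8 * N),
      hat (ring N ρ) (I ∆ {a}) * hat (ring N ρ') (J ∆ {a}) +
        hat (ring N ρ') (I ∆ {a}) * hat (ring N ρ) (J ∆ {a}) =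
      ∫ p, ch (I ∆ J) (fun i => p.1 (bv N i)) * (ch J (fun i => (p.1 * p.2) (bv N i)) *
        (1 + ch (I ∆ J) (fun i => (p.1 * p.2) (bv N i))) * sp ((p.1 * p.2) (bv N a)))
        ∂ρ.prod ρ' := by
    intro a
    rw [hat_ring, hat_ring, hat_ring, hat_ring, mul_comm (∫ σ, _ ∂ρ'), ← integral_prod_mul,
      ← integral_prod_mul, ← integral_add
        (clu_int N fun q => ch (I ∆ {a}) q.1 * ch (J ∆ {a}) q.2)
        (clu_int N fun q => ch (J ∆ {a}) q.1 * ch (I ∆ {a}) q.2)]
    exact integral_congr_ae (Eventually.of_forall fun p => clu_alg I J a _ _)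
  rw [← hz]
  unfold alt
  simp only [ht, ← integral_const_mul]
  refine (integral_finsetSum _ fun a _ => clu_int N fun q =>
    (-1 : ℝ) ^ ((I ∆ J).filter (· < a)).card * (ch (I ∆ J) q.1 * (ch J (q.1 * q.2) *
      (1 + ch (I ∆ J) (q.1 * q.2)) * sp ((q.1 * q.2) a)))).symm.trans ?_
  refine integral_congr_ae (Eventually.of_forall fun p => ?_)
  simp only [hchr, Y, alt, Finset.mul_sum]
  refine Finset.sum_congr rfl fun a _ => ?_
  have e : ((fun i : Fin (8 * N) => p.1 (bv N i)) * fun i : Fin (8 * N) => p.2 (bv N i)) =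
      fun i : Fin (8 * N) => (p.1 * p.2) (bv N i) := rfl
  rw [e]
  ring

end Pool.Agent.MP_c70b3b_mp

end

section

open MeasureTheory ProbabilityTheory Filter Topology
open scoped symmDiff ENNReal

namespace Pool.Agent.MP_c70b3b_mp

lemma nc_corner {e : E} {v : V} (h : e.1 = v ∨ tip e = v) : Corner v (fA e) := by
  rcases e with ⟨x, _ | _⟩ <;> rcases h with rfl | rfl <;> simp [Corner, fA, tip]

lemma nc_free {C : Finset E} {Φ : Finset V} (hΦ : ∀ e, e ∈ C ↔ ¬ (fA e ∈ Φ ↔ fB e ∈ Φ)) {v : V}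
    (hv : ∀ e ∈ C, e.1 ≠ v ∧ tip e ≠ v) {p : V} (hp : Corner v p) : p ∈ Φ ↔ v ∈ Φ := by
  have h1 : v ∈ Φ ↔ v - (1, 0) ∈ Φ := not_not.1 fun h => (hv (v, true) ((hΦ _).2 h)).1 rfl
  have h2 : v ∈ Φ ↔ v - (0, 1) ∈ Φ := not_not.1 fun h => (hv (v, false) ((hΦ _).2 h)).1 rfl
  have h3 : v - (1, 0) ∈ Φ ↔ v - (1, 0) - (0, 1) ∈ Φ := not_not.1 fun h =>
    (hv (v - (1, 0), false) ((hΦ _).2 h)).2 (by simp [tip])
  have h4 : v - (1, 0) - (0, 1) = v - (1, 1) := by
    rw [sub_sub]; rfl
  rcases hp with rfl | rfl | rfl | rfl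
  · rfl
  · exact h1.symm
  · exact h2.symm
  · rw [← h4, ← h3, ← h1]

lemma nc_port {N : ℕ} {e : E} {w : V} (he : e ∈ touch (box N)) (h : e.1 = w ∨ tip e = w)
    (hw : w ∉ box N) : ∃ k < 8 * N, e = port N k ∧ w = bv N k := by
  have hc : e ∈ cob (box N) := by
    rw [mem_touch] at he
    rw [mem_cob]
    rcases h with rfl | rfl <;> tauto
  obtain ⟨k, hk, rfl⟩ := exists_port hc
  refine ⟨k, hk, rfl, ?_⟩
  obtain ⟨u, hu, ⟨h1, h2⟩ | ⟨h1, h2⟩⟩ := port_ends hk <;> rw [h1, h2] at h <;>
    rcases h with rfl | rfl <;> first | rfl | exact absurd hu hw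

lemma nc_port_end {N k : ℕ} (hk : k < 8 * N) :
    (port N k).1 = bv N k ∨ tip (port N k) = bv N k := by
  obtain ⟨u, -, h | h⟩ := port_ends hk
  · exact Or.inl h.1
  · exact Or.inr h.2

lemma nc_port_touch {N k : ℕ} (hk : k < 8 * N) : port N k ∈ touch (box N) :=
  (Finset.mem_filter.1 (port_mem_cob hk)).1

lemma nc_inside {N a c : ℕ} (ha : a < 8 * N) (hc : c < 8 * N) (hac : a ≠ c) {C : Finset E}
    (hC : ∀ e ∈ C, e ∈ touch (box N)) (hv : ∀ v, vbd C v = dl (bv N a) v + dl (bv N c) v)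
    {k : ℕ} (hk : k < 8 * N) : port N k ∈ C ↔ k = a ∨ k = c := by
  have h1 : vbd C (bv N k) = dualInd C (port N k) := by
    rw [dual_ind_sum, vbd]
    refine Finset.sum_congr rfl fun e he => ?_
    split_ifs with h
    · subst h
      have h2 := tip_ne (port N k)
      rcases nc_port_end hk with h3 | h3
      · rw [h3] at h2
        simp [dl, h3, h2]
      · rw [h3] at h2
        simp [dl, h3, h2.symm]
    · have h2 : ¬ (e.1 = bv N k ∨ tip e = bv N k) := fun h2 => by
        obtain ⟨l, hl, h3, h4⟩ := nc_port (hC e he) h2 (bv_not_mem hk)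
        exact h (by rw [h3, bv_inj hk hl h4])
      rw [not_or] at h2
      simp [dl, h2.1, h2.2]
  rw [← dual_ind_one, ← h1, hv]
  have e1 : bv N a = bv N k ↔ k = a := ⟨fun h => (bv_inj ha hk h).symm, fun h => by rw [h]⟩
  have e2 : bv N c = bv N k ↔ k = c := ⟨fun h => (bv_inj hc hk h).symm, fun h => by rw [h]⟩
  simp only [dl, e1, e2]
  by_cases h2 : k = a <;> by_cases h3 : k = c
  · exact absurd (h2.symm.trans h3) hac
  · simp [h2, hac]
  · simp [h3, hac.symm]
  · simp [h2, h3]

lemma nc_rf {N k : ℕ} (hk : k < 8 * N) {C : Finset E} {Φ : Finset V}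
    (hΦ : ∀ e, e ∈ C ↔ ¬ (fA e ∈ Φ ↔ fB e ∈ Φ)) :
    port N k ∈ C ↔ ¬ (rf N k ∈ Φ ↔ rf N (k + 1) ∈ Φ) := by
  rw [hΦ]
  rcases port_faces hk with ⟨h1, h2⟩ | ⟨h1, h2⟩ <;> rw [h1, h2]
  rw [iff_comm (a := rf N k ∈ Φ)]

lemma nc_parity {N a b c d : ℕ} (hab : a < b) (hbc : b < c) (hcd : c < d) (hd : d < 8 * N)
    {C : Finset E} {Φ : Finset V} (hΦ : ∀ e, e ∈ C ↔ ¬ (fA e ∈ Φ ↔ fB e ∈ Φ))
    (hp : ∀ k < 8 * N, port N k ∈ C ↔ k = a ∨ k = c) :
    ¬ (rf N (b + 1) ∈ Φ ↔ rf N (d + 1) ∈ Φ) := by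
  have key : ∀ m n, m ≤ n → n ≤ 8 * N → (∀ k, m ≤ k → k < n → k ≠ a ∧ k ≠ c) →
      (rf N m ∈ Φ ↔ rf N n ∈ Φ) := by
    intro m n hmn
    induction n, hmn using Nat.le_induction with
    | base => exact fun _ _ => Iff.rfl
    | succ n hmn ih =>
      intro h1 h2
      refine (ih (by omega) fun k h3 h4 => h2 k h3 (by omega)).trans (not_not.1 fun h => ?_)
      have h3 := (hp n (by omega)).1 ((nc_rf (by omega) hΦ).2 h)
      have h4 := h2 n hmn (by omega)
      omega
  have h1 := key (b + 1) c (by omega) (by omega) fun k _ _ => by omega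
  have h2 := key (c + 1) (d + 1) (by omega) (by omega) fun k _ _ => by omega
  have h3 := (nc_rf (by omega) hΦ).1 ((hp c (by omega)).2 (Or.inr rfl))
  rw [h1, ← h2]
  exact h3

lemma nc_zero {C C' : Finset E} {x y : V} (h : ∀ v, vbd C v = dl x v + dl y v)
    (h' : ∀ v, vbd C' v = dl x v + dl y v) (v : V) : vbd (C ∆ C') v = 0 := by
  have h2 : ∀ z : ZMod 2, z + z = 0 := by decide
  rw [vbd_symmDiff, h, h', h2]

lemma nc_hor {N : ℕ} {x y : ℤ} {v w : V} (hv : v = (x, y)) (hw : w = (x + 1, y))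
    (h : y = -(N : ℤ) - 1 ∨ y = N) : Conn (touch (box N) : Set E)ᶜ Set.univ v w := by
  subst hv hw
  refine Relation.ReflTransGen.single ⟨trivial, trivial, ((x, y), false), ?_,
    Or.inl ⟨rfl, by simp [tip]⟩⟩
  simp only [Set.mem_compl_iff, Finset.mem_coe, mem_touch, mem_box, tip, Bool.false_eq_true,
    if_false, Prod.fst_add, Prod.snd_add]
  omega

lemma nc_ver {N : ℕ} {x y : ℤ} {v w : V} (hv : v = (x, y)) (hw : w = (x, y + 1))
    (h : x = -(N : ℤ) - 1 ∨ x = N) : Conn (touch (box N) : Set E)ᶜ Set.univ v w := by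
  subst hv hw
  refine Relation.ReflTransGen.single ⟨trivial, trivial, ((x, y), true), ?_,
    Or.inl ⟨rfl, by simp [tip]⟩⟩
  simp only [Set.mem_compl_iff, Finset.mem_coe, mem_touch, mem_box, tip, if_true,
    Prod.fst_add, Prod.snd_add]
  omega

lemma nc_step {N k : ℕ} (hk : k + 1 < 8 * N) :
    Conn (touch (box N) : Set E)ᶜ Set.univ (bv N k) (bv N (k + 1)) := by
  unfold bv
  split_ifs
  all_goals first
    | omega
    | exact nc_hor rfl (by rw [Prod.mk.injEq]; omega) (by omega)
    | exact nc_ver rfl (by rw [Prod.mk.injEq]; omega) (by omega)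
    | exact (nc_hor rfl (by rw [Prod.mk.injEq]; omega) (by omega)).symm
    | exact (nc_ver rfl (by rw [Prod.mk.injEq]; omega) (by omega)).symm
    | exact (nc_hor rfl rfl (by omega)).trans
        (nc_ver rfl (by rw [Prod.mk.injEq]; omega) (by omega))
    | exact (nc_ver rfl rfl (by omega)).trans
        (nc_hor rfl (by rw [Prod.mk.injEq]; omega) (by omega)).symm
    | exact Conn.symm ((nc_ver rfl rfl (by omega)).trans
        (nc_hor rfl (by rw [Prod.mk.injEq]; omega) (by omega)))

lemma nc_ring {N a c : ℕ} (hac : a ≤ c) (hc : c < 8 * N) :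
    Conn (touch (box N) : Set E)ᶜ Set.univ (bv N a) (bv N c) := by
  induction c, hac using Nat.le_induction with
  | base => exact Relation.ReflTransGen.refl
  | succ n _ ih => exact (ih (by omega)).trans (nc_step hc)

lemma nc_mem {G : Set E} {O : Set V} {x y : V} (h : Conn G O x y) (hxy : x ≠ y) : y ∈ O := by
  cases h with
  | refl => exact absurd rfl hxy
  | tail _ h => exact h.2.1

theorem nc_out {N a b c d : ℕ} (hab : a < b) (hbc : b < c) (hcd : c < d) (hd : d < 8 * N)
    {O O' : Set V} (hO : Disjoint O O') (h1 : ∀ x ∈ O, x ∉ box N) (h2 : ∀ x ∈ O', x ∉ box N)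
    (hb : bv N b ∈ O') (hac : Conn Set.univ O (bv N a) (bv N c))
    (hbd : Conn Set.univ O' (bv N b) (bv N d)) : False := by
  have ha : a < 8 * N := by omega
  have hc : c < 8 * N := by omega
  have hne : bv N a ≠ bv N c := fun h => by have := bv_inj ha hc h; omega
  have hin : Conn (touch (box N) : Set E) ((box N : Set V) ∪ O) (bv N a) (bv N c) := by
    obtain ⟨u, hu, h3⟩ := port_ends ha
    obtain ⟨w, hw, h4⟩ := port_ends hc
    exact ((Relation.ReflTransGen.single ⟨Or.inr (nc_mem hac.symm hne.symm), Or.inl hu, _,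
      nc_port_touch ha, h3⟩).trans ((conn_box N hu hw).mono le_rfl Set.subset_union_left)).tail
      ⟨Or.inl hw, Or.inr (nc_mem hac hne), _, nc_port_touch hc, h4.symm.imp And.symm And.symm |>.imp
        And.symm And.symm⟩
  obtain ⟨C, hC, hv⟩ := chain_of_conn hac
  obtain ⟨C', hC', hv'⟩ := chain_of_conn hin
  obtain ⟨Φ, hΦ⟩ := exists_faces _ (nc_zero hv hv')
  have hfree : ∀ v ∈ O', ∀ e ∈ C ∆ C', e.1 ≠ v ∧ tip e ≠ v := fun v hv e he => by
    have h3 : ∀ u ∈ (box N : Set V) ∪ O, u ≠ v := by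
      rintro u (hu | hu) rfl
      · exact h2 u hv hu
      · exact Set.disjoint_left.1 hO hu hv
    rcases Finset.mem_symmDiff.1 he with h | h
    · exact ⟨h3 _ (Or.inr (hC e h.1).2.1), h3 _ (Or.inr (hC e h.1).2.2)⟩
    · exact ⟨h3 _ (hC' e h.1).2.1, h3 _ (hC' e h.1).2.2⟩
  have hconst : ∀ v, Conn Set.univ O' (bv N b) v → (bv N b ∈ Φ ↔ v ∈ Φ) := fun v h => by
    induction h with
    | refl => rfl
    | tail _ h ih =>
      obtain ⟨h3, h4, e, -, h5⟩ := h
      rw [ih, ← nc_free hΦ (hfree _ h3) (nc_corner (e := e) (h5.imp And.left And.right)),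
        nc_free hΦ (hfree _ h4) (nc_corner (e := e) (h5.symm.imp And.left And.right))]
  refine nc_parity hab hbc hcd hd hΦ (fun k hk => ?_) ?_
  · rw [← nc_inside ha hc (by omega) (fun e he => (hC' e he).1) hv' hk, Finset.mem_symmDiff]
    have h3 : port N k ∉ C := fun h => by
      rcases mem_touch.1 (nc_port_touch hk) with h4 | h4
      · exact h1 _ (hC _ h).2.1 h4
      · exact h1 _ (hC _ h).2.2 h4
    tauto
  · rw [nc_free hΦ (hfree _ hb) (corner_rf (by omega)).2,
      nc_free hΦ (hfree _ (bkdet_mem hbd hb)) (corner_rf hd).2]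
    exact hconst _ hbd

theorem nc_in {N a b c d : ℕ} (hab : a < b) (hbc : b < c) (hcd : c < d) (hd : d < 8 * N)
    {O O' : Set V} (hO : Disjoint O O') (hb : bv N b ∈ O')
    (hac : Conn (touch (box N) : Set E) O (bv N a) (bv N c))
    (hbd : Conn (touch (box N) : Set E) O' (bv N b) (bv N d)) : False := by
  have ha : a < 8 * N := by omega
  have hc : c < 8 * N := by omega
  obtain ⟨C, hC, hv⟩ := chain_of_conn hac
  obtain ⟨C', hC', hv'⟩ := chain_of_conn (nc_ring (by omega : a ≤ c) hc)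
  obtain ⟨Φ, hΦ⟩ := exists_faces _ (nc_zero hv hv')
  have hfree : ∀ v ∈ O', v ∈ box N → ∀ e ∈ C ∆ C', e.1 ≠ v ∧ tip e ≠ v := fun v hv hv2 e he => by
    rcases Finset.mem_symmDiff.1 he with h | h
    · exact ⟨fun h3 => Set.disjoint_left.1 hO (hC e h.1).2.1 (h3 ▸ hv),
        fun h3 => Set.disjoint_left.1 hO (hC e h.1).2.2 (h3 ▸ hv)⟩
    · exact ⟨fun h3 => (hC' e h.1).1 (mem_touch.2 (Or.inl (h3 ▸ hv2))),
        fun h3 => (hC' e h.1).1 (mem_touch.2 (Or.inr (h3 ▸ hv2)))⟩
  have huniq : ∀ v, v ∉ box N → ∀ e ∈ touch (box N), ∀ e' ∈ touch (box N),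
      (e.1 = v ∨ tip e = v) → (e'.1 = v ∨ tip e' = v) → e = e' := fun v h e he e' he' h3 h4 => by
    obtain ⟨k, hk, h5, h6⟩ := nc_port he h3 h
    obtain ⟨l, hl, h7, h8⟩ := nc_port he' h4 h
    rw [h5, h7, bv_inj hk hl (h6.symm.trans h8)]
  have hconst : ∀ v, Conn (touch (box N) : Set E) O' (bv N b) v → ∀ e ∈ touch (box N),
      (e.1 = v ∨ tip e = v) → (fA (port N b) ∈ Φ ↔ fA e ∈ Φ) := fun v h => by
    induction h with
    | refl =>
      intro e he h3
      rw [huniq _ (bv_not_mem (by omega)) e he _ (nc_port_touch (by omega)) h3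
        (nc_port_end (by omega))]
    | @tail u w _ h ih =>
      obtain ⟨-, h4, e, he, h5⟩ := h
      intro e' he' h6
      rw [ih e he (h5.imp And.left And.right)]
      by_cases hw : w ∈ box N
      · rw [nc_free hΦ (hfree _ h4 hw) (nc_corner h6),
          nc_free hΦ (hfree _ h4 hw) (nc_corner (e := e) (h5.symm.imp And.left And.right))]
      · rw [huniq w hw e he e' he' (h5.symm.imp And.left And.right) h6]
  have hp : ∀ k < 8 * N, port N k ∈ C ∆ C' ↔ k = a ∨ k = c := fun k hk => by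
    rw [← nc_inside ha hc (by omega) (fun e he => (hC e he).1) hv hk, Finset.mem_symmDiff]
    have h3 : port N k ∉ C' := fun h => (hC' _ h).1 (nc_port_touch hk)
    tauto
  have hfa : ∀ k < 8 * N, k ≠ a → k ≠ c → (rf N (k + 1) ∈ Φ ↔ fA (port N k) ∈ Φ) :=
    fun k hk h3 h4 => by
      have h5 : rf N k ∈ Φ ↔ rf N (k + 1) ∈ Φ := not_not.1 fun h => by
        have := (hp k hk).1 ((nc_rf hk hΦ).2 h)
        omega
      rcases port_faces hk with ⟨h6, -⟩ | ⟨-, h6⟩ <;> rw [h6]
      exact h5.symm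
  refine nc_parity hab hbc hcd hd hΦ hp ?_
  rw [hfa b (by omega) (by omega) (by omega), hfa d hd (by omega) (by omega)]
  exact hconst _ hbd _ (nc_port_touch hd) (nc_port_end hd)

end Pool.Agent.MP_c70b3b_mp

end

section

open MeasureTheory ProbabilityTheory Filter Topology
open scoped symmDiff ENNReal

namespace Pool.Agent.MP_c70b3b_mp

theorem alt_sg_insert {ι : Type} [LinearOrder ι] {A : Finset ι} {a : ι} (ha : a ∉ A) (x : ι) :
    (-1 : ℝ) ^ ((insert a A).filter (· < x)).card =
      (if a < x then -1 else 1) * (-1 : ℝ) ^ (A.filter (· < x)).card := by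
  rw [Finset.filter_insert]
  split_ifs with h
  · rw [Finset.card_insert_of_notMem fun h' => ha (Finset.mem_filter.1 h').1, pow_succ]
    ring
  · rw [one_mul]

theorem alt_remove {ι : Type} [LinearOrder ι] {A : Finset ι} {a b : ι} (ha : a ∉ A) (hb : b ∉ A)
    (hab : a < b) (hA : ∀ x ∈ A, x < a ∨ b < x) (t : ι → ℝ) (ht : t a = t b) :
    alt (insert a (insert b A)) t = alt A t := by
  have ha' : a ∉ insert b A := by
    rw [Finset.mem_insert]
    rintro (h | h)
    · exact hab.ne h
    · exact ha h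
  have hf : A.filter (· < b) = A.filter (· < a) := by
    refine Finset.filter_congr fun x hx => ?_
    rcases hA x hx with h | h
    · exact ⟨fun _ => h, fun _ => h.trans hab⟩
    · exact ⟨fun h' => absurd h' h.not_gt, fun h' => absurd (h'.trans hab) h.not_gt⟩
  unfold alt
  rw [Finset.sum_insert ha', Finset.sum_insert hb]
  simp only [alt_sg_insert ha', alt_sg_insert hb]
  rw [if_neg (lt_irrefl a), if_neg hab.not_gt, if_pos hab, if_neg (lt_irrefl b), hf, ht]
  have hs : ∑ x ∈ A, (if a < x then -1 else 1) * ((if b < x then -1 else 1) *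
      (-1 : ℝ) ^ (A.filter (· < x)).card) * t x =
      ∑ x ∈ A, (-1 : ℝ) ^ (A.filter (· < x)).card * t x := by
    refine Finset.sum_congr rfl fun x hx => ?_
    rcases hA x hx with h | h
    · rw [if_neg h.not_gt, if_neg (h.trans hab).not_gt]
      ring
    · rw [if_pos (hab.trans h), if_pos h]
      ring
  rw [hs]
  ring

theorem alt_pair {ι : Type} [LinearOrder ι] (A : Finset ι) (r : ι → ι → Prop) [DecidableRel r]
    (hr : ∀ a, r a a) (hs : ∀ a b, r a b → r b a) (htr : ∀ a b c, r a b → r b c → r a c)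
    (hev : ∀ a ∈ A, Even (A.filter (r a)).card)
    (hnc : ∀ a ∈ A, ∀ b ∈ A, ∀ c ∈ A, ∀ d ∈ A, a < b → b < c → c < d → r a c → r b d → r a b)
    (hne : A.Nonempty) :
    ∃ a ∈ A, ∃ b ∈ A, a < b ∧ r a b ∧ ∀ x ∈ A, ¬ (a < x ∧ x < b) := by
  have hoth : ∀ c ∈ A, ∃ d ∈ A, d ≠ c ∧ r c d := by
    intro c hc
    by_contra hcon
    have : A.filter (r c) = {c} := by
      ext d
      rw [Finset.mem_filter, Finset.mem_singleton]
      constructor
      · rintro ⟨h1, h2⟩
        by_contra h3
        exact hcon ⟨d, h1, h3, h2⟩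
      · rintro rfl
        exact ⟨hc, hr _⟩
    have h := hev c hc
    rw [this, Finset.card_singleton] at h
    exact absurd h (by decide)
  have key : ∀ n : ℕ, ∀ a ∈ A, ∀ b ∈ A, a < b → r a b →
      (A.filter fun x => a < x ∧ x < b).card = n →
      ∃ a ∈ A, ∃ b ∈ A, a < b ∧ r a b ∧ ∀ x ∈ A, ¬ (a < x ∧ x < b) := by
    intro n
    induction n using Nat.strong_induction_on with
    | _ n ih =>
      intro a ha b hb hab hrab hn
      by_cases hall : ∀ x ∈ A, ¬ (a < x ∧ x < b)
      · exact ⟨a, ha, b, hb, hab, hrab, hall⟩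
      push Not at hall
      obtain ⟨c, hc, hac, hcb⟩ := hall
      have small : ∀ u ∈ A, ∀ v ∈ A, u < v → r u v → a ≤ u → v ≤ b → (u = c ∨ v = c) →
          ∃ a ∈ A, ∃ b ∈ A, a < b ∧ r a b ∧ ∀ x ∈ A, ¬ (a < x ∧ x < b) := by
        intro u hu v hv huv hruv hau hvb hc'
        refine ih _ ?_ u hu v hv huv hruv rfl
        rw [← hn]
        refine Finset.card_lt_card ⟨fun x hx => ?_, fun h => ?_⟩
        · rw [Finset.mem_filter] at hx ⊢
          exact ⟨hx.1, hau.trans_lt hx.2.1, hx.2.2.trans_le hvb⟩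
        · have h1 := (Finset.mem_filter.1 (h (Finset.mem_filter.2 ⟨hc, hac, hcb⟩))).2
          rcases hc' with h2 | h2
          · exact h1.1.ne h2
          · exact h1.2.ne' h2
      by_cases hrac : r a c
      · exact small a ha c hc hac hrac le_rfl hcb.le (Or.inr rfl)
      obtain ⟨d, hd, hdc, hrcd⟩ := hoth c hc
      rcases lt_or_gt_of_ne hdc with h | h
      · by_cases h2 : a ≤ d
        · exact small d hd c hc h (hs _ _ hrcd) h2 hcb.le (Or.inr rfl)
        · have h3 := hnc d hd a ha c hc b hb (not_le.1 h2) hac hcb (hs _ _ hrcd) hrab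
          exact absurd (htr _ _ _ (hs _ _ h3) (hs _ _ hrcd)) hrac
      · by_cases h2 : d ≤ b
        · exact small c hc d hd h hrcd hac.le h2 (Or.inl rfl)
        · exact absurd (hnc a ha c hc b hb d hd hac hcb (not_le.1 h2) hrab hrcd) hrac
  obtain ⟨c, hc⟩ := hne
  obtain ⟨d, hd, hdc, hrcd⟩ := hoth c hc
  rcases lt_or_gt_of_ne hdc with h | h
  · exact key _ d hd c hc h (hs _ _ hrcd) rfl
  · exact key _ c hc d hd h hrcd rfl

theorem alt_zero {ι : Type} [LinearOrder ι] (A : Finset ι) (r : ι → ι → Prop) [DecidableRel r]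
    (hr : ∀ a, r a a) (hs : ∀ a b, r a b → r b a) (htr : ∀ a b c, r a b → r b c → r a c)
    (t : ι → ℝ) (ht : ∀ a ∈ A, ∀ b ∈ A, r a b → t a = t b)
    (hev : ∀ a ∈ A, Even (A.filter (r a)).card)
    (hnc : ∀ a ∈ A, ∀ b ∈ A, ∀ c ∈ A, ∀ d ∈ A, a < b → b < c → c < d → r a c → r b d → r a b) :
    alt A t = 0 := by
  induction A using Finset.strongInduction with
  | H A ih =>
    rcases A.eq_empty_or_nonempty with rfl | hne
    · simp [alt]
    obtain ⟨a, ha, b, hb, hab, hrab, hcons⟩ := alt_pair A r hr hs htr hev hnc hne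
    set A' := (A.erase a).erase b with hA'
    have hmem : ∀ x, x ∈ A' ↔ x ≠ b ∧ x ≠ a ∧ x ∈ A := fun x => by
      rw [hA', Finset.mem_erase, Finset.mem_erase]
    have haA : a ∉ A' := fun h => ((hmem a).1 h).2.1 rfl
    have hbA : b ∉ A' := fun h => ((hmem b).1 h).1 rfl
    have hsub : ∀ x ∈ A', x ∈ A := fun x hx => ((hmem x).1 hx).2.2
    have he : A = insert a (insert b A') := by
      rw [hA', Finset.insert_erase (Finset.mem_erase.2 ⟨hab.ne', hb⟩), Finset.insert_erase ha]
    have hout : ∀ x ∈ A', x < a ∨ b < x := by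
      intro x hx
      obtain ⟨h1, h2, h3⟩ := (hmem x).1 hx
      rcases lt_or_gt_of_ne h2 with h | h
      · exact Or.inl h
      · rcases lt_or_gt_of_ne h1 with h' | h'
        · exact absurd ⟨h, h'⟩ (hcons x h3)
        · exact Or.inr h'
    have h0 : alt A' t = 0 := by
      refine ih A' ⟨hsub, fun h => haA (h ha)⟩ (fun x hx y hy => ht x (hsub x hx) y (hsub y hy))
        (fun x hx => ?_) (fun x hx y hy z hz w hw =>
          hnc x (hsub x hx) y (hsub y hy) z (hsub z hz) w (hsub w hw))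
      have h1 := hev x (hsub x hx)
      rw [he, Finset.filter_insert, Finset.filter_insert] at h1
      by_cases h2 : r x a
      · have hb' : b ∉ A'.filter (r x) := fun h => hbA (Finset.mem_filter.1 h).1
        have ha' : a ∉ insert b (A'.filter (r x)) := by
          rw [Finset.mem_insert]
          rintro (h | h)
          · exact hab.ne h
          · exact haA (Finset.mem_filter.1 h).1
        rw [if_pos h2, if_pos (htr _ _ _ h2 hrab), Finset.card_insert_of_notMem ha',
          Finset.card_insert_of_notMem hb', Nat.even_add_one, Nat.even_add_one, not_not] at h1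
        exact h1
      · rw [if_neg h2, if_neg fun h => h2 (htr _ _ _ h (hs _ _ hrab))] at h1
        exact h1
    rw [he, alt_remove haA hbA hab hout t (ht a ha b hb hrab), h0]

theorem alt_conn_mem {G : Set E} {O : Set V} {x y : V} (h : Conn G O x y) (hx : x ∈ O) :
    y ∈ O := by
  induction h with
  | refl => exact hx
  | tail _ h2 _ => exact h2.2.1

theorem alt_conn_symm {G : Set E} {O : Set V} {x y : V} (h : Conn G O x y) : Conn G O y x := by
  induction h with
  | refl => exact Relation.ReflTransGen.refl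
  | tail _ h2 ih =>
    obtain ⟨h3, h4, e, he, h5⟩ := h2
    exact Relation.ReflTransGen.head ⟨h4, h3, e, he, h5.symm⟩ ih

theorem alt_conn_self {G : Set E} {O : Set V} {x y : V} (h : Conn G O x y) :
    Conn G {z | Conn G O x z} x y := by
  induction h with
  | refl => exact Relation.ReflTransGen.refl
  | tail h1 h2 ih => exact ih.tail ⟨h1, h1.tail h2, h2.2.2⟩

theorem alt_core (N : ℕ) (τ : S) (A : Finset (Fin (8 * N))) (G : Set E) (B : V → Prop)
    (hB : ∀ i : Fin (8 * N), B (bv N i))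
    (hnc : ∀ a b c d : ℕ, a < b → b < c → c < d → d < 8 * N → ∀ O O' : Set V, Disjoint O O' →
      (∀ x ∈ O, B x) → (∀ x ∈ O', B x) → bv N b ∈ O' → Conn G O (bv N a) (bv N c) →
      Conn G O' (bv N b) (bv N d) → False)
    [DecidableRel fun a b : Fin (8 * N) =>
      Conn G {x | B x ∧ τ x = τ (bv N a)} (bv N a) (bv N b)]
    (hev : ∀ a ∈ A, Even (A.filter fun b : Fin (8 * N) =>
      Conn G {x | B x ∧ τ x = τ (bv N a)} (bv N a) (bv N b)).card) :
    alt A (fun i => sp (τ (bv N i))) = 0 := by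
  have hsg : ∀ (a : Fin (8 * N)) (y : V), Conn G {x | B x ∧ τ x = τ (bv N a)} (bv N a) y →
      B y ∧ τ y = τ (bv N a) := fun a y h => alt_conn_mem h ⟨hB a, rfl⟩
  refine alt_zero A (fun a b : Fin (8 * N) =>
    Conn G {x | B x ∧ τ x = τ (bv N a)} (bv N a) (bv N b)) (fun a => Relation.ReflTransGen.refl)
    (fun a b h => ?_) (fun a b c h h' => ?_) _ (fun a _ b _ h => ?_) hev
    (fun a _ b _ c _ d _ hab hbc hcd hac hbd => ?_)
  · rw [(hsg a _ h).2]
    exact alt_conn_symm h
  · rw [(hsg a _ h).2] at h'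
    exact Relation.ReflTransGen.trans h h'
  · rw [(hsg a _ h).2]
  · by_contra hcon
    refine hnc a b c d hab hbc hcd d.2 {z | Conn G {x | B x ∧ τ x = τ (bv N a)} (bv N a) z}
      {z | Conn G {x | B x ∧ τ x = τ (bv N b)} (bv N b) z} ?_ (fun x hx => (hsg a x hx).1)
      (fun x hx => (hsg b x hx).1) Relation.ReflTransGen.refl (alt_conn_self hac)
      (alt_conn_self hbd)
    rw [Set.disjoint_left]
    intro y h1 h2
    have h3 : τ (bv N b) = τ (bv N a) := (hsg b y h2).2.symm.trans (hsg a y h1).2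
    have h4 : Conn G {x | B x ∧ τ x = τ (bv N b)} (bv N b) y := h2
    rw [h3] at h4
    exact hcon (Relation.ReflTransGen.trans h1 (alt_conn_symm h4))

theorem alt_even (N : ℕ) (τ : S) (A : Finset (Fin (8 * N))) (G G' : Set E) (B : V → Prop)
    (hG : ∀ e ∈ G', e ∈ G ∧ B e.1 ∧ B (tip e))
    (hno : ∀ U : Finset V, Closed G' τ U →
      Even (A.image (fun i : Fin (8 * N) => bv N i) ∩ U).card)
    (s : ℤˣ) (T : Finset V) (hT : ∀ x ∈ T, B x ∧ τ x = s)
    (hfin : ∀ x ∈ T, {y | Conn G {x | B x ∧ τ x = s} x y}.Finite) (p : Fin (8 * N) → Prop)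
    [DecidablePred p]
    (hp : ∀ b ∈ A, p b ↔ ∃ x ∈ T, Conn G {x | B x ∧ τ x = s} x (bv N b)) :
    Even (A.filter p).card := by
  have hF : (⋃ x ∈ (T : Set V), {y | Conn G {x | B x ∧ τ x = s} x y}).Finite :=
    T.finite_toSet.biUnion hfin
  have hm : ∀ y, y ∈ hF.toFinset ↔ ∃ x ∈ T, Conn G {x | B x ∧ τ x = s} x y := fun y => by
    simp
  have hs : ∀ y ∈ hF.toFinset, B y ∧ τ y = s := fun y hy => by
    obtain ⟨x, hx, h⟩ := (hm y).1 hy
    exact alt_conn_mem h (hT x hx)
  have hstep : ∀ e ∈ G', ∀ x y, Ends e x y → x ∈ hF.toFinset → y ∉ hF.toFinset → B y →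
      τ y = -τ x := by
    intro e he x y hxy hx hy hBy
    have h1 := hs x hx
    obtain ⟨z, hz, h⟩ := (hm x).1 hx
    by_contra hcon
    have h2 : τ y = τ x := by
      by_contra h3
      exact hcon (Int.units_ne_iff_eq_neg.1 h3)
    exact hy ((hm y).2 ⟨z, hz, h.tail ⟨h1, ⟨hBy, h2.trans h1.2⟩, e, (hG e he).1, hxy⟩⟩)
  have hcl : Closed G' τ hF.toFinset := by
    intro e he he'
    rw [mem_cob] at he
    by_cases h1 : e.1 ∈ hF.toFinset
    · have h2 : tip e ∉ hF.toFinset := fun h => he ⟨fun _ => h, fun _ => h1⟩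
      rw [bond, hstep e he' _ _ (Or.inl ⟨rfl, rfl⟩) h1 h2 (hG e he').2.2, sp_neg, mul_neg,
        sp_mul_self]
    · have h2 : tip e ∈ hF.toFinset := by
        by_contra h
        exact he ⟨fun h' => absurd h' h1, fun h' => absurd h' h⟩
      rw [bond, hstep e he' _ _ (Or.inr ⟨rfl, rfl⟩) h2 h1 (hG e he').2.1, sp_neg, neg_mul,
        sp_mul_self]
  have h := hno _ hcl
  have e : A.image (fun i : Fin (8 * N) => bv N i) ∩ hF.toFinset =
      (A.filter p).image (fun i : Fin (8 * N) => bv N i) := by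
    ext y
    rw [Finset.mem_inter, hm, Finset.mem_image, Finset.mem_image]
    constructor
    · rintro ⟨⟨b, hb, rfl⟩, h2⟩
      exact ⟨b, Finset.mem_filter.2 ⟨hb, (hp b hb).2 h2⟩, rfl⟩
    · rintro ⟨b, hb, rfl⟩
      rw [Finset.mem_filter] at hb
      exact ⟨⟨b, hb.1, rfl⟩, (hp b hb.1).1 hb.2⟩
  rwa [e, Finset.card_image_of_injective _ fun a b hab => Fin.ext (bv_inj a.2 b.2 hab)] at h

theorem alt_sign_even {m : ℕ} (A : Finset (Fin m)) (η : Fin m → ℤˣ) (hA : Even A.card)
    (h1 : ch A η = 1) (s : ℤˣ) : Even (A.filter fun i => η i = s).card := by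
  have hsp : ∀ i, sp (η i) = if η i = 1 then 1 else -1 := fun i => by
    rcases Int.units_eq_one_or (η i) with h | h <;> simp [h, sp]
  have h2 : Even (A.filter fun i => ¬ η i = 1).card := by
    simp only [ch, hsp] at h1
    rw [Finset.prod_ite, Finset.prod_const_one, one_mul, Finset.prod_const] at h1
    exact (neg_one_pow_eq_one_iff_even (by norm_num)).1 h1
  have h3 := Finset.card_filter_add_card_filter_not (s := A) (fun i => η i = 1)
  rcases Int.units_eq_one_or s with rfl | rfl
  · rw [← h3, Nat.even_add] at hA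
    exact hA.2 h2
  · have : (A.filter fun i => η i = -1) = A.filter fun i => ¬ η i = 1 :=
      Finset.filter_congr fun i _ => Int.units_ne_iff_eq_neg.symm
    rwa [this]

theorem alt_out (N : ℕ) (τ : S) (hU : UniqAll τ) (A : Finset (Fin (8 * N))) (hA : Even A.card)
    (h1 : ch A (fun i => τ (bv N i)) = 1)
    (hno : ∀ U : Finset V, Closed (touch (box N) : Set E)ᶜ τ U →
      Even (A.image (fun i : Fin (8 * N) => bv N i) ∩ U).card) :
    alt A (fun i => sp (τ (bv N i))) = 0 := by
  classical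
  have hB : ∀ i : Fin (8 * N), bv N i ∉ box N := fun i => bv_not_mem i.2
  have hG : ∀ e ∈ (touch (box N) : Set E)ᶜ, e ∈ (Set.univ : Set E) ∧ e.1 ∉ box N ∧
      tip e ∉ box N := by
    intro e he
    have h : ¬ (e.1 ∈ box N ∨ tip e ∈ box N) := fun h => he (Finset.mem_coe.2 (mem_touch.2 h))
    exact ⟨trivial, fun h' => h (Or.inl h'), fun h' => h (Or.inr h')⟩
  refine alt_core N τ A Set.univ (fun x => x ∉ box N) hB
    (fun a b c d hab hbc hcd hd O O' hO k1 k2 hb hac hbd =>
      nc_out hab hbc hcd hd hO k1 k2 hb hac hbd) fun a ha => ?_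
  set s := τ (bv N a) with hs
  by_cases hfin : {y | Conn Set.univ {x | x ∉ box N ∧ τ x = s} (bv N a) y}.Finite
  · refine alt_even N τ A Set.univ _ (fun x => x ∉ box N) hG hno s {bv N a} ?_ ?_ _ ?_
    · intro x hx
      rw [Finset.mem_singleton.1 hx]
      exact ⟨hB a, rfl⟩
    · intro x hx
      rw [Finset.mem_singleton.1 hx]
      exact hfin
    · intro b _
      simp
  · set q : Fin (8 * N) → Prop := fun b => τ (bv N b) = s ∧
      {y | Conn Set.univ {x | x ∉ box N ∧ τ x = s} (bv N b) y}.Finite with hq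
    have hfe : Even (A.filter q).card := by
      refine alt_even N τ A Set.univ _ (fun x => x ∉ box N) hG hno s
        ((A.filter q).image fun i : Fin (8 * N) => bv N i) ?_ ?_ _ ?_
      · intro x hx
        obtain ⟨b, hb, rfl⟩ := Finset.mem_image.1 hx
        exact ⟨hB b, (Finset.mem_filter.1 hb).2.1⟩
      · intro x hx
        obtain ⟨b, hb, rfl⟩ := Finset.mem_image.1 hx
        exact (Finset.mem_filter.1 hb).2.2
      · intro b hb
        constructor
        · intro h
          exact ⟨_, Finset.mem_image_of_mem _ (Finset.mem_filter.2 ⟨hb, h⟩),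
            Relation.ReflTransGen.refl⟩
        · rintro ⟨x, hx, h⟩
          obtain ⟨c, hc, rfl⟩ := Finset.mem_image.1 hx
          have hc' := (Finset.mem_filter.1 hc).2
          exact ⟨(alt_conn_mem h ⟨hB c, hc'.1⟩).2,
            hc'.2.subset fun y hy => Relation.ReflTransGen.trans h hy⟩
    have hall := alt_sign_even A (fun i => τ (bv N i)) hA h1 s
    have hsplit : (A.filter fun i : Fin (8 * N) => τ (bv N i) = s) =
        (A.filter fun b : Fin (8 * N) =>
          Conn Set.univ {x | x ∉ box N ∧ τ x = s} (bv N a) (bv N b)) ∪ A.filter q := by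
      rw [← Finset.filter_or]
      refine Finset.filter_congr fun b _ => ⟨fun h => ?_, ?_⟩
      · by_cases hb : {y | Conn Set.univ {x | x ∉ box N ∧ τ x = s} (bv N b) y}.Finite
        · exact Or.inr ⟨h, hb⟩
        · exact Or.inl (hU (box N) s _ _ ⟨⟨hB a, rfl⟩, hfin⟩ ⟨⟨hB b, h⟩, hb⟩)
      · rintro (h | h)
        · exact (alt_conn_mem h ⟨hB a, rfl⟩).2
        · exact h.1
    have hdis : Disjoint (A.filter fun b : Fin (8 * N) =>
        Conn Set.univ {x | x ∉ box N ∧ τ x = s} (bv N a) (bv N b)) (A.filter q) := by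
      rw [Finset.disjoint_filter]
      intro b _ h h'
      exact hfin (h'.2.subset fun y hy => Relation.ReflTransGen.trans (alt_conn_symm h) hy)
    rw [hsplit, Finset.card_union_of_disjoint hdis, Nat.even_add] at hall
    exact hall.2 hfe

theorem alt_in (N : ℕ) (τ : S) (A : Finset (Fin (8 * N)))
    (hno : ∀ U : Finset V, Closed (touch (box N) : Set E) τ U →
      Even (A.image (fun i : Fin (8 * N) => bv N i) ∩ U).card) :
    alt A (fun i => sp (τ (bv N i))) = 0 := by
  classical
  refine alt_core N τ A (touch (box N) : Set E) (fun _ => True) (fun _ => trivial)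
    (fun a b c d hab hbc hcd hd O O' hO _ _ hb hac hbd =>
      nc_in hab hbc hcd hd hO hb hac hbd) fun a ha => ?_
  refine alt_even N τ A (touch (box N) : Set E) _ (fun _ => True)
    (fun e he => ⟨he, trivial, trivial⟩) hno (τ (bv N a)) {bv N a} ?_ ?_ _ ?_
  · intro x hx
    rw [Finset.mem_singleton.1 hx]
    exact ⟨trivial, rfl⟩
  · intro x _
    refine (insert x ((touch (box N)).image Prod.fst ∪ (touch (box N)).image tip)).finite_toSet.subset
      fun y hy => ?_
    rw [Finset.mem_coe, Finset.mem_insert, Finset.mem_union]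
    rcases Relation.ReflTransGen.cases_tail hy with h | ⟨z, -, -, -, e, he, h | h⟩
    · exact Or.inl h
    · exact Or.inr (Or.inr (Finset.mem_image.2 ⟨e, he, h.2⟩))
    · exact Or.inr (Or.inl (Finset.mem_image.2 ⟨e, he, h.1⟩))
  · intro b _
    simp

end Pool.Agent.MP_c70b3b_mp

end

section

open MeasureTheory ProbabilityTheory Filter Topology
open scoped symmDiff ENNReal

namespace Pool.Agent.MP_c70b3b_mp

def wd {M ι : Type} [AddCommGroup M] [Module ℝ M] (γ : ι → M →ₗ[ℝ] M) (l : List ι) (Z : M) : M :=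
  l.foldr (fun a v => γ a v) Z

theorem cliffAbs_low {M ι : Type} [AddCommGroup M] [Module ℝ M] (γ : ι → M →ₗ[ℝ] M)
    (T : M →ₗ[ℝ] M) (s : ι → ℝ) (Z : M) (h0 : T Z = 0)
    (h1 : ∀ b v, T (γ b v) = s b • v - γ b (T v)) (l : List ι) :
    ∀ φ : M →ₗ[ℝ] ℝ, (∀ l' : List ι, l'.length + 1 = l.length → φ (wd γ l' Z) = 0) →
      φ (T (wd γ l Z)) = 0 := by
  induction l with
  | nil =>
    intro φ _
    have e : wd γ [] Z = Z := rfl
    rw [e, h0, map_zero]
  | cons b l ih =>
    intro φ hφ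
    have e : wd γ (b :: l) Z = γ b (wd γ l Z) := rfl
    have h2 := ih (φ ∘ₗ γ b) fun l' hl' => hφ (b :: l') (by simp only [List.length_cons]; omega)
    rw [LinearMap.comp_apply] at h2
    rw [e, h1, map_sub, map_smul, hφ l rfl, h2]
    simp

theorem cliff_abs {M ι : Type} [AddCommGroup M] [Module ℝ M] [Fintype ι] [DecidableEq ι]
    (γ : ι → M →ₗ[ℝ] M) (ε : ι → ℝ) (hε : ∀ a, ε a * ε a = 1)
    (hγ : ∀ a b v, γ a (γ b v) + γ b (γ a v) = (if a = b then 2 * ε a else 0) • v)
    (N D : M →ₗ[ℝ] ℝ) (Z : M) (hN : N Z ≠ 0) (hD : D Z = 0) (hD2 : ∀ a b, D (γ a (γ b Z)) = 0)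
    (hZ : ∀ φ : M →ₗ[ℝ] ℝ, ∑ a, (ε a * φ (γ a Z)) • γ a Z = 0)
    (hQ : ∀ l : List ι, Odd l.length → ∀ b, ∑ a, ε a * (N (γ a (wd γ l Z)) * D (γ a (γ b Z)) +
      D (γ a (wd γ l Z)) * N (γ a (γ b Z))) = 0)
    (l : List ι) (hl : Even l.length) : D (wd γ l Z) = 0 := by
  have key : ∀ (n : ι → ℝ) (b : ι) (v : M),
      ∑ a, (ε a * n a) • (γ a (γ b v) + γ b (γ a v)) = (2 * n b) • v := by
    intro n b v
    rw [Finset.sum_eq_single b]
    · rw [hγ, if_pos rfl, smul_smul]
      congr 1
      linear_combination 2 * n b * hε b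
    · intro a _ hab
      rw [hγ, if_neg hab, zero_smul, smul_zero]
    · simp
  obtain ⟨n, hn⟩ := hl
  induction n generalizing l with
  | zero =>
    obtain rfl : l = [] := List.length_eq_zero_iff.1 hn
    exact hD
  | succ n ih =>
    obtain _ | ⟨c, l⟩ := l
    · exact hD
    have hl : l.length = n + n + 1 := by
      simp only [List.length_cons] at hn
      omega
    obtain ⟨T, hT⟩ : ∃ T : M →ₗ[ℝ] M, ∀ v, T v = ∑ a, (ε a * N (γ c (γ a Z))) • γ a v :=
      ⟨∑ a, (ε a * N (γ c (γ a Z))) • γ a, fun v => by simp [LinearMap.sum_apply]⟩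
    have h0 : T Z = 0 := by
      rw [hT]
      exact hZ (N ∘ₗ γ c)
    have h1 : ∀ b v, T (γ b v) = (2 * N (γ c (γ b Z))) • v - γ b (T v) := by
      intro b v
      rw [← key (fun a => N (γ c (γ a Z))) b v, hT, hT, map_sum, ← Finset.sum_sub_distrib]
      refine Finset.sum_congr rfl fun a _ => ?_
      rw [map_smul, smul_add, add_sub_cancel_right]
    have h2 := cliffAbs_low γ T _ Z h0 h1 l D fun l' hl' => ih l' (by omega)
    have h3 := hQ l ⟨n, by omega⟩ c
    simp only [hD2, mul_zero, zero_add] at h3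
    rw [hT, map_sum] at h2
    have h4 : ∑ a, ε a * (D (γ a (wd γ l Z)) * N (γ a (γ c Z) + γ c (γ a Z))) = 0 := by
      rw [← add_zero (0 : ℝ)]
      nth_rewrite 1 [← h3]
      rw [← h2, ← Finset.sum_add_distrib]
      refine Finset.sum_congr rfl fun a _ => ?_
      rw [map_add, map_smul, smul_eq_mul]
      ring
    rw [Finset.sum_eq_single c] at h4
    · rw [hγ, if_pos rfl, map_smul, smul_eq_mul] at h4
      have h5 : D (γ c (wd γ l Z)) * N Z = 0 := by
        linear_combination (1 / 2) * h4 - D (γ c (wd γ l Z)) * N Z * hε c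
      exact (mul_eq_zero.1 h5).resolve_right hN
    · intro a _ hac
      rw [hγ, if_neg hac, zero_smul, map_zero, mul_zero, mul_zero]
    · simp

end Pool.Agent.MP_c70b3b_mp

end

section

open MeasureTheory ProbabilityTheory Filter Topology
open scoped symmDiff ENNReal

namespace Pool.Agent.MP_c70b3b_mp

section cliffAux

variable {m : ℕ}

/-- The flipped set of a Clifford generator. -/
def cliffS (a : Fin m × Bool) : Finset (Fin m) := if a.2 then Finset.Iic a.1 else Finset.Iio a.1

/-- The square of a Clifford generator. -/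
def cliffE (a : Fin m × Bool) : ℝ := if a.2 then -1 else 1

/-- The sign of a flip. -/
def cliffSg (I : Finset (Fin m)) (i : Fin m) : ℝ := if i ∈ I then -1 else 1

/-- Clifford generators acting on functions of the boundary spins. -/
def cliffG (a : Fin m × Bool) : ((Fin m → ℤˣ) → ℝ) →ₗ[ℝ] ((Fin m → ℤˣ) → ℝ) where
  toFun f := fun η => sp (η a.1) * f (fl (cliffS a) η)
  map_add' f g := by funext η; simp [mul_add]
  map_smul' c f := by funext η; simp only [Pi.smul_apply, smul_eq_mul, RingHom.id_apply]; ring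

/-- Pairing with a weight. -/
def cliffN (n : (Fin m → ℤˣ) → ℝ) : ((Fin m → ℤˣ) → ℝ) →ₗ[ℝ] ℝ where
  toFun f := ∑ η, n η * f η
  map_add' f g := by simp [mul_add, Finset.sum_add_distrib]
  map_smul' c f := by
    simp only [Pi.smul_apply, smul_eq_mul, RingHom.id_apply, Finset.mul_sum]
    exact Finset.sum_congr rfl fun η _ => by ring

lemma cliffG_apply (a : Fin m × Bool) (f : (Fin m → ℤˣ) → ℝ) (η : Fin m → ℤˣ) :
    cliffG a f η = sp (η a.1) * f (fl (cliffS a) η) := rfl

lemma cliffN_apply (n f : (Fin m → ℤˣ) → ℝ) : cliffN n f = ∑ η, n η * f η := rfl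

lemma cliff_sp_fl (I : Finset (Fin m)) (η : Fin m → ℤˣ) (i : Fin m) :
    sp (fl I η i) = cliffSg I i * sp (η i) := by
  unfold fl cliffSg; split_ifs <;> simp [sp_neg]

lemma cliff_fl_fl (I J : Finset (Fin m)) (η : Fin m → ℤˣ) : fl I (fl J η) = fl (I ∆ J) η := by
  funext x; unfold fl
  by_cases h : x ∈ I <;> by_cases h' : x ∈ J <;> simp [h, h', Finset.mem_symmDiff]

lemma cliff_fl_empty (η : Fin m → ℤˣ) : fl ∅ η = η := by
  funext x; simp [fl]

lemma cliff_fl_self (I : Finset (Fin m)) (η : Fin m → ℤˣ) : fl I (fl I η) = η := by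
  rw [cliff_fl_fl, symmDiff_self, Finset.bot_eq_empty, cliff_fl_empty]

lemma cliff_fl_neg (I : Finset (Fin m)) (η : Fin m → ℤˣ) : fl I (-η) = -fl I η := by
  funext x; unfold fl
  by_cases h : x ∈ I <;> simp [h]

lemma cliff_sg_self (a : Fin m × Bool) : cliffSg (cliffS a) a.1 = cliffE a := by
  rcases a with ⟨i, _ | _⟩ <;> simp [cliffSg, cliffS, cliffE]

lemma cliffE_sq (a : Fin m × Bool) : cliffE a * cliffE a = 1 := by
  rcases a with ⟨i, _ | _⟩ <;> simp [cliffE]

lemma cliffG_G (a b : Fin m × Bool) (f : (Fin m → ℤˣ) → ℝ) (η : Fin m → ℤˣ) :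
    cliffG a (cliffG b f) η = cliffSg (cliffS a) b.1 *
      (sp (η a.1) * sp (η b.1) * f (fl (cliffS a ∆ cliffS b) η)) := by
  rw [cliffG_apply, cliffG_apply, cliff_sp_fl, cliff_fl_fl, symmDiff_comm]; ring

lemma cliff_sg_add {a b : Fin m × Bool} (h : a ≠ b) :
    cliffSg (cliffS a) b.1 + cliffSg (cliffS b) a.1 = 0 := by
  rcases a with ⟨i, c⟩
  rcases b with ⟨j, d⟩
  rcases lt_trichotomy i j with hij | rfl | hij
  · have h1 : j ∉ cliffS (i, c) := by cases c <;> simp [cliffS, hij, hij.le]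
    have h2 : i ∈ cliffS (j, d) := by cases d <;> simp [cliffS, hij, hij.le]
    simp [cliffSg, h1, h2]
  · cases c <;> cases d <;> simp_all [cliffSg, cliffS]
  · have h1 : j ∈ cliffS (i, c) := by cases c <;> simp [cliffS, hij, hij.le]
    have h2 : i ∉ cliffS (j, d) := by cases d <;> simp [cliffS, hij, hij.le]
    simp [cliffSg, h1, h2]

lemma cliffG_anti (a b : Fin m × Bool) (v : (Fin m → ℤˣ) → ℝ) :
    cliffG a (cliffG b v) + cliffG b (cliffG a v) = (if a = b then 2 * cliffE a else 0) • v := by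
  funext η
  simp only [Pi.add_apply, Pi.smul_apply, smul_eq_mul, cliffG_G]
  split_ifs with h
  · subst h
    rw [symmDiff_self, Finset.bot_eq_empty, cliff_fl_empty, sp_mul_self, cliff_sg_self]; ring
  · rw [symmDiff_comm (cliffS b)]
    linear_combination (sp (η a.1) * sp (η b.1) * v (fl (cliffS a ∆ cliffS b) η)) * cliff_sg_add h

lemma cliff_ch_fl (I U : Finset (Fin m)) (η : Fin m → ℤˣ) :
    ch I (fl U η) = (∏ i ∈ I, cliffSg U i) * ch I η := by
  simp only [ch, cliff_sp_fl, Finset.prod_mul_distrib]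

lemma cliff_prod_mul (t : Fin m → ℝ) (ht : ∀ i, t i * t i = 1) (I J : Finset (Fin m)) :
    (∏ i ∈ I, t i) * ∏ i ∈ J, t i = ∏ i ∈ I ∆ J, t i := by
  have e : ∀ U : Finset (Fin m), ∏ i ∈ U, t i = ∏ i, if i ∈ U then t i else 1 := fun U => by
    rw [Finset.prod_ite_mem, Finset.univ_inter]
  rw [e I, e J, e (I ∆ J), ← Finset.prod_mul_distrib]
  refine Finset.prod_congr rfl fun i _ => ?_
  by_cases h : i ∈ I <;> by_cases h' : i ∈ J <;> simp [h, h', Finset.mem_symmDiff, ht]

lemma cliffSg_sq (U : Finset (Fin m)) (i : Fin m) : cliffSg U i * cliffSg U i = 1 := by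
  unfold cliffSg; split_ifs <;> simp

lemma cliffG_ch (a : Fin m × Bool) (I : Finset (Fin m)) :
    cliffG a (ch I) = (∏ i ∈ I, cliffSg (cliffS a) i) • ch (I ∆ {a.1}) := by
  funext η
  have e := cliff_prod_mul (fun i => sp (η i)) (fun i => sp_mul_self _) I {a.1}
  rw [Finset.prod_singleton] at e
  rw [cliffG_apply, cliff_ch_fl, Pi.smul_apply, smul_eq_mul, ch, ch, ← e]; ring

lemma cliff_prod_sg (U I : Finset (Fin m)) :
    ∏ i ∈ I, cliffSg U i = (-1) ^ (I.filter (· ∈ U)).card := by
  unfold cliffSg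
  rw [Finset.prod_ite, Finset.prod_const_one, mul_one, Finset.prod_const]

lemma cliff_sum_sg (A : Finset (Fin m)) (i : Fin m) :
    ∑ b : Bool, cliffE (i, b) * ∏ j ∈ A, cliffSg (cliffS (i, b)) j =
      if i ∈ A then 2 * (-1 : ℝ) ^ (A.filter (· < i)).card else 0 := by
  rw [Fintype.sum_bool, cliff_prod_sg, cliff_prod_sg]
  have e0 : A.filter (· ∈ cliffS (i, false)) = A.filter (· < i) := by
    ext j; simp [cliffS]
  rw [e0]
  split_ifs with h
  · have e1 : A.filter (· ∈ cliffS (i, true)) = insert i (A.filter (· < i)) := by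
      ext j
      simp only [cliffS, if_true, Finset.mem_filter, Finset.mem_Iic, Finset.mem_insert]
      constructor
      · rintro ⟨h1, h2⟩
        rcases h2.eq_or_lt with h3 | h3
        · exact Or.inl h3
        · exact Or.inr ⟨h1, h3⟩
      · rintro (rfl | ⟨h1, h2⟩)
        · exact ⟨h, le_rfl⟩
        · exact ⟨h1, h2.le⟩
    rw [e1, Finset.card_insert_of_notMem (by simp)]
    simp only [cliffE, if_true, Bool.false_eq_true, if_false]
    ring
  · have e1 : A.filter (· ∈ cliffS (i, true)) = A.filter (· < i) := by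
      ext j
      simp only [cliffS, if_true, Finset.mem_filter, Finset.mem_Iic]
      constructor
      · rintro ⟨h1, h2⟩
        exact ⟨h1, lt_of_le_of_ne h2 (by rintro rfl; exact h h1)⟩
      · rintro ⟨h1, h2⟩
        exact ⟨h1, h2.le⟩
    rw [e1]
    simp [cliffE]

/-- The basic bilinear form. -/
noncomputable def cliffQ (φ ψ : ((Fin m → ℤˣ) → ℝ) →ₗ[ℝ] ℝ) :
    ((Fin m → ℤˣ) → ℝ) →ₗ[ℝ] ((Fin m → ℤˣ) → ℝ) →ₗ[ℝ] ℝ :=
  ∑ a : Fin m × Bool, cliffE a • (LinearMap.mul ℝ ℝ).compl₁₂ (φ ∘ₗ cliffG a) (ψ ∘ₗ cliffG a)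

lemma cliffQ_apply (φ ψ : ((Fin m → ℤˣ) → ℝ) →ₗ[ℝ] ℝ) (u v : (Fin m → ℤˣ) → ℝ) :
    cliffQ φ ψ u v = ∑ a, cliffE a * (φ (cliffG a u) * ψ (cliffG a v)) := by
  simp [cliffQ, LinearMap.sum_apply]

lemma cliffQ_ch (φ ψ : ((Fin m → ℤˣ) → ℝ) →ₗ[ℝ] ℝ) (I J : Finset (Fin m)) :
    cliffQ φ ψ (ch I) (ch J) =
      2 * alt (I ∆ J) fun a => φ (ch (I ∆ {a})) * ψ (ch (J ∆ {a})) := by
  rw [cliffQ_apply, Fintype.sum_prod_type]
  have e : ∀ i : Fin m, ∑ b : Bool, cliffE (i, b) * (φ (cliffG (i, b) (ch I)) *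
      ψ (cliffG (i, b) (ch J))) = if i ∈ I ∆ J then
        2 * ((-1 : ℝ) ^ ((I ∆ J).filter (· < i)).card *
          (φ (ch (I ∆ {i})) * ψ (ch (J ∆ {i})))) else 0 := by
    intro i
    have e1 : ∀ b : Bool, cliffE (i, b) * (φ (cliffG (i, b) (ch I)) *
        ψ (cliffG (i, b) (ch J))) = (cliffE (i, b) * ∏ j ∈ I ∆ J, cliffSg (cliffS (i, b)) j) *
          (φ (ch (I ∆ {i})) * ψ (ch (J ∆ {i}))) := by
      intro b
      rw [cliffG_ch, cliffG_ch, map_smul, map_smul, smul_eq_mul, smul_eq_mul,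
        ← cliff_prod_mul _ (cliffSg_sq _)]
      ring
    simp only [e1]
    rw [← Finset.sum_mul, cliff_sum_sg]
    split_ifs <;> ring
  simp only [e]
  rw [Finset.sum_ite_mem, Finset.univ_inter, alt, Finset.mul_sum]

lemma cliff_plu {n n' : (Fin m → ℤˣ) → ℝ} (h : Plu n n') {I J : Finset (Fin m)}
    (hIJ : Even (I ∆ J).card) :
    cliffQ (cliffN n) (cliffN n') (ch I) (ch J) +
      cliffQ (cliffN n') (cliffN n) (ch I) (ch J) = 0 := by
  have e := h I J hIJ
  rw [cliffQ_ch, cliffQ_ch, ← mul_add]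
  simp only [alt, mul_add, Finset.sum_add_distrib] at e ⊢
  simp only [cliffN_apply]
  simp only [hat] at e
  linear_combination 2 * e

lemma cliff_ch_neg (I : Finset (Fin m)) (η : Fin m → ℤˣ) :
    ch I (-η) = (-1) ^ I.card * ch I η := by
  simp only [ch, Pi.neg_apply, sp_neg]
  rw [Finset.prod_neg]

lemma cliff_fourier (g : (Fin m → ℤˣ) → ℝ) :
    g = ∑ I : Finset (Fin m), ((2 ^ m : ℝ)⁻¹ * hat g I) • ch I := by
  funext η
  simp only [Finset.sum_apply, Pi.smul_apply, smul_eq_mul, hat, Finset.mul_sum, Finset.sum_mul]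
  rw [Finset.sum_comm]
  have e : ∀ η' : Fin m → ℤˣ, ∑ I : Finset (Fin m), (2 ^ m : ℝ)⁻¹ * (g η' * ch I η') * ch I η =
      if η' = η then g η else 0 := by
    intro η'
    have e1 : ∑ I : Finset (Fin m), ch I η' * ch I η = ∏ i, (1 + sp (η' i) * sp (η i)) := by
      rw [Finset.prod_one_add, Finset.powerset_univ]
      exact Finset.sum_congr rfl fun I _ => by rw [ch, ch, Finset.prod_mul_distrib]
    have e2 : ∑ I : Finset (Fin m), (2 ^ m : ℝ)⁻¹ * (g η' * ch I η') * ch I η =
        (2 ^ m : ℝ)⁻¹ * g η' * ∑ I : Finset (Fin m), ch I η' * ch I η := by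
      rw [Finset.mul_sum]; exact Finset.sum_congr rfl fun I _ => by ring
    rw [e2, e1]
    split_ifs with h
    · subst h
      simp only [sp_mul_self, Finset.prod_const, Finset.card_univ, Fintype.card_fin]
      norm_num
      field_simp
    · obtain ⟨i, hi⟩ := Function.ne_iff.1 h
      rw [Finset.prod_eq_zero (Finset.mem_univ i), mul_zero]
      rcases Int.units_eq_one_or (η' i) with h1 | h1 <;>
        rcases Int.units_eq_one_or (η i) with h2 | h2 <;> simp_all [sp]
  simp only [e]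
  simp

lemma cliff_lin (L : ((Fin m → ℤˣ) → ℝ) →ₗ[ℝ] ℝ) (s : ℝ) (g : (Fin m → ℤˣ) → ℝ)
    (hg : ∀ η, g (-η) = s * g η) (hL : ∀ I : Finset (Fin m), (-1) ^ I.card = s → L (ch I) = 0) :
    L g = 0 := by
  rw [cliff_fourier g, map_sum]
  refine Finset.sum_eq_zero fun I _ => ?_
  rw [map_smul, smul_eq_mul]
  by_cases h : (-1 : ℝ) ^ I.card = s
  · rw [hL I h, mul_zero]
  · have e1 : hat g I = s * (-1) ^ I.card * hat g I := by
      conv_lhs => rw [hat, ← Equiv.sum_comp (Equiv.neg _)]
      simp only [Equiv.neg_apply, hg, cliff_ch_neg, hat, Finset.mul_sum]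
      exact Finset.sum_congr rfl fun η _ => by ring
    have e2 : ((-1 : ℝ) ^ I.card) * (-1) ^ I.card = 1 := by
      rw [← mul_pow]; simp
    have e3 : ((-1 : ℝ) ^ I.card - s) * hat g I = 0 := by
      linear_combination (-1 : ℝ) ^ I.card * e1 + s * hat g I * e2
    rw [(mul_eq_zero.1 e3).resolve_left (sub_ne_zero.2 h)]; simp

lemma cliff_lin0 (L : ((Fin m → ℤˣ) → ℝ) →ₗ[ℝ] ℝ) (g : (Fin m → ℤˣ) → ℝ)
    (hL : ∀ I : Finset (Fin m), L (ch I) = 0) : L g = 0 := by
  rw [cliff_fourier g, map_sum]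
  exact Finset.sum_eq_zero fun I _ => by rw [map_smul, hL, smul_zero]

lemma cliff_even_iff (I J : Finset (Fin m)) :
    (-1 : ℝ) ^ I.card * (-1) ^ J.card = (-1) ^ (I ∆ J).card := by
  simpa using cliff_prod_mul (fun _ => (-1 : ℝ)) (fun _ => by simp) I J

lemma cliffG_par (a : Fin m × Bool) {s : ℝ} {g : (Fin m → ℤˣ) → ℝ}
    (hg : ∀ η, g (-η) = s * g η) (η : Fin m → ℤˣ) : cliffG a g (-η) = -s * cliffG a g η := by
  rw [cliffG_apply, cliffG_apply, cliff_fl_neg, hg, Pi.neg_apply, sp_neg]; ring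

lemma cliff_wd_par {z : (Fin m → ℤˣ) → ℝ} (hz : ∀ η, z (-η) = z η) (l : List (Fin m × Bool))
    (η : Fin m → ℤˣ) : wd cliffG l z (-η) = (-1) ^ l.length * wd cliffG l z η := by
  induction l generalizing η with
  | nil => simp [wd, hz]
  | cons a l ih =>
    have e := cliffG_par a ih η
    simp only [wd, List.foldr_cons, List.length_cons] at e ⊢
    rw [e]; ring

lemma cliff_plu_odd {n n' : (Fin m → ℤˣ) → ℝ} (h : Plu n n') {u v : (Fin m → ℤˣ) → ℝ}
    (hu : ∀ η, u (-η) = -1 * u η) (hv : ∀ η, v (-η) = -1 * v η) :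
    cliffQ (cliffN n) (cliffN n') u v + cliffQ (cliffN n') (cliffN n) u v = 0 := by
  refine cliff_lin ((cliffQ (cliffN n) (cliffN n') + cliffQ (cliffN n') (cliffN n)).flip v)
    (-1) u hu fun I hI => ?_
  refine cliff_lin ((cliffQ (cliffN n) (cliffN n') + cliffQ (cliffN n') (cliffN n)) (ch I))
    (-1) v hv fun J hJ => ?_
  refine cliff_plu h ?_
  have e := cliff_even_iff I J
  rw [hI, hJ] at e
  exact (neg_one_pow_eq_one_iff_even (R := ℝ) (by norm_num)).1 (by linarith)

lemma cliffN_odd {z g : (Fin m → ℤˣ) → ℝ} (hz : ∀ η, z (-η) = z η)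
    (hg : ∀ η, g (-η) = -1 * g η) : cliffN z g = 0 := by
  have e : cliffN z g = -cliffN z g := by
    conv_lhs => rw [cliffN_apply, ← Equiv.sum_comp (Equiv.neg _)]
    simp only [Equiv.neg_apply, hz, hg, cliffN_apply, ← Finset.sum_neg_distrib]
    exact Finset.sum_congr rfl fun η _ => by ring
  linarith

lemma cliffQ_self {z : (Fin m → ℤˣ) → ℝ} (h3 : Plu z z) (hz : ∀ η, z (-η) = z η)
    (u v : (Fin m → ℤˣ) → ℝ) : cliffQ (cliffN z) (cliffN z) u v = 0 := by
  refine cliff_lin0 ((cliffQ (cliffN z) (cliffN z)).flip v) u fun I => ?_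
  refine cliff_lin0 (cliffQ (cliffN z) (cliffN z) (ch I)) v fun J => ?_
  have hev : ∀ U : Finset (Fin m), Even U.card → ∀ a, cliffN z (cliffG a (ch U)) = 0 :=
    fun U hU a => cliffN_odd hz fun η => by
      have e := cliffG_par a (cliff_ch_neg U) η
      rwa [hU.neg_one_pow] at e
  rcases Nat.even_or_odd I.card with hI | hI
  · rw [cliffQ_apply]; simp [hev I hI]
  rcases Nat.even_or_odd J.card with hJ | hJ
  · rw [cliffQ_apply]; simp [hev J hJ]
  have e := cliff_even_iff I J
  rw [hI.neg_one_pow, hJ.neg_one_pow] at e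
  have := cliff_plu h3 ((neg_one_pow_eq_one_iff_even (R := ℝ) (by norm_num)).1
    (show (-1 : ℝ) ^ (I ∆ J).card = 1 by linarith))
  linarith

lemma cliffN_G (u z : (Fin m → ℤˣ) → ℝ) (a : Fin m × Bool) :
    cliffN u (cliffG a z) = cliffE a * cliffN z (cliffG a u) := by
  rw [cliffN_apply, cliffN_apply, Finset.mul_sum,
    ← Equiv.sum_comp (Function.Involutive.toPerm _ (cliff_fl_self (cliffS a)))]
  refine Finset.sum_congr rfl fun η _ => ?_
  simp only [Function.Involutive.coe_toPerm, cliffG_apply, cliff_fl_self, cliff_sp_fl,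
    cliff_sg_self]
  ring

lemma cliff_hZ {z : (Fin m → ℤˣ) → ℝ} (h3 : Plu z z) (hz : ∀ η, z (-η) = z η)
    (φ : ((Fin m → ℤˣ) → ℝ) →ₗ[ℝ] ℝ) :
    ∑ a, (cliffE a * φ (cliffG a z)) • cliffG a z = 0 := by
  funext η
  have e1 : ∀ f, φ f = cliffN (fun η' => φ fun j => if η' = j then 1 else 0) f := fun f => by
    rw [LinearMap.pi_apply_eq_sum_univ φ f, cliffN_apply]
    exact Finset.sum_congr rfl fun η' _ => by rw [smul_eq_mul, mul_comm]
  have e2 : ∀ f : (Fin m → ℤˣ) → ℝ, f η = cliffN (fun η' => if η' = η then 1 else 0) f :=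
    fun f => by simp [cliffN_apply]
  have e3 := cliffQ_self h3 hz (fun η' => φ fun j => if η' = j then 1 else 0)
    (fun η' => if η' = η then 1 else 0)
  rw [cliffQ_apply] at e3
  rw [Finset.sum_apply, Pi.zero_apply, ← e3]
  refine Finset.sum_congr rfl fun a _ => ?_
  rw [Pi.smul_apply, smul_eq_mul, e1 (cliffG a z), e2 (cliffG a z), cliffN_G, cliffN_G _ z a]
  linear_combination (cliffE a * cliffN z (cliffG a fun η' => φ fun j => if η' = j then 1 else 0) *
    cliffN z (cliffG a fun η' => if η' = η then 1 else 0)) * cliffE_sq a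

/-- All words of the parity of `p` applied to `f` are killed by `D`. -/
def cliffK (D : ((Fin m → ℤˣ) → ℝ) →ₗ[ℝ] ℝ) (p : ℕ) (f : (Fin m → ℤˣ) → ℝ) : Prop :=
  ∀ l : List (Fin m × Bool), Even (l.length + p) → D (wd cliffG l f) = 0

lemma cliffK_G {D : ((Fin m → ℤˣ) → ℝ) →ₗ[ℝ] ℝ} {p : ℕ} {f : (Fin m → ℤˣ) → ℝ}
    (h : cliffK D p f) (a : Fin m × Bool) : cliffK D (p + 1) (cliffG a f) := by
  intro l hl
  have e := h (l ++ [a]) (by
    rw [List.length_append, List.length_singleton, add_assoc, add_comm 1]; exact hl)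
  simpa [wd] using e

lemma cliffK_fl {D : ((Fin m → ℤˣ) → ℝ) →ₗ[ℝ] ℝ} {p : ℕ} (U : Finset (Fin m)) :
    ∀ {f : (Fin m → ℤˣ) → ℝ}, cliffK D p f → cliffK D p fun η => f (fl U η) := by
  induction U using Finset.induction_on with
  | empty => intro f h; simpa only [cliff_fl_empty] using h
  | insert i U hi ih =>
    intro f h
    have e1 := cliffK_G (cliffK_G (ih h) (i, true)) (i, false)
    have e2 : cliffG (i, false) (cliffG (i, true) fun η => f (fl U η)) =
        fun η => f (fl (insert i U) η) := by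
      funext η
      rw [cliffG_G, sp_mul_self, cliff_fl_fl]
      have e3 : U ∆ (cliffS (i, false) ∆ cliffS (i, true)) = insert i U := by
        ext j
        rcases lt_trichotomy j i with hj | rfl | hj
        · simp [cliffS, Finset.mem_symmDiff, hj, hj.le, hj.ne]
        · simp [cliffS, Finset.mem_symmDiff, hi]
        · simp [cliffS, Finset.mem_symmDiff, hj.ne', not_lt.2 hj.le, not_le.2 hj]
      rw [e3]
      simp [cliffSg, cliffS]
    rw [e2] at e1
    intro l hl
    exact e1 l (by rw [← add_assoc, ← add_assoc, add_assoc _ 1 1]; exact hl.add (by decide))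

lemma cliffK_ch {D : ((Fin m → ℤˣ) → ℝ) →ₗ[ℝ] ℝ} {f : (Fin m → ℤˣ) → ℝ} (h : cliffK D 0 f)
    (I : Finset (Fin m)) : cliffK D I.card fun η => ch I η * f η := by
  induction I using Finset.induction_on with
  | empty => simpa [ch] using h
  | insert i I hi ih =>
    have e1 := cliffK_G (cliffK_fl (Finset.Iio i) ih) (i, false)
    have e2 : (cliffG (i, false) fun η => ch I (fl (Finset.Iio i) η) * f (fl (Finset.Iio i) η)) =
        fun η => ch (insert i I) η * f η := by
      funext η
      rw [cliffG_apply]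
      simp only [cliffS, Bool.false_eq_true, if_false, cliff_fl_self, ch, Finset.prod_insert hi]
      ring
    rw [e2] at e1
    rwa [Finset.card_insert_of_notMem hi]

end cliffAux

theorem cliff_fin {m : ℕ} (n n' z : (Fin m → ℤˣ) → ℝ) (h1 : Plu n n) (h2 : Plu n n')
    (h3 : Plu z z) (hz : ∀ η, z (-η) = z η) (hpos : ∀ η, 0 < z η) (hn : ∑ η, n η * z η ≠ 0)
    (h0 : ∑ η, (n η - n' η) * z η = 0)
    (hb : ∀ (i j : Fin m) (I J : Finset (Fin m)), (I = Finset.Iio i ∨ I = Finset.Iic i) →
      (J = Finset.Iio j ∨ J = Finset.Iic j) →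
      ∑ η, (n η - n' η) * (sp (η i) * sp (η j) * z (fl (I ∆ J) η)) = 0)
    (f : (Fin m → ℤˣ) → ℝ) (hf : ∀ η, f (-η) = f η) : ∑ η, (n η - n' η) * f η = 0 := by
  have hS : ∀ a : Fin m × Bool, cliffS a = Finset.Iio a.1 ∨ cliffS a = Finset.Iic a.1 := by
    rintro ⟨i, _ | _⟩ <;> simp [cliffS]
  have hD : ∀ g, cliffN (fun η => n η - n' η) g = cliffN n g - cliffN n' g := fun g => by
    simp only [cliffN_apply, sub_mul, Finset.sum_sub_distrib]
  have hK : cliffK (cliffN fun η => n η - n' η) 0 z := by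
    intro l hl
    refine cliff_abs cliffG cliffE cliffE_sq cliffG_anti (cliffN n) _ z hn h0 (fun a b => ?_)
      (cliff_hZ h3 hz) (fun l hl b => ?_) l hl
    · have e := hb a.1 b.1 _ _ (hS a) (hS b)
      simp only [cliffN_apply, cliffG_G]
      rw [← mul_zero (cliffSg (cliffS a) b.1), ← e, Finset.mul_sum]
      exact Finset.sum_congr rfl fun η _ => by ring
    · have hu : ∀ η, wd cliffG l z (-η) = -1 * wd cliffG l z η := fun η => by
        rw [cliff_wd_par hz, hl.neg_one_pow]
      have hv : ∀ η, cliffG b z (-η) = -1 * cliffG b z η :=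
        cliffG_par b (s := 1) fun η => by rw [hz, one_mul]
      have e1 := cliff_plu_odd h1 hu hv
      have e2 := cliff_plu_odd h2 hu hv
      simp only [cliffQ_apply, ← Finset.sum_add_distrib] at e1 e2
      have e3 := congrArg₂ (· - ·) e1 e2
      simp only [← Finset.sum_sub_distrib, sub_self] at e3
      rw [← e3]
      exact Finset.sum_congr rfl fun a _ => by simp only [hD]; ring
  have e := cliff_lin (cliffN fun η => (n η - n' η) * z η) 1 (fun η => f η / z η)
    (fun η => by rw [hf, hz, one_mul]) fun I hI => by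
      have e1 := cliffK_ch hK I [] (by
        simpa using (neg_one_pow_eq_one_iff_even (R := ℝ) (by norm_num)).1 hI)
      rw [← e1]
      exact Finset.sum_congr rfl fun η _ => by simp only [wd, List.foldr_nil]; ring
  rw [← e]
  exact Finset.sum_congr rfl fun η _ => by
    have := (hpos η).ne'
    field_simp

end Pool.Agent.MP_c70b3b_mp

end

section

open MeasureTheory ProbabilityTheory Filter Topology
open scoped symmDiff ENNReal

namespace Pool.Agent.MP_c70b3b_mp

lemma glue_ends {N : ℕ} {e : E} (he : e ∈ touch (box N)) :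
    e.1 ∈ {x | x ∈ box N ∨ ∃ k < 8 * N, x = bv N k} ∧
      tip e ∈ {x | x ∈ box N ∨ ∃ k < 8 * N, x = bv N k} := by
  by_cases hc : e ∈ cob (box N)
  · obtain ⟨k, hk, rfl⟩ := exists_port hc
    obtain ⟨u, hu, h | h⟩ := port_ends hk
    · exact ⟨Or.inr ⟨k, hk, h.1⟩, Or.inl (h.2 ▸ hu)⟩
    · exact ⟨Or.inl (h.1 ▸ hu), Or.inr ⟨k, hk, h.2⟩⟩
  · rw [mem_cob, not_not] at hc
    rw [mem_touch] at he
    exact ⟨Or.inl (by tauto), Or.inl (by tauto)⟩

lemma glue_en_dep {N : ℕ} (K : W) {G : Finset E} (hG : G ⊆ touch (box N)) {σ τ : S}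
    (h : ∀ x ∈ {x | x ∈ box N ∨ ∃ k < 8 * N, x = bv N k}, σ x = τ x) :
    en K G σ = en K G τ := by
  refine Finset.sum_congr rfl fun e he => ?_
  obtain ⟨h1, h2⟩ := glue_ends (hG he)
  simp only [bond, h _ h1, h _ h2]

lemma glue_zero (K : W) (F : Finset E) {e : E} (he : e ∈ F) : (K + cut F (-K)) e = 0 := by
  simp [cut, he]

lemma glue_en_neg (K : W) (F : Finset E) (σ : S) : en (-K) F σ = -en K F σ := by
  simp [en]

lemma glue_main (N : ℕ) {K : W} {ρ : Measure S} (h : Gibbs K ρ) {g : S → ℝ}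
    (hg : Measurable g) (hd : DependsOn g {x | x ∈ box N ∨ ∃ k < 8 * N, x = bv N k}) :
    ∫ σ, g σ ∂ρ = 2 ^ (8 * N) * ∑ η, ring N (tilt (-K) (touch (box N)) ρ) η *
      ∫ σ in {σ : S | ∀ i : Fin (8 * N), σ (bv N i) = η i},
        g σ * Real.exp (en K (touch (box N)) σ) ∂unif := by
  rw [← glue_formula N (fun e he => glue_zero K _ he) (h.tilt (-K) _)
    (g := fun σ => g σ * Real.exp (en K (touch (box N)) σ)) (hg.mul (measurable_en K _).exp) fun σ τ hst => by
      simp only [hd hst, glue_en_dep K subset_rfl hst], integral_tilt]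
  refine integral_congr_ae (Eventually.of_forall fun σ => ?_)
  simp only [glue_en_neg, mul_assoc, ← Real.exp_add, add_neg_cancel, Real.exp_zero, mul_one]

lemma glue_z (N : ℕ) (K : W) (η : Fin (8 * N) → ℤˣ) :
    ring N (tilt K (touch (box N)) unif) η =
      ∫ σ in {σ : S | ∀ i : Fin (8 * N), σ (bv N i) = η i},
        1 * Real.exp (en K (touch (box N)) σ) ∂unif := by
  have h := ring_flip N K ∅ η
  have e : fl ∅ η = η := by funext i; simp [fl]
  rw [e] at h
  simpa [en] using h

lemma glue_meas (N : ℕ) (η : Fin (8 * N) → ℤˣ) :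
    MeasurableSet {σ : S | ∀ i : Fin (8 * N), σ (bv N i) = η i} := by
  rw [Set.ofPred_forall]
  refine MeasurableSet.iInter fun i => ?_
  have hm : Measurable fun σ : S => σ (bv N i) := measurable_pi_apply _
  exact hm (measurableSet_singleton (η i))

lemma glue_port_inj (N : ℕ) : Function.Injective fun i : Fin (8 * N) => port N i :=
  fun i j h => Fin.ext (port_inj i.2 j.2 h)

lemma glue_tel (a : ℕ → ZMod 2) (n : ℕ) :
    ∑ k ∈ Finset.range n, (a k + a (k + 1)) = a 0 + a n := by
  have h2 : ∀ a : ZMod 2, a + a = 0 := by decide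
  induction n with
  | zero => simp [h2]
  | succ n ih => rw [Finset.sum_range_succ, ih]; linear_combination h2 (a n)

lemma glue_fbd (N : ℕ) (I : Finset (Fin (8 * N))) (r : V) :
    fbd (I.image fun i : Fin (8 * N) => port N i) r =
      ∑ k ∈ I.map Fin.valEmbedding, (dl (rf N k) r + dl (rf N (k + 1)) r) := by
  rw [fbd, Finset.sum_image fun i _ j _ h => glue_port_inj N h, Finset.sum_map]
  refine Finset.sum_congr rfl fun i _ => ?_
  rw [← fbd_singleton, fbd_port i.2]; rfl

lemma glue_face (N : ℕ) (i : Fin (8 * N)) {I : Finset (Fin (8 * N))}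
    (hI : I = Finset.Iio i ∨ I = Finset.Iic i) : ∃ p, Corner (bv N i) p ∧
      ∀ r, fbd (I.image fun i : Fin (8 * N) => port N i) r = dl (rf N 0) r + dl p r := by
  rcases hI with rfl | rfl
  · refine ⟨_, (corner_rf i.2).1, fun r => ?_⟩
    rw [glue_fbd, Fin.map_valEmbedding_Iio, Nat.Iio_eq_range]
    exact glue_tel (fun k => dl (rf N k) r) _
  · refine ⟨_, (corner_rf i.2).2, fun r => ?_⟩
    rw [glue_fbd, Fin.map_valEmbedding_Iic, ← Nat.range_succ_eq_Iic]
    exact glue_tel (fun k => dl (rf N k) r) _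

lemma glue_kc (N : ℕ) {K : W} {ρ : Measure S} (h : Gibbs K ρ) (i j : Fin (8 * N))
    (I : Finset (Fin (8 * N))) :
    kc K ρ (bv N i) (bv N j) (I.image fun i : Fin (8 * N) => port N i) =
      2 ^ (8 * N) * ∑ η, ring N (tilt (-K) (touch (box N)) ρ) η *
        (sp (η i) * sp (η j) * ring N (tilt K (touch (box N)) unif) (fl I η)) := by
  have hG : (I.image fun i : Fin (8 * N) => port N i) ⊆ touch (box N) := fun e he => by
    obtain ⟨k, -, rfl⟩ := Finset.mem_image.1 he
    exact (Finset.mem_filter.1 (port_mem_cob k.2)).1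
  rw [kc, glue_main N h (g := fun σ => sp (σ (bv N i)) * sp (σ (bv N j)) *
      Real.exp (-2 * en K (I.image fun i : Fin (8 * N) => port N i) σ)) (((measurable_sp _).mul (measurable_sp _)).mul
    ((measurable_en K _).const_mul _).exp) fun σ τ hst => by
      simp only [hst _ (Or.inr ⟨_, i.2, rfl⟩), hst _ (Or.inr ⟨_, j.2, rfl⟩),
        glue_en_dep K hG hst]]
  congr 1
  refine Finset.sum_congr rfl fun η _ => ?_
  congr 1
  rw [ring_flip, ← integral_const_mul]
  refine setIntegral_congr_fun (glue_meas N η) fun σ hσ => ?_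
  simp only [hσ i, hσ j, mul_assoc]

lemma glue_even (N : ℕ) (K : W) {A : Finset V} (hA : Even A.card) (η : Fin (8 * N) → ℤˣ) :
    ∫ σ in {σ : S | ∀ i : Fin (8 * N), σ (bv N i) = (-η) i},
        chr A σ * Real.exp (en K (touch (box N)) σ) ∂unif =
      ∫ σ in {σ : S | ∀ i : Fin (8 * N), σ (bv N i) = η i},
        chr A σ * Real.exp (en K (touch (box N)) σ) ∂unif := by
  have hm : Measurable fun σ : S => -σ := measurable_pi_lambda _ fun x =>
    (Measurable.of_discrete (f := fun u : ℤˣ => -u)).comp (measurable_pi_apply x)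
  conv_lhs => rw [← unif_neg]
  rw [setIntegral_map (f := fun σ => chr A σ * Real.exp (en K (touch (box N)) σ)) (glue_meas N _)
    ((measurable_chr A).mul (measurable_en K _).exp).aestronglyMeasurable hm.aemeasurable]
  have e1 : (fun σ : S => -σ) ⁻¹' {σ : S | ∀ i : Fin (8 * N), σ (bv N i) = (-η) i} =
      {σ : S | ∀ i : Fin (8 * N), σ (bv N i) = η i} := by
    ext σ; simp
  rw [e1]
  refine integral_congr_ae (Eventually.of_forall fun σ => ?_)
  have e2 : chr A (-σ) = chr A σ := by
    simp only [chr, Pi.neg_apply, sp_neg]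
    rw [Finset.prod_neg, hA.neg_one_pow, one_mul]
  have e3 : en K (touch (box N)) (-σ) = en K (touch (box N)) σ := by
    simp [en, bond, sp_neg]
  simp only [e2, e3]

theorem even_eq {K : W} {ρ ρ' : Measure S} [IsProbabilityMeasure ρ] [IsProbabilityMeasure ρ']
    (h : Gibbs K ρ) (h' : Gibbs K ρ') (hkc : KCeq K ρ ρ')
    (u1 : ∀ᵐ p ∂ρ.prod ρ, UniqAll (p.1 * p.2)) (u2 : ∀ᵐ p ∂ρ.prod ρ', UniqAll (p.1 * p.2))
    (A : Finset V) (hA : Even A.card) : ∫ σ, chr A σ ∂ρ = ∫ σ, chr A σ ∂ρ' := by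
  obtain ⟨N, -, hN⟩ := exists_box A
  have plu : ∀ {μ : Measure S} [IsProbabilityMeasure μ], Gibbs K μ →
      (∀ᵐ p ∂ρ.prod μ, UniqAll (p.1 * p.2)) →
      Plu (ring N (tilt (-K) (touch (box N)) ρ)) (ring N (tilt (-K) (touch (box N)) μ)) := by
    intro μ _ hμ u
    have := (hμ.tilt (-K) (touch (box N))).1
    refine plu_of_alt N (touch (box N) : Set E)ᶜ
      (fun e he => glue_zero K _ (by simpa using he)) (h.tilt (-K) _) (hμ.tilt (-K) _) ?_
    filter_upwards [((tilt_ac (-K) _ ρ).prod (tilt_ac (-K) _ μ)).ae_le u] with p hp B hB h1 hno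
    exact alt_out N _ hp B hB h1 hno
  have pz : Plu (ring N (tilt K (touch (box N)) unif)) (ring N (tilt K (touch (box N)) unif)) :=
    plu_of_alt N (touch (box N) : Set E) (K := 0 + cut (touch (box N)) K)
      (fun e he => by
        have : e ∉ touch (box N) := he
        simp [cut, this])
      (gibbs_unif.tilt K _) (gibbs_unif.tilt K _)
      (Eventually.of_forall fun p B _ _ hno => alt_in N _ B hno)
  have one : ∀ {μ : Measure S} [IsProbabilityMeasure μ], Gibbs K μ →
      (2 : ℝ) ^ (8 * N) * ∑ η, ring N (tilt (-K) (touch (box N)) μ) η *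
        ring N (tilt K (touch (box N)) unif) η = 1 := by
    intro μ _ hμ
    have := glue_main N hμ (g := fun _ => 1) measurable_const fun _ _ _ => rfl
    simp only [← glue_z] at this
    rw [← this]; simp
  have h2 : (2 : ℝ) ^ (8 * N) ≠ 0 := by positivity
  have hd : DependsOn (chr A) {x | x ∈ box N ∨ ∃ k < 8 * N, x = bv N k} := fun σ τ hst =>
    Finset.prod_congr rfl fun x hx => by rw [hst x (Or.inl (hN hx))]
  have key := cliff_fin _ _ _ (plu h u1) (plu h' u2) pz (ring_neg N K) (ring_pos N K)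
    (fun h0 => by simpa [h0] using one h)
    (by
      simp only [sub_mul, Finset.sum_sub_distrib]
      exact sub_eq_zero.2 (mul_left_cancel₀ h2 ((one h).trans (one h').symm)))
    (fun i j I J hI hJ => by
      obtain ⟨p, hp, fp⟩ := glue_face N i hI
      obtain ⟨q, hq, fq⟩ := glue_face N j hJ
      have e := hkc _ p _ q ((I ∆ J).image fun i : Fin (8 * N) => port N i) hp hq fun r => by
        have h3 : ∀ a : ZMod 2, a + a = 0 := by decide
        rw [Finset.image_symmDiff _ _ (glue_port_inj N), fbd_symmDiff, fp, fq]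
        linear_combination h3 (dl (rf N 0) r)
      rw [glue_kc N h, glue_kc N h'] at e
      simp only [sub_mul, Finset.sum_sub_distrib]
      exact sub_eq_zero.2 (mul_left_cancel₀ h2 e))
    (fun η => ∫ σ in {σ : S | ∀ i : Fin (8 * N), σ (bv N i) = η i},
      chr A σ * Real.exp (en K (touch (box N)) σ) ∂unif) (glue_even N K hA)
  rw [glue_main N h (measurable_chr A) hd, glue_main N h' (measurable_chr A) hd]
  simp only [sub_mul, Finset.sum_sub_distrib] at key
  rw [sub_eq_zero.1 key]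

end Pool.Agent.MP_c70b3b_mp

end

section

open MeasureTheory ProbabilityTheory Filter Topology
open scoped symmDiff ENNReal

namespace Pool.Agent.MP_c70b3b_mp

theorem cov_unique {β : ℝ} (hβ : 0 ≤ β) {k : ℤ} (hk : 0 < k) {κ κ' : Kernel W S}
    (h : CovGibbs β k κ) (h' : CovGibbs β k κ') : ∀ᵐ w ∂P, κ w = κ' w := by
  have := h.markov; have := h'.markov
  rcases hβ.eq_or_lt with rfl | hβ
  · filter_upwards [h.gibbs, h'.gibbs] with w hw hw'
    have key : ∀ ρ : Measure S, Gibbs ((0 : ℝ) • w) ρ → ∀ A : Finset V, A.Nonempty →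
        ∫ σ, chr A σ ∂ρ = 0 := by
      rintro ρ hρ A ⟨x, hx⟩
      have h1 := hρ.integral_flp {x} (measurable_chr A)
      simp only [chr_flp, Finset.inter_singleton_of_mem hx, Finset.card_singleton, pow_one, en,
        zero_smul, Pi.zero_apply, zero_mul, Finset.sum_const_zero, mul_zero, Real.exp_zero,
        mul_one, neg_mul, one_mul, integral_neg] at h1
      linarith
    refine ext_chr fun A => ?_
    rcases A.eq_empty_or_nonempty with rfl | hA
    · simp [chr]
    · rw [key _ hw A hA, key _ hw' A hA]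
  · filter_upwards [h.gibbs, h'.gibbs, kc_eq hβ hk h h', pair_uniq hk h h, pair_uniq hk h h',
      ae_all_iff.2 fun A : {A : Finset V // Odd A.card} => odd_zero hk h A.1 A.2,
      ae_all_iff.2 fun A : {A : Finset V // Odd A.card} => odd_zero hk h' A.1 A.2]
      with w hw hw' hkc u1 u2 o1 o2
    refine ext_chr fun A => ?_
    rcases Nat.even_or_odd A.card with hA | hA
    · exact even_eq hw hw' hkc u1 u2 A hA
    · rw [o1 ⟨A, hA⟩, o2 ⟨A, hA⟩]

theorem periodic_unique {β : ℝ} (hβ : 0 ≤ β) {ν ν' : Measure (W × S)} (h : IsEA β ν)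
    (h' : IsEA β ν') (p : IsPeriodic ν) (p' : IsPeriodic ν') : ν = ν' := by
  obtain ⟨k, hk, p⟩ := p
  obtain ⟨k', hk', p'⟩ := p'
  obtain ⟨κ, hκ, rfl⟩ := exists_kernel (k := k * k') h fun z => by rw [mul_smul]; exact p _
  obtain ⟨κ', hκ', rfl⟩ := exists_kernel (k := k * k') h' fun z => by
    rw [mul_comm, mul_smul]; exact p' _
  have := hκ.markov; have := hκ'.markov
  exact Measure.compProd_congr (cov_unique hβ (mul_pos hk hk') hκ hκ')

end Pool.Agent.MP_c70b3b_mp

end

section

open MeasureTheory ProbabilityTheory Filter Topology BoundedContinuousFunction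
open scoped symmDiff ENNReal

namespace Pool.Agent.MP_c70b3b_mp

instance : DiscreteTopology ℤˣ := inferInstance
instance : BorelSpace ℤˣ := inferInstance
instance : BorelSpace (W × S) := inferInstance
instance : PolishSpace (W × S) := {}

/-- Bounded continuous weight making the flip at `x` measure preserving. -/
noncomputable def uu (β : ℝ) (x : V) (p : W × S) : ℝ :=
  Real.exp (-en (β • p.1) (cob {x}) p.2) /
    (Real.exp (en (β • p.1) (cob {x}) p.2) + Real.exp (-en (β • p.1) (cob {x}) p.2))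

/-- The flip identity at `x`, tested on bounded continuous functions. -/
def FlipInv (β : ℝ) (x : V) (ν : Measure (W × S)) : Prop :=
  ∀ g : W × S →ᵇ ℝ, ∫ p, g (p.1, flp {x} p.2) * uu β x p ∂ν = ∫ p, g p * uu β x p ∂ν

lemma continuous_sp (x : V) : Continuous fun σ : S => sp (σ x) :=
  (continuous_of_discreteTopology (f := sp)).comp (continuous_apply x)

lemma continuous_en2 (β : ℝ) (F : Finset E) : Continuous fun p : W × S => en (β • p.1) F p.2 :=
  continuous_finsetSum _ fun e _ =>
    (((continuous_apply e).comp continuous_fst).const_smul β).mul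
      (((continuous_sp _).mul (continuous_sp _)).comp continuous_snd)

lemma continuous_flp (U : Finset V) : Continuous (flp U) := by
  refine continuous_pi fun x => ?_
  unfold flp; split_ifs
  · exact (continuous_of_discreteTopology (f := fun u : ℤˣ => -u)).comp (continuous_apply x)
  · exact continuous_apply x

lemma continuous_uu (β : ℝ) (x : V) : Continuous (uu β x) :=
  (continuous_en2 β _).neg.rexp.div
    ((continuous_en2 β _).rexp.add (continuous_en2 β _).neg.rexp) fun _ => by positivity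

lemma uu_pos (β : ℝ) (x : V) (p : W × S) : 0 < uu β x p := by unfold uu; positivity

lemma uu_le (β : ℝ) (x : V) (p : W × S) : uu β x p ≤ 1 := by
  unfold uu
  rw [div_le_one (by positivity)]
  exact le_add_of_nonneg_left (Real.exp_pos _).le

lemma continuous_shift (z : V) : Continuous (shift z) :=
  (continuous_pi fun _ => (continuous_apply _).comp continuous_fst).prodMk
    (continuous_pi fun _ => (continuous_apply _).comp continuous_snd)

lemma measurable_shift (z : V) : Measurable (shift z) := (continuous_shift z).measurable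

/-- Spatial average of the translates over the box `[-(n+1), n+1)²`. -/
noncomputable def avg (n : ℕ) (ν : Measure (W × S)) : Measure (W × S) :=
  ((box (n + 1)).card : ℝ≥0∞)⁻¹ • ∑ z ∈ box (n + 1), ν.map (shift z)

end Pool.Agent.MP_c70b3b_mp

end

section

open MeasureTheory ProbabilityTheory Filter Topology BoundedContinuousFunction
open scoped symmDiff ENNReal

namespace Pool.Agent.MP_c70b3b_mp

lemma flipa_cont (x : V) : Continuous (Prod.map id (flp {x}) : W × S → W × S) :=
  continuous_id.prodMap (continuous_flp _)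

lemma flipa_meas (x : V) : Measurable (Prod.map id (flp {x}) : W × S → W × S) :=
  measurable_id.prodMap (measurable_flp _)

lemma flipa_inv (x : V) (p : W × S) :
    Prod.map id (flp {x}) (Prod.map id (flp {x}) p) = p :=
  Prod.ext rfl (flp_flp _ _)

lemma flipa_uu (β : ℝ) (x : V) (p : W × S) :
    uu β x (Prod.map id (flp {x}) p) * Real.exp (-2 * en (β • p.1) (cob {x}) p.2) = uu β x p := by
  have h : en (β • p.1) (cob {x}) (flp {x} p.2) = -en (β • p.1) (cob {x}) p.2 := by
    rw [en_flp _ subset_rfl]; ring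
  simp only [uu, Prod.map_fst, Prod.map_snd, id, h, neg_neg]
  rw [div_mul_eq_mul_div, ← Real.exp_add, add_comm (Real.exp _) (Real.exp _)]
  congr 2; ring

lemma flipa_of_map {β : ℝ} {x : V} {ν : Measure (W × S)}
    (h : ν.map (Prod.map id (flp {x})) = ν.withDensity (setupD β x)) : FlipInv β x ν := by
  intro g
  have hG : Measurable fun q : W × S => g q * uu β x (Prod.map id (flp {x}) q) :=
    (g.continuous.mul ((continuous_uu β x).comp (flipa_cont x))).measurable
  have h1 := integral_map (μ := ν) (flipa_meas x).aemeasurable hG.aestronglyMeasurable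
  simp only [flipa_inv] at h1
  refine h1.symm.trans ?_
  rw [h, integral_withDensity_eq_integral_toReal_smul (setup_mD β x)
    (Eventually.of_forall fun _ => ENNReal.ofReal_lt_top)]
  congr 1; funext p
  rw [setupD, ENNReal.toReal_ofReal (Real.exp_pos _).le, smul_eq_mul, mul_comm, mul_assoc, flipa_uu]

lemma flipa_map_of {β : ℝ} {x : V} {ν : Measure (W × S)} [IsFiniteMeasure ν]
    (h : FlipInv β x ν) : ν.map (Prod.map id (flp {x})) = ν.withDensity (setupD β x) := by
  have hu : Measurable fun p => ENNReal.ofReal (uu β x p) :=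
    (continuous_uu β x).measurable.ennreal_ofReal
  have h0 : ∀ p, ENNReal.ofReal (uu β x p) ≠ 0 := fun p =>
    (ENNReal.ofReal_pos.2 (uu_pos β x p)).ne'
  have : IsFiniteMeasure (ν.withDensity fun p => ENNReal.ofReal (uu β x p)) := by
    refine isFiniteMeasure_withDensity_ofReal (Integrable.hasFiniteIntegral ?_)
    refine integrable_of_bdd (continuous_uu β x).measurable 1 fun p => ?_
    rw [abs_of_pos (uu_pos β x p)]
    exact uu_le β x p
  have hI : ∀ g : W × S → ℝ, ∫ p, g p ∂(ν.withDensity fun p => ENNReal.ofReal (uu β x p)) =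
      ∫ p, g p * uu β x p ∂ν := fun g => by
    rw [integral_withDensity_eq_integral_toReal_smul hu
      (Eventually.of_forall fun _ => ENNReal.ofReal_lt_top)]
    congr 1; funext p
    rw [ENNReal.toReal_ofReal (uu_pos β x p).le, smul_eq_mul, mul_comm]
  have h1 : (ν.withDensity fun p => ENNReal.ofReal (uu β x p)).map (Prod.map id (flp {x})) =
      ν.withDensity fun p => ENNReal.ofReal (uu β x p) := by
    refine ext_of_forall_integral_eq_of_IsFiniteMeasure fun g => ?_
    rw [integral_map (flipa_meas x).aemeasurable g.continuous.measurable.aestronglyMeasurable,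
      hI, hI]
    exact h g
  refine Measure.ext_of_lintegral _ fun f hf => ?_
  have hF : Measurable fun q => f q * (ENNReal.ofReal (uu β x (Prod.map id (flp {x}) q)))⁻¹ :=
    hf.mul (hu.comp (flipa_meas x)).inv
  have h2 := congrArg (fun μ => ∫⁻ q, f q *
    (ENNReal.ofReal (uu β x (Prod.map id (flp {x}) q)))⁻¹ ∂μ) h1
  have hF' : Measurable fun q => f (Prod.map id (flp {x}) q) * (ENNReal.ofReal (uu β x q))⁻¹ :=
    (hf.comp (flipa_meas x)).mul hu.inv
  simp only [lintegral_map hF (flipa_meas x), flipa_inv] at h2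
  rw [lintegral_withDensity_eq_lintegral_mul _ hu hF,
    lintegral_withDensity_eq_lintegral_mul _ hu hF'] at h2
  rw [lintegral_map hf (flipa_meas x), lintegral_withDensity_eq_lintegral_mul _ (setup_mD β x) hf]
  convert h2 using 3 with p p
  · rw [Pi.mul_apply, mul_left_comm, ENNReal.mul_inv_cancel (h0 _) ENNReal.ofReal_ne_top, mul_one]
  · rw [Pi.mul_apply, Pi.mul_apply, ← flipa_uu β x p, ENNReal.ofReal_mul (uu_pos _ _ _).le,
      mul_assoc, mul_comm (ENNReal.ofReal (uu _ _ _)), mul_assoc, mul_assoc,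
      ENNReal.inv_mul_cancel (h0 _) ENNReal.ofReal_ne_top, mul_one]
    rfl

lemma flipa_gibbs {β : ℝ} {κ : Kernel W S} [IsMarkovKernel κ] {x : V}
    (h : (P ⊗ₘ κ).map (Prod.map id (flp {x})) = (P ⊗ₘ κ).withDensity (setupD β x)) :
    ∀ᵐ w ∂P, (κ w).map (flp {x}) =
      (κ w).withDensity fun σ => ENNReal.ofReal (Real.exp (-2 * en (β • w) (cob {x}) σ)) := by
  have hD := setup_mD β x
  have hg : Measurable fun p => (1 + setupD β x p)⁻¹ := (hD.const_add 1).inv
  have h0 : ∀ p, 1 + setupD β x p ≠ 0 := fun p => by simp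
  have ht : ∀ p, 1 + setupD β x p ≠ ∞ := fun p => by simp [setupD]
  have := Kernel.IsMarkovKernel.map κ (measurable_flp {x})
  have : IsFiniteKernel ((κ.map (flp {x})).withDensity fun w σ => (1 + setupD β x (w, σ))⁻¹) :=
    Kernel.isFiniteKernel_withDensity_of_bounded _ ENNReal.one_ne_top fun w σ =>
      ENNReal.inv_le_one.2 le_self_add
  have : IsFiniteKernel (κ.withDensity fun w σ =>
      setupD β x (w, σ) * (1 + setupD β x (w, σ))⁻¹) :=
    Kernel.isFiniteKernel_withDensity_of_bounded _ ENNReal.one_ne_top fun w σ =>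
      (mul_le_mul_left le_add_self _).trans_eq (ENNReal.mul_inv_cancel (h0 _) (ht _))
  have h1 : P ⊗ₘ ((κ.map (flp {x})).withDensity fun w σ => (1 + setupD β x (w, σ))⁻¹) =
      P ⊗ₘ (κ.withDensity fun w σ => setupD β x (w, σ) * (1 + setupD β x (w, σ))⁻¹) := by
    rw [Measure.compProd_withDensity hg, Measure.compProd_withDensity (hD.mul hg),
      Measure.compProd_map (measurable_flp _), h, ← withDensity_mul _ hD hg]
    rfl
  filter_upwards [Kernel.ae_eq_of_compProd_eq h1] with w hw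
  rw [Kernel.withDensity_apply _ hg, Kernel.withDensity_apply _ (hD.mul hg),
    Kernel.map_apply _ (measurable_flp _)] at hw
  have hD' : Measurable fun σ => setupD β x (w, σ) := hD.comp measurable_prodMk_left
  have h2 := congrArg (fun μ : Measure S => μ.withDensity fun σ => 1 + setupD β x (w, σ)) hw
  have hg' : Measurable fun σ => (1 + setupD β x (w, σ))⁻¹ := (hD'.const_add 1).inv
  have hp : Measurable fun σ => setupD β x (w, σ) * (1 + setupD β x (w, σ))⁻¹ := hD'.mul hg'
  rw [← withDensity_mul _ hg' (hD'.const_add 1), ← withDensity_mul _ hp (hD'.const_add 1)] at h2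
  have h3 : ((fun σ => (1 + setupD β x (w, σ))⁻¹) * fun σ => 1 + setupD β x (w, σ)) = 1 :=
    funext fun σ => ENNReal.inv_mul_cancel (h0 _) (ht _)
  rw [h3, withDensity_one] at h2
  refine h2.trans (congrArg _ (funext fun σ => ?_))
  rw [Pi.mul_apply, mul_assoc, ENNReal.inv_mul_cancel (h0 _) (ht _), mul_one]
  rfl

theorem flipInv_of_kernel {β : ℝ} {x : V} (κ : Kernel W S) [IsMarkovKernel κ]
    (h : ∀ᵐ w ∂P, (κ w).map (flp {x}) = (κ w).withDensity
      fun σ => ENNReal.ofReal (Real.exp (-2 * en (β • w) (cob {x}) σ))) :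
    FlipInv β x (P ⊗ₘ κ) := by
  refine flipa_of_map (Measure.ext_of_lintegral _ fun f hf => ?_)
  rw [lintegral_map hf (flipa_meas x), lintegral_withDensity_eq_lintegral_mul _ (setup_mD β x) hf,
    Measure.lintegral_compProd (f := fun p => f (Prod.map id (flp {x}) p))
      (hf.comp (flipa_meas x)), Measure.lintegral_compProd ((setup_mD β x).mul hf)]
  refine lintegral_congr_ae (h.mono fun w hw => ?_)
  exact (gib_lint (gib_meas _ _ _)).1 hw (fun σ => f (w, σ)) (hf.comp measurable_prodMk_left)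

theorem flipInv_of_isEA {β : ℝ} {ν : Measure (W × S)} (h : IsEA β ν) (x : V) :
    FlipInv β x ν :=
  flipa_of_map (setup_flip h x)

theorem gibbs_of_flipInv {β : ℝ} (κ : Kernel W S) [IsMarkovKernel κ]
    (h : ∀ x, FlipInv β x (P ⊗ₘ κ)) : ∀ᵐ w ∂P, Gibbs (β • w) (κ w) := by
  filter_upwards [ae_all_iff.2 fun x => flipa_gibbs (flipa_map_of (h x))] with w hw
  exact ⟨inferInstance, hw⟩

end Pool.Agent.MP_c70b3b_mp

end

section

open MeasureTheory ProbabilityTheory Filter Topology BoundedContinuousFunction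
open scoped symmDiff ENNReal

namespace Pool.Agent.MP_c70b3b_mp

lemma flipb_sum (C : Finset V) (σ : S) (F : S → ℝ) :
    ∑ U ∈ C.powerset, F (flp U σ) = ∑ ζ : C → ℤˣ, F (glue C ζ σ) := by
  have h1 : ∀ U ∈ C.powerset, glue C (fun x => flp U σ x) σ = flp U σ := fun U hU => by
    funext x
    simp only [glue]
    split_ifs with hx
    · rfl
    · rw [flp, if_neg fun h => hx (Finset.mem_powerset.1 hU h)]
  refine Finset.sum_bij' (fun U _ x => flp U σ x) (fun ζ _ => C.filter fun x => glue C ζ σ x ≠ σ x)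
    (fun _ _ => Finset.mem_univ _) (fun _ _ => Finset.mem_powerset.2 (Finset.filter_subset _ _))
    (fun U hU => ?_) (fun ζ _ => ?_) fun U hU => by rw [h1 U hU]
  · ext x
    rw [h1 U hU, Finset.mem_filter, flp]
    by_cases hx : x ∈ U
    · simp [hx, Finset.mem_powerset.1 hU hx]
    · simp [hx]
  · funext x
    simp only [flp, glue, Finset.mem_filter, x.2, true_and, dif_pos]
    split_ifs with hx
    · exact (Int.units_ne_iff_eq_neg.1 hx).symm
    · exact (not_not.1 hx).symm

lemma flipb_ham (β : ℝ) (C : Finset V) (w : W) (σ : S) : ∃ c : ℝ, ∀ ζ : C → ℤˣ,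
    -β * ham C w (glue C ζ σ) = en (β • w) (touch C) (glue C ζ σ) + c := by
  have hs : touch C ⊆ (clo C ×ˢ (Finset.univ : Finset Bool)).filter (fun e => tip e ∈ clo C) := by
    rintro ⟨y, b⟩ he
    simp only [Finset.mem_filter, Finset.mem_product, Finset.mem_univ, and_true, clo,
      Finset.mem_union, Finset.mem_singleton, Finset.mem_biUnion, Finset.mem_insert]
    rcases mem_touch.1 he with h | h
    · exact ⟨Or.inl h, Or.inr ⟨_, h, by cases b <;> simp [tip]⟩⟩
    · exact ⟨Or.inr ⟨_, h, by cases b <;> simp [tip]⟩, Or.inl h⟩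
  refine ⟨en (β • w) ((clo C ×ˢ (Finset.univ : Finset Bool)).filter
    (fun e => tip e ∈ clo C) \ touch C) σ, fun ζ => ?_⟩
  have h1 : ∀ e ∈ (clo C ×ˢ (Finset.univ : Finset Bool)).filter
      (fun e => tip e ∈ clo C) \ touch C, (β • w) e * bond σ e =
        (β • w) e * bond (glue C ζ σ) e := fun e he => by
    have h2 := not_or.1 fun h => (Finset.mem_sdiff.1 he).2 (mem_touch.2 h)
    simp only [bond, glue, dif_neg h2.1, dif_neg h2.2]
  rw [en, en, Finset.sum_congr rfl h1, add_comm, Finset.sum_sdiff hs, ham, neg_mul_neg,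
    Finset.mul_sum]
  simp only [bond, sp, Pi.smul_apply, smul_eq_mul, mul_assoc]

lemma flipb_boltz (β : ℝ) (C : Finset V) (η : C → ℤˣ) (w : W) (σ : S) :
    boltz β C η (w, σ) = Real.exp (en (β • w) (touch C) (glue C η σ)) /
      ∑ ζ : C → ℤˣ, Real.exp (en (β • w) (touch C) (glue C ζ σ)) := by
  obtain ⟨c, hc⟩ := flipb_ham β C w σ
  simp only [boltz, hc, Real.exp_add, ← Finset.sum_mul]
  exact mul_div_mul_right _ _ (Real.exp_pos c).ne'

lemma flipb_meas (β : ℝ) (C : Finset V) (η : C → ℤˣ) : Measurable (boltz β C η) := by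
  have h1 : ∀ ζ : C → ℤˣ, Measurable fun p : W × S =>
      Real.exp (en (β • p.1) (touch C) (glue C ζ p.2)) := fun ζ => by
    have h2 : Measurable (glue C ζ) := by
      refine measurable_pi_lambda _ fun x => ?_
      unfold glue
      split_ifs
      · exact measurable_const
      · exact measurable_pi_apply x
    exact ((measurable_en2 β _).comp (measurable_fst.prodMk (h2.comp measurable_snd))).exp
  rw [show boltz β C η = _ from funext fun p : W × S => flipb_boltz β C η p.1 p.2]
  exact (h1 η).div (Finset.measurable_sum _ fun ζ _ => h1 ζ)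

lemma flipb_le (β : ℝ) (C : Finset V) (η : C → ℤˣ) (p : W × S) : |boltz β C η p| ≤ 1 := by
  rw [abs_of_nonneg (setup_nonneg β C η p)]
  exact div_le_one_of_le₀ (Finset.single_le_sum (f := fun ζ : C → ℤˣ =>
    Real.exp (-β * ham C p.1 (glue C ζ p.2))) (fun _ _ => (Real.exp_pos _).le) (Finset.mem_univ η))
    (Finset.sum_nonneg fun _ _ => (Real.exp_pos _).le)

theorem isEA_of_kernel {β : ℝ} (κ : Kernel W S) [IsMarkovKernel κ]
    (h : ∀ᵐ w ∂P, Gibbs (β • w) (κ w)) : IsEA β (P ⊗ₘ κ) := by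
  classical
  refine ⟨inferInstance, Measure.fst_compProd P κ, fun C η => ?_⟩
  have hπ : Measurable fun p : W × S => (p.1, fun x : {x // x ∉ C} => p.2 x) :=
    measurable_fst.prodMk (measurable_pi_lambda _ fun y =>
      (measurable_pi_apply y.1).comp measurable_snd)
  have hA : MeasurableSet {p : W × S | ∀ x : C, p.2 x = η x} := by
    rw [Set.ofPred_forall]
    exact MeasurableSet.iInter fun x => setup_mA x.1 (η x)
  have hf : Measurable (Set.indicator {p : W × S | ∀ x : C, p.2 x = η x} fun _ => (1 : ℝ)) :=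
    measurable_const.indicator hA
  have hi : Integrable (boltz β C η) (P ⊗ₘ κ) :=
    integrable_of_bdd (flipb_meas β C η) 1 (flipb_le β C η)
  have hi' := (integrable_const (μ := P ⊗ₘ κ) (1 : ℝ)).indicator hA
  refine (ae_eq_condExp_of_forall_setIntegral_eq hπ.comap_le hi' (fun s _ _ => hi.integrableOn)
    ?_ ?_).symm
  · rintro _ ⟨B, hB, rfl⟩ -
    have hB' := hπ hB
    rw [← integral_indicator hB', ← integral_indicator hB',
      Measure.integral_compProd (hi.indicator hB'), Measure.integral_compProd (hi'.indicator hB')]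
    refine integral_congr_ae (h.mono fun w hw => ?_)
    refine Eq.trans (integral_congr_ae (Eventually.of_forall fun σ => ?_))
      (hw.avg C ((hf.indicator hB').comp measurable_prodMk_left) 1 fun σ => ?_).symm
    · have h1 : ∀ ζ : C → ℤˣ, (fun x : {x // x ∉ C} => glue C ζ σ x) = fun x => σ x.1 :=
        fun ζ => funext fun x => dif_neg x.2
      have h2 : ∀ ζ : C → ℤˣ, (∀ x : C, glue C ζ σ x = η x) ↔ ζ = η := fun ζ => by
        simp only [glue, Finset.coe_mem, dif_pos, funext_iff]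
      simp only [Function.comp]
      rw [flipb_sum C σ fun τ => Real.exp (en (β • w) (touch C) τ),
        flipb_sum C σ fun τ => Set.indicator _ _ (w, τ) * Real.exp (en (β • w) (touch C) τ)]
      simp only [Set.indicator_apply, Set.mem_preimage, Set.mem_ofPred_eq, h1, h2, flipb_boltz]
      split_ifs <;> simp
    · simp only [Function.comp, Set.indicator_apply]
      split_ifs <;> simp
  · have h1 : Measurable fun p : W × ({x // x ∉ C} → ℤˣ) =>
        ((p.1, fun x => if h : x ∈ C then 1 else p.2 ⟨x, h⟩) : W × S) := by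
      refine measurable_fst.prodMk (measurable_pi_lambda _ fun y => ?_)
      split_ifs with h
      · exact measurable_const
      · exact (measurable_pi_apply _).comp measurable_snd
    have h2 := (((flipb_meas β C η).comp h1).comp (comap_measurable
      fun p : W × S => (p.1, fun x : {x // x ∉ C} => p.2 x))).stronglyMeasurable
    refine (h2.aestronglyMeasurable (μ := P ⊗ₘ κ)).congr (Eventually.of_forall fun p => ?_)
    have h3 : ∀ ζ : C → ℤˣ, glue C ζ (fun x => if x ∈ C then 1 else p.2 x) = glue C ζ p.2 :=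
      fun ζ => funext fun x => by
        simp only [glue]
        split_ifs <;> rfl
    simp only [Function.comp, boltz, dite_eq_ite, h3]

theorem isEA_of_flipInv {β : ℝ} {ν : Measure (W × S)} [IsProbabilityMeasure ν]
    (h1 : ν.map Prod.fst = P) (h : ∀ x, FlipInv β x ν) : IsEA β ν := by
  have h2 : ν = P ⊗ₘ ν.condKernel := by
    have h3 : ν.fst = P := h1
    rw [← h3, Measure.disintegrate]
  rw [h2]
  exact isEA_of_kernel _ (gibbs_of_flipInv _ fun x => h2 ▸ h x)

end Pool.Agent.MP_c70b3b_mp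

end

section

open MeasureTheory ProbabilityTheory Filter Topology BoundedContinuousFunction
open scoped symmDiff ENNReal

namespace Pool.Agent.MP_c70b3b_mp

lemma lim_key {μ : ℕ → ProbabilityMeasure (W × S)} {ν : ProbabilityMeasure (W × S)}
    (hν : MapClusterPt ν atTop μ) {Φ : ProbabilityMeasure (W × S) → ℝ} (hΦ : Continuous Φ)
    {c : ℝ} (h : Tendsto (fun n => Φ (μ n)) atTop (𝓝 c)) : Φ ν = c := by
  have h1 : MapClusterPt (Φ ν) atTop (Φ ∘ μ) := hν.continuousAt_comp hΦ.continuousAt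
  have h2 : ClusterPt (Φ ν) (𝓝 c) := ClusterPt.mono h1 h
  exact eq_of_nhds_neBot h2

/-- A bounded continuous function times the weight `uu`. -/
noncomputable def limMul (β : ℝ) (x : V) (g : W × S →ᵇ ℝ) (T : W × S → W × S)
    (hT : Continuous T) : W × S →ᵇ ℝ :=
  BoundedContinuousFunction.ofNormedAddCommGroup (fun p => g (T p) * uu β x p)
    ((g.continuous.comp hT).mul (continuous_uu β x)) ‖g‖ (fun p => by
      rw [norm_mul, Real.norm_of_nonneg (uu_pos β x p).le]
      calc ‖g (T p)‖ * uu β x p ≤ ‖g‖ * 1 :=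
            mul_le_mul (g.norm_coe_le_norm _) (uu_le β x p) (uu_pos β x p).le (norm_nonneg _)
        _ = ‖g‖ := mul_one _)

lemma limMul_apply (β : ℝ) (x : V) (g : W × S →ᵇ ℝ) (T : W × S → W × S)
    (hT : Continuous T) (p : W × S) : limMul β x g T hT p = g (T p) * uu β x p := rfl

lemma lim_flip_cont (x : V) : Continuous fun p : W × S => (p.1, flp {x} p.2) :=
  continuous_fst.prodMk ((continuous_flp _).comp continuous_snd)

theorem compact_closure (μ : ℕ → ProbabilityMeasure (W × S))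
    (h1 : ∀ n, (μ n : Measure (W × S)).map Prod.fst = P) : IsCompact (closure (Set.range μ)) := by
  refine isCompact_closure_of_isTightMeasureSet (IsTightMeasureSet.prodMk ?_ ?_)
  · refine (isTightMeasureSet_singleton (μ := P)).subset ?_
    rintro _ ⟨_, ⟨_, ⟨n, rfl⟩, rfl⟩, rfl⟩
    exact h1 n
  · exact IsTightMeasureSet.of_compactSpace

lemma lim_fst (μ : ℕ → ProbabilityMeasure (W × S))
    (h1 : ∀ n, (μ n : Measure (W × S)).map Prod.fst = P) {ν : ProbabilityMeasure (W × S)}
    (hν : MapClusterPt ν atTop μ) : (ν : Measure (W × S)).map Prod.fst = P := by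
  refine ext_of_forall_integral_eq_of_IsFiniteMeasure fun f => ?_
  rw [integral_map measurable_fst.aemeasurable f.continuous.aestronglyMeasurable]
  let g : W × S →ᵇ ℝ := f.compContinuous ⟨Prod.fst, continuous_fst⟩
  refine lim_key hν (ProbabilityMeasure.continuous_integral_boundedContinuousFunction g)
    (c := ∫ w, f w ∂P) ?_
  refine tendsto_const_nhds.congr fun n => ?_
  rw [← h1 n, integral_map measurable_fst.aemeasurable f.continuous.aestronglyMeasurable]
  rfl

lemma lim_flip {β : ℝ} (μ : ℕ → ProbabilityMeasure (W × S)) (x : V)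
    (h2 : ∀ᶠ n in atTop, FlipInv β x (μ n)) {ν : ProbabilityMeasure (W × S)}
    (hν : MapClusterPt ν atTop μ) : FlipInv β x ν := by
  intro g
  have hc := (ProbabilityMeasure.continuous_integral_boundedContinuousFunction
    (limMul β x g _ (lim_flip_cont x))).sub
    (ProbabilityMeasure.continuous_integral_boundedContinuousFunction
    (limMul β x g _ continuous_id))
  have := lim_key hν hc (c := 0) (tendsto_const_nhds.congr' (by
    filter_upwards [h2] with n hn
    exact (sub_eq_zero.2 (hn g)).symm))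
  exact sub_eq_zero.1 this

theorem isEA_of_cluster {β : ℝ} (μ : ℕ → ProbabilityMeasure (W × S))
    (h1 : ∀ n, (μ n : Measure (W × S)).map Prod.fst = P)
    (h2 : ∀ x, ∀ᶠ n in atTop, FlipInv β x (μ n)) {ν : ProbabilityMeasure (W × S)}
    (hν : MapClusterPt ν atTop μ) : IsEA β ν :=
  isEA_of_flipInv (lim_fst μ h1 hν) fun x => lim_flip μ x (h2 x) hν

theorem inv_of_cluster (μ : ℕ → ProbabilityMeasure (W × S)) (z : V)
    (h : ∀ g : W × S →ᵇ ℝ, Tendsto (fun n => ∫ p, g (shift z p) ∂(μ n : Measure (W × S)) -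
      ∫ p, g p ∂(μ n : Measure (W × S))) atTop (𝓝 0))
    {ν : ProbabilityMeasure (W × S)} (hν : MapClusterPt ν atTop μ) :
    (ν : Measure (W × S)).map (shift z) = ν := by
  refine ext_of_forall_integral_eq_of_IsFiniteMeasure fun g => ?_
  rw [integral_map (measurable_shift z).aemeasurable g.continuous.aestronglyMeasurable]
  have hc := (ProbabilityMeasure.continuous_integral_boundedContinuousFunction
    (g.compContinuous ⟨shift z, continuous_shift z⟩)).sub
    (ProbabilityMeasure.continuous_integral_boundedContinuousFunction g)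
  exact sub_eq_zero.1 (lim_key hν hc (c := 0) (h g))

/-- Partition function. -/
noncomputable def limZ (β : ℝ) (F : Finset E) (w : W) : ℝ≥0∞ :=
  ∫⁻ σ, ENNReal.ofReal (Real.exp (en (β • w) F σ)) ∂unif

lemma lim_meas (β : ℝ) (F : Finset E) :
    Measurable fun p : W × S => ENNReal.ofReal (Real.exp (en (β • p.1) F p.2)) :=
  (measurable_en2 β F).exp.ennreal_ofReal

lemma limZ_meas (β : ℝ) (F : Finset E) : Measurable (limZ β F) :=
  (lim_meas β F).lintegral_prod_right'

lemma limZ_eq (β : ℝ) (F : Finset E) (w : W) : limZ β F w = tilt (β • w) F unif Set.univ := by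
  simp [limZ, tilt]

lemma limZ_ne_top (β : ℝ) (F : Finset E) (w : W) : limZ β F w ≠ ⊤ := by
  rw [limZ_eq]
  have := (gibbs_unif.tilt (β • w) F).1
  exact measure_ne_top _ _

lemma limZ_ne_zero (β : ℝ) (F : Finset E) (w : W) : limZ β F w ≠ 0 := by
  have h : ENNReal.ofReal (Real.exp (-∑ e ∈ F, |(β • w) e|)) ≤ limZ β F w := by
    calc ENNReal.ofReal (Real.exp (-∑ e ∈ F, |(β • w) e|))
        = ∫⁻ _, ENNReal.ofReal (Real.exp (-∑ e ∈ F, |(β • w) e|)) ∂unif := by simp
      _ ≤ limZ β F w := lintegral_mono fun σ => ENNReal.ofReal_le_ofReal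
          (Real.exp_le_exp.2 (neg_le_of_abs_le (abs_en_le (β • w) F σ)))
  exact (lt_of_lt_of_le (ENNReal.ofReal_pos.2 (Real.exp_pos _)) h).ne'

/-- Finite volume Gibbs kernel. -/
noncomputable def limK (β : ℝ) (F : Finset E) : Kernel W S :=
  Kernel.withDensity (Kernel.const W unif)
    fun w σ => (limZ β F w)⁻¹ * ENNReal.ofReal (Real.exp (en (β • w) F σ))

lemma limK_apply (β : ℝ) (F : Finset E) (w : W) :
    limK β F w = (limZ β F w)⁻¹ • tilt (β • w) F unif := by
  have hm : Measurable (Function.uncurry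
      fun (w : W) (σ : S) => (limZ β F w)⁻¹ * ENNReal.ofReal (Real.exp (en (β • w) F σ))) :=
    ((limZ_meas β F).inv.comp measurable_fst).mul (lim_meas β F)
  rw [limK, Kernel.withDensity_apply _ hm, Kernel.const_apply, tilt,
    ← withDensity_smul _ (measurable_en (β • w) F).exp.ennreal_ofReal]
  rfl

instance limK_markov (β : ℝ) (F : Finset E) : IsMarkovKernel (limK β F) := ⟨fun w => ⟨by
  rw [limK_apply, Measure.smul_apply, ← limZ_eq, smul_eq_mul]
  exact ENNReal.inv_mul_cancel (limZ_ne_zero β F w) (limZ_ne_top β F w)⟩⟩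

lemma lim_en_eq (K : W) {F G : Finset E} (h : G ⊆ F) (σ : S) :
    en (0 + cut F K) G σ = en K G σ := by
  unfold en
  refine Finset.sum_congr rfl fun e he => ?_
  simp [cut, h he]

lemma limK_flip (β : ℝ) {F : Finset E} {x : V} (hx : cob {x} ⊆ F) :
    FlipInv β x (P ⊗ₘ limK β F) := by
  refine flipInv_of_kernel _ (Eventually.of_forall fun w => ?_)
  have h := (gibbs_unif.tilt (β • w) F).2 x
  simp only [lim_en_eq _ hx] at h
  rw [limK_apply, Measure.map_smul, h, withDensity_smul_measure]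

lemma lim_box (x : V) : ∀ᶠ n : ℕ in atTop, x ∈ box n := by
  filter_upwards [eventually_gt_atTop (x.1.natAbs + x.2.natAbs)] with n hn
  simp only [box, Finset.mem_product, Finset.mem_Ico]
  omega

theorem exists_isEA (β : ℝ) : ∃ ν, IsEA β ν := by
  let μ : ℕ → ProbabilityMeasure (W × S) := fun n =>
    ⟨P ⊗ₘ limK β (touch (box n)), inferInstance⟩
  have h1 : ∀ n, (μ n : Measure (W × S)).map Prod.fst = P := fun n =>
    Measure.fst_compProd P (limK β (touch (box n)))
  have h2 : ∀ x, ∀ᶠ n in atTop, FlipInv β x (μ n) := fun x => by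
    filter_upwards [lim_box x] with n hn
    exact limK_flip β (cob_subset_touch (Finset.singleton_subset_iff.2 hn))
  obtain ⟨ν, -, hν⟩ := (compact_closure μ h1).exists_mapClusterPt (f := atTop) (u := μ)
    (tendsto_principal.2 (Eventually.of_forall fun n => subset_closure ⟨n, rfl⟩))
  exact ⟨ν, isEA_of_cluster μ h1 h2 hν⟩

end Pool.Agent.MP_c70b3b_mp

end

section

open MeasureTheory ProbabilityTheory Filter Topology BoundedContinuousFunction
open scoped symmDiff ENNReal

namespace Pool.Agent.MP_c70b3b_mp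

lemma avg_card_box (N : ℕ) : (box N).card = 4 * N ^ 2 := by
  have h : ((N : ℤ) - -(N : ℤ)).toNat = 2 * N := by omega
  rw [box, Finset.card_product, Int.card_Ico, h]
  ring

lemma avg_card_ne (n : ℕ) : (box (n + 1)).card ≠ 0 := by
  rw [avg_card_box]
  positivity

lemma avg_cancel (n : ℕ) (μ : Measure W) :
    ((box (n + 1)).card : ℝ≥0∞)⁻¹ • ∑ _z ∈ box (n + 1), μ = μ := by
  rw [Finset.sum_const, ← Nat.cast_smul_eq_nsmul ℝ≥0∞, smul_smul,
    ENNReal.inv_mul_cancel (by exact_mod_cast avg_card_ne n) (ENNReal.natCast_ne_top _), one_smul]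

theorem avg_prob (n : ℕ) (ν : Measure (W × S)) [IsProbabilityMeasure ν] :
    IsProbabilityMeasure (avg n ν) := by
  refine ⟨?_⟩
  have h : ∀ z : V, ν.map (shift z) Set.univ = 1 := fun z => by
    rw [Measure.map_apply (measurable_shift z) MeasurableSet.univ, Set.preimage_univ, measure_univ]
  rw [avg, Measure.smul_apply, Measure.finsetSum_apply]
  simp only [h, Finset.sum_const, nsmul_eq_mul, mul_one, smul_eq_mul]
  exact ENNReal.inv_mul_cancel (by exact_mod_cast avg_card_ne n) (ENNReal.natCast_ne_top _)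

theorem integral_avg (n : ℕ) (ν : Measure (W × S)) [IsProbabilityMeasure ν] (g : W × S →ᵇ ℝ) :
    ∫ p, g p ∂avg n ν =
      (∑ z ∈ box (n + 1), ∫ p, g (shift z p) ∂ν) / (box (n + 1)).card := by
  rw [avg, integral_smul_measure, integral_finsetSum_measure fun z _ => g.integrable _]
  simp only [integral_map (measurable_shift _).aemeasurable g.continuous.aestronglyMeasurable]
  rw [ENNReal.toReal_inv, ENNReal.toReal_natCast, smul_eq_mul, div_eq_inv_mul]

theorem avg_fst (n : ℕ) {ν : Measure (W × S)} (h : ν.map Prod.fst = P) :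
    (avg n ν).map Prod.fst = P := by
  have h1 : ∀ z : V, (ν.map (shift z)).map Prod.fst = P := fun z => by
    rw [Measure.map_map measurable_fst (measurable_shift z)]
    have : Prod.fst ∘ shift z = shW z ∘ Prod.fst := rfl
    rw [this, ← Measure.map_map (measurable_shW z) measurable_fst, h, (mp_shW z).map_eq]
  rw [avg, Measure.map_smul, ← Measure.mapₗ_apply_of_measurable measurable_fst, map_sum]
  simp only [Measure.mapₗ_apply_of_measurable measurable_fst, h1]
  exact avg_cancel n P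

lemma avg_en_shift (β : ℝ) (x z : V) (p : W × S) :
    en (β • (shift z p).1) (cob {x}) (shift z p).2 = en (β • p.1) (cob {x + z}) p.2 := by
  refine Finset.sum_bij' (fun e _ => shE z e) (fun e _ => shE (-z) e) ?_ ?_ ?_ ?_ ?_
  · intro e he
    rw [mem_cob] at he ⊢
    rw [tip_shE]
    simpa [shE] using he
  · intro e he
    rw [mem_cob] at he ⊢
    rw [tip_shE]
    simpa [shE, add_neg_eq_iff_eq_add] using he
  · intro e _
    simp [shE]
  · intro e _
    simp [shE]
  · intro e _
    rw [← bond_shS]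
    rfl

lemma avg_uu_shift (β : ℝ) (x z : V) (p : W × S) : uu β x (shift z p) = uu β (x + z) p := by
  simp only [uu, avg_en_shift]

lemma avg_flp_shift (x z : V) (p : W × S) :
    ((shift z p).1, flp {x} (shift z p).2) = shift z (p.1, flp {x + z} p.2) := by
  refine Prod.ext rfl (funext fun y => ?_)
  simp [flp, shift]

/-- The weight `uu` as a bounded continuous function. -/
noncomputable def avgU (β : ℝ) (x : V) : W × S →ᵇ ℝ :=
  BoundedContinuousFunction.ofNormedAddCommGroup (uu β x) (continuous_uu β x) 1 fun p => by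
    rw [Real.norm_eq_abs, abs_of_pos (uu_pos β x p)]
    exact uu_le β x p

theorem avg_flipInv {β : ℝ} (n : ℕ) {ν : Measure (W × S)} [IsProbabilityMeasure ν]
    (h : ∀ x, FlipInv β x ν) (x : V) : FlipInv β x (avg n ν) := by
  intro g
  have h1 := integral_avg n ν (g.compContinuous ⟨fun p => (p.1, flp {x} p.2),
    continuous_fst.prodMk ((continuous_flp _).comp continuous_snd)⟩ * avgU β x)
  have h2 := integral_avg n ν (g * avgU β x)
  refine h1.trans (Eq.trans ?_ h2.symm)
  congr 1
  refine Finset.sum_congr rfl fun z _ => ?_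
  have h3 := h (x + z) (g.compContinuous ⟨shift z, continuous_shift z⟩)
  simp only [← avg_uu_shift] at h3
  refine Eq.trans ?_ h3
  congr 1
  funext p
  exact congrArg (fun q => g q * uu β x (shift z p)) (avg_flp_shift x z p)

lemma avg_sum_diff {a : V → ℝ} {C : ℝ} (ha : ∀ y, |a y| ≤ C) (z : V) (N : ℕ) :
    |∑ y ∈ box N, a (z + y) - ∑ y ∈ box N, a y| ≤
      16 * C * N * (z.1.natAbs + z.2.natAbs : ℕ) := by
  set c : ℕ := z.1.natAbs + z.2.natAbs with hc
  have hC : 0 ≤ C := (abs_nonneg _).trans (ha 0)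
  have hinj : Function.Injective fun y : V => z + y := add_right_injective z
  have h1 : box (N - c) ⊆ box N := by
    intro y
    simp only [box, Finset.mem_product, Finset.mem_Ico]
    omega
  have h2 : box (N - c) ⊆ (box N).image fun y => z + y := by
    intro y hy
    refine Finset.mem_image.2 ⟨y - z, ?_, by abel⟩
    simp only [box, Finset.mem_product, Finset.mem_Ico, Prod.fst_sub, Prod.snd_sub] at hy ⊢
    omega
  have hb : ∀ B : Finset V, box (N - c) ⊆ B → B.card = 4 * N ^ 2 →
      |∑ y ∈ B \ box (N - c), a y| ≤ 8 * C * N * c := by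
    intro B hB hcard
    have h3 : (B \ box (N - c)).card ≤ 8 * N * c := by
      rw [Finset.card_sdiff_of_subset hB, hcard, avg_card_box]
      rcases le_total c N with h | h
      · obtain ⟨d, rfl⟩ := Nat.exists_eq_add_of_le h
        rw [Nat.add_sub_cancel_left, Nat.sub_le_iff_le_add]
        nlinarith
      · refine (Nat.sub_le _ _).trans ?_
        nlinarith
    have h4 : ((B \ box (N - c)).card : ℝ) ≤ 8 * N * c := by exact_mod_cast h3
    calc |∑ y ∈ B \ box (N - c), a y| ≤ ∑ y ∈ B \ box (N - c), |a y| :=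
          Finset.abs_sum_le_sum_abs _ _
      _ ≤ (B \ box (N - c)).card • C := Finset.sum_le_card_nsmul _ _ _ fun y _ => ha y
      _ ≤ 8 * C * N * c := by
          rw [nsmul_eq_mul]
          nlinarith
  rw [← Finset.sum_image (f := a) (g := fun y => z + y) (s := box N) hinj.injOn,
    ← Finset.sum_sdiff h1, ← Finset.sum_sdiff h2, add_sub_add_right_eq_sub]
  have h5 := hb _ h1 (avg_card_box N)
  have h6 := hb _ h2 (by rw [Finset.card_image_of_injective _ hinj, avg_card_box])
  refine (abs_sub _ _).trans ?_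
  linarith

theorem avg_shift (ν : Measure (W × S)) [IsProbabilityMeasure ν] (z : V) (g : W × S →ᵇ ℝ) :
    Tendsto (fun n => ∫ p, g (shift z p) ∂avg n ν - ∫ p, g p ∂avg n ν) atTop (𝓝 0) := by
  let a : V → ℝ := fun y => ∫ p, g (shift y p) ∂ν
  have ha : ∀ y, |a y| ≤ ‖g‖ := fun y => by
    have := norm_integral_le_of_norm_le_const (μ := ν) (f := fun p => g (shift y p)) (C := ‖g‖)
      (Eventually.of_forall fun p => g.norm_coe_le_norm _)
    simpa using this
  have hs : ∀ y p, shift z (shift y p) = shift (z + y) p := fun y p => by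
    simp only [shift, add_assoc]
  have he : ∀ n, ∫ p, g (shift z p) ∂avg n ν - ∫ p, g p ∂avg n ν =
      (∑ y ∈ box (n + 1), a (z + y) - ∑ y ∈ box (n + 1), a y) / (box (n + 1)).card := by
    intro n
    have h1 := integral_avg n ν (g.compContinuous ⟨shift z, continuous_shift z⟩)
    simp only [compContinuous_apply, ContinuousMap.coe_mk, hs] at h1
    rw [h1, integral_avg, sub_div]
  set c : ℕ := z.1.natAbs + z.2.natAbs with hc
  have hlim : Tendsto (fun n : ℕ => 4 * ‖g‖ * c * (1 / ((n : ℝ) + 1))) atTop (𝓝 0) := by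
    simpa using tendsto_one_div_add_atTop_nhds_zero_nat.const_mul (4 * ‖g‖ * (c : ℝ))
  refine squeeze_zero_norm (fun n => ?_) hlim
  rw [he, norm_div, Real.norm_eq_abs, Real.norm_natCast, avg_card_box,
    div_le_iff₀ (by positivity)]
  refine (avg_sum_diff ha z (n + 1)).trans (le_of_eq ?_)
  push_cast
  rw [hc]
  push_cast
  field_simp
  ring

end Pool.Agent.MP_c70b3b_mp

end

section

open MeasureTheory ProbabilityTheory Filter Topology BoundedContinuousFunction
open scoped symmDiff ENNReal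

namespace Pool.Agent.MP_c70b3b_mp

lemma final_diff {a : ℕ → V → ℝ} {C : ℝ} (ha : ∀ n y, |a n y| ≤ C) (z : V) :
    Tendsto (fun n => (∑ y ∈ box (n + 1), a n (z + y) - ∑ y ∈ box (n + 1), a n y) /
      (box (n + 1)).card) atTop (𝓝 0) := by
  set c : ℕ := z.1.natAbs + z.2.natAbs with hc
  have hlim : Tendsto (fun n : ℕ => 4 * C * c * (1 / ((n : ℝ) + 1))) atTop (𝓝 0) := by
    simpa using tendsto_one_div_add_atTop_nhds_zero_nat.const_mul (4 * C * (c : ℝ))
  refine squeeze_zero_norm (fun n => ?_) hlim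
  rw [norm_div, Real.norm_eq_abs, Real.norm_natCast, avg_card_box, div_le_iff₀ (by positivity)]
  refine (avg_sum_diff (ha n) z (n + 1)).trans (le_of_eq ?_)
  push_cast
  rw [hc]
  push_cast
  field_simp
  ring

lemma final_abs (ν : Measure (W × S)) [IsProbabilityMeasure ν] (g : W × S →ᵇ ℝ)
    (T : W × S → W × S) : |∫ p, g (T p) ∂ν| ≤ ‖g‖ := by
  have := norm_integral_le_of_norm_le_const (μ := ν) (f := fun p => g (T p)) (C := ‖g‖)
    (Eventually.of_forall fun p => g.norm_coe_le_norm _)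
  simpa using this

lemma final_shift (ν : ℕ → Measure (W × S)) [∀ n, IsProbabilityMeasure (ν n)] (z : V)
    (g : W × S →ᵇ ℝ) :
    Tendsto (fun n => ∫ p, g (shift z p) ∂avg n (ν n) - ∫ p, g p ∂avg n (ν n)) atTop (𝓝 0) := by
  have hs : ∀ y p, shift z (shift y p) = shift (z + y) p := fun y p => by
    simp only [shift, add_assoc]
  refine (final_diff (a := fun n y => ∫ p, g (shift y p) ∂ν n)
    (fun n y => final_abs (ν n) g _) z).congr fun n => ?_
  have h1 := integral_avg n (ν n) (g.compContinuous ⟨shift z, continuous_shift z⟩)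
  simp only [compContinuous_apply, ContinuousMap.coe_mk, hs] at h1
  rw [h1, integral_avg, sub_div]

lemma final_flip {β : ℝ} (ν : ℕ → Measure (W × S)) [∀ n, IsProbabilityMeasure (ν n)]
    (h : ∀ n, ∀ y ∈ box (n + 1), FlipInv β y (ν n)) (x : V) (g : W × S →ᵇ ℝ) :
    Tendsto (fun n => ∫ p, limMul β x g _ (lim_flip_cont x) p ∂avg n (ν n) -
      ∫ p, limMul β x g _ continuous_id p ∂avg n (ν n)) atTop (𝓝 0) := by
  let a : ℕ → V → ℝ := fun n y =>
    ∫ p, limMul β x g _ (lim_flip_cont x) (shift (y - x) p) ∂ν n -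
      ∫ p, limMul β x g _ continuous_id (shift (y - x) p) ∂ν n
  have ha : ∀ n y, |a n y| ≤ ‖limMul β x g _ (lim_flip_cont x)‖ +
      ‖limMul β x g _ continuous_id‖ := fun n y =>
    (abs_sub _ _).trans (add_le_add (final_abs _ _ _) (final_abs _ _ _))
  have h0 : ∀ n, ∀ y ∈ box (n + 1), a n y = 0 := by
    intro n y hy
    have h3 := h n y hy (g.compContinuous ⟨shift (y - x), continuous_shift _⟩)
    have e : y = x + (y - x) := by abel
    simp only [a, limMul_apply, avg_uu_shift, avg_flp_shift, ← e, sub_eq_zero]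
    exact h3
  refine (final_diff ha x).congr fun n => ?_
  rw [Finset.sum_eq_zero (h0 n), sub_zero, integral_avg, integral_avg, ← sub_div,
    ← Finset.sum_sub_distrib]
  simp only [a, add_sub_cancel_left]

theorem final {β : ℝ} (hβ : 0 ≤ β) : ∃ ν, IsEAOn β Set.univ ν ∧ (∀ z, ν.map (shift z) = ν) ∧
    (∀ ν', IsEAOn β Set.univ ν' → IsPeriodic ν' → ν' = ν) ∧
    ∀ μ : ℕ → Measure (W × S), (∀ n, IsEAOn β (box n) (μ n)) → ∀ g : W × S →ᵇ ℝ,
      Tendsto (fun n : ℕ => (∑ z ∈ box n, ∫ p, g (shift z p) ∂μ n) / (box n).card)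
        atTop (𝓝 (∫ p, g p ∂ν)) := by
  have key : ∀ ν' : ℕ → Measure (W × S), (∀ n, IsEAOn β (box (n + 1)) (ν' n)) →
      ∃ μ : ℕ → ProbabilityMeasure (W × S),
      (∀ n, (μ n : Measure (W × S)) = avg n (ν' n)) ∧ IsCompact (closure (Set.range μ)) ∧
      ∀ ν : ProbabilityMeasure (W × S), MapClusterPt ν atTop μ →
        IsEA β ν ∧ ∀ z, (ν : Measure (W × S)).map (shift z) = ν := by
    intro ν' h
    have := fun n => (h n).1
    let μ : ℕ → ProbabilityMeasure (W × S) := fun n => ⟨avg n (ν' n), avg_prob n (ν' n)⟩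
    have h1 : ∀ n, (μ n : Measure (W × S)).map Prod.fst = P := fun n => avg_fst n (h n).2.1
    refine ⟨μ, fun _ => rfl, compact_closure μ h1, fun ν hν =>
      ⟨isEA_of_flipInv (lim_fst μ h1 hν) fun x g => ?_,
       fun z => inv_of_cluster μ z (final_shift ν' z) hν⟩⟩
    have hc := (ProbabilityMeasure.continuous_integral_boundedContinuousFunction
      (limMul β x g _ (lim_flip_cont x))).sub
      (ProbabilityMeasure.continuous_integral_boundedContinuousFunction
      (limMul β x g _ continuous_id))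
    exact sub_eq_zero.1 (lim_key hν hc (c := 0)
      (final_flip ν' (fun n y hy => flipa_of_map (setup_flip' (h n) y hy)) x g))
  obtain ⟨ν0, h0⟩ := exists_isEA β
  obtain ⟨μ0, -, hc0, hk0⟩ := key (fun _ => ν0) fun _ => ⟨h0.1, h0.2.1, fun C η _ => h0.2.2 C η⟩
  obtain ⟨ν, -, hν⟩ := hc0.exists_mapClusterPt (f := atTop) (u := μ0)
    (le_principal_iff.2 (mem_map.2 (Eventually.of_forall fun n => subset_closure ⟨n, rfl⟩)))
  obtain ⟨hEA, hinv⟩ := hk0 ν hν
  have hu : ∀ ν', IsEA β ν' → IsPeriodic ν' → ν' = ν := fun ν' h p =>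
    periodic_unique hβ h hEA p ⟨1, one_pos, fun z => hinv _⟩
  refine ⟨ν, isEA_iff.1 hEA, hinv, fun ν' h => hu ν' (isEA_iff.2 h), fun ν' h g => ?_⟩
  have := fun n => (h n).1
  obtain ⟨μ, hμ, hc, hk⟩ := key (fun n => ν' (n + 1)) fun n => h (n + 1)
  have ht : Tendsto μ atTop (𝓝 ν) :=
    hc.tendsto_nhds_of_unique_mapClusterPt
      (Eventually.of_forall fun n => subset_closure ⟨n, rfl⟩) fun ν1 _ h1 =>
        Subtype.ext (hu _ (hk ν1 h1).1 ⟨1, one_pos, fun z => (hk ν1 h1).2 _⟩)
  have := ProbabilityMeasure.tendsto_iff_forall_integral_tendsto.1 ht g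
  rw [← tendsto_add_atTop_iff_nat 1]
  simpa only [hμ, integral_avg] using this

end Pool.Agent.MP_c70b3b_mp

end
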